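import Pool.Agent.Helper903_VG.Rules

/-!
Affine fibrations and coordinates on fibres of prime size.
-/

set_option autoImplicit false

namespace Pool.Agent.Helper903_VG

/-- An affine fibration for `r`: a surjective `G`-map `p : U → B` and an equivariant family of subgroups
`N b ≤ G_b` which act on the fibres transitively as commutative groups of exponent `r`. -/
structure AffFib (G : Type) [Group G] (U B : Type) [MulAction G U] [MulAction G B] (r : ℕ) where
  p : U → B
  N : B → Subgroup G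
  map : ∀ (g : G) u, p (g • u) = g • p u
  surj : Function.Surjective p
  conj : ∀ (g : G) b a, a ∈ N b → g * a * g⁻¹ ∈ N (g • b)
  fix : ∀ b, ∀ a ∈ N b, a • b = b
  trans : ∀ u u', p u = p u' → ∃ a ∈ N (p u), a • u = u'
  comm : ∀ u, ∀ a ∈ N (p u), ∀ a' ∈ N (p u), a • a' • u = a' • a • u
  exp : ∀ u, ∀ a ∈ N (p u), a ^ r • u = u

variable {G : Type} [Group G]

namespace AffFib

variable {U B : Type} [MulAction G U] [MulAction G B] {r : ℕ} (F : AffFib G U B r)

theorem p_smul {b : B} {a : G} (ha : a ∈ F.N b) {u : U} (hu : F.p u = b) : F.p (a • u) = b := by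
  rw [F.map, hu, F.fix b a ha]

theorem comm' {b : B} {a a' : G} (ha : a ∈ F.N b) (ha' : a' ∈ F.N b) {u : U} (hu : F.p u = b) :
    a • a' • u = a' • a • u := by
  subst hu; exact F.comm u a ha a' ha'

/-- An element which fixes a point of a fibre fixes all of them. -/
theorem triv_of_fix {b : B} {a : G} (ha : a ∈ F.N b) {u u' : U} (hu : F.p u = b)
    (hu' : F.p u' = b) (h : a • u = u) : a • u' = u' := by
  subst hu
  obtain ⟨c, hc, rfl⟩ := F.trans u u' hu'.symm
  rw [F.comm u a ha c hc, h]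

/-- Two elements that agree at one point of a fibre agree on the fibre. -/
theorem agree {b : B} {a a' : G} (ha : a ∈ F.N b) (ha' : a' ∈ F.N b) {u u' : U} (hu : F.p u = b)
    (hu' : F.p u' = b) (h : a • u = a' • u) : a • u' = a' • u' := by
  have h1 : (a'⁻¹ * a) • u = u := by rw [mul_smul, h, inv_smul_smul]
  have h2 := F.triv_of_fix ((F.N b).mul_mem ((F.N b).inv_mem ha') ha) hu hu' h1
  rw [mul_smul, inv_smul_eq_iff] at h2
  exact h2

theorem pow_agree {b : B} {a a' : G} (ha : a ∈ F.N b) (ha' : a' ∈ F.N b)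
    (h : ∀ u, F.p u = b → a • u = a' • u) (n : ℕ) {u : U} (hu : F.p u = b) :
    a ^ n • u = a' ^ n • u := by
  induction n with
  | zero => simp
  | succ n ih =>
    rw [pow_succ', pow_succ', mul_smul, mul_smul, ih]
    exact h _ (F.p_smul ((F.N b).pow_mem ha' n) hu)

theorem conj_mem {g : G} {b : B} (hg : g • b = b) {a : G} (ha : a ∈ F.N b) :
    g * a * g⁻¹ ∈ F.N b := by
  have := F.conj g b a ha
  rwa [hg] at this

end AffFib

/-- Coordinates on a fibre of prime size. -/
structure Coord {U B : Type} [MulAction G U] [MulAction G B] {r : ℕ} (F : AffFib G U B r) (b : B) where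
  a : G
  ha : a ∈ F.N b
  θ : ZMod r → U
  inj : Function.Injective θ
  range : ∀ u, F.p u = b ↔ ∃ y, θ y = u
  smul : ∀ (k : ℕ) y, a ^ k • θ y = θ (y + k)

theorem exists_coord {U B : Type} [Finite U] [MulAction G U] [MulAction G B] {r : ℕ}
    (F : AffFib G U B r) (hr : r.Prime) (b : B) (hb : Nat.card {u : U // F.p u = b} = r) :
    Nonempty (Coord F b) := by
  classical
  have : Fact r.Prime := ⟨hr⟩
  have : NeZero r := ⟨hr.ne_zero⟩
  obtain ⟨u0, hu0⟩ := F.surj b
  obtain ⟨u1, hu1, hne⟩ : ∃ u1, F.p u1 = b ∧ u1 ≠ u0 := by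
    by_contra hcon
    push Not at hcon
    have : Subsingleton {u : U // F.p u = b} :=
      ⟨fun x y => Subtype.ext ((hcon x x.2).trans (hcon y y.2).symm)⟩
    have h1 : Nat.card {u : U // F.p u = b} ≤ 1 := Finite.card_le_one_iff_subsingleton.2 this
    have := hr.two_le
    omega
  obtain ⟨a, ha, hau⟩ := F.trans u0 u1 (hu0.trans hu1.symm)
  rw [hu0] at ha
  have hexp : a ^ r • u0 = u0 := F.exp u0 a (by rw [hu0]; exact ha)
  have hper : MulAction.period a u0 = r := by
    have h1 : MulAction.period a u0 ∣ r := (MulAction.pow_smul_eq_iff_period_dvd).1 hexp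
    rcases (Nat.dvd_prime hr).1 h1 with h | h
    · exfalso
      have : a ^ 1 • u0 = u0 := (MulAction.pow_smul_eq_iff_period_dvd).2 (by rw [h])
      rw [pow_one, hau] at this
      exact hne this
    · exact h
  have hmod : ∀ m n : ℕ, (m : ZMod r) = n → a ^ m • u0 = a ^ n • u0 := by
    intro m n hmn
    have h1 : m ≡ n [MOD r] := (ZMod.natCast_eq_natCast_iff _ _ _).1 hmn
    have h2 : ∀ k : ℕ, a ^ k • u0 = a ^ (k % r) • u0 := by
      intro k
      conv_lhs => rw [← Nat.mod_add_div k r, pow_add, mul_smul, pow_mul]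
      congr 1
      have : ∀ j : ℕ, (a ^ r) ^ j • u0 = u0 := by
        intro j
        induction j with
        | zero => simp
        | succ j ih => rw [pow_succ, mul_smul, hexp, ih]
      exact this _
    rw [h2 m, h2 n, h1]
  have hinj : Function.Injective (fun y : ZMod r => a ^ y.val • u0) := by
    intro y y' hy
    have hy' : a ^ y.val • u0 = a ^ y'.val • u0 := hy
    have h1 : a ^ ((r - y'.val) + y.val) • u0 = u0 := by
      rw [pow_add, mul_smul, hy', ← mul_smul, ← pow_add,
        Nat.sub_add_cancel (ZMod.val_lt y').le, hexp]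
    have h2 : r ∣ (r - y'.val) + y.val := by
      have := (MulAction.pow_smul_eq_iff_period_dvd).1 h1
      rwa [hper] at this
    have h3 : (((r - y'.val) + y.val : ℕ) : ZMod r) = 0 := (ZMod.natCast_eq_zero_iff _ _).2 h2
    rw [Nat.cast_add, Nat.cast_sub (ZMod.val_lt y').le, ZMod.natCast_zmod_val,
      ZMod.natCast_zmod_val, ZMod.natCast_self] at h3
    linear_combination h3
  have hmem : ∀ y : ZMod r, F.p (a ^ y.val • u0) = b :=
    fun y => F.p_smul ((F.N b).pow_mem ha _) hu0
  have hbij : Function.Bijective (fun y : ZMod r => (⟨a ^ y.val • u0, hmem y⟩ : {u : U // F.p u = b})) := by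
    rw [Nat.bijective_iff_injective_and_card]
    refine ⟨fun y y' hy => hinj (congrArg Subtype.val hy), ?_⟩
    rw [hb, Nat.card_zmod]
  refine ⟨⟨a, ha, fun y => a ^ y.val • u0, hinj, ?_, ?_⟩⟩
  · intro u
    constructor
    · intro hu
      obtain ⟨y, hy⟩ := hbij.2 ⟨u, hu⟩
      exact ⟨y, congrArg Subtype.val hy⟩
    · rintro ⟨y, rfl⟩
      exact hmem y
  · intro k y
    show a ^ k • a ^ y.val • u0 = a ^ (y + (k : ZMod r)).val • u0
    rw [← mul_smul, ← pow_add]
    apply hmod
    rw [Nat.cast_add, ZMod.natCast_zmod_val, ZMod.natCast_zmod_val]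
    ring

namespace Coord

variable {U B : Type} [MulAction G U] [MulAction G B] {r : ℕ} {F : AffFib G U B r} {b : B}

theorem p_θ (c : Coord F b) (y : ZMod r) : F.p (c.θ y) = b := (c.range _).2 ⟨y, rfl⟩

/-- Every element of `N b` acts on the fibre as a power of `c.a`. -/
theorem exists_pow [NeZero r] (c : Coord F b) {a' : G} (ha' : a' ∈ F.N b) :
    ∃ k : ℕ, ∀ u, F.p u = b → a' • u = c.a ^ k • u := by
  obtain ⟨y, hy⟩ := (c.range (a' • c.θ 0)).1 (F.p_smul ha' (c.p_θ 0))
  refine ⟨y.val, fun u hu => ?_⟩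
  refine F.agree ha' ((F.N b).pow_mem c.ha _) (c.p_θ 0) hu ?_
  rw [c.smul, ← hy]
  simp

theorem exists_pow' [NeZero r] (c : Coord F b) {a' : G} (ha' : a' ∈ F.N b) :
    ∃ k : ℕ, ∀ (n : ℕ) y, a' ^ n • c.θ y = c.θ (y + k * n) := by
  obtain ⟨k, hk⟩ := c.exists_pow ha'
  refine ⟨k, fun n y => ?_⟩
  rw [F.pow_agree ha' ((F.N b).pow_mem c.ha k) hk n (c.p_θ y), ← pow_mul, c.smul]
  push_cast
  rfl

end Coord

end Pool.Agent.Helper903_VG
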