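import Mathlib
/-!
JOB VG-T5 (owner helper903, MP_961fdb_co). Encoding binary relations by a graph
(after the case `n = 5` in `Pool/Agent/Helper835/GraphEnc.lean`).
-/

set_option autoImplicit false

namespace Pool.Agent.Helper903_VG

section enc
variable {V : Type} {m : ℕ}

/-- adjacency of the encoding graph: `m + 1` copies of `V`, and `m + 1` extra vertices -/
def T5adj (Q : Fin (m + 1) → Fin (m + 1) → V → V → Prop) :
    (V × Fin (m + 1)) ⊕ Fin (m + 1) → (V × Fin (m + 1)) ⊕ Fin (m + 1) → Prop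
  | Sum.inl (v, a), Sum.inl (w, b) =>
      (a < b ∧ ((a = 0 ∧ v = w) ∨ (a ≠ 0 ∧ Q a b v w))) ∨
      (b < a ∧ ((b = 0 ∧ w = v) ∨ (b ≠ 0 ∧ Q b a w v)))
  | Sum.inl (_, b), Sum.inr a => b ≤ a
  | Sum.inr a, Sum.inl (_, b) => b ≤ a
  | Sum.inr _, Sum.inr _ => False

/-- the encoding graph -/
def T5enc (Q : Fin (m + 1) → Fin (m + 1) → V → V → Prop) :
    SimpleGraph ((V × Fin (m + 1)) ⊕ Fin (m + 1)) where
  Adj := T5adj Q
  symm := ⟨by
    rintro (⟨v, a⟩ | a) (⟨w, b⟩ | b) h
    · exact Or.symm h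
    · exact h
    · exact h
    · exact h⟩
  loopless := ⟨by
    rintro (⟨v, a⟩ | a) h
    · rcases h with ⟨h, _⟩ | ⟨h, _⟩ <;> exact lt_irrefl _ h
    · exact h⟩

theorem T5_ll (Q : Fin (m + 1) → Fin (m + 1) → V → V → Prop) (v w : V) (a b : Fin (m + 1)) :
    (T5enc Q).Adj (Sum.inl (v, a)) (Sum.inl (w, b)) ↔
      ((a < b ∧ ((a = 0 ∧ v = w) ∨ (a ≠ 0 ∧ Q a b v w))) ∨
      (b < a ∧ ((b = 0 ∧ w = v) ∨ (b ≠ 0 ∧ Q b a w v)))) := Iff.rfl

theorem T5_lr (Q : Fin (m + 1) → Fin (m + 1) → V → V → Prop) (v : V) (a b : Fin (m + 1)) :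
    (T5enc Q).Adj (Sum.inl (v, b)) (Sum.inr a) ↔ b ≤ a := Iff.rfl

theorem T5_rr (Q : Fin (m + 1) → Fin (m + 1) → V → V → Prop) (a b : Fin (m + 1)) :
    ¬ (T5enc Q).Adj (Sum.inr a) (Sum.inr b) := fun h => h

theorem T5_card_inr (Q : Fin (m + 1) → Fin (m + 1) → V → V → Prop) (a : Fin (m + 1)) :
    Nat.card ((T5enc Q).neighborSet (Sum.inr a)) = (a + 1) * Nat.card V := by
  classical
  have e : (T5enc Q).neighborSet (Sum.inr a) ≃ (V × {b : Fin (m + 1) // b ≤ a}) :=
    { toFun := fun x => match x with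
        | ⟨Sum.inl (v, b), h⟩ => (v, ⟨b, h⟩)
        | ⟨Sum.inr b, h⟩ => False.elim h
      invFun := fun y => ⟨Sum.inl (y.1, y.2.1), y.2.2⟩
      left_inv := by
        rintro ⟨⟨v, b⟩ | b, h⟩
        · rfl
        · exact False.elim h
      right_inv := by
        rintro ⟨v, b, h⟩
        rfl }
  rw [Nat.card_congr e, Nat.card_prod, mul_comm]
  congr 1
  rw [Nat.card_eq_fintype_card, Fintype.card_subtype]
  have h1 : (Finset.univ.filter fun b : Fin (m + 1) => b ≤ a) = Finset.Iic a := by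
    ext b; simp
  rw [h1, Fin.card_Iic]

theorem T5_card_inl [Finite V] (Q : Fin (m + 1) → Fin (m + 1) → V → V → Prop) (v : V)
    (b : Fin (m + 1)) :
    Nat.card ((T5enc Q).neighborSet (Sum.inl (v, b))) ≤ m * Nat.card V + (m + 1) := by
  classical
  have hinj : Function.Injective
      (fun x : (T5enc Q).neighborSet (Sum.inl (v, b)) =>
        (match x with
        | ⟨Sum.inl (w, c), h⟩ => Sum.inl (w, ⟨c, by
            intro hc
            have := (T5_ll Q v w b c).1 h
            rw [hc] at this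
            rcases this with ⟨h, _⟩ | ⟨h, _⟩ <;> exact lt_irrefl _ h⟩)
        | ⟨Sum.inr a, _⟩ => Sum.inr a : (V × {c : Fin (m + 1) // c ≠ b}) ⊕ Fin (m + 1))) := by
    rintro ⟨⟨w, c⟩ | a, h⟩ ⟨⟨w', c'⟩ | a', h'⟩ e
    · simp only [Sum.inl.injEq, Prod.mk.injEq, Subtype.mk.injEq] at e
      obtain ⟨rfl, rfl⟩ := e
      rfl
    · simp at e
    · simp at e
    · simp only [Sum.inr.injEq] at e
      subst e
      rfl
  refine (Nat.card_le_card_of_injective _ hinj).trans (le_of_eq ?_)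
  rw [Nat.card_sum, Nat.card_prod, Nat.card_fin, mul_comm]
  congr 2
  rw [Nat.card_eq_fintype_card, Fintype.card_subtype, Finset.filter_ne',
    Finset.card_erase_of_mem (Finset.mem_univ _), Finset.card_univ, Fintype.card_fin]
  rfl

/-- every automorphism of the encoding graph comes from a permutation of `V` preserving `Q` -/
theorem T5_aut [Finite V] (Q : Fin (m + 1) → Fin (m + 1) → V → V → Prop)
    (hV : m + 1 < Nat.card V) (f : T5enc Q ≃g T5enc Q) :
    ∃ σ : Equiv.Perm V, (∀ v b, f (Sum.inl (v, b)) = Sum.inl (σ v, b)) ∧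
      (∀ a, f (Sum.inr a) = Sum.inr a) ∧
      (∀ a b : Fin (m + 1), a ≠ 0 → a < b → ∀ v w, Q a b (σ v) (σ w) ↔ Q a b v w) := by
  classical
  have hdeg : ∀ (f : T5enc Q ≃g T5enc Q) x, Nat.card ((T5enc Q).neighborSet (f x)) =
      Nat.card ((T5enc Q).neighborSet x) :=
    fun f x => (Nat.card_congr (f.mapNeighborSet x)).symm
  have hadj : ∀ (f : T5enc Q ≃g T5enc Q) x y, (T5enc Q).Adj (f x) (f y) ↔ (T5enc Q).Adj x y :=
    fun f x y => f.map_rel_iff
  -- the top extra vertex is fixed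
  have htop : ∀ f : T5enc Q ≃g T5enc Q, f (Sum.inr (Fin.last m)) = Sum.inr (Fin.last m) := by
    intro f
    have h1 := hdeg f (Sum.inr (Fin.last m))
    rw [T5_card_inr] at h1
    have h1' : Nat.card ((T5enc Q).neighborSet (f (Sum.inr (Fin.last m)))) =
        (m + 1) * Nat.card V := by
      rw [h1]; rfl
    rcases hf : f (Sum.inr (Fin.last m)) with ⟨v, b⟩ | a
    · rw [hf] at h1'
      have := T5_card_inl Q v b
      rw [h1', Nat.add_mul, Nat.one_mul] at this
      omega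
    · rw [hf, T5_card_inr] at h1'
      have h2 := Nat.eq_of_mul_eq_mul_right (by omega) h1'
      congr 1
      apply Fin.ext
      rw [Fin.val_last]
      omega
  have hinl : ∀ (f : T5enc Q ≃g T5enc Q) v b, ∃ w c, f (Sum.inl (v, b)) = Sum.inl (w, c) := by
    intro f v b
    rcases hf : f (Sum.inl (v, b)) with ⟨w, c⟩ | a
    · exact ⟨w, c, rfl⟩
    · exfalso
      have h1 : (T5enc Q).Adj (Sum.inl (v, b)) (Sum.inr (Fin.last m)) :=
        (T5_lr Q v (Fin.last m) b).2 (Fin.le_last b)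
      rw [← hadj f, htop, hf] at h1
      exact T5_rr Q _ _ h1
  have hinr : ∀ (f : T5enc Q ≃g T5enc Q) a, f (Sum.inr a) = Sum.inr a := by
    intro f a
    rcases hf : f (Sum.inr a) with ⟨w, c⟩ | a'
    · exfalso
      obtain ⟨w', c', h⟩ := hinl f.symm w c
      have : f.symm (f (Sum.inr a)) = Sum.inr a := f.symm_apply_apply _
      rw [hf, h] at this
      exact absurd this (by simp)
    · have h1 := hdeg f (Sum.inr a)
      rw [hf, T5_card_inr, T5_card_inr] at h1
      have h2 := Nat.eq_of_mul_eq_mul_right (by omega) h1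
      congr 1
      apply Fin.ext
      omega
  have hlev : ∀ (f : T5enc Q ≃g T5enc Q) v b, ∃ w, f (Sum.inl (v, b)) = Sum.inl (w, b) := by
    intro f v b
    obtain ⟨w, c, h⟩ := hinl f v b
    have h1 : ∀ a, b ≤ a ↔ c ≤ a := by
      intro a
      rw [← T5_lr Q v a b, ← hadj f, hinr, h, T5_lr]
    have h2 : b = c := le_antisymm ((h1 c).2 le_rfl) ((h1 b).1 le_rfl)
    rw [h2]
    exact ⟨w, by rw [← h, h2]⟩
  choose τ hτ using hlev
  have hlink : ∀ (f : T5enc Q ≃g T5enc Q) v b, τ f v b = τ f v 0 := by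
    intro f v b
    by_cases hb : b = 0
    · rw [hb]
    · have hpos : 0 < b := Fin.pos_of_ne_zero hb
      have h1 : (T5enc Q).Adj (Sum.inl (v, 0)) (Sum.inl (v, b)) :=
        (T5_ll Q v v 0 b).2 (Or.inl ⟨hpos, Or.inl ⟨rfl, rfl⟩⟩)
      rw [← hadj f, hτ, hτ, T5_ll] at h1
      rcases h1 with ⟨_, ⟨_, h⟩ | ⟨h, _⟩⟩ | ⟨h, _⟩
      · exact h.symm
      · exact absurd rfl h
      · exact absurd hpos h.asymm
  have hform : ∀ (f : T5enc Q ≃g T5enc Q) v b, f (Sum.inl (v, b)) = Sum.inl (τ f v 0, b) := by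
    intro f v b
    rw [hτ, hlink]
  let σ : Equiv.Perm V :=
    { toFun := fun v => τ f v 0
      invFun := fun v => τ f.symm v 0
      left_inv := by
        intro v
        have h1 : f.symm (f (Sum.inl (v, 0))) = Sum.inl (v, 0) := f.symm_apply_apply _
        rw [hform f, hform f.symm] at h1
        simpa using h1
      right_inv := by
        intro v
        have h1 : f (f.symm (Sum.inl (v, 0))) = Sum.inl (v, 0) := f.apply_symm_apply _
        rw [hform f.symm, hform f] at h1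
        simpa using h1 }
  refine ⟨σ, fun v b => hform f v b, hinr f, ?_⟩
  intro a b ha hab v w
  have h1 := hadj f (Sum.inl (v, a)) (Sum.inl (w, b))
  rw [hform f, hform f, T5_ll, T5_ll] at h1
  have hnba : ¬ b < a := hab.asymm
  simp only [hab, hnba, ha, true_and, false_and, or_false, false_or, ne_eq, not_false_eq_true]
    at h1
  exact h1

theorem T5_exists [Finite V] {G : Type} [Group G] (Q : Fin (m + 1) → Fin (m + 1) → V → V → Prop)
    (hV : m + 1 < Nat.card V) (φ : G →* Equiv.Perm V) (hinj : Function.Injective φ)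
    (hQ : ∀ g a b v w, Q a b (φ g v) (φ g w) ↔ Q a b v w)
    (hfull : ∀ σ : Equiv.Perm V,
      (∀ a b : Fin (m + 1), 0 < (a : ℕ) → a < b → ∀ v w, Q a b (σ v) (σ w) ↔ Q a b v w) →
      ∃ g : G, φ g = σ) :
    ∃ (W : Type) (_ : Finite W) (X : SimpleGraph W), Nonempty ((X ≃g X) ≃* G) ∧
      Nat.card W = (m + 1) * Nat.card V + (m + 1) := by
  classical
  refine ⟨(V × Fin (m + 1)) ⊕ Fin (m + 1), inferInstance, T5enc Q, ?_, ?_⟩
  · let F : G → (T5enc Q ≃g T5enc Q) := fun g =>
      { toEquiv := Equiv.sumCongr (Equiv.prodCongr (φ g) (Equiv.refl _)) (Equiv.refl _)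
        map_rel_iff' := by
          rintro (⟨v, a⟩ | a) (⟨w, b⟩ | b)
          · change (T5enc Q).Adj (Sum.inl (φ g v, a)) (Sum.inl (φ g w, b)) ↔ _
            rw [T5_ll, T5_ll, hQ, hQ, (φ g).injective.eq_iff, (φ g).injective.eq_iff]
          · exact Iff.rfl
          · exact Iff.rfl
          · exact Iff.rfl }
    have hF1 : ∀ g v b, F g (Sum.inl (v, b)) = Sum.inl (φ g v, b) := fun _ _ _ => rfl
    have hF2 : ∀ g a, F g (Sum.inr a) = Sum.inr a := fun _ _ => rfl
    let Φ : G →* (T5enc Q ≃g T5enc Q) :=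
      { toFun := F
        map_one' := by
          ext (⟨v, b⟩ | a)
          · rw [hF1, map_one]; rfl
          · rfl
        map_mul' := by
          intro g h
          ext (⟨v, b⟩ | a)
          · rw [hF1, map_mul]; rfl
          · rfl }
    have hΦinj : Function.Injective Φ := by
      intro g h hgh
      apply hinj
      ext v
      have h1 : F g (Sum.inl (v, 0)) = F h (Sum.inl (v, 0)) :=
        congrFun (congrArg DFunLike.coe hgh) _
      rw [hF1, hF1] at h1
      simpa using h1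
    have hΦsurj : Function.Surjective Φ := by
      intro f
      obtain ⟨σ, h1, h2, h3⟩ := T5_aut Q hV f
      obtain ⟨g, hg⟩ := hfull σ fun a b ha hab => h3 a b (by
        rintro rfl
        exact lt_irrefl _ ha) hab
      refine ⟨g, ?_⟩
      ext (⟨v, b⟩ | a)
      · change F g (Sum.inl (v, b)) = _
        rw [hF1, h1, hg]
      · change F g (Sum.inr a) = _
        rw [hF2, h2]
    exact ⟨(MulEquiv.ofBijective Φ ⟨hΦinj, hΦsurj⟩).symm⟩
  · rw [Nat.card_sum, Nat.card_prod, Nat.card_fin, mul_comm]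

end enc

theorem exists_graph {V : Type} [Finite V] {G : Type} [Group G] (n : ℕ) (hn : 2 ≤ n)
    (Q : Fin n → Fin n → V → V → Prop)
    (hV : n < Nat.card V) (φ : G →* Equiv.Perm V) (hinj : Function.Injective φ)
    (hQ : ∀ g a b v w, Q a b (φ g v) (φ g w) ↔ Q a b v w)
    (hfull : ∀ σ : Equiv.Perm V,
      (∀ a b : Fin n, 0 < (a : ℕ) → a < b → ∀ v w, Q a b (σ v) (σ w) ↔ Q a b v w) →
      ∃ g : G, φ g = σ) :
    ∃ (W : Type) (_ : Finite W) (X : SimpleGraph W), Nonempty ((X ≃g X) ≃* G) ∧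
      Nat.card W = n * Nat.card V + n := by
  obtain ⟨m, rfl⟩ : ∃ m, n = m + 1 := ⟨n - 1, by omega⟩
  exact T5_exists Q hV φ hinj hQ hfull

end Pool.Agent.Helper903_VG
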