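import Pool.Agent.Helper903_VG.MainProp
import Pool.Agent.Helper903_VG.T5

/-!
From the main proposition to graphs.
-/

set_option autoImplicit false

namespace Pool.Agent.Helper903_VG

/-- A permutation that preserves the preorder given by a rank function preserves the rank. -/
theorem rank_fixed {E : Type} [Finite E] (ρ : E → ℕ) (σ : Equiv.Perm E)
    (h : ∀ x y, ρ (σ x) ≤ ρ (σ y) ↔ ρ x ≤ ρ y) (x : E) : ρ (σ x) = ρ x := by
  classical
  have := Fintype.ofFinite E
  -- the number of points of rank at most `ρ x`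
  have hcard : ∀ x, (Finset.univ.filter (fun y => ρ y ≤ ρ (σ x))).card =
      (Finset.univ.filter (fun y => ρ y ≤ ρ x)).card := by
    intro x
    symm
    apply Finset.card_bij (fun y _ => σ y)
    · intro y hy
      simp only [Finset.mem_filter, Finset.mem_univ, true_and] at hy ⊢
      exact (h y x).2 hy
    · intro y _ y' _ hyy
      exact σ.injective hyy
    · intro y hy
      simp only [Finset.mem_filter, Finset.mem_univ, true_and] at hy
      refine ⟨σ.symm y, ?_, σ.apply_symm_apply y⟩
      simp only [Finset.mem_filter, Finset.mem_univ, true_and]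
      rw [← h, σ.apply_symm_apply]
      exact hy
  have key : ∀ a b : E, ρ a < ρ b → (Finset.univ.filter (fun y => ρ y ≤ ρ a)).card <
      (Finset.univ.filter (fun y => ρ y ≤ ρ b)).card := by
    intro a b hab
    apply Finset.card_lt_card
    rw [Finset.ssubset_iff_of_subset]
    · refine ⟨b, ?_, ?_⟩
      · simp
      · simp only [Finset.mem_filter, Finset.mem_univ, true_and, not_le]
        exact hab
    · intro y hy
      simp only [Finset.mem_filter, Finset.mem_univ, true_and] at hy ⊢
      omega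
  rcases lt_trichotomy (ρ (σ x)) (ρ x) with h1 | h1 | h1
  · have := key _ _ h1
    rw [hcard] at this
    exact absurd this (lt_irrefl _)
  · exact h1
  · have := key _ _ h1
    rw [hcard] at this
    exact absurd this (lt_irrefl _)

/-- The relations on `E` that are encoded. -/
def Rel {E : Type} {K : ℕ} (R : E → E → Prop) (ρ : E → ℕ) (κ : E → E → Fin K) : ℕ → E → E → Prop
  | 0, x, y => R x y
  | 1, x, y => ρ x ≤ ρ y
  | (j + 2), x, y => (κ x y : ℕ).testBit j = true

theorem kappa_of_bits {K t : ℕ} (hK : K ≤ 2 ^ t) (a b : Fin K)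
    (h : ∀ j < t, ((a : ℕ).testBit j = true ↔ (b : ℕ).testBit j = true)) : a = b := by
  apply Fin.ext
  apply Nat.eq_of_testBit_eq
  intro j
  by_cases hj : j < t
  · have := h j hj
    rcases ha : (a : ℕ).testBit j with _ | _
    · rcases hb : (b : ℕ).testBit j with _ | _
      · rfl
      · rw [ha, hb] at this
        simp at this
    · rw [ha] at this
      exact (this.1 rfl).symm
  · have h1 : (a : ℕ) < 2 ^ j := by
      have h2 : 2 ^ t ≤ 2 ^ j := Nat.pow_le_pow_right (by norm_num) (by omega)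
      have := a.2
      omega
    have h2 : (b : ℕ) < 2 ^ j := by
      have h2 : 2 ^ t ≤ 2 ^ j := Nat.pow_le_pow_right (by norm_num) (by omega)
      have := b.2
      omega
    rw [Nat.testBit_lt_two_pow h1, Nat.testBit_lt_two_pow h2]

/-- The action on the vertices and some dummy fixed points. -/
@[reducible] def vAct {G : Type} [Group G] {n : ℕ} (φ : G →* Equiv.Perm (Fin n)) (N : ℕ) :
    MulAction G (Fin n ⊕ Fin N) where
  smul g := Sum.map (φ g) id
  one_smul x := by
    show Sum.map (φ 1) id x = x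
    rw [map_one]
    rcases x with x | x <;> rfl
  mul_smul g h x := by
    show Sum.map (φ (g * h)) id x = Sum.map (φ g) id (Sum.map (φ h) id x)
    rw [map_mul]
    rcases x with x | x <;> rfl

theorem assemble {G : Type} [Group G] [Finite G] {K : ℕ} {n k : ℕ}
    (c : Fin n → Fin n → Option (Fin k)) (φ : G →* Equiv.Perm (Fin n))
    (hφ : Function.Injective φ)
    (hc : ∀ σ : Equiv.Perm (Fin n), (∀ x y, c (σ x) (σ y) = c x y) ↔ σ ∈ Set.range φ)
    (t s : ℕ) (hK : K ≤ 2 ^ t) (hs : t + 2 ≤ s * s) (hs0 : 0 < s)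
    (M : ℝ)
    (hE : @HasE G _ K (Fin n ⊕ Fin (2 * s + 2)) (vAct φ (2 * s + 2)) M) :
    ∃ (W : Type) (_ : Finite W) (X : SimpleGraph W), Nonempty ((X ≃g X) ≃* G) ∧
      (Nat.card W : ℝ) ≤ (2 * s + 1) * (M + 1) := by
  classical
  let _ := vAct φ (2 * s + 2)
  obtain ⟨E, fE, aE, R, v, hN, hv, hD, hm⟩ := hE
  obtain ⟨κ, hκ, hgood⟩ := hN.2 E
  -- ranks of orbits
  obtain ⟨ρ0, hρ0⟩ := Countable.exists_injective_nat (Quotient (MulAction.orbitRel G E))
  let ρ : E → ℕ := fun x => ρ0 (Quotient.mk _ x)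
  have hρ : ∀ x y, ρ x = ρ y ↔ ∃ g : G, g • y = x := by
    intro x y
    constructor
    · intro h
      exact Quotient.exact (hρ0 h)
    · rintro ⟨g, rfl⟩
      exact congrArg ρ0 (Quotient.sound ⟨g, rfl⟩)
  have hρg : ∀ (g : G) x, ρ (g • x) = ρ x := fun g x => (hρ _ _).2 ⟨g, rfl⟩
  -- the cardinality of `E`
  have hvcard : Nat.card (Fin n ⊕ Fin (2 * s + 2)) ≤ Nat.card E :=
    Nat.card_le_card_of_injective v hv.inj
  have hcardV : Nat.card (Fin n ⊕ Fin (2 * s + 2)) = n + (2 * s + 2) := by
    rw [Nat.card_sum, Nat.card_fin, Nat.card_fin]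
  let Φ : G →* Equiv.Perm E := MulAction.toPermHom G E
  have hΦ : ∀ g x, Φ g x = g • x := fun g x => rfl
  have hvl : ∀ g a, g • v (Sum.inl a) = v (Sum.inl (φ g a)) := fun g a =>
    (hv.map g (Sum.inl a)).symm
  have hvr : ∀ g : G, ∀ a, g • v (Sum.inr a) = v (Sum.inr a) := fun g a =>
    (hv.map g (Sum.inr a)).symm
  have hΦinj : Function.Injective Φ := by
    intro g g' h
    apply hφ
    ext a
    have h1 : g • v (Sum.inl a) = g' • v (Sum.inl a) := by rw [← hΦ, ← hΦ, h]
    rw [hvl, hvl] at h1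
    have := Sum.inl_injective (hv.inj h1)
    rw [this]
  -- relation invariance
  have hRel : ∀ i (g : G) x y, Rel R ρ κ i (g • x) (g • y) ↔ Rel R ρ κ i x y := by
    intro i g x y
    match i with
    | 0 => exact iff_of_eq (hN.1 g x y)
    | 1 =>
      show ρ (g • x) ≤ ρ (g • y) ↔ ρ x ≤ ρ y
      rw [hρg, hρg]
    | (j + 2) =>
      show (κ (g • x) (g • y) : ℕ).testBit j = true ↔ (κ x y : ℕ).testBit j = true
      rw [hκ g x y]
  have hfull : ∀ σ : Equiv.Perm E, (∀ i < t + 2, ∀ x y, Rel R ρ κ i (σ x) (σ y) ↔ Rel R ρ κ i x y) →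
      ∃ g : G, Φ g = σ := by
    let H : Subgroup (Equiv.Perm E) :=
      { carrier := {σ | ∀ i < t + 2, ∀ x y, Rel R ρ κ i (σ x) (σ y) ↔ Rel R ρ κ i x y}
        mul_mem' := by
          intro σ τ hσ hτ i hi x y
          exact (hσ i hi (τ x) (τ y)).trans (hτ i hi x y)
        one_mem' := fun i _ x y => Iff.rfl
        inv_mem' := by
          intro σ hσ i hi x y
          have := hσ i hi (σ⁻¹ x) (σ⁻¹ y)
          rw [show σ (σ⁻¹ x) = x from σ.apply_symm_apply x,
            show σ (σ⁻¹ y) = y from σ.apply_symm_apply y] at this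
          exact this.symm }
    have horb : ∀ h ∈ H, ∀ ω : E, ∃ g : G, h ω = g • ω := by
      intro h hh ω
      have h1 := rank_fixed ρ h (fun x y => hh 1 (by omega) x y) ω
      obtain ⟨g, hg⟩ := (hρ _ _).1 h1
      exact ⟨g, hg.symm⟩
    let Γ : Env G E := ⟨H, fun g i _ x y => hRel i g x y, horb⟩
    have hg : Good Γ (id : E → E) (id : E → E) := by
      refine hgood E Γ id id ⟨Function.injective_id, fun _ _ => rfl⟩
        ⟨Function.injective_id, fun _ _ => rfl⟩ ?_ ?_
      · intro h hh x y x' y' hx hy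
        have hx : h x = x' := hx
        have hy : h y = y' := hy
        subst hx
        subst hy
        exact propext (hh 0 (by omega) x y)
      · intro h hh x y x' y' hx hy
        have hx : h x = x' := hx
        have hy : h y = y' := hy
        subst hx
        subst hy
        exact kappa_of_bits hK _ _ (fun j hj => hh (j + 2) (by omega) x y)
    intro σ hσ
    have hσH : σ ∈ H := hσ
    have hgσ : ∀ x w, ∃ g : G, σ x = g • x ∧ σ w = g • w := fun x w => hg σ hσH x w
    -- the permutation induced on the vertices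
    have hex : ∀ a : Fin n, ∃ b : Fin n, σ (v (Sum.inl a)) = v (Sum.inl b) := by
      intro a
      obtain ⟨g, h1, -⟩ := hgσ (v (Sum.inl a)) (v (Sum.inl a))
      exact ⟨φ g a, by rw [h1, hvl]⟩
    choose τ hτ using hex
    have hτinj : Function.Injective τ := by
      intro a b h
      have h1 : σ (v (Sum.inl a)) = σ (v (Sum.inl b)) := by rw [hτ, hτ, h]
      exact Sum.inl_injective (hv.inj (σ.injective h1))
    let τ' : Equiv.Perm (Fin n) := Equiv.ofBijective τ (Finite.injective_iff_bijective.1 hτinj)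
    have hτc : ∀ a b, c (τ' a) (τ' b) = c a b := by
      intro a b
      obtain ⟨g, h1, h2⟩ := hgσ (v (Sum.inl a)) (v (Sum.inl b))
      rw [hτ, hvl] at h1 h2
      have e1 : τ' a = φ g a := Sum.inl_injective (hv.inj h1)
      have e2 : τ' b = φ g b := Sum.inl_injective (hv.inj h2)
      rw [e1, e2]
      exact (hc (φ g)).2 ⟨g, rfl⟩ a b
    obtain ⟨g0, hg0⟩ := (hc τ').1 hτc
    refine ⟨g0, ?_⟩
    -- `g0⁻¹ σ` fixes all the vertices
    obtain ⟨σ', hσ', hσ'e⟩ := Γ.smul_mem g0⁻¹ hσH
    have hfixl : ∀ a, σ' (v (Sum.inl a)) = v (Sum.inl a) := by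
      intro a
      rw [hσ'e, hτ, inv_smul_eq_iff, hvl, hg0]
      rfl
    have hfixr : ∀ a, σ' (v (Sum.inr a)) = v (Sum.inr a) := by
      intro a
      obtain ⟨g, h1⟩ := horb σ' hσ' (v (Sum.inr a))
      rw [h1, hvr]
    have hid := hD σ' (fun x y => hσ' 0 (by omega) x y) (fun x => horb σ' hσ' x) (by
      rintro (a | a)
      · exact hfixl a
      · exact hfixr a)
    ext x
    have := hid x
    rw [hσ'e, inv_smul_eq_iff] at this
    exact this.symm
  have hcardE : 2 * s + 1 < Nat.card E := by omega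
  obtain ⟨W, hW, X, hX, hcard⟩ := exists_graph (V := E) (G := G) (2 * s + 1) (by omega)
    (fun a b x y => Rel R ρ κ (((a : ℕ) - 1) * s + ((b : ℕ) - (s + 1))) x y) hcardE Φ hΦinj
    (fun g a b x y => hRel _ g x y) (by
      intro σ hσ
      apply hfull
      intro i hi x y
      have hi' : i < s * s := by omega
      have h1 : i / s < s := Nat.div_lt_of_lt_mul hi'
      have h2 : i % s < s := Nat.mod_lt _ hs0
      have h3 := hσ ⟨i / s + 1, by omega⟩ ⟨i % s + (s + 1), by omega⟩ (by simp)
        (by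
          show i / s + 1 < i % s + (s + 1)
          omega) x y
      simp only [Nat.add_sub_cancel] at h3
      have e : i / s * s + i % s = i := by
        rw [mul_comm]; exact Nat.div_add_mod i s
      rw [e] at h3
      exact h3)
  refine ⟨W, hW, X, hX, ?_⟩
  rw [hcard]
  push_cast
  have h0 : (0 : ℝ) ≤ s := Nat.cast_nonneg _
  nlinarith

end Pool.Agent.Helper903_VG
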