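import Mathlib

/-!
Graphs and edge-coloured digraphs with a given automorphism group: the framework.

`Nice K R` says that a `G`-set `E` with an invariant relation `R` has the following property: for every
`G`-set `W` there is an invariant colouring of `E × W` with `K` colours such that every group of
permutations which contains `G`, preserves the `G`-orbits, the relation and the colouring, has the same
orbits on `E × W` as `G`.
-/

set_option autoImplicit false

namespace Pool.Agent.Helper903_VG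

/-- A group of permutations of the `G`-set `Ω` which contains the image of `G` and preserves every
`G`-orbit. -/
structure Env (G : Type) [Group G] (Ω : Type) [MulAction G Ω] where
  H : Subgroup (Equiv.Perm Ω)
  mem : ∀ g : G, MulAction.toPerm g ∈ H
  orb : ∀ h ∈ H, ∀ ω : Ω, ∃ g : G, h ω = g • ω

/-- Injective `G`-maps. -/
structure Emb (G : Type) [Group G] {X Y : Type} [MulAction G X] [MulAction G Y] (j : X → Y) :
    Prop where
  inj : Function.Injective j
  map : ∀ (g : G) (x : X), j (g • x) = g • j x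

/-- Invariant colourings of pairs. -/
def Inv (G : Type) [Group G] {X Y C : Type} [MulAction G X] [MulAction G Y] (κ : X → Y → C) : Prop :=
  ∀ (g : G) (x : X) (y : Y), κ (g • x) (g • y) = κ x y

variable {G : Type} [Group G]

/-- The group of the environment preserves the colouring `κ` of the pairs. -/
def Pres {Ω : Type} [MulAction G Ω] (Γ : Env G Ω) {X Y C : Type} (κ : X → Y → C) (j : X → Ω)
    (k : Y → Ω) : Prop :=
  ∀ h ∈ Γ.H, ∀ x y x' y', h (j x) = j x' → h (k y) = k y' → κ x' y' = κ x y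

/-- The group of the environment has the same orbits on pairs as `G`. -/
def Good {Ω : Type} [MulAction G Ω] (Γ : Env G Ω) {X W : Type} [MulAction G X] [MulAction G W]
    (j : X → Ω) (k : W → Ω) : Prop :=
  ∀ h ∈ Γ.H, ∀ x w, ∃ g : G, h (j x) = j (g • x) ∧ h (k w) = k (g • w)

/-- The main property of a pair `(E, R)`. -/
def Nice (G : Type) [Group G] (K : ℕ) {E : Type} [MulAction G E] (R : E → E → Prop) : Prop :=
  Inv G R ∧ ∀ (W : Type) [MulAction G W], ∃ κ : E → W → Fin K, Inv G κ ∧
    ∀ (Ω : Type) [MulAction G Ω] (Γ : Env G Ω) (j : E → Ω) (k : W → Ω), Emb G j → Emb G k →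
      Pres Γ R j j → Pres Γ κ j k → Good Γ j k

/-- A map `σ` which preserves `R` and the `G`-orbits and fixes `V` is the identity. -/
def Det (G : Type) [Group G] {V E : Type} [MulAction G E] (R : E → E → Prop) (v : V → E) : Prop :=
  ∀ σ : E → E, (∀ x y, R (σ x) (σ y) ↔ R x y) → (∀ x, ∃ g : G, σ x = g • x) →
    (∀ u, σ (v u) = v u) → ∀ x, σ x = x

/-- `V` embeds in a nice `E` of size at most `m` that is determined by `V`. -/
def HasE (G : Type) [Group G] (K : ℕ) (V : Type) [MulAction G V] (m : ℝ) : Prop :=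
  ∃ (E : Type) (_ : Finite E) (_ : MulAction G E) (R : E → E → Prop) (v : V → E),
    Nice G K R ∧ Emb G v ∧ Det G R v ∧ (Nat.card E : ℝ) ≤ m

theorem Env.exists_eq {Ω : Type} [MulAction G Ω] (Γ : Env G Ω) {X : Type} [MulAction G X]
    {j : X → Ω} (hj : Emb G j) {h : Equiv.Perm Ω} (hh : h ∈ Γ.H) (x : X) :
    ∃ g : G, h (j x) = j (g • x) := by
  obtain ⟨g, hg⟩ := Γ.orb h hh (j x)
  exact ⟨g, by rw [hg, hj.map]⟩

/-- The action of an element of the group of the environment on an embedded `G`-set. -/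
theorem Env.exists_fun {Ω : Type} [MulAction G Ω] (Γ : Env G Ω) {X : Type} [MulAction G X]
    {j : X → Ω} (hj : Emb G j) {h : Equiv.Perm Ω} (hh : h ∈ Γ.H) :
    ∃ τ : X → X, Function.Injective τ ∧ (∀ x, h (j x) = j (τ x)) ∧ ∀ x, ∃ g : G, g • x = τ x := by
  choose g hg using fun x => Γ.exists_eq hj hh x
  refine ⟨fun x => g x • x, ?_, hg, fun x => ⟨g x, rfl⟩⟩
  intro x y hxy
  have : h (j x) = h (j y) := by rw [hg, hg]; exact congrArg j hxy
  exact hj.inj (h.injective this)

theorem Env.smul_mem {Ω : Type} [MulAction G Ω] (Γ : Env G Ω) (g : G) {h : Equiv.Perm Ω}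
    (hh : h ∈ Γ.H) : ∃ h' ∈ Γ.H, ∀ ω, h' ω = g • h ω :=
  ⟨MulAction.toPerm g * h, Γ.H.mul_mem (Γ.mem g) hh, fun ω => rfl⟩

/-- The relation on a disjoint union. -/
def RSum {X E : Type} (RX : X → X → Prop) (A : X → E → Prop) (R : E → E → Prop) :
    X ⊕ E → X ⊕ E → Prop
  | Sum.inl x, Sum.inl y => RX x y
  | Sum.inl x, Sum.inr e => A x e
  | Sum.inr _, Sum.inl _ => False
  | Sum.inr e, Sum.inr e' => R e e'

section Sum

variable {X E : Type} [MulAction G X] [MulAction G E]

theorem inl_emb : Emb G (Sum.inl : X → X ⊕ E) := ⟨Sum.inl_injective, fun _ _ => rfl⟩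

theorem inr_emb : Emb G (Sum.inr : E → X ⊕ E) := ⟨Sum.inr_injective, fun _ _ => rfl⟩

theorem Emb.comp {Y Z : Type} [MulAction G Y] [MulAction G Z] {j : Y → Z} {i : X → Y}
    (hj : Emb G j) (hi : Emb G i) : Emb G (j ∘ i) :=
  ⟨hj.inj.comp hi.inj, fun g x => by simp [Function.comp, hi.map, hj.map]⟩

theorem RSum_inv {RX : X → X → Prop} {A : X → E → Prop} {R : E → E → Prop} (h1 : Inv G RX)
    (h2 : Inv G A) (h3 : Inv G R) : Inv G (RSum RX A R) := by
  rintro g (x | x) (y | y)
  · exact h1 g x y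
  · exact h2 g x y
  · rfl
  · exact h3 g x y

/-- The general form of an extension step. -/
theorem Nice.extend {K : ℕ} {RX : X → X → Prop} {A : X → E → Prop} {R : E → E → Prop}
    (hR : Nice G K R) (hRX : Inv G RX) (hA : Inv G A)
    (hext : ∀ (W : Type) [MulAction G W], ∃ κ : X → W → Fin K, Inv G κ ∧
      ∀ (Ω : Type) [MulAction G Ω] (Γ : Env G Ω) (j : X → Ω) (j0 : E → Ω) (k : W → Ω), Emb G j →
        Emb G j0 → Emb G k → Pres Γ RX j j → Pres Γ A j j0 → Pres Γ κ j k → Good Γ j0 k →
          Good Γ j k) :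
    Nice G K (RSum RX A R) := by
  refine ⟨RSum_inv hRX hA hR.1, ?_⟩
  intro W _
  obtain ⟨κ0, hκ0, h0⟩ := hR.2 W
  obtain ⟨κX, hκX, hX⟩ := hext W
  refine ⟨fun e w => Sum.elim (fun x => κX x w) (fun x => κ0 x w) e, ?_, ?_⟩
  · rintro g (x | x) w
    · exact hκX g x w
    · exact hκ0 g x w
  · intro Ω _ Γ j k hj hk hPR hPκ
    have hg0 : Good Γ (j ∘ Sum.inr) k := by
      refine h0 Ω Γ _ k (hj.comp inr_emb) hk ?_ ?_
      · intro h hh x y x' y' e1 e2
        exact hPR h hh (Sum.inr x) (Sum.inr y) (Sum.inr x') (Sum.inr y') e1 e2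
      · intro h hh x y x' y' e1 e2
        exact hPκ h hh (Sum.inr x) y (Sum.inr x') y' e1 e2
    have hgX : Good Γ (j ∘ Sum.inl) k := by
      refine hX Ω Γ _ (j ∘ Sum.inr) k (hj.comp inl_emb) (hj.comp inr_emb) hk ?_ ?_ ?_ hg0
      · intro h hh x y x' y' e1 e2
        exact hPR h hh (Sum.inl x) (Sum.inl y) (Sum.inl x') (Sum.inl y') e1 e2
      · intro h hh x y x' y' e1 e2
        exact hPR h hh (Sum.inl x) (Sum.inr y) (Sum.inl x') (Sum.inr y') e1 e2
      · intro h hh x y x' y' e1 e2
        exact hPκ h hh (Sum.inl x) y (Sum.inl x') y' e1 e2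
    rintro h hh (x | x) w
    · exact hgX h hh x w
    · exact hg0 h hh x w

end Sum

/-- Disjoint unions of nice pairs are nice. -/
theorem Nice.sum {K : ℕ} {E1 E2 : Type} [MulAction G E1] [MulAction G E2] {R1 : E1 → E1 → Prop}
    {R2 : E2 → E2 → Prop} (h1 : Nice G K R1) (h2 : Nice G K R2) :
    Nice G K (RSum R1 (fun _ _ => False) R2) := by
  refine h2.extend h1.1 (fun _ _ _ => rfl) ?_
  intro W _
  obtain ⟨κ, hκ, h⟩ := h1.2 W
  exact ⟨κ, hκ, fun Ω _ Γ j j0 k hj _ hk hR _ hP _ => h Ω Γ j k hj hk hR hP⟩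

/-- Transport of colourings of fibres. -/
theorem exists_kappa {X B W C : Type} [MulAction G X] [MulAction G B] [MulAction G W] (p : X → B)
    (hp : ∀ (g : G) x, p (g • x) = g • p x)
    (P : B → W → (X → C) → Prop)
    (hP : ∀ b w, ∃ f : X → C, (∀ g : G, g • b = b → g • w = w → ∀ x, p x = b → f (g • x) = f x) ∧
      P b w f)
    (htr : ∀ (g : G) b w f f', P b w f → (∀ x, p x = b → f' (g • x) = f x) →
      P (g • b) (g • w) f') :
    ∃ κ : X → W → C, Inv G κ ∧ ∀ b w, P b w (fun x => κ x w) := by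
  classical
  choose f hf1 hf2 using hP
  -- representatives of the orbits on `B × W`
  let rep : B × W → B × W := fun z => Quotient.out (Quotient.mk (MulAction.orbitRel G (B × W)) z)
  have hrep : ∀ z, ∃ g : G, g • rep z = z := by
    intro z
    have : (MulAction.orbitRel G (B × W)).r (rep z) z :=
      Quotient.exact (Quotient.out_eq (Quotient.mk (MulAction.orbitRel G (B × W)) z))
    rcases (MulAction.orbitRel G (B × W)).symm this with ⟨g, hg⟩
    exact ⟨g, hg⟩
  have hrep2 : ∀ (g : G) z, rep (g • z) = rep z := by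
    intro g z
    have : Quotient.mk (MulAction.orbitRel G (B × W)) (g • z) =
        Quotient.mk (MulAction.orbitRel G (B × W)) z := Quotient.sound ⟨g, rfl⟩
    simp only [rep, this]
  choose γ hγ using hrep
  have key : ∀ (z : B × W) (g : G) (x : X), g • rep z = z → p x = z.1 →
      f (rep z).1 (rep z).2 ((γ z)⁻¹ • x) = f (rep z).1 (rep z).2 (g⁻¹ • x) := by
    intro z g x hg hx
    have h1 : (g⁻¹ * γ z) • rep z = rep z := by
      rw [mul_smul, hγ z]; exact (inv_smul_eq_iff.2 hg.symm)
    have h2 : p ((γ z)⁻¹ • x) = (rep z).1 := by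
      rw [hp, hx]
      exact congrArg Prod.fst (inv_smul_eq_iff.2 (hγ z).symm)
    have h3 := hf1 (rep z).1 (rep z).2 (g⁻¹ * γ z) (congrArg Prod.fst h1) (congrArg Prod.snd h1) _ h2
    rw [← h3, ← mul_smul]
    congr 2
    group
  refine ⟨fun x w => f (rep (p x, w)).1 (rep (p x, w)).2 ((γ (p x, w))⁻¹ • x), ?_, ?_⟩
  · intro g x w
    have e1 : (p (g • x), g • w) = g • (p x, w) := by rw [hp]; rfl
    have e2 : rep (p (g • x), g • w) = rep (p x, w) := by rw [e1, hrep2]
    have h1 := key (p (g • x), g • w) (g * γ (p x, w)) (g • x)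
      (by rw [e2, mul_smul, hγ, e1]) rfl
    show f (rep (p (g • x), g • w)).1 (rep (p (g • x), g • w)).2
      ((γ (p (g • x), g • w))⁻¹ • g • x) = _
    rw [h1, e2]
    congr 1
    rw [mul_inv_rev, mul_smul, inv_smul_smul]
  · intro b w
    have h1 : γ (b, w) • rep (b, w) = (b, w) := hγ (b, w)
    have h2 := htr (γ (b, w)) (rep (b, w)).1 (rep (b, w)).2 (f (rep (b, w)).1 (rep (b, w)).2)
      (fun x => f (rep (p x, w)).1 (rep (p x, w)).2 ((γ (p x, w))⁻¹ • x)) (hf2 _ _) ?_
    · have e1 : γ (b, w) • (rep (b, w)).1 = b := congrArg Prod.fst h1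
      have e2 : γ (b, w) • (rep (b, w)).2 = w := congrArg Prod.snd h1
      rw [e1, e2] at h2
      exact h2
    · intro x hx
      have e1 : p (γ (b, w) • x) = b := by
        rw [hp, hx]; exact congrArg Prod.fst h1
      simp only [e1, inv_smul_smul]

/-- The colouring used for small fibres. -/
theorem exists_kappa_small {K : ℕ} (hK : 0 < K) {X B W : Type} [Finite X] [MulAction G X]
    [MulAction G B] [MulAction G W] (p : X → B) (hp : ∀ (g : G) x, p (g • x) = g • p x)
    (hcard : ∀ (b : B) (x : X), Nat.card {y : X // p y = b ∧ ∃ g : G, g • x = y} ≤ K) :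
    ∃ κ : X → W → Fin K, Inv G κ ∧ ∀ w x x', p x = p x' → (∃ g : G, g • x = x') →
      κ x w = κ x' w → ∃ g : G, g • x = x' ∧ g • w = w := by
  classical
  have := exists_kappa (G := G) (W := W) (C := Fin K) p hp
    (fun b w f => ∀ x x', p x = b → p x' = b → (∃ g : G, g • x = x') →
      f x = f x' → ∃ g : G, g • x = x' ∧ g • w = w) ?_ ?_
  · obtain ⟨κ, h1, h2⟩ := this
    exact ⟨κ, h1, fun w x x' e hx e2 => h2 (p x) w x x' rfl e.symm hx e2⟩
  · intro b w
    -- classes of `G_{b,w}` in the intersection of an orbit with a fibre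
    let s : Setoid X := MulAction.orbitRel (MulAction.stabilizer G (b, w)) X
    let o : Setoid X := MulAction.orbitRel G X
    -- a colouring of each orbit
    have hcol : ∀ x0 : X, ∃ c : X → Fin K, ∀ y y', (p y = b ∧ ∃ g : G, g • x0 = y) →
        (p y' = b ∧ ∃ g : G, g • x0 = y') → c y = c y' → y = y' := by
      intro x0
      have hf : Finite {y : X // p y = b ∧ ∃ g : G, g • x0 = y} := inferInstance
      obtain ⟨e⟩ : Nonempty ({y : X // p y = b ∧ ∃ g : G, g • x0 = y} ↪ Fin K) := by
        rw [← Cardinal.lift_mk_le', ← Nat.cast_card]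
        simpa using hcard b x0
      refine ⟨fun y => if h : (p y = b ∧ ∃ g : G, g • x0 = y) then e ⟨y, h⟩ else ⟨0, hK⟩, ?_⟩
      intro y y' hy hy' hc
      simp only [hy, hy', dif_pos, and_self] at hc
      exact congrArg Subtype.val (e.injective hc)
    choose c hc using hcol
    let ro : X → X := fun x => Quotient.out (Quotient.mk o x)
    let rs : X → X := fun x => Quotient.out (Quotient.mk s x)
    have hrs : ∀ x, ∃ g : G, g • b = b ∧ g • w = w ∧ g • x = rs x := by
      intro x
      have : s.r (rs x) x := Quotient.exact (Quotient.out_eq (Quotient.mk s x))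
      rcases this with ⟨g, hg⟩
      have h1 := g.2
      rw [MulAction.mem_stabilizer_iff] at h1
      exact ⟨g, congrArg Prod.fst h1, congrArg Prod.snd h1, hg⟩
    have hro : ∀ x, ∃ g : G, g • ro x = x := by
      intro x
      have : o.r (ro x) x := Quotient.exact (Quotient.out_eq (Quotient.mk o x))
      rcases o.symm this with ⟨g, hg⟩
      exact ⟨g, hg⟩
    refine ⟨fun x => c (ro x) (rs x), ?_, ?_⟩
    · intro g hb hw x hx
      have e1 : ro (g • x) = ro x := by
        have : Quotient.mk o (g • x) = Quotient.mk o x := Quotient.sound ⟨g, rfl⟩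
        simp only [ro, this]
      have e2 : rs (g • x) = rs x := by
        have : Quotient.mk s (g • x) = Quotient.mk s x :=
          Quotient.sound ⟨⟨g, by rw [MulAction.mem_stabilizer_iff]; exact Prod.ext hb hw⟩, rfl⟩
        simp only [rs, this]
      simp only [e1, e2]
    · intro x x' hx hx' hg he
      have e1 : ro x = ro x' := by
        obtain ⟨g, hg⟩ := hg
        have : Quotient.mk o x = Quotient.mk o x' := Quotient.sound (o.symm ⟨g, hg⟩)
        simp only [ro, this]
      obtain ⟨g1, hb1, hw1, h1⟩ := hrs x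
      obtain ⟨g2, hb2, hw2, h2⟩ := hrs x'
      obtain ⟨a1, ha1⟩ := hro x
      obtain ⟨a2, ha2⟩ := hro x'
      have he' : c (ro x) (rs x) = c (ro x) (rs x') := by
        have : c (ro x) (rs x) = c (ro x') (rs x') := he
        rw [← e1] at this
        exact this
      have := hc (ro x) (rs x) (rs x') ⟨by rw [← h1, hp, hx, hb1], ⟨g1 * a1, by rw [mul_smul, ha1, h1]⟩⟩
        ⟨by rw [← h2, hp, hx', hb2], ⟨g2 * a2, by rw [mul_smul, e1, ha2, h2]⟩⟩ he'
      refine ⟨g2⁻¹ * g1, ?_, ?_⟩
      · rw [mul_smul, h1, this, ← h2, inv_smul_smul]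
      · rw [mul_smul, hw1, inv_smul_eq_iff, hw2]
  · intro g b w f f' hP hf x x' hx hx' hg he
    have e1 : p (g⁻¹ • x) = b := by rw [hp, hx, inv_smul_smul]
    have e2 : p (g⁻¹ • x') = b := by rw [hp, hx', inv_smul_smul]
    have h1 := hf _ e1
    have h2 := hf _ e2
    rw [smul_inv_smul] at h1 h2
    obtain ⟨a, ha, haw⟩ := hP (g⁻¹ • x) (g⁻¹ • x') e1 e2 (by
      obtain ⟨a, ha⟩ := hg
      exact ⟨g⁻¹ * a * g, by rw [mul_smul, mul_smul, smul_inv_smul, ha]⟩) (by rw [← h1, ← h2, he])
    refine ⟨g * a * g⁻¹, ?_, ?_⟩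
    · rw [mul_smul, mul_smul, ha, smul_inv_smul]
    · rw [mul_smul, mul_smul, inv_smul_smul, haw]

end Pool.Agent.Helper903_VG
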