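import Pool.Agent.Helper903_VG.LemmaA

/-!
Coset spaces `G ⧸ D → G ⧸ M`.
-/

set_option autoImplicit false

namespace Pool.Agent.Helper903_VG

variable {G : Type} [Group G]

/-- The projection of coset spaces. -/
def cproj {D M : Subgroup G} (h : D ≤ M) : G ⧸ D → G ⧸ M := Subgroup.quotientMapOfLE h

theorem cproj_mk {D M : Subgroup G} (h : D ≤ M) (g : G) :
    cproj h (g : G ⧸ D) = (g : G ⧸ M) := rfl

theorem cproj_smul {D M : Subgroup G} (h : D ≤ M) (g : G) (x : G ⧸ D) :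
    cproj h (g • x) = g • cproj h x := by
  induction x using QuotientGroup.induction_on with
  | H x => rfl

theorem cproj_surj {D M : Subgroup G} (h : D ≤ M) : Function.Surjective (cproj h) := by
  intro b
  induction b using QuotientGroup.induction_on with
  | H g => exact ⟨(g : G ⧸ D), rfl⟩

/-- The family of conjugates of a normal subgroup of `M`. -/
noncomputable def fam (M : Subgroup G) (N : Subgroup M) (b : G ⧸ M) : Subgroup G :=
  (N.map M.subtype).map (MulAut.conj b.out).toMonoidHom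

theorem mem_fam {M : Subgroup G} {N : Subgroup M} (hN : N.Normal) (g x : G) :
    x ∈ fam M N (g : G ⧸ M) ↔ ∃ n ∈ N, x = g * n * g⁻¹ := by
  obtain ⟨m, hm⟩ := QuotientGroup.mk_out_eq_mul M g
  unfold fam
  rw [hm, mem_map_conj]
  constructor
  · rintro ⟨n, hn, h⟩
    refine ⟨m * n * m⁻¹, hN.conj_mem n hn m, ?_⟩
    have h' : (n : G) = (g * m)⁻¹ * x * (g * m) := h
    push_cast
    rw [h']
    group
  · rintro ⟨n, hn, h⟩
    refine ⟨m⁻¹ * n * m⁻¹⁻¹, hN.conj_mem n hn m⁻¹, ?_⟩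
    show ((m⁻¹ * n * m⁻¹⁻¹ : M) : G) = _
    push_cast
    rw [h]
    group

section

variable {D M : Subgroup G}

theorem fam_conj {N : Subgroup M} (hN : N.Normal) (g : G) (b : G ⧸ M) (a : G)
    (ha : a ∈ fam M N b) : g * a * g⁻¹ ∈ fam M N (g • b) := by
  induction b using QuotientGroup.induction_on with
  | H g0 =>
    rw [mem_fam hN] at ha
    obtain ⟨n, hn, rfl⟩ := ha
    have : g • (g0 : G ⧸ M) = ((g * g0 : G) : G ⧸ M) := rfl
    rw [this, mem_fam hN]
    exact ⟨n, hn, by group⟩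

theorem fam_fix {N : Subgroup M} (hN : N.Normal) (b : G ⧸ M) (a : G)
    (ha : a ∈ fam M N b) : a • b = b := by
  induction b using QuotientGroup.induction_on with
  | H g0 =>
    rw [mem_fam hN] at ha
    obtain ⟨n, hn, rfl⟩ := ha
    show ((g0 * n * g0⁻¹ * g0 : G) : G ⧸ M) = g0
    rw [QuotientGroup.eq]
    have : (g0 * n * g0⁻¹ * g0)⁻¹ * g0 = ((n⁻¹ : M) : G) := by
      push_cast
      group
    rw [this]
    exact (n⁻¹).2

theorem fam_mono {N N' : Subgroup M} (h : N ≤ N') (b : G ⧸ M) : fam M N b ≤ fam M N' b :=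
  Subgroup.map_mono (Subgroup.map_mono h)

/-- The affine fibration of coset spaces. -/
noncomputable def cosFib (hDM : D ≤ M) (r : ℕ) (N : Subgroup M) (hN : N.Normal)
    (hND : N ⊔ D.subgroupOf M = ⊤)
    (hc : ∀ a ∈ N, ∀ b ∈ N, a * b * a⁻¹ * b⁻¹ ∈ (D.subgroupOf M))
    (he : ∀ a ∈ N, a ^ r ∈ (D.subgroupOf M)) : AffFib G (G ⧸ D) (G ⧸ M) r where
  p := cproj hDM
  N := fam M N
  map := cproj_smul hDM
  surj := cproj_surj hDM
  conj := fam_conj hN
  fix := fam_fix hN
  trans u u' h := by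
    induction u using QuotientGroup.induction_on with
    | H g =>
    induction u' using QuotientGroup.induction_on with
    | H g' =>
    rw [cproj_mk, cproj_mk, QuotientGroup.eq] at h
    have hm : (⟨g⁻¹ * g', h⟩ : M) ∈ N ⊔ D.subgroupOf M := by rw [hND]; exact Subgroup.mem_top _
    obtain ⟨n, hn, d, hd, hnd⟩ := (Subgroup.mem_sup_of_normal_left).1 hm
    refine ⟨g * n * g⁻¹, (mem_fam hN g _).2 ⟨n, hn, rfl⟩, ?_⟩
    show ((g * n * g⁻¹ * g : G) : G ⧸ D) = g'
    rw [QuotientGroup.eq]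
    have h1 : (n : G) * d = g⁻¹ * g' := congrArg Subtype.val hnd
    have h2 : (g * n * g⁻¹ * g)⁻¹ * g' = d := by
      have : g' = g * (n * d) := by rw [h1]; group
      rw [this]
      group
    rw [h2]
    exact Subgroup.mem_subgroupOf.1 hd
  comm u a ha a' ha' := by
    induction u using QuotientGroup.induction_on with
    | H g =>
    obtain ⟨n, hn, rfl⟩ := (mem_fam hN g _).1 ha
    obtain ⟨n', hn', rfl⟩ := (mem_fam hN g _).1 ha'
    show ((g * n * g⁻¹ * (g * n' * g⁻¹ * g) : G) : G ⧸ D) =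
      ((g * n' * g⁻¹ * (g * n * g⁻¹ * g) : G) : G ⧸ D)
    rw [QuotientGroup.eq]
    have h1 := hc n'⁻¹ (N.inv_mem hn') n⁻¹ (N.inv_mem hn)
    rw [Subgroup.mem_subgroupOf] at h1
    have h2 : (g * n * g⁻¹ * (g * n' * g⁻¹ * g))⁻¹ * (g * n' * g⁻¹ * (g * n * g⁻¹ * g)) =
        ((n'⁻¹ * n⁻¹ * n'⁻¹⁻¹ * n⁻¹⁻¹ : M) : G) := by
      push_cast
      group
    rw [h2]
    exact h1
  exp u a ha := by
    induction u using QuotientGroup.induction_on with
    | H g =>
    obtain ⟨n, hn, rfl⟩ := (mem_fam hN g _).1 ha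
    show (((g * n * g⁻¹) ^ r * g : G) : G ⧸ D) = g
    rw [QuotientGroup.eq]
    have h1 := (D.subgroupOf M).inv_mem (he n hn)
    rw [Subgroup.mem_subgroupOf] at h1
    have h2 : ((g * n * g⁻¹) ^ r * g)⁻¹ * g = (((n ^ r)⁻¹ : M) : G) := by
      rw [conj_pow]
      push_cast
      group
    rw [h2]
    exact h1

theorem cproj_fibre_nontrivial (hDM : D < M) (b : G ⧸ M) :
    Nontrivial {u : G ⧸ D // cproj hDM.le u = b} := by
  obtain ⟨m, hm, hmD⟩ := Set.exists_of_ssubset hDM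
  induction b using QuotientGroup.induction_on with
  | H g =>
  refine ⟨⟨(g : G ⧸ D), rfl⟩, ⟨((g * m : G) : G ⧸ D), ?_⟩, ?_⟩
  · rw [cproj_mk, QuotientGroup.eq]
    have : (g * m)⁻¹ * g = m⁻¹ := by group
    rw [this]
    exact M.inv_mem hm
  · intro h
    have h1 : (g : G ⧸ D) = ((g * m : G) : G ⧸ D) := Subtype.mk.inj h
    rw [QuotientGroup.eq] at h1
    apply hmD
    have : g⁻¹ * (g * m) = m := by group
    rwa [this] at h1

theorem card_cproj_fibre_le [Finite G] (hDM : D ≤ M) (b : G ⧸ M) :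
    Nat.card {u : G ⧸ D // cproj hDM u = b} ≤ (D.subgroupOf M).index := by
  classical
  induction b using QuotientGroup.induction_on with
  | H g =>
  have hex : ∀ u : {u : G ⧸ D // cproj hDM u = (g : G ⧸ M)}, ∃ m : M, u.1 = ((g * m : G) : G ⧸ D) := by
    rintro ⟨u, hu⟩
    induction u using QuotientGroup.induction_on with
    | H g' =>
    rw [cproj_mk] at hu
    have h1 := QuotientGroup.eq.1 hu.symm
    refine ⟨⟨g⁻¹ * g', h1⟩, ?_⟩
    show ((g' : G) : G ⧸ D) = ((g * (g⁻¹ * g') : G) : G ⧸ D)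
    rw [mul_inv_cancel_left]
  choose f hf using hex
  refine Nat.card_le_card_of_injective
    (fun u : {u : G ⧸ D // cproj hDM u = (g : G ⧸ M)} => ((f u : M) : M ⧸ D.subgroupOf M)) ?_
  intro u u' h
  have h : ((f u : M) : M ⧸ D.subgroupOf M) = (f u' : M) := h
  rw [QuotientGroup.eq, Subgroup.mem_subgroupOf] at h
  apply Subtype.ext
  rw [hf u, hf u', QuotientGroup.eq]
  have e : (g * (f u : G))⁻¹ * (g * (f u' : G)) = (((f u)⁻¹ * f u' : M) : G) := by
    push_cast
    group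
  rw [e]
  exact h

end

end Pool.Agent.Helper903_VG
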