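import Pool.Agent.Helper903_VG.T3

/-!
Transitive commutative actions of prime exponent: functions are determined by their sums over the orbits
of the subgroups of prime index, and the number of these subgroups.
-/

set_option autoImplicit false

namespace Pool.Agent.Helper903_VG

/-- A group acts on `X` transitively as a commutative group of exponent `r`. -/
structure ElemAct (A X : Type) [Group A] [MulAction A X] (r : ℕ) : Prop where
  trans : ∀ x y : X, ∃ a : A, a • x = y
  comm : ∀ (a a' : A) (x : X), a • a' • x = a' • a • x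
  exp : ∀ (a : A) (x : X), a ^ r • x = x

section

variable {A X : Type} [Group A] [MulAction A X]

/-- The group of translations. -/
abbrev Tr (A X : Type) [Group A] [MulAction A X] : Subgroup (Equiv.Perm X) :=
  (MulAction.toPermHom A X).range

/-- The projection to the group of translations. -/
def Tr.π (A X : Type) [Group A] [MulAction A X] : A →* Tr A X :=
  (MulAction.toPermHom A X).rangeRestrict

theorem Tr.π_surj : Function.Surjective (Tr.π A X) := MonoidHom.rangeRestrict_surjective _

theorem Tr.π_apply (a : A) (x : X) : ((Tr.π A X a : Equiv.Perm X)) x = a • x := rfl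

theorem Tr.mem_ker {a : A} : a ∈ (Tr.π A X).ker ↔ ∀ x : X, a • x = x := by
  rw [MonoidHom.mem_ker, Subtype.ext_iff, Equiv.ext_iff]
  rfl

variable {r : ℕ}

/-- The group of translations is commutative. -/
@[reducible] def Tr.comm (h : ElemAct A X r) : CommGroup (Tr A X) :=
  { (inferInstance : Group (Tr A X)) with
    mul_comm := by
      rintro ⟨_, a, rfl⟩ ⟨_, b, rfl⟩
      apply Subtype.ext
      apply Equiv.ext
      intro x
      exact h.comm a b x }

theorem Tr.exp (h : ElemAct A X r) (t : Tr A X) : t ^ r = 1 := by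
  obtain ⟨a, rfl⟩ := Tr.π_surj t
  rw [← map_pow]
  apply Subtype.ext
  apply Equiv.ext
  intro x
  exact h.exp a x

theorem Tr.bij (h : ElemAct A X r) (x0 : X) :
    Function.Bijective (fun t : Tr A X => (t : Equiv.Perm X) x0) := by
  constructor
  · intro t t' htt
    obtain ⟨a, rfl⟩ := Tr.π_surj t
    obtain ⟨a', rfl⟩ := Tr.π_surj t'
    have htt : a • x0 = a' • x0 := htt
    apply Subtype.ext
    apply Equiv.ext
    intro x
    obtain ⟨c, rfl⟩ := h.trans x0 x
    show a • c • x0 = a' • c • x0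
    rw [h.comm, htt, h.comm]
  · intro y
    obtain ⟨a, ha⟩ := h.trans x0 y
    exact ⟨Tr.π A X a, ha⟩

theorem elem_inj [Finite X] [Nontrivial X] (hr : r.Prime) (h : ElemAct A X r) (f : X → ℂ)
    (hf : ∀ S : Subgroup A, (∀ a : A, (∀ x : X, a • x = x) → a ∈ S) → S.index = r → ∀ x : X,
      ∑ᶠ y : {y : X // ∃ s ∈ S, s • x = y}, f y = 0) : ∀ x, f x = 0 := by
  classical
  obtain ⟨x0, y0, hne⟩ := exists_pair_ne X
  let _ := Tr.comm h
  have hnt : Nontrivial (Tr A X) := by
    obtain ⟨a, ha⟩ := h.trans x0 y0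
    refine ⟨Tr.π A X a, 1, ?_⟩
    intro h1
    apply hne
    have : (Tr.π A X a : Equiv.Perm X) x0 = (1 : Tr A X).1 x0 := by rw [h1]
    rw [Tr.π_apply, ha] at this
    exact this.symm
  have key : ∀ t : Tr A X, f ((t : Equiv.Perm X) x0) = 0 := by
    refine hyper_inj r hr (Tr.exp h) (fun t => f ((t : Equiv.Perm X) x0)) ?_
    intro S' hS' t
    have h1 := hf (S'.comap (Tr.π A X)) (fun a ha => by
      rw [Subgroup.mem_comap, Tr.mem_ker.2 ha]; exact S'.one_mem)
      (by rw [Subgroup.index_comap_of_surjective _ Tr.π_surj, hS']) ((t : Equiv.Perm X) x0)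
    rw [← h1]
    refine finsum_eq_of_bijective (fun s : S' => ⟨((t * (s : Tr A X) : Tr A X) : Equiv.Perm X) x0, ?_⟩)
      ⟨?_, ?_⟩ ?_
    · obtain ⟨a, ha⟩ := Tr.π_surj (s : Tr A X)
      refine ⟨a, ?_, ?_⟩
      · rw [Subgroup.mem_comap, ha]; exact s.2
      · rw [mul_comm, ← ha]; rfl
    · intro s s' hs
      have h2 := congrArg Subtype.val hs
      have h3 := (Tr.bij h x0).1 h2
      exact Subtype.ext (mul_left_cancel h3)
    · rintro ⟨y, a, ha, hy⟩
      refine ⟨⟨Tr.π A X a, ha⟩, ?_⟩
      apply Subtype.ext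
      show ((t * Tr.π A X a : Tr A X) : Equiv.Perm X) x0 = y
      rw [mul_comm, ← hy]
      rfl
    · intro s
      rfl
  intro x
  obtain ⟨t, ht⟩ := (Tr.bij h x0).2 x
  rw [← ht]
  exact key t

theorem elem_card [Finite X] [Nonempty X] (hr : r.Prime) (h : ElemAct A X r) :
    (r - 1) * Nat.card {S : Subgroup A // (∀ a : A, (∀ x : X, a • x = x) → a ∈ S) ∧ S.index = r} + 1 ≤
      Nat.card X := by
  classical
  obtain ⟨x0⟩ := ‹Nonempty X›
  let _ := Tr.comm h
  have h1 := hyper_card r hr (Tr.exp h)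
  have h2 : Nat.card (Tr A X) = Nat.card X := Nat.card_congr (Equiv.ofBijective _ (Tr.bij h x0))
  rw [h2] at h1
  refine le_trans ?_ h1
  gcongr
  refine Nat.card_le_card_of_injective
    (fun S : {S : Subgroup A // (∀ a : A, (∀ x : X, a • x = x) → a ∈ S) ∧ S.index = r} =>
      (⟨S.1.map (Tr.π A X), ?_⟩ : {S : Subgroup (Tr A X) // S.index = r})) ?_
  · rw [Subgroup.index_map_eq _ Tr.π_surj, S.2.2]
    intro a ha
    exact S.2.1 a (Tr.mem_ker.1 ha)
  · intro S S' hS
    have h3 : S.1.map (Tr.π A X) = S'.1.map (Tr.π A X) := Subtype.mk.inj hS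
    have h4 := congrArg (Subgroup.comap (Tr.π A X)) h3
    rw [Subgroup.comap_map_eq_self (fun a ha => S.2.1 a (Tr.mem_ker.1 ha)),
      Subgroup.comap_map_eq_self (fun a ha => S'.2.1 a (Tr.mem_ker.1 ha))] at h4
    exact Subtype.ext h4

end

end Pool.Agent.Helper903_VG
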