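import Pool.Agent.Helper903_VG.Elem
set_option autoImplicit false
namespace Pool.Agent.Helper903_VG

/-- `O` is a hyperplane: an orbit of a subgroup of index two which contains the kernel. -/
def IsHyp (N Y : Type) [Group N] [MulAction N Y] (O : Set Y) : Prop :=
  ∃ S : Subgroup N, (∀ a : N, (∀ y : Y, a • y = y) → a ∈ S) ∧ S.index = 2 ∧
    ∃ y0 : Y, O = {z | ∃ s ∈ S, s • y0 = z}

theorem f_count_fix {N Y : Type} [Group N] [MulAction N Y] (h : ElemAct N Y 2) {n : N} {y : Y}
    (hn : n • y = y) : ∀ z : Y, n • z = z := by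
  intro z
  obtain ⟨m, rfl⟩ := h.trans y z
  rw [h.comm, hn]

theorem f_count_mem {N Y : Type} [Group N] [MulAction N Y] (h : ElemAct N Y 2) {S : Subgroup N}
    (hS : ∀ a : N, (∀ y : Y, a • y = y) → a ∈ S) (y1 : Y) (m : N) :
    m • y1 ∈ {z | ∃ s ∈ S, s • y1 = z} ↔ m ∈ S := by
  constructor
  · rintro ⟨s, hs, he⟩
    have h1 : (s⁻¹ * m) • y1 = y1 := by
      rw [mul_smul, ← he, inv_smul_smul]
    have h2 := hS _ (f_count_fix h h1)
    have := S.mul_mem hs h2
    rwa [mul_inv_cancel_left] at this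
  · intro hm
    exact ⟨m, hm, rfl⟩

/-- parity of the four points -/
theorem f_count_four {N Y : Type} [Group N] [MulAction N Y] (h : ElemAct N Y 2) {O : Set Y}
    (hO : IsHyp N Y O) (a b : N) (y : Y) :
    ((a * b) • y ∈ O ↔ (y ∈ O ↔ (a • y ∈ O ↔ b • y ∈ O))) := by
  obtain ⟨S, hS, hi, y1, rfl⟩ := hO
  obtain ⟨m, rfl⟩ := h.trans y1 y
  rw [smul_smul, smul_smul, smul_smul, f_count_mem h hS, f_count_mem h hS, f_count_mem h hS,
    f_count_mem h hS]
  have e1 := S.mul_mem_iff_of_index_two hi (a := a * b) (b := m)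
  have e2 := S.mul_mem_iff_of_index_two hi (a := a) (b := b)
  have e3 := S.mul_mem_iff_of_index_two hi (a := a) (b := m)
  have e4 := S.mul_mem_iff_of_index_two hi (a := b) (b := m)
  rw [e1, e2, e3, e4]
  generalize (a ∈ S) = p
  generalize (b ∈ S) = q
  generalize (m ∈ S) = r
  by_cases hp : p <;> by_cases hq : q <;> by_cases hr : r <;> simp [hp, hq, hr]

/-- separation by hyperplanes -/
theorem f_count_sep {N Y : Type} [Group N] [Finite N] [MulAction N Y]
    (h : ElemAct N Y 2) {y z : Y} (hyz : y ≠ z) : ∃ O : Set Y, IsHyp N Y O ∧ y ∈ O ∧ z ∉ O := by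
  obtain ⟨a, rfl⟩ := h.trans y z
  have ha : a ∉ MulAction.stabilizer N y := by
    intro h1
    exact hyz (MulAction.mem_stabilizer_iff.1 h1).symm
  have hfin : ({S : Subgroup N | MulAction.stabilizer N y ≤ S ∧ a ∉ S}).Finite := Set.toFinite _
  obtain ⟨S, hKS, hmax⟩ := hfin.exists_le_maximal
    (show MulAction.stabilizer N y ∈ {S : Subgroup N | MulAction.stabilizer N y ≤ S ∧ a ∉ S} from
      ⟨le_refl _, ha⟩)
  have haS : a ∉ S := hmax.prop.2
  have hKS' : ∀ n : N, (∀ y : Y, n • y = y) → n ∈ S := fun n hn => hKS (hn y)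
  have hnorm : S.Normal := by
    constructor
    intro s hs g
    have h1 : g * s * g⁻¹ * s⁻¹ ∈ S := by
      apply hKS'
      intro w
      rw [mul_smul, mul_smul, mul_smul, h.comm s g⁻¹ (s⁻¹ • w), smul_inv_smul, smul_inv_smul]
    have h2 := S.mul_mem h1 hs
    rwa [inv_mul_cancel_right] at h2
  have hsq : ∀ b : N, b ^ 2 ∈ S := fun b => hKS' _ (fun w => h.exp b w)
  have hidx : S.index = 2 := by
    rw [Subgroup.index_eq_two_iff]
    refine ⟨a, fun b => ?_⟩
    by_cases hb : b ∈ S
    · right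
      refine ⟨hb, fun h1 => haS ?_⟩
      have := S.mul_mem (S.inv_mem hb) h1
      rwa [inv_mul_cancel_left] at this
    · left
      refine ⟨?_, hb⟩
      have hT : a ∈ Subgroup.zpowers b ⊔ S := by
        by_contra hne
        have h2 : Subgroup.zpowers b ⊔ S ≤ S :=
          hmax.le_of_ge (show Subgroup.zpowers b ⊔ S ∈
            {S : Subgroup N | MulAction.stabilizer N y ≤ S ∧ a ∉ S} from
            ⟨hKS.trans le_sup_right, hne⟩) le_sup_right
        exact hb (h2 (Subgroup.mem_sup_left (Subgroup.mem_zpowers b)))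
      rw [← SetLike.mem_coe, Subgroup.mul_normal] at hT
      obtain ⟨c, hc, s, hs, hcs⟩ := Set.mem_mul.1 hT
      obtain ⟨i, rfl⟩ := Subgroup.mem_zpowers_iff.1 hc
      rcases Int.even_or_odd' i with ⟨j, rfl | rfl⟩
      · exfalso
        apply haS
        rw [← hcs]
        refine S.mul_mem ?_ hs
        rw [zpow_mul]
        exact S.zpow_mem (by exact_mod_cast hsq b) j
      · rw [← hcs, ← mul_assoc]
        refine S.mul_mem ?_ hs
        have h3 : b * b ^ (2 * j + 1) = (b ^ 2) ^ (j + 1) := by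
          rw [← zpow_one_add, ← zpow_natCast, ← zpow_mul]
          congr 1
          push_cast
          ring
        rw [h3]
        exact S.zpow_mem (hsq b) _
  refine ⟨{w | ∃ s ∈ S, s • y = w}, ⟨S, hKS', hidx, y, rfl⟩, ⟨1, S.one_mem, one_smul _ _⟩, ?_⟩
  rw [f_count_mem h hKS']
  exact haS

theorem f_count_pre {N Y : Type} [Group N] [Finite Y] [MulAction N Y]
    (π : Equiv.Perm Y) (hπ : ∀ O : Set Y, IsHyp N Y O → IsHyp N Y (π '' O)) {O : Set Y}
    (hO : IsHyp N Y O) : ∃ O' : Set Y, IsHyp N Y O' ∧ ∀ y, π y ∈ O ↔ y ∈ O' := by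
  let F : {O : Set Y // IsHyp N Y O} → {O : Set Y // IsHyp N Y O} := fun O => ⟨π '' O, hπ O O.2⟩
  have hF : Function.Injective F := by
    intro O1 O2 h12
    apply Subtype.ext
    have := congrArg Subtype.val h12
    exact (Set.image_injective.2 π.injective) this
  obtain ⟨O', hO'⟩ := Finite.surjective_of_injective hF ⟨O, hO⟩
  refine ⟨O', O'.2, fun y => ?_⟩
  have h1 : π '' (O' : Set Y) = O := congrArg Subtype.val hO'
  rw [← h1]
  constructor
  · rintro ⟨w, hw, he⟩
    rwa [← π.injective he]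
  · intro hy
    exact ⟨y, hy, rfl⟩

theorem f_count_mul {N Y : Type} [Group N] [Finite N] [Finite Y] [MulAction N Y]
    (h : ElemAct N Y 2) (π π' : Equiv.Perm Y)
    (hπ : ∀ O : Set Y, IsHyp N Y O → IsHyp N Y (π '' O))
    (hπ' : ∀ O : Set Y, IsHyp N Y O → IsHyp N Y (π' '' O)) (y : Y) (h0 : π y = π' y)
    {a b : N} (ha : π (a • y) = π' (a • y)) (hb : π (b • y) = π' (b • y)) :
    π ((a * b) • y) = π' ((a * b) • y) := by
  by_contra hne
  obtain ⟨O, hO, h1, h2⟩ := f_count_sep h hne
  obtain ⟨O1, hO1, e1⟩ := f_count_pre π hπ hO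
  obtain ⟨O2, hO2, e2⟩ := f_count_pre π' hπ' hO
  have k1 := f_count_four h hO1 a b y
  have k2 := f_count_four h hO2 a b y
  rw [← e1, ← e1, ← e1, ← e1] at k1
  rw [← e2, ← e2, ← e2, ← e2] at k2
  rw [← h0, ← ha, ← hb] at k2
  exact h2 (k2.2 (k1.1 h1))

theorem f_count_gen {N : Type} [Group N] [Finite N] (K : Subgroup N) (j : ℕ) :
    ∃ g : Fin j → N, K ⊔ Subgroup.closure (Set.range g) = ⊤ ∨
      2 ^ j * Nat.card K ≤ Nat.card (K ⊔ Subgroup.closure (Set.range g) : Subgroup N) := by
  induction j with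
  | zero =>
    refine ⟨Fin.elim0, Or.inr ?_⟩
    rw [pow_zero, one_mul]
    exact Nat.card_mono (Set.toFinite _) (le_sup_left : K ≤ K ⊔ _)
  | succ j ih =>
    obtain ⟨g, hg⟩ := ih
    by_cases htop : K ⊔ Subgroup.closure (Set.range g) = ⊤
    · refine ⟨Fin.cons 1 g, Or.inl ?_⟩
      rw [eq_top_iff, ← htop]
      refine sup_le_sup_left (Subgroup.closure_mono ?_) K
      rintro _ ⟨i, rfl⟩
      exact ⟨i.succ, by simp⟩
    · have hg' := hg.resolve_left htop
      obtain ⟨n, hn⟩ : ∃ n, n ∉ K ⊔ Subgroup.closure (Set.range g) := by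
        by_contra hall
        push Not at hall
        exact htop (eq_top_iff.2 fun n _ => hall n)
      refine ⟨Fin.cons n g, Or.inr ?_⟩
      have hle : K ⊔ Subgroup.closure (Set.range g) ≤
          K ⊔ Subgroup.closure (Set.range (Fin.cons n g : Fin (j + 1) → N)) := by
        refine sup_le_sup_left (Subgroup.closure_mono ?_) K
        rintro _ ⟨i, rfl⟩
        exact ⟨i.succ, by simp⟩
      have hmem : n ∈ K ⊔ Subgroup.closure (Set.range (Fin.cons n g : Fin (j + 1) → N)) :=
        Subgroup.mem_sup_right (Subgroup.subset_closure ⟨0, by simp⟩)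
      obtain ⟨c, hc⟩ := Subgroup.card_dvd_of_le hle
      have hpos : 0 < Nat.card (K ⊔ Subgroup.closure (Set.range (Fin.cons n g : Fin (j + 1) → N)) :
        Subgroup N) := Nat.card_pos
      have hc2 : 2 ≤ c := by
        rcases Nat.lt_or_ge c 2 with hc' | hc'
        · exfalso
          interval_cases c
          · omega
          · rw [mul_one] at hc
            have h3 := Subgroup.eq_of_le_of_card_ge hle (by rw [hc])
            rw [h3] at hn
            exact hn hmem
        · exact hc'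
      rw [hc, pow_succ]
      calc 2 ^ j * 2 * Nat.card K = (2 ^ j * Nat.card K) * 2 := by ring
        _ ≤ _ := Nat.mul_le_mul hg' hc2


theorem f_count {N Y : Type} [Group N] [Finite N] [Finite Y] [Nonempty Y] [MulAction N Y]
    (h : ElemAct N Y 2) :
    Nat.card {π : Equiv.Perm Y // ∀ O : Set Y, IsHyp N Y O → IsHyp N Y (π '' O)} ≤
      Nat.card Y ^ (Nat.log 2 (Nat.card Y) + 1) := by
  obtain ⟨y0⟩ := ‹Nonempty Y›
  have hpre : MulAction.IsPretransitive N Y := ⟨fun x y => h.trans x y⟩
  set K := MulAction.stabilizer N y0 with hK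
  have hidx : K.index = Nat.card Y := MulAction.index_stabilizer_of_transitive N y0
  have hcard : Nat.card K * Nat.card Y = Nat.card N := by
    rw [← hidx]; exact K.card_mul_index
  set k := Nat.log 2 (Nat.card Y) with hk
  obtain ⟨g, hg⟩ := f_count_gen K k
  have htop : K ⊔ Subgroup.closure (Set.range g) = ⊤ := by
    by_contra hne
    have h1 := hg.resolve_left hne
    obtain ⟨c, hc⟩ := Subgroup.card_subgroup_dvd_card (K ⊔ Subgroup.closure (Set.range g))
    have hpos : 0 < Nat.card N := Nat.card_pos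
    have hc2 : 2 ≤ c := by
      rcases Nat.lt_or_ge c 2 with hc' | hc'
      · exfalso
        interval_cases c
        · omega
        · rw [mul_one] at hc
          exact hne (Subgroup.eq_top_of_card_eq _ hc.symm)
      · exact hc'
    have h2 : (2 ^ k * Nat.card K) * 2 ≤ Nat.card K * Nat.card Y := by
      rw [hcard, hc]
      exact Nat.mul_le_mul h1 hc2
    have hKpos : 0 < Nat.card K := Nat.card_pos
    have h3 : 2 ^ (k + 1) ≤ Nat.card Y := by
      have h4 : Nat.card K * 2 ^ (k + 1) ≤ Nat.card K * Nat.card Y := by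
        calc Nat.card K * 2 ^ (k + 1) = (2 ^ k * Nat.card K) * 2 := by ring
          _ ≤ _ := h2
      exact Nat.le_of_mul_le_mul_left h4 hKpos
    have h5 : Nat.card Y < 2 ^ (k + 1) := Nat.lt_pow_succ_log_self (by norm_num) _
    omega
  have hcf : Nat.card (Fin (k + 1) → Y) = Nat.card Y ^ (k + 1) := by
    rw [Nat.card_fun, Nat.card_eq_fintype_card (α := Fin (k + 1)), Fintype.card_fin]
  rw [← hcf]
  refine Nat.card_le_card_of_injective
    (fun (π : {π : Equiv.Perm Y // ∀ O : Set Y, IsHyp N Y O → IsHyp N Y (π '' O)}) =>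
      fun i : Fin (k + 1) => π.1 ((Fin.cons y0 (fun i => g i • y0) : Fin (k + 1) → Y) i)) ?_
  rintro ⟨π, hπ⟩ ⟨π', hπ'⟩ he
  apply Subtype.ext
  have h0 : π y0 = π' y0 := by
    have := congrFun he 0
    simpa using this
  have hgi : ∀ i, π (g i • y0) = π' (g i • y0) := by
    intro i
    have := congrFun he i.succ
    simpa using this
  let A : Subgroup N :=
    { carrier := {n | π (n • y0) = π' (n • y0)}
      mul_mem' := fun {a b} ha hb => f_count_mul h π π' hπ hπ' y0 h0 ha hb
      one_mem' := by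
        show π ((1 : N) • y0) = π' ((1 : N) • y0)
        rw [one_smul]; exact h0
      inv_mem' := by
        intro a ha
        show π (a⁻¹ • y0) = π' (a⁻¹ • y0)
        have h1 : a⁻¹ • y0 = a • y0 := by
          have h2 := h.exp a y0
          rw [pow_two, mul_smul] at h2
          rw [inv_smul_eq_iff]
          exact h2.symm
        rw [h1]
        exact ha }
  have hA : A = ⊤ := by
    rw [eq_top_iff, ← htop]
    refine sup_le ?_ ((Subgroup.closure_le _).2 ?_)
    · intro n hn
      have hn' : n • y0 = y0 := hn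
      show π (n • y0) = π' (n • y0)
      rw [hn']; exact h0
    · rintro _ ⟨i, rfl⟩
      exact hgi i
  ext y
  obtain ⟨n, rfl⟩ := h.trans y0 y
  have : n ∈ A := by rw [hA]; trivial
  exact this


end Pool.Agent.Helper903_VG
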