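import Pool.Agent.Helper903_VG.Assemble

/-!
The final bound.
-/

set_option autoImplicit false

namespace Pool.Agent.Helper903_VG

/-- Transport of a graph with given automorphism group to `Fin m`. -/
theorem to_fin {G : Type} [Group G] {W : Type} [Finite W] (X : SimpleGraph W)
    (Θ : (X ≃g X) ≃* G) :
    ∃ (Γ : SimpleGraph (Fin (Nat.card W))) (ψ : G →* Equiv.Perm (Fin (Nat.card W))),
      Function.Injective ⇑ψ ∧
      (∀ σ : Equiv.Perm (Fin (Nat.card W)),
        (∀ x y, Γ.Adj (σ x) (σ y) ↔ Γ.Adj x y) ↔ σ ∈ Set.range ⇑ψ) := by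
  let e : W ≃ Fin (Nat.card W) := Finite.equivFin W
  let ψ : G →* Equiv.Perm (Fin (Nat.card W)) :=
    { toFun := fun g => e.symm.trans ((Θ.symm g).toEquiv.trans e)
      map_one' := by
        ext x
        rw [map_one]
        show ((e (e.symm x)) : ℕ) = _
        rw [e.apply_symm_apply]
        rfl
      map_mul' := by
        intro g h
        ext x
        rw [map_mul]
        show ((e ((Θ.symm g) ((Θ.symm h) (e.symm x)))) : ℕ) =
          (e ((Θ.symm g) (e.symm (e ((Θ.symm h) (e.symm x))))))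
        rw [e.symm_apply_apply] }
  have hψ : ∀ g x, ψ g x = e ((Θ.symm g) (e.symm x)) := fun g x => rfl
  refine ⟨X.comap e.symm, ψ, ?_, ?_⟩
  · intro g h hgh
    apply Θ.symm.injective
    ext w
    have h1 : ψ g (e w) = ψ h (e w) := by rw [hgh]
    rw [hψ, hψ, e.symm_apply_apply] at h1
    exact e.injective h1
  · intro σ
    constructor
    · intro hσ
      let f : X ≃g X :=
        { toEquiv := e.trans (σ.trans e.symm)
          map_rel_iff' := by
            intro a b
            have := hσ (e a) (e b)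
            simp only [SimpleGraph.comap_adj, e.symm_apply_apply] at this
            exact this }
      refine ⟨Θ f, ?_⟩
      ext x
      rw [hψ, Θ.symm_apply_apply]
      show ((e (e.symm (σ (e (e.symm x))))) : ℕ) = _
      rw [e.apply_symm_apply, e.apply_symm_apply]
    · rintro ⟨g, rfl⟩ x y
      rw [hψ, hψ, SimpleGraph.comap_adj, SimpleGraph.comap_adj, e.symm_apply_apply,
        e.symm_apply_apply]
      exact (Θ.symm g).map_rel_iff

theorem clog_bound (β : ℕ) (hβ : 0 < β) :
    (Nat.clog 2 (max 3 β) : ℝ) ≤ 3 + 3 / 2 * Real.log β := by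
  set t := Nat.clog 2 (max 3 β) with ht
  have hlog : 0 ≤ Real.log β := Real.log_nonneg (by exact_mod_cast hβ)
  rcases Nat.lt_or_ge t 3 with h | h
  · have : (t : ℝ) ≤ 3 := by exact_mod_cast h.le
    linarith
  have h1 : 2 ^ (t - 1) < max 3 β := by
    have := Nat.pow_pred_clog_lt_self (b := 2) (by norm_num) (x := max 3 β)
      (lt_of_lt_of_le (by norm_num) (le_max_left 3 β))
    rw [← ht] at this
    exact this
  have h2 : 2 ^ (t - 1) < 4 * β := by
    refine lt_of_lt_of_le h1 ?_
    apply max_le <;> omega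
  have h3 : 2 ^ (t - 3) < β := by
    have : 2 ^ (t - 1) = 4 * 2 ^ (t - 3) := by
      rw [show t - 1 = (t - 3) + 2 by omega, pow_add]
      ring
    omega
  have h4 : ((t - 3 : ℕ) : ℝ) * Real.log 2 ≤ Real.log β := by
    rw [← Real.log_pow]
    apply Real.log_le_log (by positivity)
    exact_mod_cast h3.le
  have h5 : ((t - 3 : ℕ) : ℝ) = t - 3 := by
    rw [Nat.cast_sub h]; norm_num
  have h6 := Real.log_two_gt_d9
  have h7 : (0 : ℝ) ≤ ((t - 3 : ℕ) : ℝ) := Nat.cast_nonneg _
  have h8 : ((t - 3 : ℕ) : ℝ) * (2 / 3) ≤ Real.log β := by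
    refine le_trans ?_ h4
    gcongr
    linarith
  rw [h5] at h8
  linarith

theorem final_bound (n β s : ℕ) (hn : 0 < n) (hβ : 0 < β) (hβn : β ≤ n.factorial)
    (hs : s = Nat.sqrt (Nat.clog 2 (max 3 β) + 2) + 1) :
    ((2 * s + 1) * (60 * (n + (2 * s + 2)) + 1) : ℝ) < 20000 * Real.sqrt (1 + Real.log β) * n := by
  have hlog : 0 ≤ Real.log β := Real.log_nonneg (by exact_mod_cast hβ)
  set x := Real.sqrt (1 + Real.log β) with hx
  have hx2 : x ^ 2 = 1 + Real.log β := Real.sq_sqrt (by linarith)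
  have hx1 : 1 ≤ x := by
    rw [hx, Real.one_le_sqrt]; linarith
  have hn1 : (1 : ℝ) ≤ n := by exact_mod_cast hn
  have h1 : Real.log β ≤ (n : ℝ) ^ 2 := by
    have h2 : (β : ℝ) ≤ (n : ℝ) ^ n := by
      have h3 : β ≤ n ^ n := hβn.trans (Nat.factorial_le_pow n)
      exact_mod_cast h3
    calc Real.log β ≤ Real.log ((n : ℝ) ^ n) := Real.log_le_log (by exact_mod_cast hβ) h2
      _ = n * Real.log n := Real.log_pow n n
      _ ≤ n * n := by
        gcongr
        exact (Real.log_le_sub_one_of_pos (by linarith)).trans (by linarith)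
      _ = (n : ℝ) ^ 2 := by ring
  have hxn : x ≤ 2 * n := by
    rw [hx]
    apply Real.sqrt_le_iff.2
    constructor
    · linarith
    · nlinarith
  have hs' : (s : ℝ) ≤ 4 * x := by
    have h2 : (Nat.sqrt (Nat.clog 2 (max 3 β) + 2) : ℝ) ≤ 3 * x := by
      have h3 := Real.nat_sqrt_le_real_sqrt (a := Nat.clog 2 (max 3 β) + 2)
      refine h3.trans ?_
      apply Real.sqrt_le_iff.2
      constructor
      · linarith
      · have h4 := clog_bound β hβ
        push_cast at h4 ⊢
        nlinarith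
    rw [hs]
    push_cast
    linarith
  have hs0 : (0 : ℝ) ≤ s := Nat.cast_nonneg _
  have e1 : (2 * s + 1 : ℝ) ≤ 9 * x := by linarith
  have e2 : (60 * (n + (2 * s + 2)) + 1 : ℝ) ≤ 1141 * n := by linarith
  calc ((2 * s + 1) * (60 * (n + (2 * s + 2)) + 1) : ℝ) ≤ (9 * x) * (1141 * n) := by
        apply mul_le_mul e1 e2 (by positivity) (by positivity)
    _ < 20000 * x * n := by
        have : 0 < x * n := by positivity
        nlinarith

/-- A finite group with a solvable normal subgroup of index `β` that is the automorphism group of an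
edge-coloured digraph on `n` vertices is the automorphism group of a graph with fewer than
`20000 * √(1 + log β) * n` vertices. -/
theorem main {G : Type} [Group G] [Finite G] (N : Subgroup G) [N.Normal]
    (hN : Group.IsSolvable N) (n k : ℕ)
    (c : Fin n → Fin n → Option (Fin k)) (hn : 0 < n)
    (h : ∃ φ : G →* Equiv.Perm (Fin n), Function.Injective ⇑φ ∧
        ∀ σ : Equiv.Perm (Fin n),
          (∀ x y : Fin n, c (σ x) (σ y) = c x y) ↔ σ ∈ Set.range ⇑φ) :
    ∃ (m : ℕ) (Γ : SimpleGraph (Fin m)) (ψ : G →* Equiv.Perm (Fin m)),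
        Function.Injective ⇑ψ ∧
        (∀ σ : Equiv.Perm (Fin m),
          (∀ x y : Fin m, Γ.Adj (σ x) (σ y) ↔ Γ.Adj x y) ↔ σ ∈ Set.range ⇑ψ) ∧
        (m : ℝ) < 20000 * Real.sqrt (1 + Real.log N.index) * n := by
  obtain ⟨φ, hφ, hc⟩ := h
  have hβ : 0 < N.index := Nat.pos_of_ne_zero Subgroup.index_ne_zero_of_finite
  have hβn : N.index ≤ n.factorial := by
    calc N.index ≤ Nat.card G := Nat.le_of_dvd Nat.card_pos N.index_dvd_card
      _ ≤ Nat.card (Equiv.Perm (Fin n)) := Nat.card_le_card_of_injective φ hφ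
      _ = n.factorial := by rw [Nat.card_perm, Nat.card_fin]
  let K := max 3 N.index
  let t := Nat.clog 2 K
  let s := Nat.sqrt (t + 2) + 1
  have hKt : K ≤ 2 ^ t := Nat.le_pow_clog (by norm_num) K
  have hs : t + 2 ≤ s * s := (Nat.lt_succ_sqrt (t + 2)).le
  have hmain : @HasE G _ K (Fin n ⊕ Fin (2 * s + 2)) (vAct φ (2 * s + 2))
      (60 * Nat.card (Fin n ⊕ Fin (2 * s + 2))) := by
    let _ := vAct φ (2 * s + 2)
    exact main_prop (le_max_left 3 N.index) N (le_max_right 3 N.index) _ _ rfl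
  obtain ⟨W, hW, X, ⟨Θ⟩, hcard⟩ := assemble c φ hφ hc t s hKt hs (Nat.succ_pos _) _ hmain
  obtain ⟨Γ, ψ, h1, h2⟩ := to_fin X Θ
  refine ⟨Nat.card W, Γ, ψ, h1, h2, ?_⟩
  refine lt_of_le_of_lt hcard ?_
  have := final_bound n N.index s hn hβ hβn rfl
  rw [Nat.card_sum, Nat.card_fin, Nat.card_fin]
  push_cast
  push_cast at this
  exact this

end Pool.Agent.Helper903_VG
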