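import Pool.Agent.Helper903_VG.T4

/-!
Structure of a primitive group with a normal series whose factors are abelian or small.
-/

set_option autoImplicit false

namespace Pool.Agent.Helper903_VG

open MulAction

variable {M : Type} [Group M]

/-- A normal subgroup, abelian modulo `K`, contains an elementary abelian one. -/
lemma prim_rel [Finite M] (K R : Subgroup M) [K.Normal] [R.Normal]
    (hc : ∀ a ∈ R, ∀ b ∈ R, a * b * a⁻¹ * b⁻¹ ∈ K) (h : ¬ R ≤ K) :
    ∃ (r : ℕ) (N : Subgroup M), r.Prime ∧ N.Normal ∧ K ≤ N ∧ ¬ N ≤ K ∧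
      (∀ a ∈ N, ∀ b ∈ N, a * b * a⁻¹ * b⁻¹ ∈ K) ∧ ∀ a ∈ N, a ^ r ∈ K := by
  have hAn : (R.map (QuotientGroup.mk' K)).Normal :=
    Subgroup.Normal.map inferInstance _ (QuotientGroup.mk'_surjective K)
  have hcomm : ∀ a b : (R.map (QuotientGroup.mk' K)), a * b = b * a := by
    rintro ⟨_, a, ha, rfl⟩ ⟨_, b, hb, rfl⟩
    apply Subtype.ext
    show (QuotientGroup.mk' K a) * (QuotientGroup.mk' K b) =
      (QuotientGroup.mk' K b) * (QuotientGroup.mk' K a)
    have h1 := (QuotientGroup.eq_one_iff (N := K) _).2 (hc a ha b hb)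
    rw [QuotientGroup.mk_mul, QuotientGroup.mk_mul, QuotientGroup.mk_mul, QuotientGroup.mk_inv,
      QuotientGroup.mk_inv, mul_inv_eq_one, mul_inv_eq_iff_eq_mul] at h1
    exact h1
  have hAs : Group.IsSolvable (R.map (QuotientGroup.mk' K)) := Group.isSolvable_of_comm hcomm
  have hA0 : R.map (QuotientGroup.mk' K) ≠ ⊥ := by
    intro h0
    rw [Subgroup.map_eq_bot_iff, QuotientGroup.ker_mk'] at h0
    exact h h0
  obtain ⟨r, B, hr, hBn, hB0, -, hc, he⟩ := t4_min _ hAn hAs hA0
  refine ⟨r, B.comap (QuotientGroup.mk' K), hr, inferInstance, ?_, ?_, ?_, ?_⟩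
  · intro x hx
    rw [Subgroup.mem_comap, QuotientGroup.mk'_apply, (QuotientGroup.eq_one_iff x).2 hx]
    exact B.one_mem
  · intro hle
    apply hB0
    rw [eq_bot_iff]
    intro y hy
    obtain ⟨x, rfl⟩ := QuotientGroup.mk'_surjective K y
    have hx : x ∈ K := hle hy
    rw [Subgroup.mem_bot, QuotientGroup.mk'_apply]
    exact (QuotientGroup.eq_one_iff x).2 hx
  · intro a ha b hb
    rw [← QuotientGroup.eq_one_iff]
    have := hc _ ha _ hb
    simp only [QuotientGroup.mk'_apply] at this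
    rw [QuotientGroup.mk_mul, QuotientGroup.mk_mul, QuotientGroup.mk_mul, QuotientGroup.mk_inv,
      QuotientGroup.mk_inv, this]
    group
  · intro a ha
    rw [← QuotientGroup.eq_one_iff, QuotientGroup.mk_pow]
    exact he _ ha

section prim

variable {D N : Subgroup M}

lemma prim_top (hD : IsCoatom D) {A : Subgroup M} (hA : ¬ A ≤ D) : A ⊔ D = ⊤ :=
  hD.2 _ (right_lt_sup.2 hA)

lemma prim_fac (hD : IsCoatom D) (hNn : N.Normal) (hND : ¬ N ≤ D) (x : M) :
    ∃ a ∈ N, ∃ d ∈ D, a * d = x := by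
  have : x ∈ N ⊔ D := by rw [prim_top hD hND]; trivial
  exact Subgroup.mem_sup_of_normal_left.1 this

lemma prim_inf (hD : IsCoatom D) (hNn : N.Normal) (hND : ¬ N ≤ D)
    (hNc : ∀ a ∈ N, ∀ b ∈ N, a * b * a⁻¹ * b⁻¹ ∈ D.normalCore) : N ⊓ D ≤ D.normalCore := by
  have hn : (N ⊓ D).Normal := by
    constructor
    rintro x ⟨hxN, hxD⟩ g
    refine ⟨hNn.conj_mem x hxN g, ?_⟩
    obtain ⟨a, ha, d, hd, he⟩ := prim_fac hD hNn hND g⁻¹
    have hg : g = d⁻¹ * a⁻¹ := by rw [← mul_inv_rev, he, inv_inv]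
    have hc : a⁻¹ * x * a ∈ D := by
      have h1 := hNc a⁻¹ (N.inv_mem ha) x hxN
      have h2 : a⁻¹ * x * a = (a⁻¹ * x * a⁻¹⁻¹ * x⁻¹) * x := by group
      rw [h2]
      exact D.mul_mem (D.normalCore_le h1) hxD
    have h3 : g * x * g⁻¹ = d⁻¹ * (a⁻¹ * x * a) * d⁻¹⁻¹ := by rw [hg]; group
    rw [SetLike.mem_coe, h3]
    exact D.mul_mem (D.mul_mem (D.inv_mem hd) hc) (D.inv_mem (D.inv_mem hd))
  exact Subgroup.normal_le_normalCore.2 inf_le_right

/-- `N` is minimal normal modulo the core. -/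
lemma prim_min (hD : IsCoatom D) (hNn : N.Normal) (hND : ¬ N ≤ D)
    (hNc : ∀ a ∈ N, ∀ b ∈ N, a * b * a⁻¹ * b⁻¹ ∈ D.normalCore) {C : Subgroup M} (hC : C.Normal)
    (hKC : D.normalCore ≤ C) (hCK : ¬ C ≤ D.normalCore) : N ≤ C ∨ ¬ C ≤ N := by
  by_cases hCN : C ≤ N
  · left
    have hCD : ¬ C ≤ D := fun h => hCK (Subgroup.normal_le_normalCore.2 h)
    intro x hx
    obtain ⟨c, hc, d, hd, rfl⟩ := prim_fac hD hC hCD x
    have hdN : d ∈ N := by
      have := N.mul_mem (N.inv_mem (hCN hc)) hx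
      rwa [inv_mul_cancel_left] at this
    exact C.mul_mem hc (hKC (prim_inf hD hNn hND hNc ⟨hdN, hd⟩))
  · exact Or.inr hCN

/-- If `Q` centralises `N` modulo the core then `Q ≤ N`. -/
lemma prim_self (hD : IsCoatom D) (hNn : N.Normal) (hND : ¬ N ≤ D) (hKN : D.normalCore ≤ N)
    {Q : Subgroup M} (hNQ : N ≤ Q)
    (hcen : ∀ a ∈ Q, ∀ x ∈ N, a * x * a⁻¹ * x⁻¹ ∈ D.normalCore) : Q ≤ N := by
  have hQDK : Q ⊓ D ≤ D.normalCore := by
    rintro x ⟨hxQ, hxD⟩ b
    obtain ⟨a, ha, d, hd, he⟩ := prim_fac hD hNn hND b⁻¹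
    have hbe : b = d⁻¹ * a⁻¹ := by rw [← mul_inv_rev, he, inv_inv]
    have h1 := hcen x⁻¹ (Q.inv_mem hxQ) a⁻¹ (N.inv_mem ha)
    have hc : a⁻¹ * x * a ∈ D := by
      have h2 : a⁻¹ * x * a = x * (x⁻¹ * a⁻¹ * x⁻¹⁻¹ * a⁻¹⁻¹) := by group
      rw [h2]
      exact D.mul_mem hxD (D.normalCore_le h1)
    have h3 : b * x * b⁻¹ = d⁻¹ * (a⁻¹ * x * a) * d⁻¹⁻¹ := by rw [hbe]; group
    rw [h3]
    exact D.mul_mem (D.mul_mem (D.inv_mem hd) hc) (D.inv_mem (D.inv_mem hd))
  intro y hy
  obtain ⟨a, ha, d, hd, rfl⟩ := prim_fac hD hNn hND y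
  have hdQ : d ∈ Q := by
    have := Q.mul_mem (Q.inv_mem (hNQ ha)) hy
    rwa [inv_mul_cancel_left] at this
  exact N.mul_mem ha (hKN (hQDK ⟨hdQ, hd⟩))

/-- The centraliser of `Q` in `N` modulo the core is trivial. -/
lemma prim_cen (hD : IsCoatom D) (hNn : N.Normal) (hND : ¬ N ≤ D) (hKN : D.normalCore ≤ N)
    (hNc : ∀ a ∈ N, ∀ b ∈ N, a * b * a⁻¹ * b⁻¹ ∈ D.normalCore)
    {Q : Subgroup M} (hQn : Q.Normal) (hNQ : N ≤ Q) (hQN : ¬ Q ≤ N) :
    ∀ x ∈ N, (∀ a ∈ Q, a * x * a⁻¹ * x⁻¹ ∈ D.normalCore) → x ∈ D.normalCore := by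
  by_contra hcon
  push Not at hcon
  obtain ⟨x0, hx0N, hx0c, hx0K⟩ := hcon
  set K := D.normalCore with hK
  set C : Subgroup M := N ⊓ (Subgroup.centralizer
    ((Q.map (QuotientGroup.mk' K) : Subgroup (M ⧸ K)) : Set (M ⧸ K))).comap
      (QuotientGroup.mk' K) with hC
  have hQmn : (Q.map (QuotientGroup.mk' K)).Normal :=
    Subgroup.Normal.map hQn _ (QuotientGroup.mk'_surjective K)
  have hCn : C.Normal := by
    rw [hC]; infer_instance
  have hCm : ∀ x, x ∈ C ↔ x ∈ N ∧ ∀ a ∈ Q, a * x * a⁻¹ * x⁻¹ ∈ K := by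
    intro x
    rw [hC, Subgroup.mem_inf, Subgroup.mem_comap, Subgroup.mem_centralizer_iff]
    refine and_congr_right fun _ => ?_
    constructor
    · intro h a ha
      have h1 := h (QuotientGroup.mk' K a) (Subgroup.mem_map_of_mem _ ha)
      rw [← QuotientGroup.eq_one_iff]
      simp only [QuotientGroup.mk'_apply] at h1
      rw [QuotientGroup.mk_mul, QuotientGroup.mk_mul, QuotientGroup.mk_mul,
        QuotientGroup.mk_inv, QuotientGroup.mk_inv, h1]
      group
    · rintro h _ ⟨a, ha, rfl⟩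
      have h1 := h a ha
      rw [← QuotientGroup.eq_one_iff, QuotientGroup.mk_mul, QuotientGroup.mk_mul,
        QuotientGroup.mk_mul, QuotientGroup.mk_inv, QuotientGroup.mk_inv,
        mul_inv_eq_one, mul_inv_eq_iff_eq_mul] at h1
      exact h1
  have hKC : K ≤ C := by
    intro x hx
    rw [hCm]
    refine ⟨hKN hx, fun a _ => ?_⟩
    have hKn : K.Normal := D.normalCore_normal
    exact K.mul_mem (hKn.conj_mem x hx a) (K.inv_mem hx)
  have hCK : ¬ C ≤ K := fun h => hx0K (h ((hCm x0).2 ⟨hx0N, hx0c⟩))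
  have hCN : C ≤ N := inf_le_left
  rcases prim_min hD hNn hND hNc hCn hKC hCK with h | h
  · exact hQN (prim_self hD hNn hND hKN hNQ (fun a ha x hx => ((hCm x).1 (h hx)).2 a ha))
  · exact h hCN

/-- No subgroup of index two between the core and `N` is invariant under `Q`. -/
lemma prim_two (hD : IsCoatom D) (hNn : N.Normal) (hND : ¬ N ≤ D) (hKN : D.normalCore ≤ N)
    (hNc : ∀ a ∈ N, ∀ b ∈ N, a * b * a⁻¹ * b⁻¹ ∈ D.normalCore)
    {Q : Subgroup M} (hQn : Q.Normal) (hNQ : N ≤ Q) (hQN : ¬ Q ≤ N) (S : Subgroup M)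
    (hKS : D.normalCore ≤ S) (hSN : S ≤ N) (hrel : S.relIndex N = 2) :
    ∃ a ∈ Q, ∃ s ∈ S, a * s * a⁻¹ ∉ S := by
  by_contra hcon
  push Not at hcon
  -- products of two elements outside `S`
  obtain ⟨t, htN, ht⟩ := Subgroup.relIndex_eq_two_iff.1 hrel
  have hmul : ∀ x ∈ N, ∀ y ∈ N, x ∉ S → y ∉ S → x * y ∈ S := by
    intro x hx y hy hxS hyS
    have h1 := ht x⁻¹ (N.inv_mem hx)
    have h2 := ht y hy
    have h3 : x⁻¹ ∉ S := fun h => hxS (by simpa using S.inv_mem h)
    have h4 : x⁻¹ * t ∈ S := by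
      rcases h1 with h | h
      · exact h.1
      · exact absurd h.1 h3
    have h5 : y * t ∈ S := by
      rcases h2 with h | h
      · exact h.1
      · exact absurd h.1 hyS
    -- `x y = (x⁻¹ t ...)`
    by_contra h6
    have h7 := ht (x * y) (N.mul_mem hx hy)
    have h8 : x * y * t ∈ S := by
      rcases h7 with h | h
      · exact h.1
      · exact absurd h.1 h6
    have h9 : x ∈ S := by
      have : x = (x * y * t) * (y * t)⁻¹ := by group
      rw [this]
      exact S.mul_mem h8 (S.inv_mem h5)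
    exact hxS h9
  have hQS : ∀ a ∈ Q, ∀ x ∈ N, a * x * a⁻¹ * x⁻¹ ∈ S := by
    intro a ha x hx
    by_cases hxS : x ∈ S
    · exact S.mul_mem (hcon a ha x hxS) (S.inv_mem hxS)
    · apply hmul _ (hNn.conj_mem x hx a) _ (N.inv_mem hx)
      · intro h
        apply hxS
        have := hcon a⁻¹ (Q.inv_mem ha) _ h
        have e : a⁻¹ * (a * x * a⁻¹) * a⁻¹⁻¹ = x := by group
        rwa [e] at this
      · intro h
        exact hxS (by simpa using S.inv_mem h)
  -- the subgroup generated by the commutators and the core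
  have hKn : D.normalCore.Normal := D.normalCore_normal
  set C : Subgroup M := ⁅Q, N⁆ ⊔ D.normalCore with hC
  have hCn : C.Normal := by rw [hC]; infer_instance
  have hCS : C ≤ S := by
    rw [hC]
    apply sup_le _ hKS
    rw [Subgroup.commutator_le]
    intro a ha x hx
    exact hQS a ha x hx
  have hKC : D.normalCore ≤ C := le_sup_right
  by_cases hCK : C ≤ D.normalCore
  · apply hQN
    apply prim_self hD hNn hND hKN hNQ
    intro a ha x hx
    exact hCK ((le_sup_left : ⁅Q, N⁆ ≤ C) (Subgroup.commutator_mem_commutator ha hx))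
  · rcases prim_min hD hNn hND hNc hCn hKC hCK with h | h
    · have h1 : N ≤ S := h.trans hCS
      have h2 : S.relIndex N = 1 := Subgroup.relIndex_eq_one.2 h1
      omega
    · exact h (hCS.trans hSN)

lemma prim_ne_two [Finite M] (hD : IsCoatom D) (hNn : N.Normal) (hND : ¬ N ≤ D)
    (hKN : D.normalCore ≤ N)
    (hNc : ∀ a ∈ N, ∀ b ∈ N, a * b * a⁻¹ * b⁻¹ ∈ D.normalCore)
    (hNe : ∀ a ∈ N, a ^ 2 ∈ D.normalCore)
    {Q : Subgroup M} (hQn : Q.Normal) (hNQ : N ≤ Q) (hQN : ¬ Q ≤ N)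
    (hQe : ∀ a ∈ Q, a ^ 2 ∈ N) : False := by
  have hcen := prim_cen hD hNn hND hKN hNc hQn hNQ hQN
  have hNK : ¬ N ≤ D.normalCore := fun h => hND (h.trans D.normalCore_le)
  set K := D.normalCore with hK
  set f := QuotientGroup.mk' K with hf
  have hfe : ∀ x, f x = 1 ↔ x ∈ K := fun x => QuotientGroup.eq_one_iff x
  have hcen' : ∀ x ∈ N.map f, (∀ a ∈ Q.map f, a * x * a⁻¹ = x) → x = 1 := by
    rintro _ ⟨x, hx, rfl⟩ h
    rw [hfe]
    apply hcen x hx
    intro a ha
    have h1 := h (f a) (Subgroup.mem_map_of_mem _ ha)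
    rw [← hfe, map_mul, map_mul, map_mul, map_inv, map_inv, h1, mul_inv_cancel]
  have htriv : ∀ a ∈ Q.map f, ∀ x ∈ N.map f, a ^ 2 * x * (a ^ 2)⁻¹ = x := by
    rintro _ ⟨a, ha, rfl⟩ _ ⟨x, hx, rfl⟩
    have h1 := hNc (a ^ 2) (hQe a ha) x hx
    rw [← hfe, map_mul, map_mul, map_mul, map_inv, map_inv, map_pow, mul_inv_eq_one] at h1
    exact h1
  have hinvN : ∀ a ∈ Q.map f, ∀ x ∈ N.map f, a * x * a⁻¹ ∈ N.map f := by
    intro a _ x hx
    have : (N.map f).Normal := Subgroup.Normal.map hNn _ (QuotientGroup.mk'_surjective K)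
    exact this.conj_mem x hx a
  have h2N : IsPGroup 2 (N.map f) := by
    rintro ⟨_, x, hx, rfl⟩
    refine ⟨1, Subtype.ext ?_⟩
    show (f x) ^ (2 ^ 1) = 1
    rw [pow_one, ← map_pow, hfe]
    exact hNe x hx
  obtain ⟨d, hd⟩ := (IsPGroup.iff_card (p := 2)).1 h2N
  have hN1 : N.map f ≠ ⊥ := by
    intro h
    rw [Subgroup.map_eq_bot_iff, hf, QuotientGroup.ker_mk'] at h
    exact hNK h
  have hdvd : 2 ∣ Nat.card (N.map f : Set (M ⧸ K)) := by
    have h1 : Nat.card (N.map f) ≠ 1 := fun h => hN1 (Subgroup.card_eq_one.1 h)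
    have h2 : d ≠ 0 := by
      rintro rfl
      exact h1 (by rw [hd, pow_zero])
    show 2 ∣ Nat.card (N.map f)
    rw [hd]
    exact dvd_pow_self 2 h2
  obtain ⟨x, hxN, hx1, hxf⟩ := t4_fix2 (Q.map f) (N.map f : Set (M ⧸ K)) 2 Nat.prime_two
    hinvN htriv hdvd 1 (N.map f).one_mem (fun a _ => by group)
  exact hx1 (hcen' x hxN hxf)

end prim

/-- A series of normal subgroups whose factors are abelian or of order at most `β`. -/
structure Ser (M : Type) [Group M] (β ℓ : ℕ) (S : ℕ → Subgroup M) : Prop where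
  bot : S 0 = ⊥
  top : S ℓ = ⊤
  normal : ∀ i ≤ ℓ, (S i).Normal
  mono : ∀ i < ℓ, S i ≤ S (i + 1)
  factor : ∀ i < ℓ, (∀ a ∈ S (i + 1), ∀ b ∈ S (i + 1), a * b * a⁻¹ * b⁻¹ ∈ S i) ∨
    (S i).relIndex (S (i + 1)) ≤ β

lemma Ser.exists_step {β ℓ : ℕ} {S : ℕ → Subgroup M} (hS : Ser M β ℓ S) {K : Subgroup M}
    (hK : K ≠ ⊤) : ∃ i < ℓ, S i ≤ K ∧ ¬ S (i + 1) ≤ K := by
  by_contra hcon
  push Not at hcon
  have key : ∀ i ≤ ℓ, S i ≤ K := by
    intro i
    induction i with
    | zero => intro _; rw [hS.bot]; exact bot_le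
    | succ i ih => intro hi; exact hcon i (by omega) (ih (by omega))
  have := key ℓ le_rfl
  rw [hS.top] at this
  exact hK (top_le_iff.1 this)

theorem prim_series [Finite M] {β ℓ : ℕ} {S : ℕ → Subgroup M} (hS : Ser M β ℓ S)
    (D : Subgroup M) (hD : IsCoatom D) :
    D.index ≤ max 2 β ∨
    ∃ (r : ℕ) (N : Subgroup M), r.Prime ∧ N.Normal ∧ D.normalCore ≤ N ∧ ¬ N ≤ D ∧
      (∀ a ∈ N, ∀ b ∈ N, a * b * a⁻¹ * b⁻¹ ∈ D.normalCore) ∧ (∀ a ∈ N, a ^ r ∈ D.normalCore) ∧
      (r ≠ 2 ∨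
        ∃ Q : Subgroup M, Q.Normal ∧ N ≤ Q ∧
          (∀ S : Subgroup M, D.normalCore ≤ S → S ≤ N → S.relIndex N = 2 →
            ∃ a ∈ Q, ∃ s ∈ S, a * s * a⁻¹ ∉ S) ∧
          (N.relIndex Q ≤ β ∨ ∃ q : ℕ, q.Prime ∧ q ≠ 2 ∧
            (∀ a ∈ Q, ∀ b ∈ Q, a * b * a⁻¹ * b⁻¹ ∈ N) ∧ (∀ a ∈ Q, a ^ q ∈ N))) := by
  have hKn : D.normalCore.Normal := D.normalCore_normal
  have hKtop : D.normalCore ≠ ⊤ := fun h => hD.1 (top_le_iff.1 (h ▸ D.normalCore_le))
  obtain ⟨i, hi, hiK, hiK'⟩ := hS.exists_step hKtop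
  have hni := hS.normal (i + 1) hi
  have hiD : ¬ S (i + 1) ≤ D := fun h => hiK' (Subgroup.normal_le_normalCore.2 h)
  rcases hS.factor i hi with hc | hidx
  · -- abelian factor
    obtain ⟨r, N, hr, hNn, hKN, hNK, hNc, hNe⟩ := prim_rel D.normalCore (S (i + 1))
      (fun a ha b hb => hiK (hc a ha b hb)) hiK'
    have hND : ¬ N ≤ D := fun h => hNK (Subgroup.normal_le_normalCore.2 h)
    by_cases hr2 : r = 2
    · subst hr2
      by_cases hNtop : N = ⊤
      · -- index two
        left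
        refine le_trans ?_ (le_max_left 2 β)
        have hinf := prim_inf hD hNn hND hNc
        rw [hNtop, top_inf_eq] at hinf
        obtain ⟨x, hx⟩ : ∃ x, x ∉ D := by
          by_contra h
          push Not at h
          exact hD.1 (eq_top_iff.2 fun x _ => h x)
        have hDK : D.normalCore = D := le_antisymm D.normalCore_le hinf
        have hDn : D.Normal := by rw [← hDK]; exact hKn
        -- `D` together with `x D` is everything
        have hA : ∀ y, y ∈ D ∨ x⁻¹ * y ∈ D := by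
          let A : Subgroup M :=
            { carrier := {y | y ∈ D ∨ x⁻¹ * y ∈ D}
              one_mem' := Or.inl D.one_mem
              mul_mem' := by
                rintro a b (ha | ha) (hb | hb)
                · exact Or.inl (D.mul_mem ha hb)
                · right
                  have h1 := hDn.conj_mem a ha x⁻¹
                  have e : x⁻¹ * (a * b) = (x⁻¹ * a * x⁻¹⁻¹) * (x⁻¹ * b) := by group
                  rw [e]
                  exact D.mul_mem h1 hb
                · right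
                  rw [← mul_assoc]
                  exact D.mul_mem ha hb
                · left
                  have h1 := hNe x (by rw [hNtop]; trivial)
                  rw [hDK] at h1
                  have h2 := hDn.conj_mem _ ha x⁻¹
                  have e : a * b = x ^ 2 * (x⁻¹ * (x⁻¹ * a) * x⁻¹⁻¹) * (x⁻¹ * b) := by
                    rw [pow_two]; group
                  rw [e]
                  exact D.mul_mem (D.mul_mem h1 h2) hb
              inv_mem' := by
                rintro a (ha | ha)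
                · exact Or.inl (D.inv_mem ha)
                · right
                  have h1 := hNe x (by rw [hNtop]; trivial)
                  rw [hDK] at h1
                  have h2 := hDn.conj_mem _ (D.inv_mem ha) x
                  have e : x⁻¹ * a⁻¹ = (x ^ 2)⁻¹ * (x * (x⁻¹ * a)⁻¹ * x⁻¹) := by
                    rw [pow_two]; group
                  rw [e]
                  exact D.mul_mem (D.inv_mem h1) h2 }
          have hDA : D < A := by
            refine lt_of_le_of_ne (fun y hy => Or.inl hy) ?_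
            intro h
            have : x ∈ A := Or.inr (by rw [inv_mul_cancel]; exact D.one_mem)
            rw [← h] at this
            exact hx this
          have := hD.2 A hDA
          intro y
          have hy : y ∈ A := by rw [this]; trivial
          exact hy
        -- count
        have hle : Nat.card (M ⧸ D) ≤ Nat.card (Fin 2) := by
          refine Nat.card_le_card_of_surjective
            (fun j : Fin 2 => if j = 0 then ((1 : M) : M ⧸ D) else ((x : M) : M ⧸ D)) ?_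
          intro y
          obtain ⟨y, rfl⟩ := QuotientGroup.mk_surjective y
          rcases hA y with h | h
          · refine ⟨0, ?_⟩
            simp only [if_true]
            rw [QuotientGroup.eq, inv_one, one_mul]
            exact h
          · refine ⟨1, ?_⟩
            simp only [one_ne_zero, if_false]
            rw [QuotientGroup.eq]
            exact h
        rw [Nat.card_fin] at hle
        exact hle
      · right
        refine ⟨2, N, hr, hNn, hKN, hND, hNc, hNe, Or.inr ?_⟩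
        obtain ⟨j, hj, hjN, hjN'⟩ := hS.exists_step hNtop
        have hnj := hS.normal (j + 1) hj
        rcases hS.factor j hj with hcj | hidxj
        · obtain ⟨q, Q, hq, hQn, hNQ, hQN, hQc, hQe⟩ := prim_rel N (S (j + 1))
            (fun a ha b hb => hjN (hcj a ha b hb)) hjN'
          refine ⟨Q, hQn, hNQ, prim_two hD hNn hND hKN hNc hQn hNQ hQN, Or.inr ⟨q, hq, ?_, hQc, hQe⟩⟩
          rintro rfl
          exact prim_ne_two hD hNn hND hKN hNc hNe hQn hNQ hQN hQe
        · refine ⟨S (j + 1) ⊔ N, inferInstance, le_sup_right, ?_, Or.inl ?_⟩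
          · refine prim_two hD hNn hND hKN hNc inferInstance le_sup_right ?_
            intro h
            exact hjN' (le_sup_left.trans h)
          · rw [Subgroup.relIndex_sup_right]
            refine le_trans (Subgroup.relIndex_le_of_le_left hjN ?_) hidxj
            exact Subgroup.index_ne_zero_of_finite
    · right
      exact ⟨r, N, hr, hNn, hKN, hND, hNc, hNe, Or.inl hr2⟩
  · -- small factor
    left
    refine le_trans ?_ (hidx.trans (le_max_right 2 β))
    have hiD' : S i ≤ D := hiK.trans D.normalCore_le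
    let g : (S (i + 1) ⧸ (S i).subgroupOf (S (i + 1))) → M ⧸ D :=
      Quotient.lift (fun s : S (i + 1) => ((s : M) : M ⧸ D)) (by
        intro a b h
        have h1 := QuotientGroup.leftRel_apply.1 h
        rw [Subgroup.mem_subgroupOf] at h1
        exact QuotientGroup.eq.2 (hiD' h1))
    have hg : Function.Surjective g := by
      intro y
      obtain ⟨y, rfl⟩ := QuotientGroup.mk_surjective y
      obtain ⟨a, ha, d, hd, rfl⟩ := prim_fac hD hni hiD y
      refine ⟨Quotient.mk _ ⟨a, ha⟩, ?_⟩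
      show ((a : M) : M ⧸ D) = ((a * d : M) : M ⧸ D)
      rw [QuotientGroup.eq, inv_mul_cancel_left]
      exact hd
    exact Nat.card_le_card_of_surjective g hg

end Pool.Agent.Helper903_VG
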