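import Pool.Agent.Helper903_VG.MainProp
import Pool.Agent.Helper903_VG.Prim

/-!
The main proposition for groups with a normal series whose factors are abelian or small.
-/

set_option autoImplicit false

namespace Pool.Agent.Helper903_VG

variable {G : Type} [Group G]

theorem Ser.subgroupOf [Finite G] {β ℓ : ℕ} {S : ℕ → Subgroup G} (hS : Ser G β ℓ S)
    (M : Subgroup G) : Ser M β ℓ (fun i => (S i).subgroupOf M) where
  bot := by
    show (S 0).subgroupOf M = ⊥
    rw [hS.bot, Subgroup.bot_subgroupOf]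
  top := by
    show (S ℓ).subgroupOf M = ⊤
    rw [hS.top, Subgroup.top_subgroupOf]
  normal i hi := by
    have := hS.normal i hi
    show ((S i).subgroupOf M).Normal
    infer_instance
  mono i hi := by
    intro x hx
    exact hS.mono i hi hx
  factor i hi := by
    rcases hS.factor i hi with h | h
    · left
      intro a ha b hb
      exact h a ha b hb
    · right
      refine le_trans ?_ h
      show ((S i).subgroupOf M).relIndex ((S (i + 1)).subgroupOf M) ≤ (S i).relIndex (S (i + 1))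
      have e : ((S i).subgroupOf M).relIndex ((S (i + 1)).subgroupOf M) =
          (S i).relIndex (((S (i + 1)).subgroupOf M).map M.subtype) :=
        Subgroup.relIndex_comap (f := M.subtype) (S i) ((S (i + 1)).subgroupOf M)
      rw [e, Subgroup.subgroupOf_map_subtype]
      exact Subgroup.relIndex_le_of_le_right inf_le_left Subgroup.index_ne_zero_of_finite

theorem Ser.mono_beta {β β' ℓ : ℕ} {S : ℕ → Subgroup G} (hS : Ser G β ℓ S)
    (h : ∀ i < ℓ, (S i).relIndex (S (i + 1)) ≤ β → (S i).relIndex (S (i + 1)) ≤ β') :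
    Ser G β' ℓ S :=
  ⟨hS.bot, hS.top, hS.normal, hS.mono, fun i hi => (hS.factor i hi).imp id (h i hi)⟩

/-- Data for the quotient of a `G`-set by an equivariant family of subgroups. -/
structure OData (G : Type) [Group G] (X B : Type) [MulAction G X] [MulAction G B] where
  p : X → B
  Q : B → Subgroup G
  map : ∀ (g : G) x, p (g • x) = g • p x
  conj : ∀ (g : G) b a, a ∈ Q b → g * a * g⁻¹ ∈ Q (g • b)
  fix : ∀ b, ∀ a ∈ Q b, a • b = b

namespace OData

variable {X B : Type} [MulAction G X] [MulAction G B] (D : OData G X B)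

theorem p_smul {x : X} {a : G} (ha : a ∈ D.Q (D.p x)) : D.p (a • x) = D.p x := by
  rw [D.map, D.fix _ a ha]

/-- The orbit relation. -/
def rel : Setoid X where
  r x y := ∃ a ∈ D.Q (D.p x), a • x = y
  iseqv := by
    refine ⟨?_, ?_, ?_⟩
    · intro x
      exact ⟨1, (D.Q _).one_mem, one_smul _ _⟩
    · rintro x y ⟨a, ha, rfl⟩
      refine ⟨a⁻¹, ?_, inv_smul_smul _ _⟩
      rw [D.p_smul ha]
      exact (D.Q _).inv_mem ha
    · rintro x y z ⟨a, ha, rfl⟩ ⟨b, hb, rfl⟩
      rw [D.p_smul ha] at hb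
      exact ⟨b * a, (D.Q _).mul_mem hb ha, mul_smul _ _ _⟩

/-- The quotient. -/
def Quo : Type := Quotient D.rel

theorem rel_smul (g : G) {x y : X} (h : D.rel.r x y) : D.rel.r (g • x) (g • y) := by
  obtain ⟨a, ha, rfl⟩ := h
  refine ⟨g * a * g⁻¹, ?_, ?_⟩
  · rw [D.map]; exact D.conj g _ a ha
  · rw [mul_smul, mul_smul, inv_smul_smul]

instance : MulAction G D.Quo where
  smul g := Quotient.map (fun x => g • x) (fun _ _ h => D.rel_smul g h)
  one_smul b := by
    induction b using Quotient.inductionOn with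
    | h x => exact congrArg (Quotient.mk D.rel) (one_smul G x)
  mul_smul g h b := by
    induction b using Quotient.inductionOn with
    | h x => exact congrArg (Quotient.mk D.rel) (mul_smul g h x)

instance [Finite X] : Finite D.Quo := inferInstanceAs (Finite (Quotient D.rel))

/-- The quotient map. -/
def q : X → D.Quo := Quotient.mk D.rel

theorem q_surj : Function.Surjective D.q := Quotient.mk_surjective

theorem q_smul (g : G) (x : X) : D.q (g • x) = g • D.q x := rfl

end OData

theorem caseE {K : ℕ} [Finite G] {U B : Type} [Finite U] [Finite B] [MulAction G U]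
    [MulAction G B] (hK : 3 ≤ K) (F : AffFib G U B 2)
    (hnt : ∀ b, Nontrivial {u : U // F.p u = b})
    {B' : Type} [Finite B'] [MulAction G B'] (p : Dir F → B')
    (hp : ∀ (g : G) x, p (g • x) = g • p x) (hps : Function.Surjective p)
    (hcard : ∀ b, Nat.card {δ : Dir F // p δ = b} ≤ K)
    (hnt' : ∀ b, Nontrivial {δ : Dir F // p δ = b})
    (IH : ∀ (V' : Type) [Finite V'] [MulAction G V'], Nat.card V' < Nat.card U →
      HasE G K V' (60 * Nat.card V'))
    (hB : HasE G K B (60 * Nat.card B)) : HasE G K U (60 * Nat.card U) := by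
  have h2 := two_mul_card_base F.p hnt
  have h3 := card_dir F Nat.prime_two
  have h3'' : Nat.card (Dir F) + Nat.card B ≤ Nat.card U := by
    simpa using h3
  have h4 := two_mul_card_base p hnt'
  rcases isEmpty_or_nonempty U with hU | hU
  · have := HasE.fixed (G := G) (K := K) (by omega) (V := U) (fun g x => (hU.false x).elim)
    refine this.mono ?_
    have : (0 : ℝ) ≤ Nat.card U := Nat.cast_nonneg _
    linarith
  have hpos : 0 < Nat.card U := Nat.card_pos
  have h5 := IH B' (by omega)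
  have h6 : HasE G K (B ⊕ Dir F)
      (60 * Nat.card B + 60 * Nat.card B' + Nat.card (Dir F)) := by
    refine (hB.sum h5).small (by omega) (D := B') Sum.inr inr_emb p hp ?_
      (Sum.elim (fun b => Sum.inr (Sum.inl b)) Sum.inl) ⟨?_, ?_⟩ ?_ ?_
    · intro b x
      refine le_trans ?_ (hcard b)
      exact Nat.card_le_card_of_injective
        (fun y : {y : Dir F // p y = b ∧ ∃ g : G, g • x = y} =>
          (⟨y.1, y.2.1⟩ : {o : Dir F // p o = b}))
        (fun y y' h => Subtype.ext (Subtype.mk.inj h))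
    · rintro (b | o) (b' | o') h
      · have := Sum.inl_injective (Sum.inr_injective h)
        rw [this]
      · simp at h
      · simp at h
      · have := Sum.inl_injective h
        rw [this]
    · rintro g (b | o)
      · rfl
      · rfl
    · intro x
      exact ⟨Sum.inr x, rfl⟩
    · rintro (b | b')
      · exact Or.inl ⟨Sum.inl b, rfl⟩
      · right
        obtain ⟨o, ho⟩ := hps b'
        exact ⟨o, congrArg Sum.inr ho.symm⟩
  refine (hypStep hK F hnt h6).mono ?_
  have h2' : (2 : ℝ) * Nat.card B ≤ Nat.card U := by exact_mod_cast h2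
  have h3' : (Nat.card (Dir F) : ℝ) + Nat.card B ≤ Nat.card U := by exact_mod_cast h3''
  have h4' : (2 : ℝ) * Nat.card B' ≤ Nat.card (Dir F) := by exact_mod_cast h4
  have h7 : (0 : ℝ) ≤ Nat.card U := Nat.cast_nonneg _
  have h8 : (0 : ℝ) ≤ Nat.card B := Nat.cast_nonneg _
  linarith

section

variable {D M : Subgroup G} {N : Subgroup M}

/-- The quotient of the directions by the conjugates of `Q`. -/
noncomputable def odata (F : AffFib G (G ⧸ D) (G ⧸ M) 2) {Q : Subgroup M} (hQ : Q.Normal) :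
    OData G (Dir F) (G ⧸ M) where
  p := Dir.b
  Q := fam M Q
  map g x := rfl
  conj := fam_conj hQ
  fix := fam_fix hQ

theorem odata_nontrivial (F : AffFib G (G ⧸ D) (G ⧸ M) 2) (hDM : D ≤ M) (hFp : F.p = cproj hDM)
    (hN : N.Normal) (hcN : (D.subgroupOf M).normalCore ≤ N)
    (hFN : F.N = fam M N) {Q : Subgroup M} (hQ : Q.Normal)
    (hQS : ∀ S : Subgroup M, (D.subgroupOf M).normalCore ≤ S → S ≤ N → S.relIndex N = 2 →
            ∃ a ∈ Q, ∃ s ∈ S, a * s * a⁻¹ ∉ S) (b : (odata F hQ).Quo) :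
    Nontrivial {δ : Dir F // (odata F hQ).q δ = b} := by
  obtain ⟨δ, rfl⟩ := (odata F hQ).q_surj b
  obtain ⟨g, hg⟩ := QuotientGroup.mk_surjective δ.b
  let ψ : M →* G := (MulAut.conj g).toMonoidHom.comp M.subtype
  have hψ : ∀ m : M, ψ m = g * m * g⁻¹ := fun m => rfl
  have hψi : Function.Injective ψ :=
    (MulAut.conj g).injective.comp (Subgroup.subtype_injective M)
  have hNmap : N.map ψ = F.N δ.b := by
    ext x
    rw [hFN, ← hg, mem_fam hN]
    constructor
    · rintro ⟨n, hn, rfl⟩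
      exact ⟨n, hn, hψ n⟩
    · rintro ⟨n, hn, rfl⟩
      exact ⟨n, hn, hψ n⟩
  have hSN : δ.S.comap ψ ≤ N := by
    intro m hm
    have h1 : ψ m ∈ N.map ψ := by rw [hNmap]; exact δ.le hm
    obtain ⟨n, hn, hnm⟩ := h1
    rwa [← hψi hnm]
  have hSmap : (δ.S.comap ψ).map ψ = δ.S := by
    rw [Subgroup.map_comap_eq, inf_eq_right]
    intro x hx
    have h1 : x ∈ N.map ψ := by rw [hNmap]; exact δ.le hx
    obtain ⟨n, -, hn⟩ := h1
    exact ⟨n, hn⟩
  obtain ⟨a, ha, s, hs, has⟩ := hQS (δ.S.comap ψ) (by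
    intro k hk
    rw [Subgroup.mem_comap]
    refine δ.ker _ ?_ ?_
    · rw [← hNmap]
      exact ⟨k, hcN hk, rfl⟩
    · intro u hu
      induction u using QuotientGroup.induction_on with
      | H g' =>
      rw [hFp, cproj_mk, ← hg] at hu
      have h1 := QuotientGroup.eq.1 hu.symm
      show ((ψ k * g' : G) : G ⧸ D) = g'
      rw [eq_comm, QuotientGroup.eq]
      have h2 := (D.subgroupOf M).normalCore_normal.conj_mem k hk (⟨g⁻¹ * g', h1⟩ : M)⁻¹
      have h3 := Subgroup.normalCore_le _ h2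
      rw [Subgroup.mem_subgroupOf] at h3
      have e : g'⁻¹ * (ψ k * g') =
          (((⟨g⁻¹ * g', h1⟩ : M)⁻¹ * k * (⟨g⁻¹ * g', h1⟩ : M)⁻¹⁻¹ : M) : G) := by
        push_cast
        rw [hψ]
        group
      rw [e]
      exact h3) hSN (by
    have h1 := δ.idx
    rw [← hSmap, ← hNmap, Subgroup.relIndex_map_map_of_injective _ _ hψi] at h1
    exact h1)
  refine ⟨⟨δ, rfl⟩, ⟨ψ a • δ, ?_⟩, ?_⟩
  · refine Quotient.sound ?_
    refine (odata F hQ).rel.symm ?_
    refine ⟨ψ a, ?_, rfl⟩
    show ψ a ∈ fam M Q δ.b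
    rw [← hg, mem_fam hQ]
    exact ⟨a, ha, hψ a⟩
  · intro h
    have h1 : δ = ψ a • δ := Subtype.mk.inj h
    apply has
    show ψ (a * s * a⁻¹) ∈ δ.S
    rw [h1, Dir.mem_smul_S]
    have e : (ψ a)⁻¹ * ψ (a * s * a⁻¹) * ψ a = ψ s := by
      rw [map_mul, map_mul, map_inv]
      group
    rw [e]
    exact hs

theorem odata_card [Finite G] (F : AffFib G (G ⧸ D) (G ⧸ M) 2)
    (hN : N.Normal) (hFN : F.N = fam M N) {Q : Subgroup M} (hQ : Q.Normal)
    (b : (odata F hQ).Quo) :
    Nat.card {δ : Dir F // (odata F hQ).q δ = b} ≤ N.relIndex Q := by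
  classical
  obtain ⟨δ, rfl⟩ := (odata F hQ).q_surj b
  obtain ⟨g, hg⟩ := QuotientGroup.mk_surjective δ.b
  have hex : ∀ δ' : {δ' : Dir F // (odata F hQ).q δ' = (odata F hQ).q δ},
      ∃ m : Q, (g * ((m : M) : G) * g⁻¹ : G) • δ = δ'.1 := by
    rintro ⟨δ', h⟩
    obtain ⟨a, ha, h1⟩ := Quotient.exact h.symm
    have ha : a ∈ fam M Q δ.b := ha
    rw [← hg, mem_fam hQ] at ha
    obtain ⟨m, hm, rfl⟩ := ha
    exact ⟨⟨m, hm⟩, h1⟩
  choose f hf using hex
  refine Nat.card_le_card_of_injective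
    (fun δ' : {δ' : Dir F // (odata F hQ).q δ' = (odata F hQ).q δ} =>
      ((f δ' : Q) : Q ⧸ N.subgroupOf Q)) ?_
  intro δ' δ'' h
  have h : ((f δ' : Q) : Q ⧸ N.subgroupOf Q) = (f δ'' : Q) := h
  rw [QuotientGroup.eq, Subgroup.mem_subgroupOf] at h
  apply Subtype.ext
  rw [← hf δ', ← hf δ'']
  have h1 : (g * (((f δ')⁻¹ * f δ'' : Q) : M) * g⁻¹ : G) ∈ F.N δ.b := by
    rw [hFN, ← hg, mem_fam hN]
    exact ⟨_, h, rfl⟩
  have h2 := δ.fix h1
  have e : (g * ((f δ'' : M) : G) * g⁻¹ : G) =
      (g * ((f δ' : M) : G) * g⁻¹) * (g * (((f δ')⁻¹ * f δ'' : Q) : M) * g⁻¹ : G) := by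
    push_cast
    group
  have e2 := mul_smul (g * ((f δ' : M) : G) * g⁻¹) (g * (((f δ')⁻¹ * f δ'' : Q) : M) * g⁻¹ : G) δ
  rw [h2] at e2
  rw [e, e2]

end

theorem trans_series {K β ℓ : ℕ} (hK : 3 ≤ K) [Finite G] {S : ℕ → Subgroup G}
    (hS : Ser G β ℓ S) (hβ : β ≤ K) (D : Subgroup G) (hD : D ≠ ⊤)
    (IH : ∀ (V' : Type) [Finite V'] [MulAction G V'], Nat.card V' < Nat.card (G ⧸ D) →
      HasE G K V' (60 * Nat.card V')) : HasE G K (G ⧸ D) (60 * Nat.card (G ⧸ D)) := by
  obtain ⟨M, hM⟩ : ∃ M, D ⋖ M := exists_covBy_of_wellFoundedLT (not_isMax_iff_ne_top.2 hD)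
  have hco := isCoatom_subgroupOf hM
  have hnt : ∀ b, Nontrivial {u : G ⧸ D // cproj hM.le u = b} := cproj_fibre_nontrivial hM.lt
  have h2 := two_mul_card_base (cproj hM.le) hnt
  have hlt : Nat.card (G ⧸ M) < Nat.card (G ⧸ D) := by
    have : 0 < Nat.card (G ⧸ M) := Nat.card_pos
    omega
  have hB := IH (G ⧸ M) hlt
  rcases prim_series (hS.subgroupOf M) (D.subgroupOf M) hco with
    h | ⟨r, N, hr, hN, hcN, hND, hc, he, h⟩
  · exact caseA hK hM.lt (h.trans (max_le (by omega) hβ)) hB
  have hsup : N ⊔ D.subgroupOf M = ⊤ := hco.2 _ (right_lt_sup.2 hND)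
  have hc' : ∀ a ∈ N, ∀ b ∈ N, a * b * a⁻¹ * b⁻¹ ∈ (D.subgroupOf M) := fun a ha b hb =>
    Subgroup.normalCore_le _ (hc a ha b hb)
  have he' : ∀ a ∈ N, a ^ r ∈ (D.subgroupOf M) := fun a ha =>
    Subgroup.normalCore_le _ (he a ha)
  by_cases hr2 : r = 2
  · subst hr2
    rcases h with h | ⟨Q, hQ, hNQ, hQS, hQ2⟩
    · exact absurd rfl h
    rcases hQ2 with hidx | ⟨q, hq, hq2, hQc, hQe⟩
    · exact caseE hK (cosFib hM.le 2 N hN hsup hc' he') hnt
        (odata (cosFib hM.le 2 N hN hsup hc' he') hQ).q (fun _ _ => rfl)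
        (odata (cosFib hM.le 2 N hN hsup hc' he') hQ).q_surj
        (fun b => (odata_card _ hN rfl hQ b).trans (hidx.trans hβ))
        (odata_nontrivial _ hM.le rfl hN hcN rfl hQ hQS) IH hB
    · exact caseD hK (cosFib hM.le 2 N hN hsup hc' he') hnt
        (qdata (cosFib hM.le 2 N hN hsup hc' he') hN rfl hQ hQc hQe).fib hq hq2
        (qdata_nontrivial _ hM.le rfl hN hcN rfl hQ hQc hQe hQS) IH hB
  · refine (lemmaA hK (cosFib hM.le r N hN hsup hc' he') hr hr2 hnt _ le_rfl IH).mono ?_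
    have h4 : (0 : ℝ) ≤ Nat.card (G ⧸ D) := Nat.cast_nonneg _
    linarith

theorem main_series {K β ℓ : ℕ} (hK : 3 ≤ K) [Finite G] {S : ℕ → Subgroup G}
    (hS : Ser G β ℓ S) (hβ : β ≤ K) (n : ℕ) :
    ∀ (V : Type) [Finite V] [MulAction G V], Nat.card V = n → HasE G K V (60 * Nat.card V) := by
  induction n using Nat.strong_induction_on with
  | _ n ih =>
  intro V _ _ hV
  subst hV
  have hnn : (0 : ℝ) ≤ Nat.card V := Nat.cast_nonneg _
  rcases isEmpty_or_nonempty V with hE | ⟨⟨x0⟩⟩
  · refine (HasE.fixed (by omega) (V := V) (fun g x => (hE.false x).elim)).mono ?_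
    linarith
  by_cases htr : ∀ y, y ∈ MulAction.orbit G x0
  · -- transitive case
    by_cases hD : MulAction.stabilizer G x0 = ⊤
    · refine (HasE.fixed (by omega) (V := V) ?_).mono ?_
      · intro g x
        obtain ⟨h, rfl⟩ := htr x
        have h1 : ∀ k : G, k • x0 = x0 := fun k => by
          have : k ∈ MulAction.stabilizer G x0 := by rw [hD]; exact Subgroup.mem_top _
          exact this
        show g • h • x0 = h • x0
        rw [h1, h1]
      · linarith
    · have hb : Function.Surjective (MulAction.ofQuotientStabilizer G x0) := by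
        intro y
        obtain ⟨g, rfl⟩ := htr y
        exact ⟨(g : G ⧸ MulAction.stabilizer G x0), rfl⟩
      have hc : Nat.card (G ⧸ MulAction.stabilizer G x0) = Nat.card V :=
        Nat.card_congr (Equiv.ofBijective _ ⟨MulAction.injective_ofQuotientStabilizer G x0, hb⟩)
      have h1 := trans_series hK hS hβ (MulAction.stabilizer G x0) hD (fun V' _ _ hV' =>
        ih (Nat.card V') (by rw [hc] at hV'; exact hV') V' rfl)
      rw [hc] at h1
      exact h1.of_bij (MulAction.ofQuotientStabilizer G x0)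
        ⟨MulAction.injective_ofQuotientStabilizer G x0, MulAction.ofQuotientStabilizer_smul G x0⟩ hb
  · push Not at htr
    obtain ⟨y0, hy0⟩ := htr
    let _ := complAct (G := G) V x0
    have hsum : Nat.card (MulAction.orbit G x0) + Nat.card {x : V // x ∉ MulAction.orbit G x0} =
        Nat.card V := by
      classical
      rw [← Nat.card_sum]
      exact Nat.card_congr (Equiv.sumCompl (fun x => x ∈ MulAction.orbit G x0))
    have hp1 : 0 < Nat.card (MulAction.orbit G x0) := by
      have : Nonempty (MulAction.orbit G x0) := ⟨⟨x0, MulAction.mem_orbit_self x0⟩⟩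
      exact Nat.card_pos
    have hp2 : 0 < Nat.card {x : V // x ∉ MulAction.orbit G x0} := by
      have : Nonempty {x : V // x ∉ MulAction.orbit G x0} := ⟨⟨y0, hy0⟩⟩
      exact Nat.card_pos
    have h1 := ih _ (by omega) (MulAction.orbit G x0) rfl
    have h2 := ih _ (by omega) {x : V // x ∉ MulAction.orbit G x0} rfl
    have h3 := (h1.sum h2).of_bij (V := V) (Sum.elim Subtype.val Subtype.val) ⟨?_, ?_⟩ ?_
    · refine h3.mono ?_
      rw [← hsum]
      push_cast
      linarith
    · rintro (x | x) (y | y) h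
      · exact congrArg Sum.inl (Subtype.ext h)
      · exact absurd x.2 (by
          have h' : (x : V) = y := h
          rw [h']; exact y.2)
      · exact absurd y.2 (by
          have h' : (x : V) = y := h
          rw [← h']; exact x.2)
      · exact congrArg Sum.inr (Subtype.ext h)
    · rintro g (x | x)
      · rfl
      · rfl
    · intro x
      by_cases hx : x ∈ MulAction.orbit G x0
      · exact ⟨Sum.inl ⟨x, hx⟩, rfl⟩
      · exact ⟨Sum.inr ⟨x, hx⟩, rfl⟩

end Pool.Agent.Helper903_VG
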