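import Pool.Agent.Helper903_VG.Final
import Pool.Agent.Helper903_VG.Series

/-!
The final bound for groups with a normal series whose factors are abelian or small.
-/

set_option autoImplicit false

namespace Pool.Agent.Helper903_VG

theorem main_ser {G : Type} [Group G] [Finite G] {β ℓ : ℕ} {S : ℕ → Subgroup G}
    (hS : Ser G β ℓ S) (n k : ℕ)
    (c : Fin n → Fin n → Option (Fin k)) (hn : 0 < n)
    (h : ∃ φ : G →* Equiv.Perm (Fin n), Function.Injective ⇑φ ∧
        ∀ σ : Equiv.Perm (Fin n),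
          (∀ x y : Fin n, c (σ x) (σ y) = c x y) ↔ σ ∈ Set.range ⇑φ) :
    ∃ (m : ℕ) (Γ : SimpleGraph (Fin m)) (ψ : G →* Equiv.Perm (Fin m)),
        Function.Injective ⇑ψ ∧
        (∀ σ : Equiv.Perm (Fin m),
          (∀ x y : Fin m, Γ.Adj (σ x) (σ y) ↔ Γ.Adj x y) ↔ σ ∈ Set.range ⇑ψ) ∧
        (m : ℝ) < 20000 * Real.sqrt (1 + Real.log β) * n := by
  obtain ⟨φ, hφ, hc⟩ := h
  -- normalise `β`
  let β' := max 1 (min β (Nat.card G))
  have hcard : ∀ A B : Subgroup G, A.relIndex B ≤ Nat.card G := by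
    intro A B
    calc A.relIndex B ≤ Nat.card B :=
          Nat.le_of_dvd Nat.card_pos (Subgroup.relIndex_dvd_card A B)
      _ ≤ Nat.card G := Nat.card_le_card_of_injective _ (Subgroup.subtype_injective B)
  have hS' : Ser G β' ℓ S := hS.mono_beta (fun i _ hi =>
    (le_min hi (hcard _ _)).trans (le_max_right _ _))
  have hβ : 0 < β' := lt_of_lt_of_le one_pos (le_max_left _ _)
  have hβn : β' ≤ n.factorial := by
    refine max_le (Nat.factorial_pos n) ((min_le_right _ _).trans ?_)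
    calc Nat.card G ≤ Nat.card (Equiv.Perm (Fin n)) := Nat.card_le_card_of_injective φ hφ
      _ = n.factorial := by rw [Nat.card_perm, Nat.card_fin]
  have hlog : Real.log β' ≤ Real.log β := by
    rcases Nat.eq_zero_or_pos β with h0 | h0
    · have : β' = 1 := by simp [β', h0]
      rw [this, h0]
      simp
    · apply Real.log_le_log (by exact_mod_cast hβ)
      have : β' ≤ β := max_le h0 (min_le_left _ _)
      exact_mod_cast this
  let K := max 3 β'
  let t := Nat.clog 2 K
  let s := Nat.sqrt (t + 2) + 1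
  have hKt : K ≤ 2 ^ t := Nat.le_pow_clog (by norm_num) K
  have hs : t + 2 ≤ s * s := (Nat.lt_succ_sqrt (t + 2)).le
  have hmain : @HasE G _ K (Fin n ⊕ Fin (2 * s + 2)) (vAct φ (2 * s + 2))
      (60 * Nat.card (Fin n ⊕ Fin (2 * s + 2))) := by
    let _ := vAct φ (2 * s + 2)
    exact main_series (le_max_left 3 β') hS' (le_max_right 3 β') _ _ rfl
  obtain ⟨W, hW, X, ⟨Θ⟩, hcard⟩ := assemble c φ hφ hc t s hKt hs (Nat.succ_pos _) _ hmain
  obtain ⟨Γ, ψ, h1, h2⟩ := to_fin X Θ
  refine ⟨Nat.card W, Γ, ψ, h1, h2, ?_⟩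
  refine lt_of_le_of_lt hcard ?_
  have h3 := final_bound n β' s hn hβ hβn rfl
  have h4 : 20000 * Real.sqrt (1 + Real.log β') * n ≤ 20000 * Real.sqrt (1 + Real.log β) * n := by
    gcongr
  refine lt_of_lt_of_le ?_ h4
  rw [Nat.card_sum, Nat.card_fin, Nat.card_fin]
  push_cast
  push_cast at h3
  exact h3

end Pool.Agent.Helper903_VG
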