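import Mathlib
/-!
JOB VG-T4 (owner helper903, MP_961fdb_co). Structure of a finite group acting primitively, with a large solvable normal
subgroup.
-/

set_option autoImplicit false

namespace Pool.Agent.Helper903_VG

open MulAction

/-- a minimal normal subgroup inside a solvable one -/
lemma t4_min {X : Type} [Group X] [Finite X] (A : Subgroup X) (hA : A.Normal)
    (hs : Group.IsSolvable A) (hne : A ≠ ⊥) :
    ∃ (r : ℕ) (B : Subgroup X), r.Prime ∧ B.Normal ∧ B ≠ ⊥ ∧ B ≤ A ∧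
      (∀ a ∈ B, ∀ b ∈ B, a * b = b * a) ∧ ∀ a ∈ B, a ^ r = 1 := by
  obtain ⟨B, ⟨hBn, hB0, hBA⟩, hmin⟩ :=
    (wellFounded_lt : WellFounded ((· < ·) : Subgroup X → Subgroup X → Prop)).has_min
      {B : Subgroup X | B.Normal ∧ B ≠ ⊥ ∧ B ≤ A} ⟨A, hA, hne, le_rfl⟩
  have hsB : Group.IsSolvable B :=
    Group.isSolvable_of_isSolvable_injective (f := Subgroup.inclusion hBA)
      (Subgroup.inclusion_injective hBA)
  have hntB : Nontrivial B := (Subgroup.nontrivial_iff_ne_bot B).2 hB0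
  have hlt : ⁅B, B⁆ < B := by
    conv_rhs => rw [← B.range_subtype]
    have h1 : ⁅B, B⁆ = (commutator B).map B.subtype := by
      rw [commutator_def, Subgroup.map_commutator, ← MonoidHom.range_eq_map, B.range_subtype]
    rw [h1, MonoidHom.range_eq_map]
    exact Subgroup.map_subtype_lt_map_subtype.2
      (Group.IsSolvable.commutator_lt_top_of_nontrivial B)
  have hbot : ⁅B, B⁆ = ⊥ := by
    by_contra h
    exact hmin ⁅B, B⁆ ⟨inferInstance, h, hlt.le.trans hBA⟩ hlt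
  have hcomm : ∀ a ∈ B, ∀ b ∈ B, a * b = b * a := by
    rw [Subgroup.commutator_eq_bot_iff_le_centralizer] at hbot
    intro a ha b hb
    exact (Subgroup.mem_centralizer_iff.1 (hbot ha) b hb).symm
  have hcard : Nat.card B ≠ 1 := by
    intro h
    exact hB0 (Subgroup.card_eq_one.1 h)
  set r := (Nat.card B).minFac with hr
  have hrp : r.Prime := Nat.minFac_prime hcard
  have : Fact r.Prime := ⟨hrp⟩
  obtain ⟨b0, hb0⟩ := exists_prime_orderOf_dvd_card' (G := B) r (Nat.minFac_dvd _)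
  let E : Subgroup X :=
    { carrier := {b | b ∈ B ∧ b ^ r = 1}
      one_mem' := ⟨B.one_mem, one_pow _⟩
      mul_mem' := by
        rintro a b ⟨ha, ha'⟩ ⟨hb, hb'⟩
        refine ⟨B.mul_mem ha hb, ?_⟩
        have hc : Commute a b := hcomm a ha b hb
        rw [hc.mul_pow, ha', hb', one_mul]
      inv_mem' := by
        rintro a ⟨ha, ha'⟩
        exact ⟨B.inv_mem ha, by rw [inv_pow, ha', inv_one]⟩ }
  have hEn : E.Normal := by
    constructor
    rintro n ⟨hn, hn'⟩ g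
    refine ⟨hBn.conj_mem n hn g, ?_⟩
    rw [conj_pow, hn', mul_one, mul_inv_cancel]
  have hE0 : E ≠ ⊥ := by
    intro h
    have hmem : (b0 : X) ∈ E := by
      refine ⟨b0.2, ?_⟩
      have := pow_orderOf_eq_one b0
      rw [hb0] at this
      exact_mod_cast congrArg (Subtype.val) this
    rw [h, Subgroup.mem_bot] at hmem
    have h1 : b0 = 1 := Subtype.ext hmem
    rw [h1, orderOf_one] at hb0
    exact hrp.one_lt.ne hb0
  have hEB : E ≤ B := fun x hx => hx.1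
  have hEe : E = B := by
    by_contra h
    exact hmin E ⟨hEn, hE0, hEB.trans hBA⟩ (lt_of_le_of_ne hEB h)
  refine ⟨r, B, hrp, hBn, hB0, hBA, hcomm, fun a ha => ?_⟩
  rw [← hEe] at ha
  exact ha.2

lemma t4_rel {M : Type} [Group M] [Finite M] (K R : Subgroup M) [K.Normal] [R.Normal]
    [Group.IsSolvable R] (h : ¬ R ≤ K) :
    ∃ (r : ℕ) (N : Subgroup M), r.Prime ∧ N.Normal ∧ K ≤ N ∧ ¬ N ≤ K ∧
      (∀ a ∈ N, ∀ b ∈ N, a * b * a⁻¹ * b⁻¹ ∈ K) ∧ ∀ a ∈ N, a ^ r ∈ K := by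
  have hAn : (R.map (QuotientGroup.mk' K)).Normal :=
    Subgroup.Normal.map inferInstance _ (QuotientGroup.mk'_surjective K)
  have hAs : Group.IsSolvable (R.map (QuotientGroup.mk' K)) :=
    Group.isSolvable_of_surjective (f := (QuotientGroup.mk' K).subgroupMap R)
      ((QuotientGroup.mk' K).subgroupMap_surjective R)
  have hA0 : R.map (QuotientGroup.mk' K) ≠ ⊥ := by
    intro h0
    rw [Subgroup.map_eq_bot_iff, QuotientGroup.ker_mk'] at h0
    exact h h0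
  obtain ⟨r, B, hr, hBn, hB0, -, hc, he⟩ := t4_min _ hAn hAs hA0
  refine ⟨r, B.comap (QuotientGroup.mk' K), hr, inferInstance, ?_, ?_, ?_, ?_⟩
  · intro x hx
    rw [Subgroup.mem_comap, QuotientGroup.mk'_apply, (QuotientGroup.eq_one_iff x).2 hx]
    exact B.one_mem
  · intro hle
    apply hB0
    rw [eq_bot_iff]
    intro y hy
    obtain ⟨x, rfl⟩ := QuotientGroup.mk'_surjective K y
    have hx : x ∈ K := hle hy
    rw [Subgroup.mem_bot, QuotientGroup.mk'_apply]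
    exact (QuotientGroup.eq_one_iff x).2 hx
  · intro a ha b hb
    rw [← QuotientGroup.eq_one_iff]
    have := hc _ ha _ hb
    simp only [QuotientGroup.mk'_apply] at this
    rw [QuotientGroup.mk_mul, QuotientGroup.mk_mul, QuotientGroup.mk_mul, QuotientGroup.mk_inv,
      QuotientGroup.mk_inv, this]
    group
  · intro a ha
    rw [← QuotientGroup.eq_one_iff, QuotientGroup.mk_pow]
    exact he _ ha

section fix

variable {X : Type} [Group X] [Finite X]

/-- conjugation action of a subgroup on an invariant set -/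
@[reducible] def t4_act (Q : Subgroup X) (U : Set X) (hinv : ∀ a ∈ Q, ∀ x ∈ U, a * x * a⁻¹ ∈ U) :
    MulAction Q U where
  smul a x := ⟨a * x * (a : X)⁻¹, hinv a a.2 x x.2⟩
  one_smul x := by
    apply Subtype.ext
    show ((1 : Q) : X) * x * ((1 : Q) : X)⁻¹ = x
    simp
  mul_smul a b x := by
    apply Subtype.ext
    show ((a * b : Q) : X) * x * ((a * b : Q) : X)⁻¹ = a * (b * x * (b : X)⁻¹) * (a : X)⁻¹
    rw [Subgroup.coe_mul]
    group

lemma t4_pgroup {Q α : Type} [Group Q] [MulAction Q α] (q : ℕ)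
    (h : ∀ (a : Q) (x : α), (a ^ q) • x = x) : IsPGroup q (MulAction.toPermHom Q α).range := by
  rintro ⟨_, a, rfl⟩
  refine ⟨1, ?_⟩
  apply Subtype.ext
  rw [pow_one]
  show (MulAction.toPermHom Q α a) ^ q = 1
  rw [← map_pow]
  ext x
  exact h a x

lemma t4_fixed_iff {Q α : Type} [Group Q] [MulAction Q α] (x : α) :
    x ∈ fixedPoints (MulAction.toPermHom Q α).range α ↔ x ∈ fixedPoints Q α := by
  rw [mem_fixedPoints, mem_fixedPoints]
  constructor
  · intro h a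
    exact h ⟨_, a, rfl⟩
  · rintro h ⟨_, a, rfl⟩
    exact h a

lemma t4_fix1 (Q : Subgroup X) (U : Set X) (q : ℕ) (hq : q.Prime)
    (hinv : ∀ a ∈ Q, ∀ x ∈ U, a * x * a⁻¹ ∈ U)
    (htriv : ∀ a ∈ Q, ∀ x ∈ U, a ^ q * x * (a ^ q)⁻¹ = x) (hcard : ¬ q ∣ Nat.card U) :
    ∃ x ∈ U, ∀ a ∈ Q, a * x * a⁻¹ = x := by
  letI := t4_act Q U hinv
  have : Fact q.Prime := ⟨hq⟩
  have hp : IsPGroup q (MulAction.toPermHom Q U).range := by
    refine t4_pgroup q ?_
    rintro ⟨a, ha⟩ ⟨x, hx⟩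
    apply Subtype.ext
    exact htriv a ha x hx
  obtain ⟨x, hx⟩ := hp.nonempty_fixed_point_of_prime_not_dvd_card U hcard
  rw [t4_fixed_iff] at hx
  refine ⟨x, x.2, fun a ha => ?_⟩
  exact congrArg Subtype.val (hx ⟨a, ha⟩)

lemma t4_fix2 (Q : Subgroup X) (U : Set X) (q : ℕ) (hq : q.Prime)
    (hinv : ∀ a ∈ Q, ∀ x ∈ U, a * x * a⁻¹ ∈ U)
    (htriv : ∀ a ∈ Q, ∀ x ∈ U, a ^ q * x * (a ^ q)⁻¹ = x) (hcard : q ∣ Nat.card U)
    (x0 : X) (hx0 : x0 ∈ U) (hf : ∀ a ∈ Q, a * x0 * a⁻¹ = x0) :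
    ∃ x ∈ U, x ≠ x0 ∧ ∀ a ∈ Q, a * x * a⁻¹ = x := by
  letI := t4_act Q U hinv
  have : Fact q.Prime := ⟨hq⟩
  have hp : IsPGroup q (MulAction.toPermHom Q U).range := by
    refine t4_pgroup q ?_
    rintro ⟨a, ha⟩ ⟨x, hx⟩
    apply Subtype.ext
    exact htriv a ha x hx
  have h0 : (⟨x0, hx0⟩ : U) ∈ fixedPoints (MulAction.toPermHom Q U).range U := by
    rw [t4_fixed_iff]
    rintro ⟨a, ha⟩
    exact Subtype.ext (hf a ha)
  obtain ⟨x, hx, hne⟩ := hp.exists_fixed_point_of_prime_dvd_card_of_fixed_point U hcard h0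
  rw [t4_fixed_iff] at hx
  refine ⟨x, x.2, fun h => hne (Subtype.ext h.symm), fun a ha => ?_⟩
  exact congrArg Subtype.val (hx ⟨a, ha⟩)

end fix

theorem prim_cases {M : Type} [Group M] [Finite M] (R : Subgroup M) [R.Normal] [Group.IsSolvable R]
    (D : Subgroup M) (hD : IsCoatom D) :
    D.index ≤ R.index ∨
    ∃ (r : ℕ) (N : Subgroup M), r.Prime ∧ N.Normal ∧ D.normalCore ≤ N ∧ ¬ N ≤ D ∧
      (∀ a ∈ N, ∀ b ∈ N, a * b * a⁻¹ * b⁻¹ ∈ D.normalCore) ∧ (∀ a ∈ N, a ^ r ∈ D.normalCore) ∧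
      (r ≠ 2 ∨ N.index ≤ R.index ∨
        ∃ (q : ℕ) (Q : Subgroup M), q.Prime ∧ q ≠ 2 ∧ Q.Normal ∧ N ≤ Q ∧
          (∀ a ∈ Q, ∀ b ∈ Q, a * b * a⁻¹ * b⁻¹ ∈ N) ∧ (∀ a ∈ Q, a ^ q ∈ N) ∧
          ∀ S : Subgroup M, D.normalCore ≤ S → S ≤ N → S.relIndex N = 2 →
            ∃ a ∈ Q, ∃ s ∈ S, a * s * a⁻¹ ∉ S) := by
  set K := D.normalCore with hK
  have hidx : ∀ A B : Subgroup M, A ≤ B → B.index ≤ A.index := fun A B h =>
    Nat.le_of_dvd (Nat.pos_of_ne_zero Subgroup.index_ne_zero_of_finite)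
      (Subgroup.index_dvd_of_le h)
  by_cases hRK : R ≤ K
  · exact Or.inl (hidx R D (hRK.trans D.normalCore_le))
  right
  obtain ⟨r, N, hr, hNn, hKN, hNK, hNc, hNe⟩ := t4_rel K R hRK
  have hND : ¬ N ≤ D := fun h => hNK (Subgroup.normal_le_normalCore.2 h)
  refine ⟨r, N, hr, hNn, hKN, hND, hNc, hNe, ?_⟩
  by_cases hr2 : r ≠ 2
  · exact Or.inl hr2
  push Not at hr2
  subst hr2
  right
  by_cases hRN : R ≤ N
  · exact Or.inl (hidx R N hRN)
  right
  obtain ⟨q, Q, hq, hQn, hNQ, hQN, hQc, hQe⟩ := t4_rel N R hRN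
  -- the join with the maximal subgroup
  have htop : ∀ A : Subgroup M, ¬ A ≤ D → A ⊔ D = ⊤ := by
    intro A hA
    by_contra h
    have hlt : D < A ⊔ D := lt_of_le_of_ne le_sup_right (fun e => hA (by rw [e]; exact le_sup_left))
    exact h (hD.2 _ hlt)
  have hfac : ∀ x : M, ∃ a ∈ N, ∃ d ∈ D, a * d = x := by
    intro x
    have : x ∈ N ⊔ D := by rw [htop N hND]; trivial
    exact Subgroup.mem_sup_of_normal_left.1 this
  -- (b)
  have hb : N ⊓ D ≤ K := by
    have hn : (N ⊓ D).Normal := by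
      constructor
      rintro x ⟨hxN, hxD⟩ g
      refine ⟨hNn.conj_mem x hxN g, ?_⟩
      -- write `g = d * a`
      obtain ⟨a, ha, d, hd, he⟩ := hfac g⁻¹
      have hg : g = d⁻¹ * a⁻¹ := by rw [← mul_inv_rev, he, inv_inv]
      have hc : a⁻¹ * x * a ∈ D := by
        have h1 := hNc a⁻¹ (N.inv_mem ha) x hxN
        have h2 : a⁻¹ * x * a = (a⁻¹ * x * a⁻¹⁻¹ * x⁻¹) * x := by group
        rw [h2]
        exact D.mul_mem (D.normalCore_le h1) hxD
      have h3 : g * x * g⁻¹ = d⁻¹ * (a⁻¹ * x * a) * d⁻¹⁻¹ := by rw [hg]; group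
      rw [SetLike.mem_coe, h3]
      exact D.mul_mem (D.mul_mem (D.inv_mem hd) hc) (D.inv_mem (D.inv_mem hd))
    exact Subgroup.normal_le_normalCore.2 inf_le_right
  -- (c)
  have hcen : ∀ x ∈ N, (∀ a ∈ Q, a * x * a⁻¹ * x⁻¹ ∈ K) → x ∈ K := by
    by_contra hcon
    push Not at hcon
    obtain ⟨x0, hx0N, hx0c, hx0K⟩ := hcon
    set C : Subgroup M := N ⊓ (Subgroup.centralizer
      ((Q.map (QuotientGroup.mk' K) : Subgroup (M ⧸ K)) : Set (M ⧸ K))).comap
        (QuotientGroup.mk' K) with hC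
    have hQmn : (Q.map (QuotientGroup.mk' K)).Normal :=
      Subgroup.Normal.map hQn _ (QuotientGroup.mk'_surjective K)
    have hCn : C.Normal := by
      rw [hC]; infer_instance
    have hCm : ∀ x, x ∈ C ↔ x ∈ N ∧ ∀ a ∈ Q, a * x * a⁻¹ * x⁻¹ ∈ K := by
      intro x
      rw [hC, Subgroup.mem_inf, Subgroup.mem_comap, Subgroup.mem_centralizer_iff]
      refine and_congr_right fun _ => ?_
      constructor
      · intro h a ha
        have h1 := h (QuotientGroup.mk' K a) (Subgroup.mem_map_of_mem _ ha)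
        rw [← QuotientGroup.eq_one_iff]
        simp only [QuotientGroup.mk'_apply] at h1
        rw [QuotientGroup.mk_mul, QuotientGroup.mk_mul, QuotientGroup.mk_mul,
          QuotientGroup.mk_inv, QuotientGroup.mk_inv, h1]
        group
      · rintro h _ ⟨a, ha, rfl⟩
        have h1 := h a ha
        rw [← QuotientGroup.eq_one_iff, QuotientGroup.mk_mul, QuotientGroup.mk_mul,
          QuotientGroup.mk_mul, QuotientGroup.mk_inv, QuotientGroup.mk_inv,
          mul_inv_eq_one, mul_inv_eq_iff_eq_mul] at h1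
        exact h1
    have hCD : ¬ C ≤ D := by
      intro h
      have hxC : x0 ∈ C := (hCm x0).2 ⟨hx0N, hx0c⟩
      exact hx0K (hb ⟨hx0N, h hxC⟩)
    have hKC : K ≤ C := by
      intro x hx
      rw [hCm]
      refine ⟨hKN hx, fun a _ => ?_⟩
      have hKn : K.Normal := D.normalCore_normal
      exact K.mul_mem (hKn.conj_mem x hx a) (K.inv_mem hx)
    have hNC : N ≤ C := by
      intro x hx
      have : x ∈ C ⊔ D := by rw [htop C hCD]; trivial
      obtain ⟨c, hc, d, hd, rfl⟩ := Subgroup.mem_sup_of_normal_left.1 this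
      have hcN : c ∈ N := ((hCm c).1 hc).1
      have hdN : d ∈ N := by
        have := N.mul_mem (N.inv_mem hcN) hx
        rwa [inv_mul_cancel_left] at this
      exact C.mul_mem hc (hKC (hb ⟨hdN, hd⟩))
    have hQDK : Q ⊓ D ≤ K := by
      rintro x ⟨hxQ, hxD⟩ b
      obtain ⟨a, ha, d, hd, he⟩ := hfac b⁻¹
      have hbe : b = d⁻¹ * a⁻¹ := by rw [← mul_inv_rev, he, inv_inv]
      have h1 := ((hCm a⁻¹).1 (hNC (N.inv_mem ha))).2 x⁻¹ (Q.inv_mem hxQ)
      have hc : a⁻¹ * x * a ∈ D := by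
        have h2 : a⁻¹ * x * a = x * (x⁻¹ * a⁻¹ * x⁻¹⁻¹ * a⁻¹⁻¹) := by group
        rw [h2]
        exact D.mul_mem hxD (D.normalCore_le h1)
      have h3 : b * x * b⁻¹ = d⁻¹ * (a⁻¹ * x * a) * d⁻¹⁻¹ := by rw [hbe]; group
      rw [h3]
      exact D.mul_mem (D.mul_mem (D.inv_mem hd) hc) (D.inv_mem (D.inv_mem hd))
    apply hQN
    intro y hy
    obtain ⟨a, ha, d, hd, rfl⟩ := hfac y
    have hdQ : d ∈ Q := by
      have := Q.mul_mem (Q.inv_mem (hNQ ha)) hy
      rwa [inv_mul_cancel_left] at this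
    exact N.mul_mem ha (hKN (hQDK ⟨hdQ, hd⟩))
  -- transfer to the quotient
  set f := QuotientGroup.mk' K with hf
  have hfe : ∀ x, f x = 1 ↔ x ∈ K := fun x => QuotientGroup.eq_one_iff x
  have hcen' : ∀ x ∈ N.map f, (∀ a ∈ Q.map f, a * x * a⁻¹ = x) → x = 1 := by
    rintro _ ⟨x, hx, rfl⟩ h
    rw [hfe]
    apply hcen x hx
    intro a ha
    have h1 := h (f a) (Subgroup.mem_map_of_mem _ ha)
    rw [← hfe, map_mul, map_mul, map_mul, map_inv, map_inv, h1, mul_inv_cancel]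
  have htriv : ∀ a ∈ Q.map f, ∀ x ∈ N.map f, a ^ q * x * (a ^ q)⁻¹ = x := by
    rintro _ ⟨a, ha, rfl⟩ _ ⟨x, hx, rfl⟩
    have h1 := hNc (a ^ q) (hQe a ha) x hx
    rw [← hfe, map_mul, map_mul, map_mul, map_inv, map_inv, map_pow, mul_inv_eq_one] at h1
    exact h1
  have hinvN : ∀ a ∈ Q.map f, ∀ x ∈ N.map f, a * x * a⁻¹ ∈ N.map f := by
    intro a _ x hx
    have : (N.map f).Normal := Subgroup.Normal.map hNn _ (QuotientGroup.mk'_surjective K)
    exact this.conj_mem x hx a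
  have h2N : IsPGroup 2 (N.map f) := by
    rintro ⟨_, x, hx, rfl⟩
    refine ⟨1, Subtype.ext ?_⟩
    show (f x) ^ (2 ^ 1) = 1
    rw [pow_one, ← map_pow, hfe]
    exact hNe x hx
  obtain ⟨d, hd⟩ := (IsPGroup.iff_card (p := 2)).1 h2N
  have hN1 : N.map f ≠ ⊥ := by
    intro h
    rw [Subgroup.map_eq_bot_iff, hf, QuotientGroup.ker_mk'] at h
    exact hNK h
  have hq2 : q ≠ 2 := by
    rintro rfl
    have hdvd : 2 ∣ Nat.card (N.map f : Set (M ⧸ K)) := by
      have h1 : Nat.card (N.map f) ≠ 1 := fun h => hN1 (Subgroup.card_eq_one.1 h)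
      have h2 : d ≠ 0 := by
        rintro rfl
        exact h1 (by rw [hd, pow_zero])
      show 2 ∣ Nat.card (N.map f)
      rw [hd]
      exact dvd_pow_self 2 h2
    obtain ⟨x, hxN, hx1, hxf⟩ := t4_fix2 (Q.map f) (N.map f : Set (M ⧸ K)) 2 Nat.prime_two
      hinvN htriv hdvd 1 (N.map f).one_mem (fun a _ => by group)
    exact hx1 (hcen' x hxN hxf)
  refine ⟨q, Q, hq, hq2, hQn, hNQ, hQc, hQe, ?_⟩
  intro S hKS hSN hrel
  by_contra hcon
  push Not at hcon
  -- the complement of `S` in `N`, modulo `K`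
  have hSN' : S.map f ≤ N.map f := Subgroup.map_mono hSN
  have hrel' : (S.map f).relIndex (N.map f) = 2 := by
    rw [← Subgroup.relIndex_comap, Subgroup.comap_map_eq_self (by
      rw [hf, QuotientGroup.ker_mk']; exact hKS)]
    exact hrel
  have hcardS : Nat.card (S.map f) * 2 = 2 ^ d := by
    have h1 := Subgroup.relIndex_mul_relIndex (⊥ : Subgroup (M ⧸ K)) (S.map f) (N.map f) bot_le hSN'
    rw [Subgroup.relIndex_bot_left, Subgroup.relIndex_bot_left, hrel', hd] at h1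
    exact h1
  have hcardU : Nat.card (((N.map f : Set (M ⧸ K)) \ (S.map f : Set (M ⧸ K)) : Set (M ⧸ K))) =
      Nat.card (S.map f) := by
    rw [Nat.card_coe_set_eq, Set.ncard_diff (by exact hSN') (Set.toFinite _)]
    have e1 : (N.map f : Set (M ⧸ K)).ncard = 2 ^ d := by
      rw [← hd, ← Nat.card_coe_set_eq]; rfl
    have e2 : (S.map f : Set (M ⧸ K)).ncard = Nat.card (S.map f) := by
      rw [← Nat.card_coe_set_eq]; rfl
    rw [e1, e2]
    omega
  have hndvd : ¬ q ∣ Nat.card (((N.map f : Set (M ⧸ K)) \ (S.map f : Set (M ⧸ K)) : Set (M ⧸ K))) := by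
    rw [hcardU]
    intro h
    have h1 : q ∣ 2 ^ d := by rw [← hcardS]; exact h.mul_right 2
    have h2 := (Nat.prime_dvd_prime_iff_eq hq Nat.prime_two).1 (hq.dvd_of_dvd_pow h1)
    exact hq2 h2
  have hinvS : ∀ a ∈ Q.map f, ∀ x ∈ S.map f, a * x * a⁻¹ ∈ S.map f := by
    rintro _ ⟨a, ha, rfl⟩ _ ⟨x, hx, rfl⟩
    exact ⟨a * x * a⁻¹, hcon a ha x hx, by rw [map_mul, map_mul, map_inv]⟩
  obtain ⟨x, ⟨hxN, hxS⟩, hxf⟩ := t4_fix1 (Q.map f)
    ((N.map f : Set (M ⧸ K)) \ (S.map f : Set (M ⧸ K))) q hq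
    (by
      rintro a ha x ⟨hxN, hxS⟩
      refine ⟨hinvN a ha x hxN, fun h => hxS ?_⟩
      have := hinvS a⁻¹ (inv_mem ha) _ h
      have e : a⁻¹ * (a * x * a⁻¹) * a⁻¹⁻¹ = x := by group
      rw [e] at this
      exact this)
    (fun a ha x hx => htriv a ha x hx.1) hndvd
  apply hxS
  rw [hcen' x hxN hxf]
  exact (S.map f).one_mem

end Pool.Agent.Helper903_VG
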