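import Pool.Agent.Helper903_VG.Coset
import Pool.Agent.Helper903_VG.T4

/-!
The recursion.
-/

set_option autoImplicit false

namespace Pool.Agent.Helper903_VG

variable {G : Type} [Group G]

section

variable {K : ℕ} [Finite G]

theorem two_mul_card_base {U B : Type} [Finite U] [Finite B] (p : U → B)
    (hnt : ∀ b, Nontrivial {u : U // p u = b}) : 2 * Nat.card B ≤ Nat.card U :=
  card_base p 2 (fun b => by
    have := hnt b
    exact Finite.one_lt_card_iff_nontrivial.2 this)

theorem caseA (hK : 3 ≤ K) {D M : Subgroup G} (hDM : D < M) (hidx : (D.subgroupOf M).index ≤ K)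
    (hB : HasE G K (G ⧸ M) (60 * Nat.card (G ⧸ M))) :
    HasE G K (G ⧸ D) (60 * Nat.card (G ⧸ D)) := by
  have h1 : HasE G K (G ⧸ D) (60 * Nat.card (G ⧸ M) + Nat.card (G ⧸ D)) := by
    refine hB.small (by omega) (D := G ⧸ M) id ⟨Function.injective_id, fun _ _ => rfl⟩
      (cproj hDM.le) (cproj_smul hDM.le) ?_ Sum.inl inl_emb (fun x => ⟨x, rfl⟩) ?_
    · intro b x
      refine le_trans ?_ ((card_cproj_fibre_le hDM.le b).trans hidx)
      exact Nat.card_le_card_of_injective
        (fun y : {y : G ⧸ D // cproj hDM.le y = b ∧ ∃ g : G, g • x = y} =>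
          (⟨y.1, y.2.1⟩ : {u : G ⧸ D // cproj hDM.le u = b}))
        (fun y y' h => Subtype.ext (Subtype.mk.inj h))
    · intro v
      obtain ⟨x, hx⟩ := cproj_surj hDM.le v
      exact Or.inr ⟨x, hx.symm⟩
  refine h1.mono ?_
  have h2 := two_mul_card_base (cproj hDM.le) (cproj_fibre_nontrivial hDM)
  have h2' : (2 : ℝ) * Nat.card (G ⧸ M) ≤ Nat.card (G ⧸ D) := by exact_mod_cast h2
  have h3 : (0 : ℝ) ≤ Nat.card (G ⧸ D) := Nat.cast_nonneg _
  linarith

variable {U B : Type} [Finite U] [Finite B] [MulAction G U] [MulAction G B]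

theorem hypStep (hK : 3 ≤ K) (F : AffFib G U B 2) (hnt : ∀ b, Nontrivial {u : U // F.p u = b})
    {m : ℝ} (h : HasE G K (B ⊕ Dir F) m) :
    HasE G K U (m + 2 * Nat.card (Dir F) + Nat.card U) := by
  have h1 : HasE G K (B ⊕ Hyp F) (m + Nat.card (Hyp F)) := by
    refine h.small (by omega) (D := Dir F) Sum.inr inr_emb Hyp.δ (fun _ _ => rfl) ?_
      (Sum.elim (fun b => Sum.inr (Sum.inl b)) Sum.inl) ⟨?_, ?_⟩ ?_ ?_
    · intro b x
      refine le_trans ?_ ((card_hyp_fibre F b).le.trans (by omega : 2 ≤ K))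
      exact Nat.card_le_card_of_injective
        (fun y : {y : Hyp F // y.δ = b ∧ ∃ g : G, g • x = y} =>
          (⟨y.1, y.2.1⟩ : {o : Hyp F // (hypFib F).p o = b}))
        (fun y y' h => Subtype.ext (Subtype.mk.inj h))
    · rintro (b | o) (b' | o') h
      · have := Sum.inl_injective (Sum.inr_injective h)
        rw [this]
      · simp at h
      · simp at h
      · have := Sum.inl_injective h
        rw [this]
    · rintro g (b | o)
      · rfl
      · rfl
    · intro x
      exact ⟨Sum.inr x, rfl⟩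
    · rintro (b | δ)
      · exact Or.inl ⟨Sum.inl b, rfl⟩
      · right
        obtain ⟨o, ho⟩ := (hypFib F).surj δ
        exact ⟨o, congrArg Sum.inr ho.symm⟩
  have h2 := h1.hyp (by omega) F Nat.prime_two hnt
  rw [card_hyp F] at h2
  push_cast at h2
  exact h2

theorem caseC (hK : 3 ≤ K) (F : AffFib G U B 2) (hnt : ∀ b, Nontrivial {u : U // F.p u = b})
    (hsm : ∀ (b : B) (δ : Dir F),
      Nat.card {δ' : Dir F // δ'.b = b ∧ ∃ g : G, g • δ = δ'} ≤ K)
    (hB : HasE G K B (60 * Nat.card B)) : HasE G K U (60 * Nat.card U) := by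
  have h1 : HasE G K (B ⊕ Dir F) (60 * Nat.card B + Nat.card (Dir F)) := by
    refine hB.small (by omega) (D := B) id ⟨Function.injective_id, fun _ _ => rfl⟩ Dir.b
      (fun _ _ => rfl) hsm (Sum.elim Sum.inr Sum.inl) ⟨?_, ?_⟩ ?_ ?_
    · rintro (b | o) (b' | o') h
      · have := Sum.inr_injective h
        rw [this]
      · simp at h
      · simp at h
      · have := Sum.inl_injective h
        rw [this]
    · rintro g (b | o)
      · rfl
      · rfl
    · intro x
      exact ⟨Sum.inr x, rfl⟩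
    · intro b
      exact Or.inl ⟨Sum.inl b, rfl⟩
  refine (hypStep hK F hnt h1).mono ?_
  have h2 := two_mul_card_base F.p hnt
  have h3 := card_dir F Nat.prime_two
  have h2' : (2 : ℝ) * Nat.card B ≤ Nat.card U := by exact_mod_cast h2
  have h3' : ((2 - 1 : ℕ) : ℝ) * Nat.card (Dir F) + Nat.card B ≤ Nat.card U := by exact_mod_cast h3
  have h4 : (0 : ℝ) ≤ Nat.card U := Nat.cast_nonneg _
  have h5 : (0 : ℝ) ≤ Nat.card B := Nat.cast_nonneg _
  norm_num at h3'
  linarith

theorem caseD (hK : 3 ≤ K) (F : AffFib G U B 2) (hnt : ∀ b, Nontrivial {u : U // F.p u = b})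
    {B' : Type} [Finite B'] [MulAction G B'] {q : ℕ} (F' : AffFib G (Dir F) B' q) (hq : q.Prime)
    (hq2 : q ≠ 2) (hnt' : ∀ b, Nontrivial {δ : Dir F // F'.p δ = b})
    (IH : ∀ (V' : Type) [Finite V'] [MulAction G V'], Nat.card V' < Nat.card U →
      HasE G K V' (60 * Nat.card V'))
    (hB : HasE G K B (60 * Nat.card B)) : HasE G K U (60 * Nat.card U) := by
  have h2 := two_mul_card_base F.p hnt
  have h3 := card_dir F Nat.prime_two
  have h3'' : Nat.card (Dir F) + Nat.card B ≤ Nat.card U := by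
    simpa using h3
  have h1 := lemmaA hK F' hq hq2 hnt' (Nat.card U) (by omega) IH
  refine (hypStep hK F hnt (hB.sum h1)).mono ?_
  have h2' : (2 : ℝ) * Nat.card B ≤ Nat.card U := by exact_mod_cast h2
  have h3' : (Nat.card (Dir F) : ℝ) + Nat.card B ≤ Nat.card U := by exact_mod_cast h3''
  have h4 : (0 : ℝ) ≤ Nat.card U := Nat.cast_nonneg _
  have h5 : (0 : ℝ) ≤ Nat.card B := Nat.cast_nonneg _
  linarith

end

section

theorem isCoatom_subgroupOf {D M : Subgroup G} (h : D ⋖ M) : IsCoatom (D.subgroupOf M) := by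
  refine ⟨?_, ?_⟩
  · intro h1
    rw [Subgroup.subgroupOf_eq_top] at h1
    exact absurd h.lt (not_lt_of_ge h1)
  · intro S hS
    have h1 : D < S.map M.subtype := by
      have e : (D.subgroupOf M).map M.subtype = D := by
        rw [Subgroup.subgroupOf_map_subtype, inf_eq_left.2 h.le]
      rw [← e]
      exact (Subgroup.map_lt_map_iff_of_injective (Subgroup.subtype_injective M)).2 hS
    have h2 : S.map M.subtype ≤ M := Subgroup.map_subtype_le S
    have h3 : S.map M.subtype = M := by
      by_contra hne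
      exact h.2 h1 (lt_of_le_of_ne h2 hne)
    rw [eq_top_iff]
    intro x _
    have hx : (x : G) ∈ S.map M.subtype := by rw [h3]; exact x.2
    obtain ⟨y, hy, hyx⟩ := hx
    have : y = x := Subtype.ext hyx
    rwa [← this]

end

end Pool.Agent.Helper903_VG
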