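import Pool.Agent.Helper903_VG.PermStep
import Pool.Agent.Helper903_VG.Recur

/-!
Two cases of the recursion: fibres with an affine structure over the field with two elements, and fibres
whose points are separated by a small number of blocks.
-/

set_option autoImplicit false

namespace Pool.Agent.Helper903_VG

variable {G : Type} [Group G]

theorem caseF {K : ℕ} [Finite G] {U B : Type} [Finite U] [Finite B] [MulAction G U]
    [MulAction G B] (F : AffFib G U B 2) (hnt : ∀ b, Nontrivial {u : U // F.p u = b})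
    (hK : ∀ b, Nat.card {u : U // F.p u = b} ^ (Nat.log 2 (Nat.card {u : U // F.p u = b}) + 1) < 2 ^ K)
    (hB : HasE G K B (60 * Nat.card B)) : HasE G K U (60 * Nat.card U) := by
  have h1 := hB.perm (K := K) F.p F.map F.surj (fun o : Hyp F => o.δ.b) (fun _ _ => rfl)
    (fun u o => u ∈ o.O)
    (fun g u o => by rw [Hyp.mem_smul, inv_smul_smul])
    (fun o o' h => Hyp.eq_of_O (Set.ext h))
    (fun b => (card_fibSym_hyp F b).trans_lt (hK b))
  refine h1.mono ?_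
  rw [card_hyp F]
  have h2 := two_mul_card_base F.p hnt
  have h3 := card_dir F Nat.prime_two
  have h3'' : Nat.card (Dir F) + Nat.card B ≤ Nat.card U := by
    simpa using h3
  have h2' : (2 : ℝ) * Nat.card B ≤ Nat.card U := by exact_mod_cast h2
  have h3' : (Nat.card (Dir F) : ℝ) + Nat.card B ≤ Nat.card U := by exact_mod_cast h3''
  have h4 : (0 : ℝ) ≤ Nat.card U := Nat.cast_nonneg _
  have h5 : (0 : ℝ) ≤ Nat.card B := Nat.cast_nonneg _
  push_cast
  linarith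

/-- The translates of the sets `X D`, where `X` runs over a family of subgroups of `M`. -/
@[ext] structure Blk (D M : Subgroup G) (FF : Set (Subgroup M)) where
  S : Set (G ⧸ D)
  hS : ∃ g : G, ∃ X ∈ FF, S = {u | ∃ x ∈ X, u = ((g * (x : M) : G) : G ⧸ D)}

namespace Blk

variable {D M : Subgroup G} {FF : Set (Subgroup M)}

instance : MulAction G (Blk D M FF) where
  smul g o := ⟨{u | g⁻¹ • u ∈ o.S}, by
    obtain ⟨h, X, hX, hS⟩ := o.hS
    refine ⟨g * h, X, hX, ?_⟩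
    ext u
    show g⁻¹ • u ∈ o.S ↔ _
    rw [hS]
    constructor
    · rintro ⟨x, hx, h1⟩
      refine ⟨x, hx, ?_⟩
      rw [inv_smul_eq_iff] at h1
      rw [h1, mul_assoc]
      rfl
    · rintro ⟨x, hx, h1⟩
      refine ⟨x, hx, ?_⟩
      rw [inv_smul_eq_iff, h1, mul_assoc]
      rfl⟩
  one_smul o := by
    refine Blk.ext ?_
    ext y
    show (1 : G)⁻¹ • y ∈ o.S ↔ y ∈ o.S
    rw [inv_one, one_smul]
  mul_smul g h o := by
    refine Blk.ext ?_
    ext y
    show (g * h)⁻¹ • y ∈ o.S ↔ h⁻¹ • g⁻¹ • y ∈ o.S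
    rw [mul_inv_rev, mul_smul]

theorem mem_smul (g : G) (o : Blk D M FF) (u : G ⧸ D) : u ∈ (g • o).S ↔ g⁻¹ • u ∈ o.S := Iff.rfl

instance [Finite G] : Finite (Blk D M FF) :=
  Finite.of_injective (fun o => o.S) (fun _ _ h => Blk.ext h)

theorem nonempty (o : Blk D M FF) : ∃ u, u ∈ o.S := by
  obtain ⟨g, X, hX, hS⟩ := o.hS
  exact ⟨_, by rw [hS]; exact ⟨1, X.one_mem, rfl⟩⟩

/-- The base point of a block. -/
noncomputable def b (h : D ≤ M) (o : Blk D M FF) : G ⧸ M := cproj h o.nonempty.choose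

theorem cproj_eq (h : D ≤ M) {o : Blk D M FF} {u u' : G ⧸ D} (hu : u ∈ o.S) (hu' : u' ∈ o.S) :
    cproj h u = cproj h u' := by
  obtain ⟨g, X, hX, hS⟩ := o.hS
  rw [hS] at hu hu'
  obtain ⟨x, hx, rfl⟩ := hu
  obtain ⟨x', hx', rfl⟩ := hu'
  rw [cproj_mk, cproj_mk, QuotientGroup.eq]
  have e : (g * (x : G))⁻¹ * (g * (x' : G)) = ((x⁻¹ * x' : M) : G) := by
    push_cast
    group
  rw [e]
  exact (x⁻¹ * x').2

theorem b_of_mem (h : D ≤ M) {o : Blk D M FF} {u : G ⧸ D} (hu : u ∈ o.S) :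
    cproj h u = o.b h := cproj_eq h hu o.nonempty.choose_spec

theorem b_smul (h : D ≤ M) (g : G) (o : Blk D M FF) : (g • o).b h = g • o.b h := by
  obtain ⟨u, hu⟩ := o.nonempty
  rw [← b_of_mem h hu, ← cproj_smul]
  refine (b_of_mem h ?_).symm
  rw [mem_smul, inv_smul_smul]
  exact hu

/-- Points in a fibre are separated by the blocks. -/
theorem sep (hDM : D ≤ M) (hco : IsCoatom (D.subgroupOf M))
    (hX : ∃ X ∈ FF, ∃ m : M, ∀ x ∈ X, ∀ d ∈ D.subgroupOf M, x * d ≠ m)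
    (u u' : G ⧸ D) (hu : cproj hDM u = cproj hDM u')
    (h : ∀ o : Blk D M FF, u ∈ o.S ↔ u' ∈ o.S) : u = u' := by
  induction u using QuotientGroup.induction_on with
  | H g =>
  induction u' using QuotientGroup.induction_on with
  | H g' =>
  rw [cproj_mk, cproj_mk, QuotientGroup.eq] at hu
  let D1 : Subgroup M :=
    { carrier := {m | ∀ o : Blk D M FF, ((1 : G) : G ⧸ D) ∈ o.S ↔ ((m : G) : G ⧸ D) ∈ o.S}
      one_mem' := fun o => Iff.rfl
      mul_mem' := by
        intro m m' hm hm' o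
        have h1 := hm' ((m : G)⁻¹ • o)
        rw [mem_smul, mem_smul, inv_inv] at h1
        have e1 : (m : G) • ((1 : G) : G ⧸ D) = ((m : G) : G ⧸ D) := by
          show (((m : G) * 1 : G) : G ⧸ D) = _
          rw [mul_one]
        rw [e1] at h1
        exact (hm o).trans h1
      inv_mem' := by
        intro m hm o
        have h1 := hm ((m : G) • o)
        rw [mem_smul, mem_smul] at h1
        have e1 : (m : G)⁻¹ • ((1 : G) : G ⧸ D) = (((m⁻¹ : M) : G) : G ⧸ D) := by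
          show (((m : G)⁻¹ * 1 : G) : G ⧸ D) = _
          rw [mul_one]
          rfl
        have e2 : (m : G)⁻¹ • ((m : G) : G ⧸ D) = ((1 : G) : G ⧸ D) := by
          show (((m : G)⁻¹ * m : G) : G ⧸ D) = _
          rw [inv_mul_cancel]
        rw [e1, e2] at h1
        exact h1.symm }
  have hm : (⟨g⁻¹ * g', hu⟩ : M) ∈ D1 := by
    intro o
    have h1 := h (g • o)
    rw [mem_smul, mem_smul] at h1
    have e1 : g⁻¹ • (g : G ⧸ D) = ((1 : G) : G ⧸ D) := by
      show ((g⁻¹ * g : G) : G ⧸ D) = _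
      rw [inv_mul_cancel]
    rw [e1] at h1
    exact h1
  have hle : D.subgroupOf M ≤ D1 := by
    intro d hd o
    have e1 : ((d : G) : G ⧸ D) = ((1 : G) : G ⧸ D) := by
      rw [eq_comm, QuotientGroup.eq, inv_one, one_mul]
      exact Subgroup.mem_subgroupOf.1 hd
    rw [e1]
  have hD1 : D1 = D.subgroupOf M := by
    by_contra hne
    have htop := hco.2 D1 (lt_of_le_of_ne hle (Ne.symm hne))
    obtain ⟨X, hXF, m, hXm⟩ := hX
    let o : Blk D M FF := ⟨{u | ∃ x ∈ X, u = ((1 * (x : M) : G) : G ⧸ D)}, 1, X, hXF, rfl⟩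
    have hmem : m ∈ D1 := by rw [htop]; exact Subgroup.mem_top _
    have h1 : ((m : G) : G ⧸ D) ∈ o.S := (hmem o).1 ⟨1, X.one_mem, by simp⟩
    obtain ⟨x, hx, h2⟩ := h1
    rw [one_mul, eq_comm, QuotientGroup.eq] at h2
    refine hXm x hx (x⁻¹ * m) ?_ (mul_inv_cancel_left _ _)
    rw [Subgroup.mem_subgroupOf]
    exact h2
  rw [hD1, Subgroup.mem_subgroupOf] at hm
  rw [QuotientGroup.eq]
  exact hm

/-- The number of blocks in a fibre. -/
theorem card_fibre [Finite G] (hDM : D ≤ M)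
    (hconj : ∀ X ∈ FF, ∀ m : M, X.map (MulAut.conj m).toMonoidHom ∈ FF) (b : G ⧸ M) :
    Nat.card {o : Blk D M FF // o.b hDM = b} ≤
      Set.ncard {O : Set M | ∃ X ∈ FF, ∃ m : M, O = {y | ∃ x ∈ X, ∃ d ∈ D.subgroupOf M, y = x * m * d}} := by
  classical
  induction b using QuotientGroup.induction_on with
  | H g0 =>
  rw [← Nat.card_coe_set_eq]
  have hmem : ∀ o : {o : Blk D M FF // o.b hDM = (g0 : G ⧸ M)}, ∀ u ∈ o.1.S,
      ∃ y : M, u = ((g0 * y : G) : G ⧸ D) := by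
    rintro ⟨o, ho⟩ u hu
    have h1 := (b_of_mem hDM hu).trans ho
    induction u using QuotientGroup.induction_on with
    | H g =>
    rw [cproj_mk, eq_comm, QuotientGroup.eq] at h1
    exact ⟨⟨g0⁻¹ * g, h1⟩, by rw [mul_inv_cancel_left]⟩
  refine Nat.card_le_card_of_injective
    (fun o : {o : Blk D M FF // o.b hDM = (g0 : G ⧸ M)} =>
      (⟨{y : M | ((g0 * y : G) : G ⧸ D) ∈ o.1.S}, ?_⟩ :
      {O : Set M | ∃ X ∈ FF, ∃ m : M, O = {y | ∃ x ∈ X, ∃ d ∈ D.subgroupOf M, y = x * m * d}})) ?_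
  · obtain ⟨⟨S, g, X, hX, hS⟩, ho⟩ := o
    have h1 : ((g : G) : G ⧸ D) ∈ S := by
      rw [hS]; exact ⟨1, X.one_mem, by simp⟩
    have h2 := (b_of_mem (o := (⟨S, g, X, hX, hS⟩ : Blk D M FF)) hDM h1).trans ho
    rw [cproj_mk, eq_comm, QuotientGroup.eq] at h2
    let m : M := ⟨g0⁻¹ * g, h2⟩
    refine ⟨_, hconj X hX m, m, ?_⟩
    ext y
    show ((g0 * y : G) : G ⧸ D) ∈ S ↔ _
    rw [hS]
    constructor
    · rintro ⟨x, hx, h3⟩
      rw [eq_comm, QuotientGroup.eq] at h3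
      refine ⟨m * x * m⁻¹, ⟨x, hx, rfl⟩, ⟨(g * x)⁻¹ * (g0 * y), ?_⟩, ?_, ?_⟩
      · exact hDM h3
      · exact h3
      · apply Subtype.ext
        show (y : G) = (g0⁻¹ * g) * x * (g0⁻¹ * g)⁻¹ * (g0⁻¹ * g) * ((g * x)⁻¹ * (g0 * y))
        group
    · rintro ⟨_, ⟨x, hx, rfl⟩, d, hd, h3⟩
      refine ⟨x, hx, ?_⟩
      rw [eq_comm, QuotientGroup.eq]
      have h4 : (y : G) = (g0⁻¹ * g) * x * (g0⁻¹ * g)⁻¹ * (g0⁻¹ * g) * d := congrArg Subtype.val h3
      have e : (g * (x : G))⁻¹ * (g0 * (y : G)) = d := by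
        rw [h4]; group
      rw [e]
      exact Subgroup.mem_subgroupOf.1 hd
  · intro o o' h
    have h1 : {y : M | ((g0 * y : G) : G ⧸ D) ∈ o.1.S} = {y : M | ((g0 * y : G) : G ⧸ D) ∈ o'.1.S} :=
      Subtype.mk.inj h
    apply Subtype.ext
    apply Blk.ext
    ext u
    constructor
    · intro hu
      obtain ⟨y, rfl⟩ := hmem o u hu
      have : y ∈ {y : M | ((g0 * y : G) : G ⧸ D) ∈ o.1.S} := hu
      rw [h1] at this
      exact this
    · intro hu
      obtain ⟨y, rfl⟩ := hmem o' u hu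
      have : y ∈ {y : M | ((g0 * y : G) : G ⧸ D) ∈ o'.1.S} := hu
      rw [← h1] at this
      exact this

end Blk

theorem caseG {K s : ℕ} [Finite G] {D M : Subgroup G} (hDM : D < M)
    (hco : IsCoatom (D.subgroupOf M)) (FF : Set (Subgroup M))
    (hconj : ∀ X ∈ FF, ∀ m : M, X.map (MulAut.conj m).toMonoidHom ∈ FF)
    (hX : ∃ X ∈ FF, ∃ m : M, ∀ x ∈ X, ∀ d ∈ D.subgroupOf M, x * d ≠ m)
    (hs : Set.ncard {O : Set M | ∃ X ∈ FF, ∃ m : M,
      O = {y | ∃ x ∈ X, ∃ d ∈ D.subgroupOf M, y = x * m * d}} ≤ s)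
    (hsK : s ^ s < 2 ^ K) (hsI : s ≤ (D.subgroupOf M).index)
    (hB : HasE G K (G ⧸ M) (60 * Nat.card (G ⧸ M))) :
    HasE G K (G ⧸ D) (60 * Nat.card (G ⧸ D)) := by
  have hcf : ∀ b, Nat.card {o : Blk D M FF // o.b hDM.le = b} ≤ s := fun b =>
    (Blk.card_fibre hDM.le hconj b).trans hs
  have h1 := hB.perm (K := K) (cproj hDM.le) (cproj_smul hDM.le) (cproj_surj hDM.le)
    (fun o : Blk D M FF => o.b hDM.le) (Blk.b_smul hDM.le) (fun u o => u ∈ o.S)
    (fun g u o => by rw [Blk.mem_smul, inv_smul_smul])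
    (fun o o' h => Blk.ext (Set.ext h))
    (fun b => (card_fibSym_small (hcf b) (fun u u' hu hu' h => by
      refine Blk.sep hDM.le hco hX u u' (hu.trans hu'.symm) ?_
      intro o
      by_cases ho : o.b hDM.le = b
      · exact h o ho
      · constructor
        · intro hm
          exact absurd ((Blk.b_of_mem hDM.le hm).symm.trans hu) ho
        · intro hm
          exact absurd ((Blk.b_of_mem hDM.le hm).symm.trans hu') ho)).trans_lt hsK)
  refine h1.mono ?_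
  have h2 := two_mul_card_base (cproj hDM.le) (cproj_fibre_nontrivial hDM)
  have h3 : Nat.card (Blk D M FF) ≤ s * Nat.card (G ⧸ M) := card_le_of_fibre _ s hcf
  have h4 : (D.subgroupOf M).index * Nat.card (G ⧸ M) = Nat.card (G ⧸ D) :=
    Subgroup.relIndex_mul_index hDM.le
  have h5 : Nat.card (Blk D M FF) ≤ Nat.card (G ⧸ D) := by
    rw [← h4]
    exact h3.trans (Nat.mul_le_mul_right _ hsI)
  have h2' : (2 : ℝ) * Nat.card (G ⧸ M) ≤ Nat.card (G ⧸ D) := by exact_mod_cast h2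
  have h5' : (Nat.card (Blk D M FF) : ℝ) ≤ Nat.card (G ⧸ D) := by exact_mod_cast h5
  have h6 : (0 : ℝ) ≤ Nat.card (G ⧸ D) := Nat.cast_nonneg _
  linarith

end Pool.Agent.Helper903_VG
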