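import Pool.Agent.Helper903_VG.GroupSub
import Pool.Agent.Helper903_VG.PermCase
import Pool.Agent.Helper903_VG.Series

/-!
The main proposition for groups with a subnormal series whose factors are abelian or small.
-/

set_option autoImplicit false

namespace Pool.Agent.Helper903_VG

/-- A subnormal series whose factors are abelian or of order at most `β`. -/
structure SubSer (M : Type) [Group M] (β ℓ : ℕ) (S : ℕ → Subgroup M) : Prop where
  bot : S 0 = ⊥
  top : S ℓ = ⊤
  mono : ∀ i < ℓ, S i ≤ S (i + 1)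
  normal : ∀ i < ℓ, ∀ a ∈ S (i + 1), ∀ x ∈ S i, a * x * a⁻¹ ∈ S i
  factor : ∀ i < ℓ, (∀ a ∈ S (i + 1), ∀ b ∈ S (i + 1), a * b * a⁻¹ * b⁻¹ ∈ S i) ∨
    (S i).relIndex (S (i + 1)) ≤ β

variable {M : Type} [Group M]

theorem SubSer.subgroupOf [Finite M] {β ℓ : ℕ} {S : ℕ → Subgroup M} (hS : SubSer M β ℓ S)
    (H : Subgroup M) : SubSer H β ℓ (fun i => (S i).subgroupOf H) where
  bot := by
    show (S 0).subgroupOf H = ⊥
    rw [hS.bot, Subgroup.bot_subgroupOf]
  top := by
    show (S ℓ).subgroupOf H = ⊤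
    rw [hS.top, Subgroup.top_subgroupOf]
  mono i hi := by
    intro x hx
    exact hS.mono i hi hx
  normal i hi a ha x hx := hS.normal i hi a ha x hx
  factor i hi := by
    rcases hS.factor i hi with h | h
    · left
      intro a ha b hb
      exact h a ha b hb
    · right
      refine le_trans ?_ h
      show ((S i).subgroupOf H).relIndex ((S (i + 1)).subgroupOf H) ≤ (S i).relIndex (S (i + 1))
      have e : ((S i).subgroupOf H).relIndex ((S (i + 1)).subgroupOf H) =
          (S i).relIndex (((S (i + 1)).subgroupOf H).map H.subtype) :=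
        Subgroup.relIndex_comap (f := H.subtype) (S i) ((S (i + 1)).subgroupOf H)
      rw [e, Subgroup.subgroupOf_map_subtype]
      exact Subgroup.relIndex_le_of_le_right inf_le_left Subgroup.index_ne_zero_of_finite

theorem SubSer.mono_beta {β β' ℓ : ℕ} {S : ℕ → Subgroup M} (hS : SubSer M β ℓ S)
    (h : ∀ i < ℓ, (S i).relIndex (S (i + 1)) ≤ β → (S i).relIndex (S (i + 1)) ≤ β') :
    SubSer M β' ℓ S :=
  ⟨hS.bot, hS.top, hS.mono, hS.normal, fun i hi => (hS.factor i hi).imp id (h i hi)⟩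

theorem SubSer.isSubnormal {β ℓ : ℕ} {S : ℕ → Subgroup M} (hS : SubSer M β ℓ S) (j : ℕ) :
    j ≤ ℓ → (S (ℓ - j)).IsSubnormal := by
  induction j with
  | zero =>
    intro _
    rw [Nat.sub_zero, hS.top]
    exact Subgroup.IsSubnormal.top
  | succ j ih =>
    intro hj
    have hi : ℓ - (j + 1) < ℓ := by omega
    have e : ℓ - (j + 1) + 1 = ℓ - j := by omega
    refine Subgroup.IsSubnormal.step _ (S (ℓ - j)) ?_ (ih (by omega)) ?_
    · rw [← e]; exact hS.mono _ hi
    · constructor
      intro x hx g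
      rw [Subgroup.mem_subgroupOf] at hx ⊢
      have hg : (g : M) ∈ S (ℓ - (j + 1) + 1) := by rw [e]; exact g.2
      exact hS.normal _ hi g hg x hx

theorem SubSer.isSubnormal' {β ℓ : ℕ} {S : ℕ → Subgroup M} (hS : SubSer M β ℓ S) {i : ℕ}
    (hi : i ≤ ℓ) : (S i).IsSubnormal := by
  have := hS.isSubnormal (ℓ - i) (by omega)
  rwa [show ℓ - (ℓ - i) = i by omega] at this

theorem SubSer.exists_step {β ℓ : ℕ} {S : ℕ → Subgroup M} (hS : SubSer M β ℓ S) {K : Subgroup M}
    (hK : K ≠ ⊤) : ∃ i < ℓ, S i ≤ K ∧ ¬ S (i + 1) ≤ K := by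
  by_contra hcon
  push Not at hcon
  have key : ∀ i ≤ ℓ, S i ≤ K := by
    intro i
    induction i with
    | zero => intro _; rw [hS.bot]; exact bot_le
    | succ i ih => intro hi; exact hcon i (by omega) (ih (by omega))
  have := key ℓ le_rfl
  rw [hS.top] at this
  exact hK (top_le_iff.1 this)

/-- The quotient by the core of a maximal subgroup. -/
theorem quot_coatom (D : Subgroup M) (hD : IsCoatom D) :
    IsCoatom (D.map (QuotientGroup.mk' D.normalCore)) ∧
      (D.map (QuotientGroup.mk' D.normalCore)).normalCore = ⊥ ∧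
      (D.map (QuotientGroup.mk' D.normalCore)).comap (QuotientGroup.mk' D.normalCore) = D := by
  have hsurj := QuotientGroup.mk'_surjective D.normalCore
  have hcm : (D.map (QuotientGroup.mk' D.normalCore)).comap (QuotientGroup.mk' D.normalCore) = D := by
    apply Subgroup.comap_map_eq_self
    rw [QuotientGroup.ker_mk']
    exact D.normalCore_le
  refine ⟨⟨?_, ?_⟩, ?_, hcm⟩
  · intro h
    apply hD.1
    rw [← hcm, h, Subgroup.comap_top]
  · intro S hS
    have h1 := (Subgroup.comap_lt_comap_of_surjective hsurj).2 hS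
    rw [hcm] at h1
    have h2 := hD.2 _ h1
    rw [← Subgroup.map_comap_eq_self_of_surjective hsurj S, h2]
    exact Subgroup.map_top_of_surjective _ hsurj
  · rw [eq_bot_iff]
    have h1 : ((D.map (QuotientGroup.mk' D.normalCore)).normalCore).comap
        (QuotientGroup.mk' D.normalCore) ≤ D.normalCore := by
      apply Subgroup.normal_le_normalCore.2
      refine le_trans (Subgroup.comap_mono (Subgroup.normalCore_le _)) ?_
      rw [hcm]
    intro x hx
    obtain ⟨m, rfl⟩ := hsurj x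
    have h2 : m ∈ D.normalCore := h1 hx
    rw [Subgroup.mem_bot, QuotientGroup.mk'_apply]
    exact (QuotientGroup.eq_one_iff m).2 h2

theorem conj_comap {H : Type} [Group H] (f : M →* H) (hf : Function.Surjective f) (X : Subgroup H)
    (m : M) : (X.comap f).map (MulAut.conj m).toMonoidHom =
      (X.map (MulAut.conj (f m)).toMonoidHom).comap f := by
  ext x
  rw [mem_map_conj, Subgroup.mem_comap, Subgroup.mem_comap, mem_map_conj, map_mul, map_mul, map_inv]

theorem prim_sub [Finite M] {β ℓ : ℕ} {S : ℕ → Subgroup M} (hS : SubSer M β ℓ S)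
    (D : Subgroup M) (hD : IsCoatom D) :
    (∃ (r : ℕ) (N : Subgroup M), r.Prime ∧ N.Normal ∧ D.normalCore ≤ N ∧ ¬ N ≤ D ∧
      (∀ a ∈ N, ∀ b ∈ N, a * b * a⁻¹ * b⁻¹ ∈ D.normalCore) ∧ (∀ a ∈ N, a ^ r ∈ D.normalCore)) ∨
    ∃ FF : Set (Subgroup M), (∀ X ∈ FF, ∀ m : M, X.map (MulAut.conj m).toMonoidHom ∈ FF) ∧
      (∃ X ∈ FF, ∃ m : M, ∀ x ∈ X, ∀ d ∈ D, x * d ≠ m) ∧
      Set.ncard {O : Set M | ∃ X ∈ FF, ∃ m : M, O = {y | ∃ x ∈ X, ∃ d ∈ D, y = x * m * d}} ≤
        (Nat.log 2 (D.index ^ 2)) ^ 2 * β ^ 2 := by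
  classical
  have hKn : D.normalCore.Normal := D.normalCore_normal
  set f := QuotientGroup.mk' D.normalCore with hf
  have hsurj : Function.Surjective f := QuotientGroup.mk'_surjective D.normalCore
  have hfe : ∀ x, f x = 1 ↔ x ∈ D.normalCore := fun x => QuotientGroup.eq_one_iff x
  obtain ⟨hD1, hD2, hD3⟩ := quot_coatom D hD
  rw [← hf] at hD1 hD2 hD3
  have hKtop : D.normalCore ≠ ⊤ := fun h => hD.1 (top_le_iff.1 (h ▸ D.normalCore_le))
  obtain ⟨i, hi, hiK, hiK'⟩ := hS.exists_step hKtop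
  have hsub : ((S (i + 1)).map f).IsSubnormal := (hS.isSubnormal' hi).map hsurj
  have hne : (S (i + 1)).map f ≠ ⊥ := by
    intro h0
    rw [Subgroup.map_eq_bot_iff, hf, QuotientGroup.ker_mk'] at h0
    exact hiK' h0
  obtain ⟨A, hAS, hA, hA0, hAm⟩ := exists_min_sub _ hsub hne
  by_cases hAc : ∀ a ∈ A, ∀ b ∈ A, a * b = b * a
  · left
    obtain ⟨N0, hN0n, hN0, hN0c⟩ := g0 A hA hA0 hAc
    have hn : (N0.comap f).Normal := inferInstance
    have hc : ∀ a ∈ N0.comap f, ∀ b ∈ N0.comap f, a * b * a⁻¹ * b⁻¹ ∈ D.normalCore := by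
      intro a ha b hb
      rw [← hfe, map_mul, map_mul, map_mul, map_inv, map_inv, hN0c _ ha _ hb]
      group
    have hle : ¬ N0.comap f ≤ D.normalCore := by
      intro h
      apply hN0
      rw [eq_bot_iff]
      intro x hx
      obtain ⟨m, rfl⟩ := hsurj x
      rw [Subgroup.mem_bot, hfe]
      exact h hx
    obtain ⟨r, N, hr, hNn, hKN, hNK, hNc, hNe⟩ := prim_rel D.normalCore (N0.comap f) hc hle
    exact ⟨r, N, hr, hNn, hKN, fun h => hNK (Subgroup.normal_le_normalCore.2 h), hNc, hNe⟩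
  · right
    have hcard : Nat.card A ≤ β := by
      rcases hS.factor i hi with h | h
      · exfalso
        apply hAc
        intro a ha b hb
        obtain ⟨x, hx, rfl⟩ := hAS ha
        obtain ⟨y, hy, rfl⟩ := hAS hb
        have h1 := hiK (h x hx y hy)
        rw [← hfe, map_mul, map_mul, map_mul, map_inv, map_inv, mul_inv_eq_one,
          mul_inv_eq_iff_eq_mul] at h1
        exact h1
      · refine le_trans ?_ h
        refine le_trans (Nat.card_le_card_of_injective _ (Subgroup.inclusion_injective hAS)) ?_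
        -- the image has order at most the relative index
        let g : (S (i + 1) ⧸ (S i).subgroupOf (S (i + 1))) → (S (i + 1)).map f :=
          Quotient.lift (fun s : S (i + 1) => (⟨f s, Subgroup.mem_map_of_mem _ s.2⟩ :
            (S (i + 1)).map f)) (by
            intro a b hab
            have h1 := QuotientGroup.leftRel_apply.1 hab
            rw [Subgroup.mem_subgroupOf] at h1
            have h2 := (hfe _).2 (hiK h1)
            apply Subtype.ext
            show f a = f b
            have h3 : f ((a : M)⁻¹ * b) = 1 := h2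
            rw [map_mul, map_inv, inv_mul_eq_one] at h3
            exact h3)
        have hg : Function.Surjective g := by
          rintro ⟨_, s, hs, rfl⟩
          exact ⟨Quotient.mk _ ⟨s, hs⟩, rfl⟩
        exact Nat.card_le_card_of_surjective g hg
    obtain ⟨FF, h1, h2, h3⟩ := fam_exists _ hD1 hD2 β ⟨A, hA, hA0, hAm, hAc, hcard⟩
    refine ⟨{X | ∃ Y ∈ FF, X = Y.comap f}, ?_, ?_, ?_⟩
    · rintro X ⟨Y, hY, rfl⟩ m
      exact ⟨_, h1 Y hY (f m), conj_comap f hsurj Y m⟩
    · obtain ⟨Y, hY, m, hm⟩ := h2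
      obtain ⟨m, rfl⟩ := hsurj m
      refine ⟨_, ⟨Y, hY, rfl⟩, m, ?_⟩
      intro x hx d hd h
      apply hm (f x) hx (f d) (Subgroup.mem_map_of_mem _ hd)
      rw [← map_mul, h]
    · have hidx : (D.map f).index = D.index := by
        conv_rhs => rw [← hD3]
        exact (Subgroup.index_comap_of_surjective _ hsurj).symm
      rw [hidx] at h3
      refine le_trans ?_ h3
      refine le_trans (Set.ncard_le_ncard (t := (fun O : Set (M ⧸ D.normalCore) => f ⁻¹' O) ''
        {O | ∃ X ∈ FF, ∃ m, O = {y | ∃ x ∈ X, ∃ d ∈ D.map f, y = x * m * d}}) ?_ (Set.toFinite _))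
        (Set.ncard_image_le (Set.toFinite _))
      rintro O ⟨X, ⟨Y, hY, rfl⟩, m, rfl⟩
      refine ⟨_, ⟨Y, hY, f m, rfl⟩, ?_⟩
      ext y
      constructor
      · rintro ⟨x, hx, _, ⟨d, hd, rfl⟩, h⟩
        obtain ⟨x, rfl⟩ := hsurj x
        have h4 : (x * m * d)⁻¹ * y ∈ D.normalCore := by
          rw [← hfe, map_mul, map_inv, map_mul, map_mul, h, inv_mul_cancel]
        refine ⟨x, hx, d * ((x * m * d)⁻¹ * y), D.mul_mem hd (D.normalCore_le h4), ?_⟩
        group
      · rintro ⟨x, hx, d, hd, rfl⟩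
        refine ⟨f x, hx, f d, Subgroup.mem_map_of_mem _ hd, ?_⟩
        rw [map_mul, map_mul]

/-- The condition on the number of colours. -/
def ColOK (K β m : ℕ) : Prop :=
  3 ≤ K ∧ ∀ m' ≤ m, m' ^ (Nat.log 2 m' + 1) < 2 ^ K ∧
    (Nat.log 2 (m' ^ 2)) ^ 2 * β ^ 2 ≤ K ∧
    ((Nat.log 2 (m' ^ 2)) ^ 2 * β ^ 2) ^ ((Nat.log 2 (m' ^ 2)) ^ 2 * β ^ 2) < 2 ^ K

variable {G : Type} [Group G]

theorem trans_sub {K β ℓ m : ℕ} [Finite G] {S : ℕ → Subgroup G}
    (hS : SubSer G β ℓ S) (hK : ColOK K β m) (D : Subgroup G) (hD : D ≠ ⊤)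
    (hm : Nat.card (G ⧸ D) ≤ m)
    (IH : ∀ (V' : Type) [Finite V'] [MulAction G V'], Nat.card V' < Nat.card (G ⧸ D) →
      HasE G K V' (60 * Nat.card V')) : HasE G K (G ⧸ D) (60 * Nat.card (G ⧸ D)) := by
  obtain ⟨hK3, hK'⟩ := hK
  obtain ⟨M, hM⟩ : ∃ M, D ⋖ M := exists_covBy_of_wellFoundedLT (not_isMax_iff_ne_top.2 hD)
  have hco := isCoatom_subgroupOf hM
  have hnt : ∀ b, Nontrivial {u : G ⧸ D // cproj hM.le u = b} := cproj_fibre_nontrivial hM.lt
  have h2 := two_mul_card_base (cproj hM.le) hnt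
  have hlt : Nat.card (G ⧸ M) < Nat.card (G ⧸ D) := by
    have : 0 < Nat.card (G ⧸ M) := Nat.card_pos
    omega
  have hB := IH (G ⧸ M) hlt
  by_cases hidx : (D.subgroupOf M).index ≤ K
  · exact caseA hK3 hM.lt hidx hB
  push Not at hidx
  have hidx2 : (D.subgroupOf M).index ≤ m := by
    refine le_trans ?_ hm
    have h3 : (D.subgroupOf M).index * Nat.card (G ⧸ M) = Nat.card (G ⧸ D) :=
      Subgroup.relIndex_mul_index hM.le
    have h4 : 0 < Nat.card (G ⧸ M) := Nat.card_pos
    rw [← h3]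
    exact Nat.le_mul_of_pos_right _ h4
  rcases prim_sub (hS.subgroupOf M) (D.subgroupOf M) hco with
    ⟨r, N, hr, hN, hcN, hND, hc, he⟩ | ⟨FF, hconj, hX, hs⟩
  · have hsup : N ⊔ D.subgroupOf M = ⊤ := hco.2 _ (right_lt_sup.2 hND)
    have hc' : ∀ a ∈ N, ∀ b ∈ N, a * b * a⁻¹ * b⁻¹ ∈ (D.subgroupOf M) := fun a ha b hb =>
      Subgroup.normalCore_le _ (hc a ha b hb)
    have he' : ∀ a ∈ N, a ^ r ∈ (D.subgroupOf M) := fun a ha =>
      Subgroup.normalCore_le _ (he a ha)
    by_cases hr2 : r = 2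
    · subst hr2
      refine caseF (cosFib hM.le 2 N hN hsup hc' he') hnt ?_ hB
      intro b
      refine (hK' (Nat.card {u : G ⧸ D // cproj hM.le u = b}) ?_).1
      refine le_trans ?_ hm
      exact Nat.card_le_card_of_injective _ Subtype.val_injective
    · refine (lemmaA hK3 (cosFib hM.le r N hN hsup hc' he') hr hr2 hnt _ le_rfl IH).mono ?_
      have h4 : (0 : ℝ) ≤ Nat.card (G ⧸ D) := Nat.cast_nonneg _
      linarith
  · obtain ⟨h1, h2, h3⟩ := hK' _ hidx2
    exact caseG hM.lt hco FF hconj hX hs h3 (h2.trans hidx.le) hB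

theorem main_sub {K β ℓ m : ℕ} [Finite G] {S : ℕ → Subgroup G}
    (hS : SubSer G β ℓ S) (hK : ColOK K β m) (n : ℕ) (hn : n ≤ m) :
    ∀ (V : Type) [Finite V] [MulAction G V], Nat.card V = n → HasE G K V (60 * Nat.card V) := by
  induction n using Nat.strong_induction_on with
  | _ n ih =>
  intro V _ _ hV
  subst hV
  have hnn : (0 : ℝ) ≤ Nat.card V := Nat.cast_nonneg _
  have hK3 : 3 ≤ K := hK.1
  rcases isEmpty_or_nonempty V with hE | ⟨⟨x0⟩⟩
  · refine (HasE.fixed (by omega) (V := V) (fun g x => (hE.false x).elim)).mono ?_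
    linarith
  by_cases htr : ∀ y, y ∈ MulAction.orbit G x0
  · -- transitive case
    by_cases hD : MulAction.stabilizer G x0 = ⊤
    · refine (HasE.fixed (by omega) (V := V) ?_).mono ?_
      · intro g x
        obtain ⟨h, rfl⟩ := htr x
        have h1 : ∀ k : G, k • x0 = x0 := fun k => by
          have : k ∈ MulAction.stabilizer G x0 := by rw [hD]; exact Subgroup.mem_top _
          exact this
        show g • h • x0 = h • x0
        rw [h1, h1]
      · linarith
    · have hb : Function.Surjective (MulAction.ofQuotientStabilizer G x0) := by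
        intro y
        obtain ⟨g, rfl⟩ := htr y
        exact ⟨(g : G ⧸ MulAction.stabilizer G x0), rfl⟩
      have hc : Nat.card (G ⧸ MulAction.stabilizer G x0) = Nat.card V :=
        Nat.card_congr (Equiv.ofBijective _ ⟨MulAction.injective_ofQuotientStabilizer G x0, hb⟩)
      have h1 := trans_sub hS hK (MulAction.stabilizer G x0) hD (by rw [hc]; exact hn)
        (fun V' _ _ hV' =>
          ih (Nat.card V') (by rw [hc] at hV'; exact hV') (by rw [hc] at hV'; omega) V' rfl)
      rw [hc] at h1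
      exact h1.of_bij (MulAction.ofQuotientStabilizer G x0)
        ⟨MulAction.injective_ofQuotientStabilizer G x0, MulAction.ofQuotientStabilizer_smul G x0⟩ hb
  · push Not at htr
    obtain ⟨y0, hy0⟩ := htr
    let _ := complAct (G := G) V x0
    have hsum : Nat.card (MulAction.orbit G x0) + Nat.card {x : V // x ∉ MulAction.orbit G x0} =
        Nat.card V := by
      classical
      rw [← Nat.card_sum]
      exact Nat.card_congr (Equiv.sumCompl (fun x => x ∈ MulAction.orbit G x0))
    have hp1 : 0 < Nat.card (MulAction.orbit G x0) := by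
      have : Nonempty (MulAction.orbit G x0) := ⟨⟨x0, MulAction.mem_orbit_self x0⟩⟩
      exact Nat.card_pos
    have hp2 : 0 < Nat.card {x : V // x ∉ MulAction.orbit G x0} := by
      have : Nonempty {x : V // x ∉ MulAction.orbit G x0} := ⟨⟨y0, hy0⟩⟩
      exact Nat.card_pos
    have h1 := ih _ (by omega) (by omega) (MulAction.orbit G x0) rfl
    have h2 := ih _ (by omega) (by omega) {x : V // x ∉ MulAction.orbit G x0} rfl
    have h3 := (h1.sum h2).of_bij (V := V) (Sum.elim Subtype.val Subtype.val) ⟨?_, ?_⟩ ?_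
    · refine h3.mono ?_
      rw [← hsum]
      push_cast
      linarith
    · rintro (x | x) (y | y) h
      · exact congrArg Sum.inl (Subtype.ext h)
      · exact absurd x.2 (by
          have h' : (x : V) = y := h
          rw [h']; exact y.2)
      · exact absurd y.2 (by
          have h' : (x : V) = y := h
          rw [← h']; exact x.2)
      · exact congrArg Sum.inr (Subtype.ext h)
    · rintro g (x | x)
      · rfl
      · rfl
    · intro x
      by_cases hx : x ∈ MulAction.orbit G x0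
      · exact ⟨Sum.inl ⟨x, hx⟩, rfl⟩
      · exact ⟨Sum.inr ⟨x, hx⟩, rfl⟩

end Pool.Agent.Helper903_VG
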