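import Pool.Agent.Helper903_VG.Final
import Pool.Agent.Helper903_VG.SubSeries

/-!
The final bound for groups with a subnormal series whose factors are abelian or small.
-/

set_option autoImplicit false

namespace Pool.Agent.Helper903_VG

theorem pow_self_lt (s K : ℕ) (h : s ^ 2 < K) : s ^ s < 2 ^ K := by
  have h1 : s ≤ 2 ^ s := Nat.lt_two_pow_self.le
  calc s ^ s ≤ (2 ^ s) ^ s := Nat.pow_le_pow_left h1 s
    _ = 2 ^ (s ^ 2) := by rw [← pow_mul, pow_two]
    _ < 2 ^ K := Nat.pow_lt_pow_right (by norm_num) h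

/-- The number of colours. -/
def colNum (n β : ℕ) : ℕ := (Nat.log 2 (n ^ 2) + 2) ^ 4 * β ^ 4 + 3

theorem colOK (n β : ℕ) (hβ : 0 < β) : ColOK (colNum n β) β n := by
  set L := Nat.log 2 (n ^ 2) with hL
  have hK : colNum n β = (L + 2) ^ 4 * β ^ 4 + 3 := rfl
  have hb4 : 1 ≤ β ^ 4 := Nat.one_le_pow _ _ hβ
  have hK1 : (L + 2) ^ 4 + 3 ≤ colNum n β := by
    rw [hK]
    have : (L + 2) ^ 4 * 1 ≤ (L + 2) ^ 4 * β ^ 4 := Nat.mul_le_mul_left _ hb4
    omega
  refine ⟨by rw [hK]; omega, ?_⟩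
  intro m hm
  have hl : Nat.log 2 (m ^ 2) ≤ L := Nat.log_mono_right (Nat.pow_le_pow_left hm 2)
  have hl1 : Nat.log 2 m ≤ L := by
    refine le_trans (Nat.log_mono_right ?_) hl
    exact Nat.le_self_pow (by norm_num) m
  have hs : (Nat.log 2 (m ^ 2)) ^ 2 * β ^ 2 ≤ L ^ 2 * β ^ 2 := by gcongr
  have hs2 : ((Nat.log 2 (m ^ 2)) ^ 2 * β ^ 2) ^ 2 < colNum n β := by
    calc ((Nat.log 2 (m ^ 2)) ^ 2 * β ^ 2) ^ 2 ≤ (L ^ 2 * β ^ 2) ^ 2 := Nat.pow_le_pow_left hs 2
      _ = L ^ 4 * β ^ 4 := by ring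
      _ ≤ (L + 2) ^ 4 * β ^ 4 := by gcongr; omega
      _ < colNum n β := by rw [hK]; omega
  refine ⟨?_, ?_, pow_self_lt _ _ hs2⟩
  · have h1 : m ≤ 2 ^ (Nat.log 2 m + 1) := (Nat.lt_pow_succ_log_self (by norm_num) m).le
    calc m ^ (Nat.log 2 m + 1) ≤ (2 ^ (Nat.log 2 m + 1)) ^ (Nat.log 2 m + 1) :=
          Nat.pow_le_pow_left h1 _
      _ = 2 ^ ((Nat.log 2 m + 1) ^ 2) := by rw [← pow_mul, pow_two]
      _ < 2 ^ colNum n β := by
          apply Nat.pow_lt_pow_right (by norm_num)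
          have h2 : (Nat.log 2 m + 1) ^ 2 ≤ (L + 2) ^ 4 := by
            calc (Nat.log 2 m + 1) ^ 2 ≤ (L + 2) ^ 2 := Nat.pow_le_pow_left (by omega) 2
              _ ≤ (L + 2) ^ 4 := Nat.pow_le_pow_right (by omega) (by norm_num)
          omega
  · refine le_trans ?_ hs2.le
    exact Nat.le_self_pow (by norm_num) _

theorem clog_le (x : ℕ) (hx : 1 ≤ x) : (Nat.clog 2 x : ℝ) ≤ 1 + 3 / 2 * Real.log x := by
  have hlx : 0 ≤ Real.log x := Real.log_nonneg (by exact_mod_cast hx)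
  rcases Nat.lt_or_ge x 2 with h | h
  · have : x = 1 := by omega
    subst this
    simp
  · have h1 : 2 ^ (Nat.clog 2 x - 1) < x := Nat.pow_pred_clog_lt_self (by norm_num) (by omega)
    have h2 : ((Nat.clog 2 x - 1 : ℕ) : ℝ) * Real.log 2 ≤ Real.log x := by
      rw [← Real.log_pow]
      apply Real.log_le_log (by positivity)
      exact_mod_cast h1.le
    have h3 := Real.log_two_gt_d9
    have h4 : (0 : ℝ) ≤ ((Nat.clog 2 x - 1 : ℕ) : ℝ) := Nat.cast_nonneg _
    have h5 : ((Nat.clog 2 x - 1 : ℕ) : ℝ) * (2 / 3) ≤ Real.log x := by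
      refine le_trans ?_ h2
      gcongr
      linarith
    have h6 : 1 ≤ Nat.clog 2 x := Nat.clog_pos (by norm_num) h
    rw [Nat.cast_sub h6] at h5
    push_cast at h5
    linarith

theorem clog_colNum (n β : ℕ) (hn : 0 < n) (hβ : 0 < β) :
    (Nat.clog 2 (colNum n β) : ℝ) ≤
      17 + 6 * (Real.log β + Real.log (1 + Real.log n)) := by
  set L := Nat.log 2 (n ^ 2) with hL
  have hn1 : (1 : ℝ) ≤ n := by exact_mod_cast hn
  have hb1 : (1 : ℝ) ≤ β := by exact_mod_cast hβ
  have hlogn : 0 ≤ Real.log n := Real.log_nonneg hn1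
  have hlogb : 0 ≤ Real.log β := Real.log_nonneg hb1
  have hL3 : (L : ℝ) ≤ 3 * Real.log n := by
    have h1 : 2 ^ L ≤ n ^ 2 := Nat.pow_log_le_self 2 (by positivity)
    have h2 : (L : ℝ) * Real.log 2 ≤ 2 * Real.log n := by
      rw [← Real.log_pow]
      have h3 : (2 : ℝ) * Real.log n = Real.log ((n : ℝ) ^ 2) := by
        rw [Real.log_pow]; norm_num
      rw [h3]
      apply Real.log_le_log (by positivity)
      exact_mod_cast h1
    have h3 := Real.log_two_gt_d9
    have h4 : (0 : ℝ) ≤ L := Nat.cast_nonneg _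
    nlinarith
  let x := 2 * (L + 2) * β
  have hx : 1 ≤ x := by
    have : 1 ≤ 2 * (L + 2) * β := by
      have : 0 < 2 * (L + 2) * β := by positivity
      omega
    exact this
  have hKx : colNum n β ≤ x ^ 4 := by
    have hb4 : 1 ≤ β ^ 4 := Nat.one_le_pow _ _ hβ
    have h16 : 16 ≤ (L + 2) ^ 4 := by
      calc 16 = 2 ^ 4 := by norm_num
        _ ≤ (L + 2) ^ 4 := Nat.pow_le_pow_left (by omega) 4
    have e : x ^ 4 = 16 * ((L + 2) ^ 4 * β ^ 4) := by
      show (2 * (L + 2) * β) ^ 4 = _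
      ring
    rw [e]
    show (L + 2) ^ 4 * β ^ 4 + 3 ≤ _
    have h3 : 16 * 1 ≤ (L + 2) ^ 4 * β ^ 4 := Nat.mul_le_mul h16 hb4
    omega
  have h1 : (Nat.clog 2 (colNum n β) : ℝ) ≤ 1 + 3 / 2 * Real.log ((x ^ 4 : ℕ) : ℝ) := by
    have h2 : Nat.clog 2 (colNum n β) ≤ Nat.clog 2 (x ^ 4) := Nat.clog_mono_right 2 hKx
    have h3 := clog_le (x ^ 4) (Nat.one_le_pow _ _ hx)
    have h4 : (Nat.clog 2 (colNum n β) : ℝ) ≤ Nat.clog 2 (x ^ 4) := by exact_mod_cast h2
    linarith
  have hxr : Real.log ((x ^ 4 : ℕ) : ℝ) = 4 * (Real.log (2 * (L + 2)) + Real.log β) := by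
    have e : ((x ^ 4 : ℕ) : ℝ) = ((2 * (L + 2)) * β : ℝ) ^ 4 := by
      show (((2 * (L + 2) * β) ^ 4 : ℕ) : ℝ) = _
      push_cast
      ring
    rw [e, Real.log_pow, Real.log_mul (by positivity) (by positivity)]
    norm_num
  have h5 : Real.log (2 * (L + 2)) ≤ 2 + Real.log (1 + Real.log n) := by
    have h6 : (2 * (L + 2) : ℝ) ≤ 6 * (1 + Real.log n) := by linarith
    have h7 : Real.log (2 * (L + 2)) ≤ Real.log (6 * (1 + Real.log n)) :=
      Real.log_le_log (by positivity) h6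
    have h7' : Real.log (6 * (1 + Real.log n)) = Real.log 6 + Real.log (1 + Real.log n) :=
      Real.log_mul (by norm_num) (by positivity)
    have h8 : Real.log 6 ≤ 2 := by
      rw [Real.log_le_iff_le_exp (by norm_num)]
      have h9 : (2.7182818283 : ℝ) < Real.exp 1 := Real.exp_one_gt_d9
      have h10 : Real.exp 2 = Real.exp 1 * Real.exp 1 := by rw [← Real.exp_add]; norm_num
      rw [h10]
      nlinarith
    linarith
  rw [hxr] at h1
  linarith

theorem final_bound_sub (n β s : ℕ) (hn : 0 < n) (hβ : 0 < β) (hβn : β ≤ n.factorial)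
    (hs : s = Nat.sqrt (Nat.clog 2 (colNum n β) + 2) + 1) :
    ((2 * s + 1) * (60 * n + (2 * s + 2) + 1) : ℝ) <
      2000 * Real.sqrt (1 + Real.log β + Real.log (1 + Real.log n)) * n := by
  have hn1 : (1 : ℝ) ≤ n := by exact_mod_cast hn
  have hlog : 0 ≤ Real.log β := Real.log_nonneg (by exact_mod_cast hβ)
  have hlogn : 0 ≤ Real.log n := Real.log_nonneg hn1
  have hll : 0 ≤ Real.log (1 + Real.log n) := Real.log_nonneg (by linarith)
  set x := Real.sqrt (1 + Real.log β + Real.log (1 + Real.log n)) with hx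
  have hx2 : x ^ 2 = 1 + Real.log β + Real.log (1 + Real.log n) := Real.sq_sqrt (by linarith)
  have hx1 : 1 ≤ x := by
    rw [hx, Real.one_le_sqrt]; linarith
  have h1 : Real.log β ≤ (n : ℝ) * (n - 1) := by
    have h2 : (β : ℝ) ≤ (n : ℝ) ^ n := by
      have h3 : β ≤ n ^ n := hβn.trans (Nat.factorial_le_pow n)
      exact_mod_cast h3
    calc Real.log β ≤ Real.log ((n : ℝ) ^ n) := Real.log_le_log (by exact_mod_cast hβ) h2
      _ = n * Real.log n := Real.log_pow n n
      _ ≤ n * (n - 1) := by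
        gcongr
        exact Real.log_le_sub_one_of_pos (by linarith)
  have h1' : Real.log (1 + Real.log n) ≤ n - 1 := by
    have h2 := Real.log_le_sub_one_of_pos (show (0 : ℝ) < 1 + Real.log n by linarith)
    have h3 := Real.log_le_sub_one_of_pos (show (0 : ℝ) < n by linarith)
    linarith
  have hxn : x ≤ n := by
    rw [hx]
    apply Real.sqrt_le_iff.2
    constructor
    · linarith
    · nlinarith
  have hs' : (s : ℝ) ≤ 6 * x := by
    have h2 : (Nat.sqrt (Nat.clog 2 (colNum n β) + 2) : ℝ) ≤ 5 * x := by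
      have h3 := Real.nat_sqrt_le_real_sqrt (a := Nat.clog 2 (colNum n β) + 2)
      refine h3.trans ?_
      apply Real.sqrt_le_iff.2
      constructor
      · linarith
      · have h4 := clog_colNum n β hn hβ
        push_cast at h4 ⊢
        nlinarith
    rw [hs]
    push_cast
    linarith
  have hs0 : (0 : ℝ) ≤ s := Nat.cast_nonneg _
  have e1 : (2 * s + 1 : ℝ) ≤ 13 * x := by linarith
  have e2 : (60 * n + (2 * s + 2) + 1 : ℝ) ≤ 75 * n := by linarith
  calc ((2 * s + 1) * (60 * n + (2 * s + 2) + 1) : ℝ) ≤ (13 * x) * (75 * n) := by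
        apply mul_le_mul e1 e2 (by positivity) (by positivity)
    _ < 2000 * x * n := by
        have : 0 < x * n := by positivity
        nlinarith

theorem main_subn {G : Type} [Group G] [Finite G] {β ℓ : ℕ} {S : ℕ → Subgroup G}
    (hS : SubSer G β ℓ S) (n k : ℕ)
    (c : Fin n → Fin n → Option (Fin k)) (hn : 0 < n)
    (h : ∃ φ : G →* Equiv.Perm (Fin n), Function.Injective ⇑φ ∧
        ∀ σ : Equiv.Perm (Fin n),
          (∀ x y : Fin n, c (σ x) (σ y) = c x y) ↔ σ ∈ Set.range ⇑φ) :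
    ∃ (m : ℕ) (Γ : SimpleGraph (Fin m)) (ψ : G →* Equiv.Perm (Fin m)),
        Function.Injective ⇑ψ ∧
        (∀ σ : Equiv.Perm (Fin m),
          (∀ x y : Fin m, Γ.Adj (σ x) (σ y) ↔ Γ.Adj x y) ↔ σ ∈ Set.range ⇑ψ) ∧
        (m : ℝ) < 2000 * Real.sqrt (1 + Real.log β + Real.log (1 + Real.log n)) * n := by
  obtain ⟨φ, hφ, hc⟩ := h
  -- normalise `β`
  let β' := max 1 (min β (Nat.card G))
  have hcard : ∀ A B : Subgroup G, A.relIndex B ≤ Nat.card G := by
    intro A B
    calc A.relIndex B ≤ Nat.card B :=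
          Nat.le_of_dvd Nat.card_pos (Subgroup.relIndex_dvd_card A B)
      _ ≤ Nat.card G := Nat.card_le_card_of_injective _ (Subgroup.subtype_injective B)
  have hS' : SubSer G β' ℓ S := hS.mono_beta (fun i _ hi =>
    (le_min hi (hcard _ _)).trans (le_max_right _ _))
  have hβ : 0 < β' := lt_of_lt_of_le one_pos (le_max_left _ _)
  have hβn : β' ≤ n.factorial := by
    refine max_le (Nat.factorial_pos n) ((min_le_right _ _).trans ?_)
    calc Nat.card G ≤ Nat.card (Equiv.Perm (Fin n)) := Nat.card_le_card_of_injective φ hφ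
      _ = n.factorial := by rw [Nat.card_perm, Nat.card_fin]
  have hlog : Real.log β' ≤ Real.log β := by
    rcases Nat.eq_zero_or_pos β with h0 | h0
    · have : β' = 1 := by simp [β', h0]
      rw [this, h0]
      simp
    · apply Real.log_le_log (by exact_mod_cast hβ)
      have : β' ≤ β := max_le h0 (min_le_left _ _)
      exact_mod_cast this
  let K := colNum n β'
  let t := Nat.clog 2 K
  let s := Nat.sqrt (t + 2) + 1
  have hKt : K ≤ 2 ^ t := Nat.le_pow_clog (by norm_num) K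
  have hs : t + 2 ≤ s * s := (Nat.lt_succ_sqrt (t + 2)).le
  have hK3 : 3 ≤ K := (colOK n β' hβ).1
  have hmain : @HasE G _ K (Fin n ⊕ Fin (2 * s + 2)) (vAct φ (2 * s + 2))
      (60 * n + (2 * s + 2 : ℕ)) := by
    let _ : MulAction G (Fin n) :=
      { smul := fun g x => φ g x
        one_smul := fun x => by
          show φ 1 x = x
          rw [map_one]; rfl
        mul_smul := fun g h x => by
          show φ (g * h) x = φ g (φ h x)
          rw [map_mul]; rfl }
    let _ : MulAction G (Fin (2 * s + 2)) :=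
      { smul := fun _ x => x
        one_smul := fun _ => rfl
        mul_smul := fun _ _ _ => rfl }
    have h1 : HasE G K (Fin n) (60 * Nat.card (Fin n)) :=
      main_sub hS' (colOK n β' hβ) n le_rfl (Fin n) (Nat.card_fin n)
    have h2 : HasE G K (Fin (2 * s + 2)) (Nat.card (Fin (2 * s + 2))) :=
      HasE.fixed (by omega) (fun _ _ => rfl)
    have h3 := h1.sum h2
    rw [Nat.card_fin, Nat.card_fin] at h3
    let a2 := vAct φ (2 * s + 2)
    refine @HasE.of_bij G _ K _ _ a2 _ _ h3 id ⟨Function.injective_id, ?_⟩ Function.surjective_id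
    rintro g (x | x)
    · rfl
    · rfl
  obtain ⟨W, hW, X, ⟨Θ⟩, hcard⟩ := assemble c φ hφ hc t s hKt hs (Nat.succ_pos _) _ hmain
  obtain ⟨Γ, ψ, h1, h2⟩ := to_fin X Θ
  refine ⟨Nat.card W, Γ, ψ, h1, h2, ?_⟩
  refine lt_of_le_of_lt hcard ?_
  have h3 := final_bound_sub n β' s hn hβ hβn rfl
  have h4 : 2000 * Real.sqrt (1 + Real.log β' + Real.log (1 + Real.log n)) * n ≤
      2000 * Real.sqrt (1 + Real.log β + Real.log (1 + Real.log n)) * n := by
    gcongr
  refine lt_of_lt_of_le ?_ h4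
  push_cast
  exact h3

end Pool.Agent.Helper903_VG
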