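import Mathlib
set_option autoImplicit false
namespace Pool.Agent.Helper903_VG

theorem g0_aux1 {H : Type} [Group H] [Finite H] (p : ℕ) (K : Subgroup H)
    (Q : Subgroup H) (hQK : Q ≤ K) (hQp : IsPGroup p Q) (hQn : K ≤ Subgroup.normalizer (Q : Set H)) :
    ∃ M : Subgroup H, Q ≤ M ∧ M ≤ K ∧ IsPGroup p M ∧ K ≤ Subgroup.normalizer (M : Set H) ∧
      ∀ R : Subgroup H, R ≤ K → IsPGroup p R → K ≤ Subgroup.normalizer (R : Set H) → R ≤ M := by
  have hfin : ({R : Subgroup H | R ≤ K ∧ IsPGroup p R ∧ K ≤ Subgroup.normalizer (R : Set H)}).Finite :=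
    Set.toFinite _
  obtain ⟨M, hQM, hM⟩ := hfin.exists_le_maximal (show Q ∈ {R : Subgroup H | R ≤ K ∧ IsPGroup p R ∧
    K ≤ Subgroup.normalizer (R : Set H)} from ⟨hQK, hQp, hQn⟩)
  obtain ⟨h1, h2, h3⟩ := hM.prop
  refine ⟨M, hQM, h1, h2, h3, fun R hR1 hR2 hR3 => ?_⟩
  have h4 : R ⊔ M ∈ {R : Subgroup H | R ≤ K ∧ IsPGroup p R ∧ K ≤ Subgroup.normalizer (R : Set H)} := by
    refine ⟨sup_le hR1 h1, IsPGroup.to_sup_of_normal_right' hR2 h2 (hR1.trans h3), ?_⟩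
    rw [Subgroup.le_normalizer_iff]
    intro k hk x hx
    rw [Subgroup.le_normalizer_iff] at hR3 h3
    have h5 : (R ⊔ M) ≤ (R ⊔ M).comap (MulAut.conj k).toMonoidHom := by
      refine sup_le ?_ ?_
      · intro r hr
        exact (le_sup_left : R ≤ R ⊔ M) (hR3 k hk r hr)
      · intro r hr
        exact (le_sup_right : M ≤ R ⊔ M) (h3 k hk r hr)
    exact h5 hx
  exact le_sup_left.trans (hM.le_of_ge h4 le_sup_right)

theorem g0_aux2 {H : Type} [Group H] [Finite H] (p : ℕ) (K : Subgroup H) (hK : K.IsSubnormal) :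
    ∀ (Q : Subgroup H), Q ≤ K → IsPGroup p Q → K ≤ Subgroup.normalizer (Q : Set H) → Q ≠ ⊥ →
      ∃ N : Subgroup H, N.Normal ∧ IsPGroup p N ∧ N ≠ ⊥ := by
  induction hK with
  | top =>
    intro Q _ hQ hn h0
    exact ⟨Q, Subgroup.normalizer_eq_top_iff.1 (top_le_iff.1 hn), hQ, h0⟩
  | step K K' hle hsub hN ih =>
    intro Q hQK hQp hQn h0
    obtain ⟨M, hQM, h1, h2, h3, h4⟩ := g0_aux1 p K Q hQK hQp hQn
    have hconj : ∀ g ∈ K', ∀ x ∈ K, g * x * g⁻¹ ∈ K := by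
      intro g hg x hx
      have := hN.conj_mem ⟨x, hle hx⟩ hx ⟨g, hg⟩
      exact this
    refine ih M (h1.trans hle) h2 ?_ (fun h => h0 (le_bot_iff.1 (h ▸ hQM)))
    rw [Subgroup.le_normalizer_iff]
    intro g hg m hm
    have h5 : M.map (MulAut.conj g).toMonoidHom ≤ M := by
      refine h4 _ ?_ (h2.map _) ?_
      · rintro _ ⟨y, hy, rfl⟩
        exact hconj g hg y (h1 hy)
      · rw [Subgroup.le_normalizer_iff] at h3 ⊢
        rintro k hk _ ⟨y, hy, rfl⟩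
        have hk' : g⁻¹ * k * g ∈ K := by
          have := hconj g⁻¹ (inv_mem hg) k hk
          rwa [inv_inv] at this
        refine ⟨(g⁻¹ * k * g) * y * (g⁻¹ * k * g)⁻¹, h3 _ hk' y hy, ?_⟩
        show g * ((g⁻¹ * k * g) * y * (g⁻¹ * k * g)⁻¹) * g⁻¹ = k * (g * y * g⁻¹) * k⁻¹
        group
    exact h5 ⟨m, hm, rfl⟩

theorem g0 {H : Type} [Group H] [Finite H] (A : Subgroup H) (hA : A.IsSubnormal) (hA0 : A ≠ ⊥)
    (hc : ∀ a ∈ A, ∀ b ∈ A, a * b = b * a) :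
    ∃ N : Subgroup H, N.Normal ∧ N ≠ ⊥ ∧ ∀ a ∈ N, ∀ b ∈ N, a * b = b * a := by
  have hcard : Nat.card A ≠ 1 := fun h => hA0 (Subgroup.card_eq_one.1 h)
  obtain ⟨p, hp, hpd⟩ := Nat.exists_prime_and_dvd hcard
  have : Fact p.Prime := ⟨hp⟩
  obtain ⟨a, ha⟩ := exists_prime_orderOf_dvd_card' p hpd
  have ha' : orderOf (a : H) = p := by rw [Subgroup.orderOf_coe, ha]
  obtain ⟨N, hN, hNp, hN0⟩ := g0_aux2 p A hA (Subgroup.zpowers (a : H))
    (by rw [Subgroup.zpowers_le]; exact a.2)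
    (IsPGroup.of_card (n := 1) (by rw [Nat.card_zpowers, ha', pow_one]))
    (by
      rw [Subgroup.le_normalizer_iff]
      intro k hk x hx
      have hxA : x ∈ A := (Subgroup.zpowers_le.2 a.2) hx
      rw [hc k hk x hxA, mul_assoc, mul_inv_cancel, mul_one]
      exact hx)
    (by
      rw [Ne, Subgroup.zpowers_eq_bot]
      intro h
      rw [h, orderOf_one] at ha'
      exact hp.one_lt.ne ha')
  have := hN
  have : Nontrivial N := (Subgroup.nontrivial_iff_ne_bot N).2 hN0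
  have hz := hNp.center_nontrivial
  refine ⟨(Subgroup.center N).map N.subtype, inferInstance, ?_, ?_⟩
  · rw [Ne, Subgroup.map_eq_bot_iff_of_injective _ N.subtype_injective]
    exact (Subgroup.nontrivial_iff_ne_bot _).1 hz
  · rintro _ ⟨x, hx, rfl⟩ _ ⟨y, _, rfl⟩
    have h := (Subgroup.mem_center_iff.1 hx) y
    have h2 := congrArg (fun z : N => (z : H)) h
    exact h2.symm

end Pool.Agent.Helper903_VG
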