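import Mathlib
set_option autoImplicit false
namespace Pool.Agent.Helper903_VG

open scoped commutatorElement

theorem g1_conj {H : Type} [Group H] {K L : Subgroup H} (h : (K.subgroupOf L).Normal) {x g : H}
    (hx : x ∈ K) (hxL : x ∈ L) (hg : g ∈ L) : g * x * g⁻¹ ∈ K := by
  have h1 := h.conj_mem ⟨x, hxL⟩ (Subgroup.mem_subgroupOf.2 hx) ⟨g, hg⟩
  simpa [Subgroup.mem_subgroupOf] using h1

theorem g1_perfect {H : Type} [Group H] (A : Subgroup H) (hA : A.IsSubnormal)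
    (hAm : ∀ X ≤ A, X.IsSubnormal → X = ⊥ ∨ X = A) (hAn : ¬ ∀ a ∈ A, ∀ b ∈ A, a * b = b * a) :
    ⁅A, A⁆ = A := by
  have hle : ⁅A, A⁆ ≤ A := by
    rw [Subgroup.commutator_le]
    intro a ha b hb
    rw [commutatorElement_def]
    exact A.mul_mem (A.mul_mem (A.mul_mem ha hb) (A.inv_mem ha)) (A.inv_mem hb)
  have hn : (⁅A, A⁆.subgroupOf A).Normal := by
    refine ⟨fun x hx g => ?_⟩
    rw [Subgroup.mem_subgroupOf] at hx ⊢
    have h1 : ⁅(g : H), (x : H)⁆ ∈ ⁅A, A⁆ := Subgroup.commutator_mem_commutator g.2 x.2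
    have h2 : ((g * x * g⁻¹ : A) : H) = ⁅(g : H), (x : H)⁆ * x := by
      rw [commutatorElement_def]
      simp [mul_assoc]
    rw [h2]
    exact Subgroup.mul_mem _ h1 hx
  rcases hAm _ hle (Subgroup.IsSubnormal.step _ A hle hA hn) with h | h
  · exfalso
    apply hAn
    intro a ha b hb
    have h1 : ⁅a, b⁆ ∈ ⁅A, A⁆ := Subgroup.commutator_mem_commutator ha hb
    rw [h, Subgroup.mem_bot, commutatorElement_eq_one_iff_mul_comm] at h1
    exact h1
  · exact h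

theorem g1_normalised {H : Type} [Group H] (A N : Subgroup H) (hA : A.IsSubnormal) (hAp : ⁅A, A⁆ = A)
    (hN : ∀ a ∈ A, ∀ x ∈ N, a * x * a⁻¹ ∈ N) (hNA : N ⊓ A = ⊥) : ⁅A, N⁆ = ⊥ := by
  obtain ⟨n, f, hmono, hnorm, h0, hn⟩ := Subgroup.IsSubnormal.isSubnormal_iff.1 hA
  have key : ∀ i, ⁅A, N ⊓ f i⁆ = ⊥ := by
    intro i
    induction i with
    | zero => rw [h0, hNA]; simp
    | succ i ih =>
      have h1 : ⁅A, N ⊓ f (i + 1)⁆ ≤ N ⊓ f i := by
        rw [Subgroup.commutator_le]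
        intro a ha x hx
        have hai : a ∈ f i := hmono (Nat.zero_le i) (by rw [h0]; exact ha)
        have hai' : a ∈ f (i + 1) := hmono (Nat.le_succ i) hai
        rw [commutatorElement_def]
        refine Subgroup.mem_inf.2 ⟨?_, ?_⟩
        · exact N.mul_mem (hN a ha x hx.1) (N.inv_mem hx.1)
        · have h2 : x * a⁻¹ * x⁻¹ ∈ f i :=
            g1_conj (hnorm i) ((f i).inv_mem hai) ((f (i + 1)).inv_mem hai') hx.2
          have h3 := (f i).mul_mem hai h2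
          simpa [mul_assoc] using h3
      have h2 : ⁅⁅A, N ⊓ f (i + 1)⁆, A⁆ = ⊥ := by
        rw [eq_bot_iff, ← ih, Subgroup.commutator_comm]
        exact Subgroup.commutator_mono le_rfl h1
      have h3 : ⁅⁅N ⊓ f (i + 1), A⁆, A⁆ = ⊥ := by
        rw [Subgroup.commutator_comm (N ⊓ f (i + 1)) A]
        exact h2
      have h4 := Subgroup.commutator_commutator_eq_bot_of_rotate (H₁ := A) (H₂ := A)
        (H₃ := N ⊓ f (i + 1)) h2 h3
      rwa [hAp] at h4
  have h5 := key n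
  rwa [hn, inf_top_eq] at h5

theorem g1_main {H : Type} [Group H] (A B : Subgroup H) (hA : A.IsSubnormal) (hB : B.IsSubnormal)
    (hAm : ∀ X ≤ A, X.IsSubnormal → X = ⊥ ∨ X = A) (hAp : ⁅A, A⁆ = A) :
    A ≤ B ∨ ⁅A, B⁆ = ⊥ := by
  induction hB with
  | top => exact Or.inl le_top
  | step L K h_le hSubn hN ih =>
    rcases ih with h | h
    · have hconj : ∀ a ∈ A, ∀ x ∈ L, a * x * a⁻¹ ∈ L :=
        fun a ha x hx => g1_conj hN hx (h_le hx) (h ha)
      have hn : ((L ⊓ A).subgroupOf A).Normal := by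
        refine ⟨fun x hx g => ?_⟩
        rw [Subgroup.mem_subgroupOf] at hx ⊢
        exact Subgroup.mem_inf.2 ⟨hconj g g.2 x hx.1, (g * x * g⁻¹ : A).2⟩
      rcases hAm (L ⊓ A) inf_le_right (Subgroup.IsSubnormal.step _ A inf_le_right hA hn) with h1 | h1
      · exact Or.inr (g1_normalised A L hA hAp hconj h1)
      · exact Or.inl (inf_eq_right.1 h1)
    · right
      rw [eq_bot_iff, ← h]
      exact Subgroup.commutator_mono le_rfl h_le

theorem g1 {H : Type} [Group H] [Finite H] (A B : Subgroup H) (hA : A.IsSubnormal) (hB : B.IsSubnormal)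
    (hA0 : A ≠ ⊥) (hB0 : B ≠ ⊥)
    (hAm : ∀ X ≤ A, X.IsSubnormal → X = ⊥ ∨ X = A) (hBm : ∀ X ≤ B, X.IsSubnormal → X = ⊥ ∨ X = B)
    (hAn : ¬ ∀ a ∈ A, ∀ b ∈ A, a * b = b * a) (hAB : A ≠ B) : ∀ a ∈ A, ∀ b ∈ B, a * b = b * a := by
  have hAp := g1_perfect A hA hAm hAn
  rcases g1_main A B hA hB hAm hAp with h | h
  · exfalso
    rcases hBm A h hA with h1 | h1
    · exact hA0 h1
    · exact hAB h1
  · intro a ha b hb
    have h1 : ⁅a, b⁆ ∈ ⁅A, B⁆ := Subgroup.commutator_mem_commutator ha hb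
    rw [h, Subgroup.mem_bot, commutatorElement_eq_one_iff_mul_comm] at h1
    exact h1

end Pool.Agent.Helper903_VG
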