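import Mathlib
set_option autoImplicit false
namespace Pool.Agent.Helper903_VG

theorem g2a_comm {H : Type} [Group H] {T : Set (Subgroup H)}
    (hcomm : ∀ A ∈ T, ∀ B ∈ T, A ≠ B → ∀ a ∈ A, ∀ b ∈ B, a * b = b * a)
    {I J : Set (Subgroup H)} (hI : I ⊆ T) (hJ : J ⊆ T) (hd : ∀ A ∈ I, A ∉ J) {x y : H}
    (hx : x ∈ sSup I) (hy : y ∈ sSup J) : x * y = y * x := by
  have h : sSup I ≤ Subgroup.centralizer ((sSup J : Subgroup H) : Set H) := by
    refine sSup_le fun A hA => ?_
    rw [Subgroup.le_centralizer_iff]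
    refine sSup_le fun B hB => ?_
    intro b hb
    rw [Subgroup.mem_centralizer_iff]
    intro a ha
    exact hcomm A (hI hA) B (hJ hB) (fun e => hd A hA (e ▸ hB)) a ha b hb
  exact ((Subgroup.mem_centralizer_iff.1 (h hx)) y hy).symm

/-- the product of two commuting subgroups -/
def g2a_prod {H : Type} [Group H] (B N : Subgroup H)
    (h : ∀ b ∈ B, ∀ n ∈ N, b * n = n * b) : Subgroup H where
  carrier := {x | ∃ b ∈ B, ∃ n ∈ N, b * n = x}
  mul_mem' := by
    rintro _ _ ⟨b, hb, n, hn, rfl⟩ ⟨b', hb', n', hn', rfl⟩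
    refine ⟨b * b', mul_mem hb hb', n * n', mul_mem hn hn', ?_⟩
    rw [mul_assoc, mul_assoc, ← mul_assoc b' n n', h b' hb' n hn, mul_assoc]
  one_mem' := ⟨1, one_mem _, 1, one_mem _, one_mul 1⟩
  inv_mem' := by
    rintro _ ⟨b, hb, n, hn, rfl⟩
    refine ⟨b⁻¹, inv_mem hb, n⁻¹, inv_mem hn, ?_⟩
    rw [mul_inv_rev, h _ (inv_mem hb) _ (inv_mem hn)]

theorem g2a_mem_sup {H : Type} [Group H] {B N : Subgroup H}
    (h : ∀ b ∈ B, ∀ n ∈ N, b * n = n * b) {x : H} (hx : x ∈ B ⊔ N) :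
    ∃ b ∈ B, ∃ n ∈ N, b * n = x := by
  have h1 : B ⊔ N ≤ g2a_prod B N h := by
    refine sup_le ?_ ?_
    · intro b hb
      exact ⟨b, hb, 1, one_mem _, mul_one b⟩
    · intro n hn
      exact ⟨1, one_mem _, n, hn, one_mul n⟩
  exact h1 hx

/-- a member which is not in `I` meets the join of `I` trivially -/
theorem g2a_trivial {H : Type} [Group H] {T : Set (Subgroup H)}
    (hcomm : ∀ A ∈ T, ∀ B ∈ T, A ≠ B → ∀ a ∈ A, ∀ b ∈ B, a * b = b * a)
    (hcen : ∀ A ∈ T, ∀ a ∈ A, (∀ b ∈ A, a * b = b * a) → a = 1)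
    {I : Set (Subgroup H)} (hI : I ⊆ T) {A : Subgroup H} (hA : A ∈ T) (hAI : A ∉ I) {a : H}
    (ha : a ∈ A) (ha' : a ∈ sSup I) : a = 1 := by
  refine hcen A hA a ha fun b hb => ?_
  refine g2a_comm hcomm hI (J := {A}) (Set.singleton_subset_iff.2 hA) ?_ ha' ?_
  · intro B hB hBA
    rw [Set.mem_singleton_iff] at hBA
    exact hAI (hBA ▸ hB)
  · rw [sSup_singleton]
    exact hb

theorem g2a_card {H : Type} [Group H] [Finite H] {T : Set (Subgroup H)}
    (hcomm : ∀ A ∈ T, ∀ B ∈ T, A ≠ B → ∀ a ∈ A, ∀ b ∈ B, a * b = b * a)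
    (hcen : ∀ A ∈ T, ∀ a ∈ A, (∀ b ∈ A, a * b = b * a) → a = 1)
    (hnt : ∀ A ∈ T, A ≠ ⊥) {I : Set (Subgroup H)} (hI : I ⊆ T) :
    2 ^ I.ncard ≤ Nat.card (sSup I : Subgroup H) := by
  have hfin : I.Finite := Set.toFinite I
  induction I, hfin using Set.Finite.induction_on with
  | empty =>
    rw [Set.ncard_empty, pow_zero]
    exact Nat.card_pos
  | @insert A I hA hf ih =>
    have ih' := ih (fun B hB => hI (Set.mem_insert_of_mem A hB))
    have hAT := hI (Set.mem_insert A I)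
    have hI' : I ⊆ T := fun B hB => hI (Set.mem_insert_of_mem A hB)
    rw [Set.ncard_insert_of_notMem hA hf, pow_succ]
    have hle : (sSup I : Subgroup H) ≤ sSup (insert A I) := sSup_le_sSup (Set.subset_insert A I)
    obtain ⟨k, hk⟩ := Subgroup.card_dvd_of_le hle
    have hpos : 0 < Nat.card (sSup (insert A I) : Subgroup H) := Nat.card_pos
    have hk2 : 2 ≤ k := by
      by_contra hlt
      have hk01 : k = 0 ∨ k = 1 := by omega
      rcases hk01 with rfl | rfl
      · rw [mul_zero] at hk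
        omega
      · rw [mul_one] at hk
        have heq := Subgroup.eq_of_le_of_card_ge hle hk.le
        refine hnt A hAT ((Subgroup.eq_bot_iff_forall A).2 fun a ha => ?_)
        refine g2a_trivial hcomm hcen hI' hAT hA ha ?_
        rw [heq]
        exact (le_sSup (Set.mem_insert A I)) ha
    rw [hk]
    exact Nat.mul_le_mul ih' hk2

/-- the cosets of `D` which meet `P` -/
def g2a_S {H : Type} [Group H] (D P : Subgroup H) : Set (H ⧸ D) :=
  {q | ∃ x ∈ P, (QuotientGroup.mk x : H ⧸ D) = q}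

theorem g2a_alpha {H : Type} [Group H] [Finite H] (D : Subgroup H) {T : Set (Subgroup H)}
    (hcomm : ∀ A ∈ T, ∀ B ∈ T, A ≠ B → ∀ a ∈ A, ∀ b ∈ B, a * b = b * a)
    {I : Set (Subgroup H)} (hI : I ⊆ T) :
    ∃ I' ⊆ I, g2a_S D (sSup I) ⊆ g2a_S D (sSup I') ∧
      2 ^ I'.ncard ≤ (g2a_S D (sSup I)).ncard := by
  have hfin : I.Finite := Set.toFinite I
  induction I, hfin using Set.Finite.induction_on with
  | empty =>
    refine ⟨∅, subset_rfl, subset_rfl, ?_⟩
    rw [Set.ncard_empty, pow_zero]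
    have : (g2a_S D (sSup (∅ : Set (Subgroup H)))).Nonempty := ⟨_, 1, one_mem _, rfl⟩
    exact (Set.ncard_pos (Set.toFinite _)).2 this
  | @insert B I0 hB hf ih =>
    have hI0 : I0 ⊆ T := fun A hA => hI (Set.mem_insert_of_mem B hA)
    have hBT : B ∈ T := hI (Set.mem_insert B I0)
    obtain ⟨I0', h1, h2, h3⟩ := ih hI0
    have hBI0 : B ∉ I0' := fun h => hB (h1 h)
    have hcB : ∀ b ∈ B, ∀ n ∈ sSup I0, b * n = n * b := by
      intro b hb n hn
      refine g2a_comm hcomm (I := {B}) (Set.singleton_subset_iff.2 hBT) hI0 ?_ ?_ hn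
      · intro A hA
        rw [Set.mem_singleton_iff] at hA
        rw [hA]
        exact hB
      · rw [sSup_singleton]
        exact hb
    have hmem : ∀ g ∈ (sSup (insert B I0) : Subgroup H), ∃ b ∈ B, ∃ n ∈ sSup I0, b * n = g := by
      intro g hg
      rw [sSup_insert] at hg
      exact g2a_mem_sup hcB hg
    have hle : (sSup I0 : Subgroup H) ≤ sSup (insert B I0) :=
      sSup_le_sSup (Set.subset_insert B I0)
    by_cases hS : g2a_S D (sSup (insert B I0)) ⊆ g2a_S D (sSup I0)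
    · refine ⟨I0', h1.trans (Set.subset_insert B I0), hS.trans h2, h3.trans ?_⟩
      refine Set.ncard_le_ncard ?_ (Set.toFinite _)
      rintro _ ⟨x, hx, rfl⟩
      exact ⟨x, hle hx, rfl⟩
    · refine ⟨insert B I0', Set.insert_subset_insert h1, ?_, ?_⟩
      · rintro _ ⟨g, hg, rfl⟩
        obtain ⟨b, hb, n, hn, rfl⟩ := hmem g hg
        obtain ⟨n', hn', he⟩ := h2 ⟨n, hn, rfl⟩
        refine ⟨b * n', ?_, ?_⟩
        · exact mul_mem ((le_sSup (Set.mem_insert B I0')) hb)
            ((sSup_le_sSup (Set.subset_insert B I0')) hn')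
        · rw [QuotientGroup.eq] at he ⊢
          rwa [mul_inv_rev, mul_assoc, inv_mul_cancel_left]
      · rw [Set.ncard_insert_of_notMem hBI0 (Set.toFinite _), pow_succ, mul_two]
        obtain ⟨q, ⟨g, hg, rfl⟩, hq⟩ := Set.not_subset.1 hS
        obtain ⟨b, hb, n, hn, rfl⟩ := hmem g hg
        have hbS : ∀ y ∈ sSup I0, (QuotientGroup.mk (b * y) : H ⧸ D) ∉ g2a_S D (sSup I0) := by
          rintro y hy ⟨y', hy', he⟩
          apply hq
          refine ⟨n * (y⁻¹ * y'), mul_mem hn (mul_mem (inv_mem hy) hy'), ?_⟩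
          rw [QuotientGroup.eq] at he ⊢
          have e : (n * (y⁻¹ * y'))⁻¹ * (b * n) = y'⁻¹ * (b * y) := by
            have e1 := hcB b hb n hn
            have e2 := hcB b hb y hy
            rw [e1, e2]
            group
          rw [e]
          exact he
        have hinj : Function.Injective (fun q : H ⧸ D => b • q) := MulAction.injective b
        have himg : ((fun q : H ⧸ D => b • q) '' g2a_S D (sSup I0)).ncard =
            (g2a_S D (sSup I0)).ncard := Set.ncard_image_of_injective _ hinj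
        have hdis : Disjoint (g2a_S D (sSup I0)) ((fun q : H ⧸ D => b • q) '' g2a_S D (sSup I0)) := by
          rw [Set.disjoint_left]
          rintro _ h4 ⟨_, ⟨y, hy, rfl⟩, rfl⟩
          exact hbS y hy h4
        have hsub : g2a_S D (sSup I0) ∪ ((fun q : H ⧸ D => b • q) '' g2a_S D (sSup I0)) ⊆
            g2a_S D (sSup (insert B I0)) := by
          rintro _ (⟨x, hx, rfl⟩ | ⟨_, ⟨y, hy, rfl⟩, rfl⟩)
          · exact ⟨x, hle hx, rfl⟩
          · exact ⟨b * y, mul_mem ((le_sSup (Set.mem_insert B I0)) hb) (hle hy), rfl⟩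
        have h5 := Set.ncard_le_ncard hsub (Set.toFinite _)
        rw [Set.ncard_union_eq hdis (Set.toFinite _) (Set.toFinite _), himg] at h5
        omega

theorem g2a {H : Type} [Group H] [Finite H] (D : Subgroup H) (hcore : D.normalCore = ⊥)
    (T : Set (Subgroup H))
    (htrans : ∀ h : H, ∃ n ∈ sSup T, ∃ d ∈ D, n * d = h)
    (hcomm : ∀ A ∈ T, ∀ B ∈ T, A ≠ B → ∀ a ∈ A, ∀ b ∈ B, a * b = b * a)
    (hcen : ∀ A ∈ T, ∀ a ∈ A, (∀ b ∈ A, a * b = b * a) → a = 1)
    (hnt : ∀ A ∈ T, A ≠ ⊥) : 2 ^ (Set.ncard T) ≤ D.index ^ 2 := by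
  obtain ⟨I', h1, h2, h3⟩ := g2a_alpha D hcomm (I := T) subset_rfl
  have hidx : ∀ S : Set (H ⧸ D), S.ncard ≤ D.index := by
    intro S
    rw [Subgroup.index, ← Set.ncard_univ]
    exact Set.ncard_le_ncard (Set.subset_univ S) (Set.toFinite _)
  have h4 : 2 ^ I'.ncard ≤ D.index := h3.trans (hidx _)
  have hcosets : ∀ h : H, ∃ n ∈ sSup I', ∃ d ∈ D, n * d = h := by
    intro h
    obtain ⟨n, hn, d, hd, rfl⟩ := htrans h
    obtain ⟨n', hn', he⟩ := h2 ⟨n, hn, rfl⟩
    rw [QuotientGroup.eq] at he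
    refine ⟨n', hn', n'⁻¹ * n * d, mul_mem he hd, ?_⟩
    group
  set C : Subgroup H := sSup (T \ I') with hC
  have hCc : ∀ c ∈ C, ∀ n ∈ sSup I', c * n = n * c := by
    intro c hc n hn
    exact g2a_comm hcomm Set.sdiff_subset h1 (fun A hA => hA.2) hc hn
  have hCD : ∀ c ∈ C, c ∈ D → c = 1 := by
    intro c hc hcD
    have h5 : c ∈ D.normalCore := by
      intro h
      obtain ⟨n, hn, d, hd, e⟩ := hcosets h⁻¹
      have e1 : h * c * h⁻¹ = d⁻¹ * c * d := by
        have e2 : h = (n * d)⁻¹ := by rw [e, inv_inv]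
        have e3 := hCc c hc n hn
        calc h * c * h⁻¹ = d⁻¹ * n⁻¹ * (c * n) * d := by rw [e2]; group
          _ = d⁻¹ * c * d := by rw [e3]; group
      rw [e1]
      exact mul_mem (mul_mem (inv_mem hd) hcD) hd
    rw [hcore] at h5
    exact Subgroup.mem_bot.1 h5
  have h6 : Nat.card C ≤ D.index := by
    rw [Subgroup.index]
    refine Nat.card_le_card_of_injective (fun c : C => (QuotientGroup.mk (c : H) : H ⧸ D)) ?_
    rintro ⟨c, hc⟩ ⟨c', hc'⟩ he
    have he' : (QuotientGroup.mk c : H ⧸ D) = QuotientGroup.mk c' := he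
    rw [QuotientGroup.eq] at he'
    have := hCD (c⁻¹ * c') (mul_mem (inv_mem hc) hc') he'
    rw [inv_mul_eq_one] at this
    exact Subtype.ext this
  have h7 : 2 ^ (T \ I').ncard ≤ D.index :=
    (g2a_card hcomm hcen hnt (I := T \ I') Set.sdiff_subset).trans h6
  have h8 : (T \ I').ncard + I'.ncard = T.ncard := Set.ncard_sdiff_add_ncard_of_subset h1 (Set.toFinite _)
  rw [← h8, pow_add, pow_two]
  exact Nat.mul_le_mul h7 h4

end Pool.Agent.Helper903_VG
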