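import Mathlib

set_option autoImplicit false
namespace Pool.Agent.Helper903_VG

theorem g2b_comm {H : Type} [Group H] (T : Set (Subgroup H))
    (hcomm : ∀ A ∈ T, ∀ B ∈ T, A ≠ B → ∀ a ∈ A, ∀ b ∈ B, a * b = b * a)
    (I I' : Set (Subgroup H)) (hI : I ⊆ T) (hI' : I' ⊆ T) (hd : Disjoint I I')
    (a b : H) (ha : a ∈ sSup I) (hb : b ∈ sSup I') : a * b = b * a := by
  have h1 : sSup I ≤ Subgroup.centralizer (sSup I' : Subgroup H) := by
    refine sSup_le fun A hA => ?_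
    rw [Subgroup.le_centralizer_iff]
    refine sSup_le fun B hB => ?_
    intro y hy
    rw [Subgroup.mem_centralizer_iff]
    intro x hx
    refine hcomm A (hI hA) B (hI' hB) ?_ x hx y hy
    rintro rfl
    exact Set.disjoint_left.mp hd hA hB
  have h2 := h1 ha
  rw [Subgroup.mem_centralizer_iff] at h2
  exact (h2 b hb).symm

theorem g2b_sup {H : Type} [Group H] (K L : Subgroup H)
    (hc : ∀ a ∈ K, ∀ b ∈ L, a * b = b * a) (x : H) (hx : x ∈ K ⊔ L) :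
    ∃ a ∈ K, ∃ b ∈ L, x = a * b := by
  let S : Subgroup H :=
    { carrier := {x | ∃ a ∈ K, ∃ b ∈ L, x = a * b}
      one_mem' := ⟨1, K.one_mem, 1, L.one_mem, by simp⟩
      mul_mem' := by
        rintro _ _ ⟨a, ha, b, hb, rfl⟩ ⟨a', ha', b', hb', rfl⟩
        refine ⟨a * a', K.mul_mem ha ha', b * b', L.mul_mem hb hb', ?_⟩
        have := hc a' ha' b hb
        calc a * b * (a' * b') = a * (b * a') * b' := by group
          _ = a * (a' * b) * b' := by rw [this]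
          _ = a * a' * (b * b') := by group
      inv_mem' := by
        rintro _ ⟨a, ha, b, hb, rfl⟩
        refine ⟨a⁻¹, K.inv_mem ha, b⁻¹, L.inv_mem hb, ?_⟩
        rw [hc a⁻¹ (K.inv_mem ha) b⁻¹ (L.inv_mem hb), mul_inv_rev] }
  have hK : K ≤ S := fun a ha => ⟨a, ha, 1, L.one_mem, by simp⟩
  have hL : L ≤ S := fun b hb => ⟨1, K.one_mem, b, hb, by simp⟩
  exact (sup_le hK hL) hx

theorem g2b_brk {H : Type} [Group H] (T : Set (Subgroup H))
    (hcomm : ∀ A ∈ T, ∀ B ∈ T, A ≠ B → ∀ a ∈ A, ∀ b ∈ B, a * b = b * a)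
    (I I' : Set (Subgroup H)) (hI : I ⊆ T) (hI' : I' ⊆ T)
    (m n : H) (hm : m ∈ sSup I) (hn : n ∈ sSup I') :
    m * n * m⁻¹ * n⁻¹ ∈ sSup (I ∩ I') := by
  have hs1 : sSup I = sSup (I ∩ I') ⊔ sSup (I \ I') := by
    rw [← sSup_union, Set.inter_union_sdiff]
  have hs2 : sSup I' = sSup (I ∩ I') ⊔ sSup (I' \ I) := by
    rw [← sSup_union, Set.inter_comm, Set.inter_union_sdiff]
  have hd1 : Disjoint (I ∩ I') (I \ I') := Set.disjoint_left.mpr fun x h h' => h'.2 h.2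
  have hd2 : Disjoint (I ∩ I') (I' \ I) := Set.disjoint_left.mpr fun x h h' => h'.2 h.1
  have hd3 : Disjoint (I \ I') (I' \ I) := Set.disjoint_left.mpr fun x h h' => h'.2 h.1
  have hT0 : I ∩ I' ⊆ T := fun x h => hI h.1
  have hT1 : I \ I' ⊆ T := fun x h => hI h.1
  have hT2 : I' \ I ⊆ T := fun x h => hI' h.1
  rw [hs1] at hm
  rw [hs2] at hn
  obtain ⟨a, ha, b, hb, rfl⟩ := g2b_sup _ _
    (fun a ha b hb => g2b_comm T hcomm _ _ hT0 hT1 hd1 a b ha hb) m hm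
  obtain ⟨c, hc, d, hd, rfl⟩ := g2b_sup _ _
    (fun a ha b hb => g2b_comm T hcomm _ _ hT0 hT2 hd2 a b ha hb) n hn
  have e1 : b * (c * d) = (c * d) * b := by
    have h1 : c * b = b * c := g2b_comm T hcomm _ _ hT0 hT1 hd1 c b hc hb
    have h2 : b * d = d * b := g2b_comm T hcomm _ _ hT1 hT2 hd3 b d hb hd
    rw [← mul_assoc, ← h1, mul_assoc, h2, mul_assoc]
  have e2 : a * d = d * a := g2b_comm T hcomm _ _ hT0 hT2 hd2 a d ha hd
  have e : a * b * (c * d) * (a * b)⁻¹ * (c * d)⁻¹ = a * c * a⁻¹ * c⁻¹ := by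
    calc a * b * (c * d) * (a * b)⁻¹ * (c * d)⁻¹
        = a * (b * (c * d)) * b⁻¹ * a⁻¹ * d⁻¹ * c⁻¹ := by group
      _ = a * ((c * d) * b) * b⁻¹ * a⁻¹ * d⁻¹ * c⁻¹ := by rw [e1]
      _ = a * c * d * (d * a)⁻¹ * c⁻¹ := by group
      _ = a * c * d * (a * d)⁻¹ * c⁻¹ := by rw [e2]
      _ = a * c * a⁻¹ * c⁻¹ := by group
  rw [e]
  exact Subgroup.mul_mem _ (Subgroup.mul_mem _ (Subgroup.mul_mem _ ha hc) (Subgroup.inv_mem _ ha))
    (Subgroup.inv_mem _ hc)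

/-- if every element is a product of one of `X` and one of `D`, every coset of `X` meets every
conjugate of `D` -/
theorem g2b_base {H : Type} [Group H] (D X : Subgroup H)
    (h : ∀ m : H, ∃ x ∈ X, ∃ d ∈ D, x * d = m) (z y : H) :
    ∃ n ∈ X, y⁻¹ * (z * n) * y ∈ D := by
  obtain ⟨x, hx, d, hd, h1⟩ := h y
  obtain ⟨x', hx', d', hd', h2⟩ := h (z⁻¹ * y)
  refine ⟨x' * x⁻¹, X.mul_mem hx' (X.inv_mem hx), ?_⟩
  have e : y⁻¹ * (z * (x' * x⁻¹)) * y = d'⁻¹ * d := by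
    have h3 : x' = z⁻¹ * y * d'⁻¹ := by rw [← h2]; group
    have h4 : x⁻¹ * y = d := by rw [← h1]; group
    calc y⁻¹ * (z * (x' * x⁻¹)) * y = y⁻¹ * z * x' * (x⁻¹ * y) := by group
      _ = y⁻¹ * z * (z⁻¹ * y * d'⁻¹) * d := by rw [h4, h3]
      _ = d'⁻¹ * d := by group
  rw [e]
  exact D.mul_mem (D.inv_mem hd') hd

theorem g2b {H : Type} [Group H] [Finite H] (D : Subgroup H) (hcore : D.normalCore = ⊥)
    (T : Set (Subgroup H)) (hne : T.Nonempty)
    (hcomm : ∀ A ∈ T, ∀ B ∈ T, A ≠ B → ∀ a ∈ A, ∀ b ∈ B, a * b = b * a)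
    (hcen : ∀ A ∈ T, ∀ a ∈ A, (∀ b ∈ A, a * b = b * a) → a = 1)
    (hnt : ∀ A ∈ T, A ≠ ⊥) :
    ∃ A ∈ T, ∃ B ∈ T, ∃ m : H, ∀ x ∈ sSup (T \ {A, B}), ∀ d ∈ D, x * d ≠ m := by
  by_contra hcon
  push Not at hcon
  obtain ⟨A, hA⟩ := hne
  have hfin : (T \ {A}).Finite := Set.toFinite _
  have hclaim : ∃ z ∈ A, z ≠ 1 ∧ ∀ y : H, ∃ n ∈ sSup ((T \ {A}) \ (T \ {A})), y⁻¹ * (z * n) * y ∈ D := by
    refine Set.Finite.induction_on_subset (T \ {A}) hfin
      (motive := fun J _ => ∃ z ∈ A, z ≠ 1 ∧ ∀ y : H, ∃ n ∈ sSup ((T \ {A}) \ J),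
        y⁻¹ * (z * n) * y ∈ D) ?_ ?_
    · obtain ⟨z, hz⟩ := (Subgroup.ne_bot_iff_exists_ne_one.mp (hnt A hA))
      · refine ⟨z, z.2, fun h => hz (Subtype.ext h), fun y => ?_⟩
        obtain ⟨n, hn, hn'⟩ := g2b_base D (sSup (T \ {A})) (fun m => by
          have := hcon A hA A hA m
          rwa [Set.pair_eq_singleton] at this) z y
        exact ⟨n, by rwa [Set.sdiff_empty], hn'⟩
    · intro B J hB hJ hBJ ih
      obtain ⟨z, hz, hz1, hzy⟩ := ih
      obtain ⟨t, ht, htz⟩ : ∃ t ∈ A, z * t ≠ t * z := by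
        by_contra hno
        push Not at hno
        exact hz1 (hcen A hA z hz hno)
      refine ⟨t * z * t⁻¹ * z⁻¹, ?_, ?_, ?_⟩
      · exact A.mul_mem (A.mul_mem (A.mul_mem ht hz) (A.inv_mem ht)) (A.inv_mem hz)
      · intro h
        apply htz
        rw [mul_inv_eq_one, mul_inv_eq_iff_eq_mul] at h
        exact h.symm
      · intro y
        obtain ⟨n, hn, hnD⟩ := hzy y
        obtain ⟨m, hm, hmD⟩ := g2b_base D (sSup (T \ {A, B})) (hcon A hA B hB.1) t y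
        have hbr := g2b_brk T hcomm (T \ {A, B}) ((T \ {A}) \ J) Set.sdiff_subset
          (Set.sdiff_subset.trans Set.sdiff_subset) m n hm hn
        refine ⟨m * n * m⁻¹ * n⁻¹, ?_, ?_⟩
        · have hsub : (T \ {A, B}) ∩ ((T \ {A}) \ J) ⊆ (T \ {A}) \ insert B J := by
            rintro C ⟨⟨hC1, hC2⟩, ⟨hC3, hC4⟩⟩
            refine ⟨hC3, ?_⟩
            rintro (rfl | h)
            · exact hC2 (by simp)
            · exact hC4 h
          have hle := sSup_le_sSup hsub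
          exact hle hbr
        · have hmem := D.mul_mem (D.mul_mem (D.mul_mem hmD hnD) (D.inv_mem hmD)) (D.inv_mem hnD)
          have hAsup : ∀ a ∈ A, ∀ b ∈ sSup (T \ {A}), a * b = b * a := by
            intro a ha b hb
            refine g2b_comm T hcomm {A} (T \ {A}) (by simpa using hA) Set.sdiff_subset
              (Set.disjoint_left.mpr fun x h h' => h'.2 h) a b (by simpa using ha) hb
          have hm' : m ∈ sSup (T \ {A}) := by
            have hle : sSup (T \ {A, B}) ≤ sSup (T \ {A}) :=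
              sSup_le_sSup (fun C hC => ⟨hC.1, fun h => hC.2 (Or.inl h)⟩)
            exact hle hm
          have hn' : n ∈ sSup (T \ {A}) := by
            have hle : sSup ((T \ {A}) \ J) ≤ sSup (T \ {A}) := sSup_le_sSup Set.sdiff_subset
            exact hle hn
          have c1 : m * z = z * m := (hAsup z hz m hm').symm
          have c2 : m⁻¹ * t⁻¹ = t⁻¹ * m⁻¹ := (hAsup _ (A.inv_mem ht) _ (Subgroup.inv_mem _ hm')).symm
          have c3 : (m * n * m⁻¹) * t⁻¹ = t⁻¹ * (m * n * m⁻¹) :=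
            (hAsup _ (A.inv_mem ht) _ (Subgroup.mul_mem _ (Subgroup.mul_mem _ hm' hn')
              (Subgroup.inv_mem _ hm'))).symm
          have c4 : (m * n * m⁻¹ * n⁻¹) * z⁻¹ = z⁻¹ * (m * n * m⁻¹ * n⁻¹) :=
            (hAsup _ (A.inv_mem hz) _ (Subgroup.mul_mem _ (Subgroup.mul_mem _ (Subgroup.mul_mem _ hm' hn')
              (Subgroup.inv_mem _ hm')) (Subgroup.inv_mem _ hn'))).symm
          have e : y⁻¹ * (t * m) * y * (y⁻¹ * (z * n) * y) * (y⁻¹ * (t * m) * y)⁻¹ *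
              (y⁻¹ * (z * n) * y)⁻¹ =
              y⁻¹ * (t * z * t⁻¹ * z⁻¹ * (m * n * m⁻¹ * n⁻¹)) * y := by
            calc y⁻¹ * (t * m) * y * (y⁻¹ * (z * n) * y) * (y⁻¹ * (t * m) * y)⁻¹ *
                (y⁻¹ * (z * n) * y)⁻¹
                = y⁻¹ * (t * (m * z) * n * m⁻¹ * t⁻¹ * n⁻¹ * z⁻¹) * y := by group
              _ = y⁻¹ * (t * (z * m) * n * m⁻¹ * t⁻¹ * n⁻¹ * z⁻¹) * y := by rw [c1]
              _ = y⁻¹ * (t * z * ((m * n * m⁻¹) * t⁻¹) * n⁻¹ * z⁻¹) * y := by group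
              _ = y⁻¹ * (t * z * (t⁻¹ * (m * n * m⁻¹)) * n⁻¹ * z⁻¹) * y := by rw [c3]
              _ = y⁻¹ * (t * z * t⁻¹ * ((m * n * m⁻¹ * n⁻¹) * z⁻¹)) * y := by group
              _ = y⁻¹ * (t * z * t⁻¹ * (z⁻¹ * (m * n * m⁻¹ * n⁻¹))) * y := by rw [c4]
              _ = y⁻¹ * (t * z * t⁻¹ * z⁻¹ * (m * n * m⁻¹ * n⁻¹)) * y := by group
          rw [e] at hmem
          exact hmem
  obtain ⟨z, hz, hz1, hzy⟩ := hclaim
  apply hz1
  have : z ∈ D.normalCore := by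
    intro b
    obtain ⟨n, hn, hnD⟩ := hzy b⁻¹
    rw [sdiff_self] at hn
    have hn1 : n = 1 := by simpa using hn
    rw [hn1] at hnD
    simpa using hnD
  rw [hcore] at this
  simpa using this

end Pool.Agent.Helper903_VG
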