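import Pool.Agent.Helper903_VG.Aff
import Pool.Agent.Helper903_VG.Elem

/-!
The directions (subgroups of index `r`) and the hyperplanes (their orbits) of an affine fibration.
-/

set_option autoImplicit false

namespace Pool.Agent.Helper903_VG

variable {G : Type} [Group G]

section

variable {U B : Type} [MulAction G U] [MulAction G B] {r : ℕ}

theorem AffFib.conj_iff (F : AffFib G U B r) (g : G) (b : B) (a : G) :
    a ∈ F.N (g • b) ↔ g⁻¹ * a * g ∈ F.N b := by
  constructor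
  · intro h
    have := F.conj g⁻¹ _ a h
    rwa [inv_smul_smul, inv_inv] at this
  · intro h
    have := F.conj g _ _ h
    have e : g * (g⁻¹ * a * g) * g⁻¹ = a := by group
    rwa [e] at this

/-- The directions of an affine fibration. -/
@[ext] structure Dir (F : AffFib G U B r) where
  b : B
  S : Subgroup G
  le : S ≤ F.N b
  ker : ∀ a ∈ F.N b, (∀ u, F.p u = b → a • u = u) → a ∈ S
  idx : S.relIndex (F.N b) = r

theorem mem_map_conj (g : G) (S : Subgroup G) (x : G) :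
    x ∈ S.map (MulAut.conj g).toMonoidHom ↔ g⁻¹ * x * g ∈ S := by
  constructor
  · rintro ⟨y, hy, rfl⟩
    have e : g⁻¹ * ((MulAut.conj g).toMonoidHom y) * g = y := by
      show g⁻¹ * (g * y * g⁻¹) * g = y
      group
    rwa [e]
  · intro h
    refine ⟨g⁻¹ * x * g, h, ?_⟩
    show g * (g⁻¹ * x * g) * g⁻¹ = x
    group

namespace Dir

variable {F : AffFib G U B r}

instance : MulAction G (Dir F) where
  smul g δ := ⟨g • δ.b, δ.S.map (MulAut.conj g).toMonoidHom, by
      intro x hx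
      rw [mem_map_conj] at hx
      rw [F.conj_iff]
      exact δ.le hx, by
      intro a ha h
      rw [mem_map_conj]
      rw [F.conj_iff] at ha
      refine δ.ker _ ha ?_
      intro u hu
      rw [mul_smul, mul_smul, h _ (by rw [F.map, hu]), inv_smul_smul], by
      have e : F.N (g • δ.b) = (F.N δ.b).map (MulAut.conj g).toMonoidHom := by
        ext x
        rw [mem_map_conj, F.conj_iff]
      rw [e, Subgroup.relIndex_map_map_of_injective _ _ (MulAut.conj g).injective, δ.idx]⟩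
  one_smul δ := by
    refine Dir.ext (one_smul G δ.b) ?_
    ext x
    show x ∈ δ.S.map (MulAut.conj (1 : G)).toMonoidHom ↔ _
    rw [mem_map_conj, inv_one, one_mul, mul_one]
  mul_smul g h δ := by
    refine Dir.ext (mul_smul g h δ.b) ?_
    ext x
    show x ∈ δ.S.map (MulAut.conj (g * h)).toMonoidHom ↔
      x ∈ (δ.S.map (MulAut.conj h).toMonoidHom).map (MulAut.conj g).toMonoidHom
    rw [mem_map_conj, mem_map_conj, mem_map_conj]
    have e : (g * h)⁻¹ * x * (g * h) = h⁻¹ * (g⁻¹ * x * g) * h := by group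
    rw [e]

theorem smul_b (g : G) (δ : Dir F) : (g • δ).b = g • δ.b := rfl

theorem mem_smul_S (g : G) (δ : Dir F) (x : G) : x ∈ (g • δ).S ↔ g⁻¹ * x * g ∈ δ.S :=
  mem_map_conj g δ.S x

instance [Finite G] [Finite B] : Finite (Dir F) :=
  Finite.of_injective (fun δ => (δ.b, δ.S)) (fun δ δ' h =>
    Dir.ext (congrArg Prod.fst h) (congrArg Prod.snd h))

theorem comm_mem (δ : Dir F) {a a' : G} (ha : a ∈ F.N δ.b) (ha' : a' ∈ F.N δ.b) :
    a * a' * a⁻¹ * a'⁻¹ ∈ δ.S := by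
  refine δ.ker _ ?_ ?_
  · exact (F.N _).mul_mem ((F.N _).mul_mem ((F.N _).mul_mem ha ha') ((F.N _).inv_mem ha))
      ((F.N _).inv_mem ha')
  · intro u hu
    rw [mul_smul, mul_smul, mul_smul]
    have h1 := F.comm' ((F.N δ.b).inv_mem ha) ((F.N δ.b).inv_mem ha') hu
    rw [h1, ← mul_smul a' , mul_inv_cancel, one_smul, ← mul_smul, mul_inv_cancel, one_smul]

theorem fix (δ : Dir F) {a : G} (ha : a ∈ F.N δ.b) : a • δ = δ := by
  refine Dir.ext (F.fix _ a ha) ?_
  ext x
  rw [mem_smul_S]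
  constructor
  · intro h
    have hx : x ∈ F.N δ.b := by
      have := (F.N _).mul_mem ((F.N _).mul_mem ha (δ.le h)) ((F.N _).inv_mem ha)
      have e : a * (a⁻¹ * x * a) * a⁻¹ = x := by group
      rwa [e] at this
    have h1 := δ.comm_mem hx ((F.N δ.b).inv_mem ha)
    have e : x = (x * a⁻¹ * x⁻¹ * a⁻¹⁻¹) * (a⁻¹ * x * a) := by group
    rw [e]
    exact δ.S.mul_mem h1 h
  · intro h
    have hx := δ.le h
    have h1 := δ.comm_mem ((F.N δ.b).inv_mem ha) hx
    have e : a⁻¹ * x * a = (a⁻¹ * x * a⁻¹⁻¹ * x⁻¹) * x := by group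
    rw [e]
    exact δ.S.mul_mem h1 h

end Dir

/-- The hyperplanes of an affine fibration. -/
@[ext] structure Hyp (F : AffFib G U B r) where
  δ : Dir F
  O : Set U
  hO : ∃ u, F.p u = δ.b ∧ O = {y | ∃ s ∈ δ.S, s • u = y}

namespace Hyp

variable {F : AffFib G U B r}

instance : MulAction G (Hyp F) where
  smul g o := ⟨g • o.δ, {y | g⁻¹ • y ∈ o.O}, by
    obtain ⟨u, hu, hO⟩ := o.hO
    refine ⟨g • u, ?_, ?_⟩
    · rw [F.map, hu, Dir.smul_b]
    · ext y
      rw [hO]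
      show (∃ s ∈ o.δ.S, s • u = g⁻¹ • y) ↔ ∃ s ∈ (g • o.δ).S, s • g • u = y
      constructor
      · rintro ⟨s, hs, h⟩
        refine ⟨g * s * g⁻¹, ?_, ?_⟩
        · rw [Dir.mem_smul_S]
          have e : g⁻¹ * (g * s * g⁻¹) * g = s := by group
          rwa [e]
        · rw [mul_smul, mul_smul, inv_smul_smul, h, smul_inv_smul]
      · rintro ⟨s, hs, h⟩
        rw [Dir.mem_smul_S] at hs
        refine ⟨g⁻¹ * s * g, hs, ?_⟩
        rw [mul_smul, mul_smul, h]⟩
  one_smul o := by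
    refine Hyp.ext (one_smul G o.δ) ?_
    ext y
    show (1 : G)⁻¹ • y ∈ o.O ↔ y ∈ o.O
    rw [inv_one, one_smul]
  mul_smul g h o := by
    refine Hyp.ext (mul_smul g h o.δ) ?_
    ext y
    show (g * h)⁻¹ • y ∈ o.O ↔ h⁻¹ • g⁻¹ • y ∈ o.O
    rw [mul_inv_rev, mul_smul]

theorem smul_δ (g : G) (o : Hyp F) : (g • o).δ = g • o.δ := rfl

theorem mem_smul (g : G) (o : Hyp F) (y : U) : y ∈ (g • o).O ↔ g⁻¹ • y ∈ o.O := Iff.rfl

instance [Finite G] [Finite B] [Finite U] : Finite (Hyp F) :=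
  Finite.of_injective (fun o => (o.δ, o.O)) (fun o o' h =>
    Hyp.ext (congrArg Prod.fst h) (congrArg Prod.snd h))

theorem p_of_mem {o : Hyp F} {y : U} (hy : y ∈ o.O) : F.p y = o.δ.b := by
  obtain ⟨u, hu, hO⟩ := o.hO
  rw [hO] at hy
  obtain ⟨s, hs, rfl⟩ := hy
  exact F.p_smul (o.δ.le hs) hu

theorem nonempty (o : Hyp F) : ∃ y, y ∈ o.O := by
  obtain ⟨u, hu, hO⟩ := o.hO
  exact ⟨u, by rw [hO]; exact ⟨1, o.δ.S.one_mem, one_smul _ _⟩⟩

theorem eq_orbit {o : Hyp F} {u : U} (hu : u ∈ o.O) : o.O = {y | ∃ s ∈ o.δ.S, s • u = y} := by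
  obtain ⟨v, hv, hO⟩ := o.hO
  rw [hO] at hu
  obtain ⟨t, ht, rfl⟩ := hu
  rw [hO]
  ext y
  constructor
  · rintro ⟨s, hs, rfl⟩
    exact ⟨s * t⁻¹, o.δ.S.mul_mem hs (o.δ.S.inv_mem ht), by rw [mul_smul, inv_smul_smul]⟩
  · rintro ⟨s, hs, rfl⟩
    exact ⟨s * t, o.δ.S.mul_mem hs ht, by rw [mul_smul]⟩

/-- A hyperplane is determined by its points. -/
theorem eq_of_O {o o' : Hyp F} (h : o.O = o'.O) : o = o' := by
  refine Hyp.ext ?_ h
  obtain ⟨u, hu⟩ := o.nonempty
  have hu' : u ∈ o'.O := by rw [← h]; exact hu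
  have hb : o.δ.b = o'.δ.b := (p_of_mem hu).symm.trans (p_of_mem hu')
  refine Dir.ext hb ?_
  have key : ∀ (o o' : Hyp F), o.O = o'.O → u ∈ o.O → o.δ.b = o'.δ.b → o.δ.S ≤ o'.δ.S := by
    intro o o' h hu hb s hs
    have h1 : s • u ∈ o'.O := by
      rw [← h, eq_orbit hu]; exact ⟨s, hs, rfl⟩
    rw [eq_orbit (o := o') (u := u) (by rw [← h]; exact hu)] at h1
    obtain ⟨t, ht, hts⟩ := h1
    have hsN : s ∈ F.N o'.δ.b := by rw [← hb]; exact o.δ.le hs
    have htN := o'.δ.le ht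
    have h2 : t⁻¹ * s ∈ o'.δ.S := by
      refine o'.δ.ker _ ((F.N _).mul_mem ((F.N _).inv_mem htN) hsN) ?_
      intro v hv
      refine F.triv_of_fix ((F.N _).mul_mem ((F.N _).inv_mem htN) hsN)
        ((p_of_mem hu).trans hb) hv ?_
      rw [mul_smul, ← hts, inv_smul_smul]
    have h3 := o'.δ.S.mul_mem ht h2
    rwa [mul_inv_cancel_left] at h3
  exact le_antisymm (key o o' h hu hb) (key o' o h.symm hu' hb.symm)

/-- The hyperplane of a direction through a point. -/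
def through (δ : Dir F) (u : U) (hu : F.p u = δ.b) : Hyp F :=
  ⟨δ, {y | ∃ s ∈ δ.S, s • u = y}, u, hu, rfl⟩

theorem mem_through (δ : Dir F) (u : U) (hu : F.p u = δ.b) : u ∈ (through δ u hu).O :=
  ⟨1, δ.S.one_mem, one_smul _ _⟩

theorem eq_through {o : Hyp F} {u : U} (hu : u ∈ o.O) :
    through o.δ u (p_of_mem hu) = o := Hyp.ext rfl (eq_orbit hu).symm

theorem smul_through (g : G) (δ : Dir F) (u : U) (hu : F.p u = δ.b) :
    g • through δ u hu = through (g • δ) (g • u) (by rw [F.map, hu, Dir.smul_b]) := by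
  have h1 : g • u ∈ (g • through δ u hu).O := by
    rw [mem_smul, inv_smul_smul]; exact mem_through δ u hu
  exact (eq_through h1).symm

theorem smul_through_of_mem {a : G} (δ : Dir F) (ha : a ∈ F.N δ.b) (u : U) (hu : F.p u = δ.b) :
    a • through δ u hu = through δ (a • u) (F.p_smul ha hu) := by
  have h1 : a • u ∈ (a • through δ u hu).O := by
    rw [mem_smul, inv_smul_smul]; exact mem_through δ u hu
  have h2 := eq_through h1
  refine h2.symm.trans ?_
  refine Hyp.ext ?_ ?_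
  · exact δ.fix ha
  · show {y | ∃ s ∈ (a • δ).S, s • a • u = y} = {y | ∃ s ∈ δ.S, s • a • u = y}
    rw [δ.fix ha]

theorem through_congr (δ : Dir F) {u u' : U} (h : u = u') (hu : F.p u = δ.b) :
    through δ u hu = through δ u' (h ▸ hu) := by
  subst h; rfl

end Hyp

/-- The hyperplanes over the directions form an affine fibration. -/
def hypFib (F : AffFib G U B r) : AffFib G (Hyp F) (Dir F) r where
  p := Hyp.δ
  N δ := F.N δ.b
  map g o := rfl
  surj δ := by
    obtain ⟨u, hu⟩ := F.surj δ.b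
    exact ⟨Hyp.through δ u hu, rfl⟩
  conj g δ a ha := F.conj g _ a ha
  fix δ a ha := δ.fix ha
  trans o o' h := by
    obtain ⟨u, hu⟩ := o.nonempty
    obtain ⟨u', hu'⟩ := o'.nonempty
    have hb : F.p u = F.p u' := by rw [Hyp.p_of_mem hu, Hyp.p_of_mem hu', h]
    obtain ⟨a, ha, hau⟩ := F.trans u u' hb
    rw [Hyp.p_of_mem hu] at ha
    refine ⟨a, ha, ?_⟩
    rw [← Hyp.eq_through hu, Hyp.smul_through_of_mem _ ha, Hyp.through_congr _ hau]
    refine Hyp.ext h ?_
    rw [Hyp.eq_orbit hu']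
    show {y | ∃ s ∈ o.δ.S, s • u' = y} = {y | ∃ s ∈ o'.δ.S, s • u' = y}
    rw [h]
  comm o a ha a' ha' := by
    obtain ⟨u, hu⟩ := o.nonempty
    rw [← Hyp.eq_through hu, Hyp.smul_through_of_mem _ ha', Hyp.smul_through_of_mem _ ha,
      Hyp.smul_through_of_mem _ ha, Hyp.smul_through_of_mem _ ha']
    exact Hyp.through_congr _ (F.comm' ha ha' (Hyp.p_of_mem hu)) _
  exp o a ha := by
    obtain ⟨u, hu⟩ := o.nonempty
    rw [← Hyp.eq_through hu, Hyp.smul_through_of_mem _ ((F.N _).pow_mem ha _)]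
    refine Hyp.through_congr _ ?_ _
    have := F.exp u a (by rw [Hyp.p_of_mem hu]; exact ha)
    exact this

/-- The action of `N b` on the fibre over `b`. -/
@[reducible] def fibAct (F : AffFib G U B r) (b : B) : MulAction (F.N b) {u : U // F.p u = b} where
  smul a u := ⟨(a : G) • (u : U), F.p_smul a.2 u.2⟩
  one_smul u := Subtype.ext (one_smul G (u : U))
  mul_smul a a' u := Subtype.ext (mul_smul (a : G) (a' : G) (u : U))

theorem elemAct (F : AffFib G U B r) (b : B) :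
    @ElemAct (F.N b) {u : U // F.p u = b} _ (fibAct F b) r := by
  let _ := fibAct F b
  refine ⟨?_, ?_, ?_⟩
  · rintro ⟨x, hx⟩ ⟨y, hy⟩
    obtain ⟨a, ha, hxy⟩ := F.trans x y (hx.trans hy.symm)
    rw [hx] at ha
    exact ⟨⟨a, ha⟩, Subtype.ext hxy⟩
  · rintro ⟨a, ha⟩ ⟨a', ha'⟩ ⟨x, hx⟩
    exact Subtype.ext (F.comm' ha ha' hx)
  · rintro ⟨a, ha⟩ ⟨x, hx⟩
    refine Subtype.ext ?_
    have := F.exp x a (by rw [hx]; exact ha)
    exact this

theorem card_hyp_fibre [Finite U] (F : AffFib G U B r) (δ : Dir F) :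
    Nat.card {o : Hyp F // (hypFib F).p o = δ} = r := by
  classical
  obtain ⟨u0, hu0⟩ := F.surj δ.b
  let S' : Subgroup (F.N δ.b) := δ.S.subgroupOf (F.N δ.b)
  have key : ∀ a a' : F.N δ.b, (a⁻¹ * a' ∈ S' ↔
      Hyp.through δ ((a : G) • u0) (F.p_smul a.2 hu0) =
        Hyp.through δ ((a' : G) • u0) (F.p_smul a'.2 hu0)) := by
    rintro ⟨a, ha⟩ ⟨a', ha'⟩
    show (a⁻¹ * a' ∈ δ.S) ↔ Hyp.through δ (a • u0) (F.p_smul ha hu0) =
      Hyp.through δ (a' • u0) (F.p_smul ha' hu0)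
    constructor
    · intro h
      have h1 : a' • u0 ∈ (Hyp.through δ (a • u0) (F.p_smul ha hu0)).O := by
        refine ⟨a * (a⁻¹ * a') * a⁻¹, ?_, ?_⟩
        · have h2 := (Dir.mem_smul_S a⁻¹ δ (a⁻¹ * a')).1
          have h3 : a⁻¹ • δ = δ := δ.fix ((F.N _).inv_mem ha)
          rw [h3, inv_inv] at h2
          exact h2 h
        · rw [← mul_smul]
          congr 1
          group
      exact (Hyp.eq_through h1).symm
    · intro h
      have h1 : a' • u0 ∈ (Hyp.through δ (a • u0) (F.p_smul ha hu0)).O := by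
        rw [h]; exact Hyp.mem_through _ _ _
      obtain ⟨s, hs, h2⟩ := h1
      have hsN := δ.le hs
      have h3 : (s * a)⁻¹ * a' ∈ δ.S := by
        have hm : (s * a)⁻¹ * a' ∈ F.N δ.b :=
          (F.N _).mul_mem ((F.N _).inv_mem ((F.N _).mul_mem hsN ha)) ha'
        refine δ.ker _ hm (fun v hv => F.triv_of_fix hm hu0 hv ?_)
        rw [mul_smul, inv_smul_eq_iff, mul_smul, h2]
      have h4 : a⁻¹ * s * a ∈ δ.S := by
        have h5 := (Dir.mem_smul_S a δ s).1
        rw [δ.fix ha] at h5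
        exact h5 hs
      have e : a⁻¹ * a' = (a⁻¹ * s * a) * ((s * a)⁻¹ * a') := by group
      rw [e]
      exact δ.S.mul_mem h4 h3
  let f : (F.N δ.b ⧸ S') → {o : Hyp F // (hypFib F).p o = δ} :=
    Quotient.lift (fun a : F.N δ.b =>
      (⟨Hyp.through δ ((a : G) • u0) (F.p_smul a.2 hu0), rfl⟩ :
        {o : Hyp F // (hypFib F).p o = δ}))
      (fun a a' h => Subtype.ext ((key a a').1 (QuotientGroup.leftRel_apply.1 h)))
  have hf : Function.Bijective f := by
    constructor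
    · intro x y
      induction x using Quotient.inductionOn with
      | h a =>
      induction y using Quotient.inductionOn with
      | h a' =>
      intro h
      have h1 := Subtype.mk.inj h
      exact Quotient.sound (QuotientGroup.leftRel_apply.2 ((key a a').2 h1))
    · rintro ⟨o, ho⟩
      have ho : o.δ = δ := ho
      subst ho
      obtain ⟨u, hu⟩ := o.nonempty
      obtain ⟨a, ha, hau⟩ := F.trans u0 u (hu0.trans (Hyp.p_of_mem hu).symm)
      rw [hu0] at ha
      refine ⟨Quotient.mk _ ⟨a, ha⟩, ?_⟩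
      apply Subtype.ext
      show Hyp.through o.δ (a • u0) (F.p_smul ha hu0) = o
      rw [Hyp.through_congr _ hau]
      exact Hyp.eq_through hu
  rw [← Nat.card_congr (Equiv.ofBijective f hf)]
  exact δ.idx

theorem card_dir_fibre [Finite U] [Finite G] (F : AffFib G U B r) (hr : r.Prime) (b : B) :
    (r - 1) * Nat.card {δ : Dir F // δ.b = b} + 1 ≤ Nat.card {u : U // F.p u = b} := by
  classical
  let _ := fibAct F b
  have : Nonempty {u : U // F.p u = b} := by
    obtain ⟨u, hu⟩ := F.surj b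
    exact ⟨⟨u, hu⟩⟩
  refine le_trans ?_ (elem_card hr (elemAct F b))
  gcongr
  refine Nat.card_le_card_of_injective (fun δ : {δ : Dir F // δ.b = b} =>
    (⟨δ.1.S.subgroupOf (F.N b), ?_, ?_⟩ : {S : Subgroup (F.N b) //
      (∀ a : F.N b, (∀ x : {u : U // F.p u = b}, a • x = x) → a ∈ S) ∧ S.index = r})) ?_
  · rintro ⟨a, ha⟩ h
    obtain ⟨δ, rfl⟩ := δ
    rw [Subgroup.mem_subgroupOf]
    exact δ.ker a ha (fun u hu => congrArg Subtype.val (h ⟨u, hu⟩))
  · obtain ⟨δ, rfl⟩ := δ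
    exact δ.idx
  · rintro ⟨δ, rfl⟩ ⟨δ', h⟩ hS
    have h1 : δ.S.subgroupOf (F.N δ.b) = δ'.S.subgroupOf (F.N δ.b) := Subtype.mk.inj hS
    apply Subtype.ext
    refine Dir.ext h.symm ?_
    rw [Subgroup.subgroupOf_inj, inf_eq_left.2 δ.le, inf_eq_left.2 (h ▸ δ'.le)] at h1
    exact h1

theorem hyp_inj [Finite U] (F : AffFib G U B r) (hr : r.Prime)
    (hnt : ∀ b, Nontrivial {u : U // F.p u = b}) (f : U → ℂ)
    (hf : ∀ o : Hyp F, ∑ᶠ u : {u : U // u ∈ o.O}, f u = 0) : ∀ u, f u = 0 := by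
  classical
  intro u
  let _ := fibAct F (F.p u)
  have := hnt (F.p u)
  have key := elem_inj hr (elemAct F (F.p u)) (fun x => f x) ?_ ⟨u, rfl⟩
  · exact key
  · intro S hS hidx x
    let δ : Dir F := ⟨F.p u, S.map (F.N (F.p u)).subtype, by
      rintro _ ⟨s, hs, rfl⟩
      exact s.2, by
      intro a ha h
      refine ⟨⟨a, ha⟩, hS ⟨a, ha⟩ ?_, rfl⟩
      rintro ⟨y, hy⟩
      exact Subtype.ext (h y hy), by
      rw [Subgroup.relIndex, Subgroup.subgroupOf, Subgroup.comap_map_eq_self_of_injective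
        (Subgroup.subtype_injective _), hidx]⟩
    have h1 := hf (Hyp.through δ x x.2)
    rw [← h1]
    refine finsum_eq_of_bijective (fun y : {y : {u' : U // F.p u' = F.p u} // ∃ s ∈ S, s • x = y} =>
      ⟨(y.1 : U), ?_⟩) ⟨?_, ?_⟩ ?_
    · obtain ⟨y, s, hs, h⟩ := y
      exact ⟨s, ⟨s, hs, rfl⟩, congrArg Subtype.val h⟩
    · intro y y' h
      exact Subtype.ext (Subtype.ext (Subtype.mk.inj h))
    · rintro ⟨y, s, ⟨s', hs', rfl⟩, h⟩
      exact ⟨⟨s' • x, s', hs', rfl⟩, Subtype.ext h⟩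
    · intro y
      rfl

end

end Pool.Agent.Helper903_VG
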