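import Pool.Agent.Helper903_VG.G0
import Pool.Agent.Helper903_VG.G1
import Pool.Agent.Helper903_VG.G2a
import Pool.Agent.Helper903_VG.G2b
import Pool.Agent.Helper903_VG.Prim
import Pool.Agent.Helper903_VG.HypFib

/-!
Primitive groups with a subnormal series whose factors are abelian or small.
-/

set_option autoImplicit false

namespace Pool.Agent.Helper903_VG

section

variable {H : Type} [Group H]

/-- The minimal subnormal subgroups that are not commutative and have order at most `β`. -/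
def MinSub (H : Type) [Group H] (β : ℕ) : Set (Subgroup H) :=
  {B | B.IsSubnormal ∧ B ≠ ⊥ ∧ (∀ X ≤ B, X.IsSubnormal → X = ⊥ ∨ X = B) ∧
    (¬ ∀ a ∈ B, ∀ b ∈ B, a * b = b * a) ∧ Nat.card B ≤ β}

theorem exists_min_sub [Finite H] (S : Subgroup H) (hS : S.IsSubnormal) (h0 : S ≠ ⊥) :
    ∃ A ≤ S, A.IsSubnormal ∧ A ≠ ⊥ ∧ ∀ X ≤ A, X.IsSubnormal → X = ⊥ ∨ X = A := by
  have hfin : ({A : Subgroup H | A.IsSubnormal ∧ A ≠ ⊥}).Finite := Set.toFinite _
  obtain ⟨A, hAS, hA⟩ := hfin.exists_le_minimal (show S ∈ {A : Subgroup H | A.IsSubnormal ∧ A ≠ ⊥}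
    from ⟨hS, h0⟩)
  refine ⟨A, hAS, hA.1.1, hA.1.2, ?_⟩
  intro X hX hXs
  by_cases hX0 : X = ⊥
  · exact Or.inl hX0
  · exact Or.inr (le_antisymm hX (hA.2 ⟨hXs, hX0⟩ hX))

theorem MinSub.comm [Finite H] {β : ℕ} : ∀ A ∈ MinSub H β, ∀ B ∈ MinSub H β, A ≠ B →
    ∀ a ∈ A, ∀ b ∈ B, a * b = b * a := by
  rintro A ⟨hA, hA0, hAm, hAn, -⟩ B ⟨hB, hB0, hBm, -, -⟩ hAB
  exact g1 A B hA hB hA0 hB0 hAm hBm hAn hAB

theorem MinSub.cen {β : ℕ} : ∀ A ∈ MinSub H β, ∀ a ∈ A, (∀ b ∈ A, a * b = b * a) → a = 1 := by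
  rintro A ⟨hA, hA0, hAm, hAn, -⟩ a ha hab
  have hsub : (A ⊓ Subgroup.centralizer (A : Set H)).IsSubnormal := by
    refine Subgroup.IsSubnormal.step _ A inf_le_left hA ?_
    constructor
    intro x hx g
    rw [Subgroup.mem_subgroupOf, Subgroup.mem_inf] at hx ⊢
    refine ⟨(g * x * g⁻¹).2, ?_⟩
    rw [Subgroup.mem_centralizer_iff]
    intro h hh
    have h1 := Subgroup.mem_centralizer_iff.1 hx.2 g g.2
    have h2 := Subgroup.mem_centralizer_iff.1 hx.2 h hh
    have e : ((g * x * g⁻¹ : A) : H) = x := by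
      push_cast
      rw [h1]
      group
    rw [e]
    exact h2
  rcases hAm _ inf_le_left hsub with h | h
  · have : a ∈ A ⊓ Subgroup.centralizer (A : Set H) :=
      ⟨ha, Subgroup.mem_centralizer_iff.2 fun b hb => (hab b hb).symm⟩
    rw [h] at this
    exact Subgroup.mem_bot.1 this
  · exfalso
    apply hAn
    intro a ha b hb
    rw [← h] at hb
    exact Subgroup.mem_centralizer_iff.1 hb.2 a ha

theorem MinSub.map {β : ℕ} {B : Subgroup H} (hB : B ∈ MinSub H β) (g : H) :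
    B.map (MulAut.conj g).toMonoidHom ∈ MinSub H β := by
  obtain ⟨h1, h2, h3, h4, h5⟩ := hB
  have hinj : Function.Injective (MulAut.conj g).toMonoidHom := (MulAut.conj g).injective
  have hsurj : Function.Surjective (MulAut.conj g).toMonoidHom := (MulAut.conj g).surjective
  refine ⟨h1.map hsurj, ?_, ?_, ?_, ?_⟩
  · intro h
    exact h2 ((Subgroup.map_eq_bot_iff_of_injective _ hinj).1 h)
  · intro X hX hXs
    have e : (X.comap (MulAut.conj g).toMonoidHom).map (MulAut.conj g).toMonoidHom = X :=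
      Subgroup.map_comap_eq_self_of_surjective hsurj X
    have hle : X.comap (MulAut.conj g).toMonoidHom ≤ B := by
      rw [← Subgroup.map_le_map_iff_of_injective hinj, e]
      exact hX
    rcases h3 _ hle (hXs.comap _) with h | h
    · left
      rw [← e, h, Subgroup.map_bot]
    · right
      rw [← e, h]
  · intro h
    apply h4
    intro a ha b hb
    have := h _ (Subgroup.mem_map_of_mem _ ha) _ (Subgroup.mem_map_of_mem _ hb)
    rw [← map_mul, ← map_mul] at this
    exact hinj this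
  · rw [Subgroup.card_map_of_injective hinj]
    exact h5

theorem conj_map_inv (B : Subgroup H) (g : H) :
    (B.map (MulAut.conj g⁻¹).toMonoidHom).map (MulAut.conj g).toMonoidHom = B := by
  ext x
  rw [mem_map_conj, mem_map_conj]
  have e : g⁻¹⁻¹ * (g⁻¹ * x * g) * g⁻¹ = x := by group
  rw [e]

theorem MinSub.normal (β : ℕ) : (sSup (MinSub H β)).Normal := by
  constructor
  intro x hx g
  have h : (sSup (MinSub H β)).map (MulAut.conj g).toMonoidHom ≤ sSup (MinSub H β) := by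
    rw [Subgroup.map_le_iff_le_comap]
    refine sSup_le ?_
    intro B hB
    rw [← Subgroup.map_le_iff_le_comap]
    exact le_sSup (MinSub.map hB g)
  exact h ⟨x, hx, rfl⟩

theorem conj_map_injective (g : H) :
    Function.Injective (fun B : Subgroup H => B.map (MulAut.conj g).toMonoidHom) :=
  Subgroup.map_injective (MulAut.conj g).injective

theorem MinSub.map_compl {β : ℕ} (A B : Subgroup H) (g : H) :
    (sSup (MinSub H β \ {A, B})).map (MulAut.conj g).toMonoidHom =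
      sSup (MinSub H β \ {A.map (MulAut.conj g).toMonoidHom, B.map (MulAut.conj g).toMonoidHom}) := by
  apply le_antisymm
  · rw [Subgroup.map_le_iff_le_comap]
    refine sSup_le ?_
    rintro C ⟨hC, hCAB⟩
    rw [← Subgroup.map_le_iff_le_comap]
    refine le_sSup ⟨MinSub.map hC g, ?_⟩
    rintro (h | h)
    · exact hCAB (Or.inl (conj_map_injective g h))
    · exact hCAB (Or.inr (conj_map_injective g h))
  · refine sSup_le ?_
    rintro C ⟨hC, hCAB⟩
    rw [← conj_map_inv C g]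
    refine Subgroup.map_mono (le_sSup ⟨MinSub.map hC g⁻¹, ?_⟩)
    rintro (h | h)
    · apply hCAB
      left
      rw [← conj_map_inv C g, h]
    · apply hCAB
      right
      rw [← conj_map_inv C g, h]
      rfl

theorem fam_exists [Finite H] (D : Subgroup H) (hD : IsCoatom D) (hcore : D.normalCore = ⊥)
    (β : ℕ) (hne : (MinSub H β).Nonempty) :
    ∃ FF : Set (Subgroup H), (∀ X ∈ FF, ∀ m : H, X.map (MulAut.conj m).toMonoidHom ∈ FF) ∧
      (∃ X ∈ FF, ∃ m : H, ∀ x ∈ X, ∀ d ∈ D, x * d ≠ m) ∧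
      Set.ncard {O : Set H | ∃ X ∈ FF, ∃ m : H, O = {y | ∃ x ∈ X, ∃ d ∈ D, y = x * m * d}} ≤
        (Nat.log 2 (D.index ^ 2)) ^ 2 * β ^ 2 := by
  classical
  have hnt : ∀ A ∈ MinSub H β, A ≠ ⊥ := fun A hA => hA.2.1
  have hN := MinSub.normal (H := H) β
  obtain ⟨A0, hA0⟩ := hne
  have hND : ¬ sSup (MinSub H β) ≤ D := by
    intro h
    have h1 : sSup (MinSub H β) ≤ D.normalCore := Subgroup.normal_le_normalCore.2 h
    rw [hcore] at h1
    exact hnt A0 hA0 (le_bot_iff.1 ((le_sSup hA0).trans h1))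
  have htr : ∀ h : H, ∃ n ∈ sSup (MinSub H β), ∃ d ∈ D, n * d = h := prim_fac hD hN hND
  have hl : 2 ^ (Set.ncard (MinSub H β)) ≤ D.index ^ 2 :=
    g2a D hcore _ htr MinSub.comm MinSub.cen hnt
  have hl' : Set.ncard (MinSub H β) ≤ Nat.log 2 (D.index ^ 2) :=
    Nat.le_log_of_pow_le (by norm_num) hl
  obtain ⟨A, hA, B, hB, hint⟩ := g2b D hcore _ ⟨A0, hA0⟩ MinSub.comm MinSub.cen hnt
  refine ⟨{X | ∃ A ∈ MinSub H β, ∃ B ∈ MinSub H β, X = sSup (MinSub H β \ {A, B})}, ?_,
    ⟨_, ⟨A, hA, B, hB, rfl⟩, hint⟩, ?_⟩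
  · rintro X ⟨A, hA, B, hB, rfl⟩ m
    exact ⟨_, MinSub.map hA m, _, MinSub.map hB m, MinSub.map_compl A B m⟩
  · -- the count
    have henum : ∀ C : MinSub H β, ∃ e : Fin β → H, ∀ c ∈ C.1, ∃ i, e i = c := by
      rintro ⟨C, hC⟩
      have hc : Nat.card C ≤ Nat.card (Fin β) := by
        rw [Nat.card_fin]; exact hC.2.2.2.2
      obtain ⟨f⟩ : Nonempty (C ↪ Fin β) := by
        rw [← Cardinal.lift_mk_le', ← Nat.cast_card, ← Nat.cast_card]
        simpa using hc
      refine ⟨fun i => if h : ∃ c : C, f c = i then (h.choose : H) else 1, ?_⟩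
      intro c hc
      refine ⟨f ⟨c, hc⟩, ?_⟩
      have hex : ∃ c' : C, f c' = f ⟨c, hc⟩ := ⟨_, rfl⟩
      simp only [hex, dif_pos]
      have := f.injective hex.choose_spec
      rw [this]
    choose e he using henum
    let Φ : (MinSub H β × MinSub H β) × (Fin β × Fin β) → Set H := fun z =>
      {y | ∃ x ∈ sSup (MinSub H β \ {z.1.1.1, z.1.2.1}), ∃ d ∈ D,
        y = x * (e z.1.1 z.2.1 * e z.1.2 z.2.2) * d}
    have hsub : {O : Set H | ∃ X ∈ {X | ∃ A ∈ MinSub H β, ∃ B ∈ MinSub H β,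
        X = sSup (MinSub H β \ {A, B})}, ∃ m : H, O = {y | ∃ x ∈ X, ∃ d ∈ D, y = x * m * d}} ⊆
        Set.range Φ := by
      rintro O ⟨X, ⟨A, hA, B, hB, rfl⟩, m, rfl⟩
      obtain ⟨n, hn, d0, hd0, rfl⟩ := htr m
      have hle : sSup (MinSub H β) ≤ sSup (MinSub H β \ {A, B}) ⊔ sSup {A, B} := by
        refine sSup_le ?_
        intro C hC
        by_cases h : C ∈ ({A, B} : Set (Subgroup H))
        · exact (le_sSup h).trans le_sup_right
        · exact (le_sSup (show C ∈ MinSub H β \ {A, B} from ⟨hC, h⟩)).trans le_sup_left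
      have hABT : ({A, B} : Set (Subgroup H)) ⊆ MinSub H β := by
        rintro C (rfl | rfl)
        · exact hA
        · exact hB
      obtain ⟨x0, hx0, c, hc, hxc⟩ := g2a_mem_sup (fun x hx c hc =>
        g2a_comm MinSub.comm Set.sdiff_subset hABT (fun C hC => hC.2) hx hc) (hle hn)
      have hcab : ∃ a ∈ A, ∃ b ∈ B, a * b = c := by
        by_cases hAB : A = B
        · subst hAB
          have h1 : sSup ({A, A} : Set (Subgroup H)) = A := by
            rw [Set.pair_eq_singleton, sSup_singleton]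
          rw [h1] at hc
          exact ⟨c, hc, 1, A.one_mem, mul_one c⟩
        · rw [sSup_pair] at hc
          exact g2a_mem_sup (MinSub.comm A hA B hB hAB) hc
      obtain ⟨a, ha, b, hb, hab⟩ := hcab
      obtain ⟨i, hi⟩ := he ⟨A, hA⟩ a ha
      obtain ⟨j, hj⟩ := he ⟨B, hB⟩ b hb
      refine ⟨((⟨A, hA⟩, ⟨B, hB⟩), (i, j)), ?_⟩
      ext y
      show (∃ x ∈ sSup (MinSub H β \ {A, B}), ∃ d ∈ D, y = x * (e ⟨A, hA⟩ i * e ⟨B, hB⟩ j) * d) ↔
        ∃ x ∈ sSup (MinSub H β \ {A, B}), ∃ d ∈ D, y = x * (n * d0) * d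
      rw [hi, hj, hab, ← hxc]
      constructor
      · rintro ⟨x, hx, d, hd, rfl⟩
        refine ⟨x * x0⁻¹, Subgroup.mul_mem _ hx (Subgroup.inv_mem _ hx0), d0⁻¹ * d,
          D.mul_mem (D.inv_mem hd0) hd, ?_⟩
        group
      · rintro ⟨x, hx, d, hd, rfl⟩
        refine ⟨x * x0, Subgroup.mul_mem _ hx hx0, d0 * d, D.mul_mem hd0 hd, ?_⟩
        group
    calc _ ≤ (Set.range Φ).ncard := Set.ncard_le_ncard hsub (Set.toFinite _)
      _ ≤ Nat.card ((MinSub H β × MinSub H β) × (Fin β × Fin β)) := by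
          rw [← Nat.card_coe_set_eq]
          exact Nat.card_le_card_of_surjective (Set.rangeFactorization Φ)
            Set.rangeFactorization_surjective
      _ = Set.ncard (MinSub H β) ^ 2 * β ^ 2 := by
          rw [Nat.card_prod, Nat.card_prod, Nat.card_prod, Nat.card_fin, Nat.card_coe_set_eq]
          ring
      _ ≤ (Nat.log 2 (D.index ^ 2)) ^ 2 * β ^ 2 := by gcongr

end

end Pool.Agent.Helper903_VG
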