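import Pool.Agent.Helper903_VG.Steps

/-!
Counting, and the odd affine fibrations.
-/

set_option autoImplicit false

namespace Pool.Agent.Helper903_VG

variable {G : Type} [Group G]

theorem card_eq_sum {X B : Type} [Finite X] [Fintype B] (p : X → B) :
    Nat.card X = ∑ b, Nat.card {x // p x = b} := by
  rw [← Nat.card_sigma]
  exact (Nat.card_congr (Equiv.sigmaFiberEquiv p)).symm

section

variable {U B : Type} [MulAction G U] [MulAction G B] {r : ℕ} [Finite G] [Finite U] [Finite B]

theorem card_dir (F : AffFib G U B r) (hr : r.Prime) :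
    (r - 1) * Nat.card (Dir F) + Nat.card B ≤ Nat.card U := by
  classical
  have := Fintype.ofFinite B
  rw [card_eq_sum F.p, card_eq_sum (fun δ : Dir F => δ.b), Nat.card_eq_fintype_card,
    ← Finset.card_univ, Finset.card_eq_sum_ones, Finset.mul_sum, ← Finset.sum_add_distrib]
  exact Finset.sum_le_sum fun b _ => card_dir_fibre F hr b

theorem card_hyp (F : AffFib G U B r) : Nat.card (Hyp F) = r * Nat.card (Dir F) := by
  classical
  have := Fintype.ofFinite (Dir F)
  rw [card_eq_sum (hypFib F).p, Finset.sum_congr rfl (fun δ _ => card_hyp_fibre F δ),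
    Finset.sum_const, Finset.card_univ, Nat.card_eq_fintype_card, smul_eq_mul, mul_comm]

omit [Finite G] in
theorem card_base {X : Type} [Finite X] (p : X → B) (n : ℕ)
    (h : ∀ b, n ≤ Nat.card {x : X // p x = b}) : n * Nat.card B ≤ Nat.card X := by
  classical
  have := Fintype.ofFinite B
  rw [card_eq_sum p]
  calc n * Nat.card B = ∑ _b : B, n := by
        rw [Finset.sum_const, Finset.card_univ, Nat.card_eq_fintype_card, smul_eq_mul, mul_comm]
    _ ≤ _ := Finset.sum_le_sum fun b _ => h b

omit [Finite G] [Finite B] in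
theorem le_card_fibre (F : AffFib G U B r) (hr : r.Prime) (b : B)
    (hnt : Nontrivial {u : U // F.p u = b}) : r ≤ Nat.card {u : U // F.p u = b} := by
  classical
  let _ := fibAct F b
  have h := elemAct F b
  obtain ⟨x, y, hxy⟩ := hnt
  obtain ⟨a, ha⟩ := h.trans x y
  have hne : Tr.π _ _ a ≠ (1 : Tr (F.N b) {u : U // F.p u = b}) := by
    intro h1
    apply hxy
    rw [← ha, ← Tr.π_apply, h1]
    rfl
  have : Fact r.Prime := ⟨hr⟩
  have h2 : orderOf (Tr.π (F.N b) {u : U // F.p u = b} a) = r :=
    orderOf_eq_prime (Tr.exp h _) hne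
  rw [← Nat.card_congr (Equiv.ofBijective _ (Tr.bij h x))]
  exact h2.ge.trans orderOf_le_card

end

theorem lemmaA {K : ℕ} (hK : 3 ≤ K) [Finite G] {U B : Type} [Finite U] [Finite B] [MulAction G U]
    [MulAction G B] {r : ℕ} (F : AffFib G U B r) (hr : r.Prime) (hr2 : r ≠ 2)
    (hnt : ∀ b, Nontrivial {u : U // F.p u = b}) (m : ℕ) (hm : Nat.card U ≤ m)
    (IH : ∀ (V' : Type) [Finite V'] [MulAction G V'], Nat.card V' < m →
      HasE G K V' (60 * Nat.card V')) : HasE G K U (45.5 * Nat.card U) := by
  have hr3 : 3 ≤ r := by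
    have := hr.two_le
    omega
  have h1 : 3 * Nat.card B ≤ Nat.card U :=
    card_base F.p 3 (fun b => hr3.trans (le_card_fibre F hr b (hnt b)))
  have h2 := card_dir F hr
  have h3 := card_hyp F
  obtain ⟨r', rfl⟩ : ∃ r', r = r' + 3 := ⟨r - 3, by omega⟩
  have h2' : 2 * Nat.card (Dir F) + Nat.card B ≤ Nat.card U := by
    refine le_trans ?_ h2
    have : 2 ≤ r' + 3 - 1 := by omega
    gcongr
  have h4 : 2 * Nat.card (Hyp F) ≤ 3 * Nat.card U := by
    rw [h3]
    have e1 : 2 * (r' + 3) ≤ 3 * (r' + 3 - 1) := by omega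
    calc 2 * ((r' + 3) * Nat.card (Dir F)) = (2 * (r' + 3)) * Nat.card (Dir F) := by ring
      _ ≤ (3 * (r' + 3 - 1)) * Nat.card (Dir F) := by gcongr
      _ = 3 * ((r' + 3 - 1) * Nat.card (Dir F)) := by ring
      _ ≤ 3 * Nat.card U := by
        gcongr
        omega
  rcases isEmpty_or_nonempty U with hU | hU
  · have := HasE.fixed (G := G) (K := K) (by omega) (V := U) (fun g x => (hU.false x).elim)
    refine this.mono ?_
    have : (0 : ℝ) ≤ Nat.card U := Nat.cast_nonneg _
    linarith
  have hpos : 0 < Nat.card U := Nat.card_pos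
  have h5 : Nat.card (B ⊕ Dir F) < m := by
    rw [Nat.card_sum]
    omega
  have h6 := IH (B ⊕ Dir F) h5
  have h7 : HasE G K (B ⊕ Hyp F) (60 * Nat.card (B ⊕ Dir F) + 3 * Nat.card (Hyp F)) := by
    refine h6.paley hK (D := Dir F) Sum.inr inr_emb (hypFib F) hr hr2 (card_hyp_fibre F)
      (Sum.elim (fun b => Sum.inr (Sum.inl b)) Sum.inl) ⟨?_, ?_⟩ ?_ ?_
    · rintro (b | o) (b' | o') h
      · have := Sum.inl_injective (Sum.inr_injective h)
        rw [this]
      · simp at h
      · simp at h
      · have := Sum.inl_injective h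
        rw [this]
    · rintro g (b | o)
      · rfl
      · rfl
    · intro x
      exact ⟨Sum.inr x, rfl⟩
    · rintro (b | δ)
      · exact Or.inl ⟨Sum.inl b, rfl⟩
      · right
        obtain ⟨o, ho⟩ := (hypFib F).surj δ
        exact ⟨o, by rw [ho]⟩
  refine (h7.hyp (by omega) F hr hnt).mono ?_
  rw [Nat.card_sum]
  have h1' : (3 : ℝ) * Nat.card B ≤ Nat.card U := by exact_mod_cast h1
  have h2'' : (2 : ℝ) * Nat.card (Dir F) + Nat.card B ≤ Nat.card U := by exact_mod_cast h2'
  have h4' : (2 : ℝ) * Nat.card (Hyp F) ≤ 3 * Nat.card U := by exact_mod_cast h4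
  push_cast
  linarith

/-- Data for the quotient of a `G`-set by an equivariant family of groups acting as commutative groups of
exponent `q`. -/
structure QData (G : Type) [Group G] (X B : Type) [MulAction G X] [MulAction G B] (q : ℕ) where
  p : X → B
  Q : B → Subgroup G
  map : ∀ (g : G) x, p (g • x) = g • p x
  conj : ∀ (g : G) b a, a ∈ Q b → g * a * g⁻¹ ∈ Q (g • b)
  fix : ∀ b, ∀ a ∈ Q b, a • b = b
  comm : ∀ x, ∀ a ∈ Q (p x), ∀ a' ∈ Q (p x), a • a' • x = a' • a • x
  exp : ∀ x, ∀ a ∈ Q (p x), a ^ q • x = x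

namespace QData

variable {X B : Type} [MulAction G X] [MulAction G B] {q : ℕ} (D : QData G X B q)

theorem p_smul {x : X} {a : G} (ha : a ∈ D.Q (D.p x)) : D.p (a • x) = D.p x := by
  rw [D.map, D.fix _ a ha]

/-- The orbit relation. -/
def rel : Setoid X where
  r x y := ∃ a ∈ D.Q (D.p x), a • x = y
  iseqv := by
    refine ⟨?_, ?_, ?_⟩
    · intro x
      exact ⟨1, (D.Q _).one_mem, one_smul _ _⟩
    · rintro x y ⟨a, ha, rfl⟩
      refine ⟨a⁻¹, ?_, inv_smul_smul _ _⟩
      rw [D.p_smul ha]
      exact (D.Q _).inv_mem ha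
    · rintro x y z ⟨a, ha, rfl⟩ ⟨b, hb, rfl⟩
      rw [D.p_smul ha] at hb
      exact ⟨b * a, (D.Q _).mul_mem hb ha, mul_smul _ _ _⟩

/-- The quotient. -/
def Quo : Type := Quotient D.rel

theorem rel_smul (g : G) {x y : X} (h : D.rel.r x y) : D.rel.r (g • x) (g • y) := by
  obtain ⟨a, ha, rfl⟩ := h
  refine ⟨g * a * g⁻¹, ?_, ?_⟩
  · rw [D.map]; exact D.conj g _ a ha
  · rw [mul_smul, mul_smul, inv_smul_smul]

instance : MulAction G D.Quo where
  smul g := Quotient.map (fun x => g • x) (fun _ _ h => D.rel_smul g h)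
  one_smul b := by
    induction b using Quotient.inductionOn with
    | h x => exact congrArg (Quotient.mk D.rel) (one_smul G x)
  mul_smul g h b := by
    induction b using Quotient.inductionOn with
    | h x => exact congrArg (Quotient.mk D.rel) (mul_smul g h x)

instance [Finite X] : Finite D.Quo := inferInstanceAs (Finite (Quotient D.rel))

/-- The quotient map is an affine fibration. -/
def fib : AffFib G X D.Quo q where
  p := Quotient.mk D.rel
  N := Quotient.lift (fun x => D.Q (D.p x)) (by
    rintro x y ⟨a, ha, rfl⟩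
    rw [D.p_smul ha])
  map g x := rfl
  surj := Quotient.mk_surjective
  conj g b a := by
    induction b using Quotient.inductionOn with
    | h x =>
      intro ha
      have := D.conj g _ a ha
      rw [← D.map] at this
      exact this
  fix b a := by
    induction b using Quotient.inductionOn with
    | h x =>
      intro ha
      refine Quotient.sound ?_
      refine ⟨a⁻¹, ?_, inv_smul_smul _ _⟩
      rw [D.p_smul ha]
      exact (D.Q _).inv_mem ha
  trans x y h := Quotient.exact h
  comm x a ha a' ha' := D.comm x a ha a' ha'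
  exp x a ha := D.exp x a ha

end QData

end Pool.Agent.Helper903_VG
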