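import Pool.Agent.Helper903_VG.Recur

/-!
The main proposition: every finite `G`-set `V` embeds in a nice set of size at most `60 |V|`.
-/

set_option autoImplicit false

namespace Pool.Agent.Helper903_VG

variable {G : Type} [Group G]

section

variable {D M : Subgroup G} {r : ℕ} {N : Subgroup M}

theorem dir_small [Finite G] (F : AffFib G (G ⧸ D) (G ⧸ M) r) (hN : N.Normal)
    (hFN : F.N = fam M N) (b : G ⧸ M) (δ : Dir F) :
    Nat.card {δ' : Dir F // δ'.b = b ∧ ∃ g : G, g • δ = δ'} ≤ N.index := by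
  classical
  rcases isEmpty_or_nonempty {δ' : Dir F // δ'.b = b ∧ ∃ g : G, g • δ = δ'} with hT | ⟨⟨δ1, hb1, g1, hg1⟩⟩
  · simp
  induction b using QuotientGroup.induction_on with
  | H g0 =>
  have hex : ∀ δ' : {δ' : Dir F // δ'.b = (g0 : G ⧸ M) ∧ ∃ g : G, g • δ = δ'},
      ∃ m : M, (g0 * m * g0⁻¹ : G) • δ1 = δ'.1 := by
    rintro ⟨δ', hb, g, hg⟩
    have h1 : (g * g1⁻¹) • δ1 = δ' := by rw [← hg1, ← hg, mul_smul, inv_smul_smul]
    have h2 : (g * g1⁻¹) • (g0 : G ⧸ M) = g0 := by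
      rw [← hb1, ← Dir.smul_b, h1, hb, hb1]
    have h3 : ((g * g1⁻¹ * g0 : G) : G ⧸ M) = g0 := h2
    rw [eq_comm, QuotientGroup.eq] at h3
    refine ⟨⟨_, h3⟩, ?_⟩
    show (g0 * (g0⁻¹ * (g * g1⁻¹ * g0)) * g0⁻¹) • δ1 = δ'
    have e : g0 * (g0⁻¹ * (g * g1⁻¹ * g0)) * g0⁻¹ = g * g1⁻¹ := by group
    rw [e, h1]
  choose f hf using hex
  refine Nat.card_le_card_of_injective
    (fun δ' : {δ' : Dir F // δ'.b = (g0 : G ⧸ M) ∧ ∃ g : G, g • δ = δ'} => ((f δ' : M) : M ⧸ N)) ?_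
  intro δ' δ'' h
  have h : ((f δ' : M) : M ⧸ N) = (f δ'' : M) := h
  rw [QuotientGroup.eq] at h
  apply Subtype.ext
  rw [← hf δ', ← hf δ'']
  have h1 : (g0 * ((f δ')⁻¹ * f δ'' : M) * g0⁻¹ : G) ∈ F.N δ1.b := by
    rw [hFN, hb1, mem_fam hN]
    exact ⟨_, h, rfl⟩
  have h2 := δ1.fix h1
  have e : (g0 * (f δ'' : G) * g0⁻¹ : G) =
      (g0 * (f δ' : G) * g0⁻¹) * (g0 * ((f δ')⁻¹ * f δ'' : M) * g0⁻¹) := by
    push_cast
    group
  have e2 := mul_smul (g0 * (f δ' : G) * g0⁻¹) (g0 * ((f δ')⁻¹ * f δ'' : M) * g0⁻¹ : G) δ1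
  rw [h2] at e2
  rw [e, e2]

/-- The quotient of the directions by the conjugates of `Q`. -/
noncomputable def qdata (F : AffFib G (G ⧸ D) (G ⧸ M) r) (hN : N.Normal) (hFN : F.N = fam M N) {q : ℕ}
    {Q : Subgroup M} (hQ : Q.Normal)
    (hQc : ∀ a ∈ Q, ∀ b ∈ Q, a * b * a⁻¹ * b⁻¹ ∈ N) (hQe : ∀ a ∈ Q, a ^ q ∈ N) :
    QData G (Dir F) (G ⧸ M) q where
  p := Dir.b
  Q := fam M Q
  map g x := rfl
  conj := fam_conj hQ
  fix := fam_fix hQ
  comm δ a ha a' ha' := by
    obtain ⟨g, hg⟩ := QuotientGroup.mk_surjective δ.b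
    rw [← hg, mem_fam hQ] at ha ha'
    obtain ⟨n, hn, rfl⟩ := ha
    obtain ⟨n', hn', rfl⟩ := ha'
    have h1 : (g * (n⁻¹ * n'⁻¹ * n⁻¹⁻¹ * n'⁻¹⁻¹ : M) * g⁻¹ : G) ∈ F.N δ.b := by
      rw [hFN, ← hg, mem_fam hN]
      exact ⟨_, hQc _ (Q.inv_mem hn) _ (Q.inv_mem hn'), rfl⟩
    have h2 := δ.fix h1
    rw [← mul_smul, ← mul_smul]
    have e : (g * (n : G) * g⁻¹) * (g * (n' : G) * g⁻¹) =
        ((g * (n' : G) * g⁻¹) * (g * (n : G) * g⁻¹)) *
          (g * (n⁻¹ * n'⁻¹ * n⁻¹⁻¹ * n'⁻¹⁻¹ : M) * g⁻¹ : G) := by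
      push_cast
      group
    rw [e, mul_smul _ (g * (n⁻¹ * n'⁻¹ * n⁻¹⁻¹ * n'⁻¹⁻¹ : M) * g⁻¹ : G), h2]
  exp δ a ha := by
    obtain ⟨g, hg⟩ := QuotientGroup.mk_surjective δ.b
    rw [← hg, mem_fam hQ] at ha
    obtain ⟨n, hn, rfl⟩ := ha
    refine δ.fix ?_
    rw [hFN, ← hg, mem_fam hN, conj_pow]
    exact ⟨n ^ q, hQe n hn, by push_cast; rfl⟩

theorem qdata_nontrivial (F : AffFib G (G ⧸ D) (G ⧸ M) 2) (hDM : D ≤ M) (hFp : F.p = cproj hDM)
    (hN : N.Normal) (hcN : (D.subgroupOf M).normalCore ≤ N)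
    (hFN : F.N = fam M N) {q : ℕ}
    {Q : Subgroup M} (hQ : Q.Normal)
    (hQc : ∀ a ∈ Q, ∀ b ∈ Q, a * b * a⁻¹ * b⁻¹ ∈ N) (hQe : ∀ a ∈ Q, a ^ q ∈ N)
    (hQS : ∀ S : Subgroup M, (D.subgroupOf M).normalCore ≤ S → S ≤ N → S.relIndex N = 2 →
            ∃ a ∈ Q, ∃ s ∈ S, a * s * a⁻¹ ∉ S) (b : (qdata F hN hFN hQ hQc hQe).Quo) :
    Nontrivial {δ : Dir F // (qdata F hN hFN hQ hQc hQe).fib.p δ = b} := by
  obtain ⟨δ, rfl⟩ := (qdata F hN hFN hQ hQc hQe).fib.surj b
  obtain ⟨g, hg⟩ := QuotientGroup.mk_surjective δ.b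
  let ψ : M →* G := (MulAut.conj g).toMonoidHom.comp M.subtype
  have hψ : ∀ m : M, ψ m = g * m * g⁻¹ := fun m => rfl
  have hψi : Function.Injective ψ :=
    (MulAut.conj g).injective.comp (Subgroup.subtype_injective M)
  have hNmap : N.map ψ = F.N δ.b := by
    ext x
    rw [hFN, ← hg, mem_fam hN]
    constructor
    · rintro ⟨n, hn, rfl⟩
      exact ⟨n, hn, hψ n⟩
    · rintro ⟨n, hn, rfl⟩
      exact ⟨n, hn, hψ n⟩
  have hSN : δ.S.comap ψ ≤ N := by
    intro m hm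
    have h1 : ψ m ∈ N.map ψ := by rw [hNmap]; exact δ.le hm
    obtain ⟨n, hn, hnm⟩ := h1
    rwa [← hψi hnm]
  have hSmap : (δ.S.comap ψ).map ψ = δ.S := by
    rw [Subgroup.map_comap_eq, inf_eq_right]
    intro x hx
    have h1 : x ∈ N.map ψ := by rw [hNmap]; exact δ.le hx
    obtain ⟨n, -, hn⟩ := h1
    exact ⟨n, hn⟩
  obtain ⟨a, ha, s, hs, has⟩ := hQS (δ.S.comap ψ) (by
    intro k hk
    rw [Subgroup.mem_comap]
    refine δ.ker _ ?_ ?_
    · rw [← hNmap]
      exact ⟨k, hcN hk, rfl⟩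
    · intro u hu
      induction u using QuotientGroup.induction_on with
      | H g' =>
      rw [hFp, cproj_mk, ← hg] at hu
      have h1 := QuotientGroup.eq.1 hu.symm
      show ((ψ k * g' : G) : G ⧸ D) = g'
      rw [eq_comm, QuotientGroup.eq]
      have h2 := (D.subgroupOf M).normalCore_normal.conj_mem k hk (⟨g⁻¹ * g', h1⟩ : M)⁻¹
      have h3 := Subgroup.normalCore_le _ h2
      rw [Subgroup.mem_subgroupOf] at h3
      have e : g'⁻¹ * (ψ k * g') =
          (((⟨g⁻¹ * g', h1⟩ : M)⁻¹ * k * (⟨g⁻¹ * g', h1⟩ : M)⁻¹⁻¹ : M) : G) := by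
        push_cast
        rw [hψ]
        group
      rw [e]
      exact h3) hSN (by
    have h1 := δ.idx
    rw [← hSmap, ← hNmap, Subgroup.relIndex_map_map_of_injective _ _ hψi] at h1
    exact h1)
  refine ⟨⟨δ, rfl⟩, ⟨ψ a • δ, ?_⟩, ?_⟩
  · refine Quotient.sound ?_
    refine (qdata F hN hFN hQ hQc hQe).rel.symm ?_
    refine ⟨ψ a, ?_, rfl⟩
    show ψ a ∈ fam M Q δ.b
    rw [← hg, mem_fam hQ]
    exact ⟨a, ha, hψ a⟩
  · intro h
    have h1 : δ = ψ a • δ := Subtype.mk.inj h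
    apply has
    show ψ (a * s * a⁻¹) ∈ δ.S
    rw [h1, Dir.mem_smul_S]
    have e : (ψ a)⁻¹ * ψ (a * s * a⁻¹) * ψ a = ψ s := by
      rw [map_mul, map_mul, map_inv]
      group
    rw [e]
    exact hs

end

theorem trans_case {K : ℕ} (hK : 3 ≤ K) [Finite G] (N0 : Subgroup G) [N0.Normal]
    [Group.IsSolvable N0] (hβ : N0.index ≤ K) (D : Subgroup G) (hD : D ≠ ⊤)
    (IH : ∀ (V' : Type) [Finite V'] [MulAction G V'], Nat.card V' < Nat.card (G ⧸ D) →
      HasE G K V' (60 * Nat.card V')) : HasE G K (G ⧸ D) (60 * Nat.card (G ⧸ D)) := by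
  obtain ⟨M, hM⟩ : ∃ M, D ⋖ M := exists_covBy_of_wellFoundedLT (not_isMax_iff_ne_top.2 hD)
  have hco := isCoatom_subgroupOf hM
  have hnt : ∀ b, Nontrivial {u : G ⧸ D // cproj hM.le u = b} := cproj_fibre_nontrivial hM.lt
  have h2 := two_mul_card_base (cproj hM.le) hnt
  have hlt : Nat.card (G ⧸ M) < Nat.card (G ⧸ D) := by
    have : 0 < Nat.card (G ⧸ M) := Nat.card_pos
    omega
  have hB := IH (G ⧸ M) hlt
  have hRidx : (N0.subgroupOf M).index ≤ K := by
    refine le_trans (Nat.le_of_dvd ?_ (Subgroup.relIndex_dvd_index_of_normal N0 M)) hβ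
    exact Nat.pos_of_ne_zero Subgroup.index_ne_zero_of_finite
  have hsol : Group.IsSolvable (N0.subgroupOf M) := by
    let φ : (N0.subgroupOf M) →* N0 :=
      { toFun := fun x => ⟨((x : M) : G), x.2⟩
        map_one' := rfl
        map_mul' := fun _ _ => rfl }
    have hφ : Function.Injective φ := by
      intro x y h
      have h0 : ((φ x : N0) : G) = ((φ y : N0) : G) := by rw [h]
      have h1 : (((x : M) : G)) = ((y : M) : G) := h0
      exact Subtype.ext (Subtype.ext h1)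
    exact Group.isSolvable_of_isSolvable_injective hφ
  rcases prim_cases (N0.subgroupOf M) (D.subgroupOf M) hco with
    h | ⟨r, N, hr, hN, hcN, hND, hc, he, h⟩
  · exact caseA hK hM.lt (h.trans hRidx) hB
  have hsup : N ⊔ D.subgroupOf M = ⊤ := hco.2 _ (right_lt_sup.2 hND)
  have hc' : ∀ a ∈ N, ∀ b ∈ N, a * b * a⁻¹ * b⁻¹ ∈ (D.subgroupOf M) := fun a ha b hb =>
    Subgroup.normalCore_le _ (hc a ha b hb)
  have he' : ∀ a ∈ N, a ^ r ∈ (D.subgroupOf M) := fun a ha =>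
    Subgroup.normalCore_le _ (he a ha)
  by_cases hr2 : r = 2
  · subst hr2
    rcases h with h | h | ⟨q, Q, hq, hq2, hQ, hNQ, hQc, hQe, hQS⟩
    · exact absurd rfl h
    · refine caseC hK (cosFib hM.le 2 N hN hsup hc' he') hnt ?_ hB
      intro b δ
      exact (dir_small _ hN rfl b δ).trans (h.trans hRidx)
    · exact caseD hK (cosFib hM.le 2 N hN hsup hc' he') hnt
        (qdata (cosFib hM.le 2 N hN hsup hc' he') hN rfl hQ hQc hQe).fib hq hq2
        (qdata_nontrivial _ hM.le rfl hN hcN rfl hQ hQc hQe hQS) IH hB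
  · refine (lemmaA hK (cosFib hM.le r N hN hsup hc' he') hr hr2 hnt _ le_rfl IH).mono ?_
    have h4 : (0 : ℝ) ≤ Nat.card (G ⧸ D) := Nat.cast_nonneg _
    linarith

theorem HasE.of_bij {K : ℕ} {V V' : Type} [MulAction G V] [MulAction G V'] {m : ℝ}
    (h : HasE G K V' m) (f : V' → V) (hf : Emb G f) (hs : Function.Surjective f) :
    HasE G K V m := by
  let e : V' ≃ V := Equiv.ofBijective f ⟨hf.inj, hs⟩
  refine h.of_emb e.symm ⟨e.symm.injective, ?_⟩ e.symm.surjective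
  intro g x
  rw [Equiv.symm_apply_eq]
  show g • x = f (g • e.symm x)
  rw [hf.map]
  congr 1
  exact (e.apply_symm_apply x).symm

/-- The complement of an orbit. -/
@[reducible] def complAct (V : Type) [MulAction G V] (x0 : V) :
    MulAction G {x : V // x ∉ MulAction.orbit G x0} where
  smul g x := ⟨g • x.1, fun h => x.2 (by
    obtain ⟨k, hk⟩ := h
    have hk : k • x0 = g • x.1 := hk
    exact ⟨g⁻¹ * k, by
      show (g⁻¹ * k) • x0 = x.1
      rw [mul_smul, hk, inv_smul_smul]⟩)⟩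
  one_smul x := Subtype.ext (one_smul G x.1)
  mul_smul g h x := Subtype.ext (mul_smul g h x.1)

theorem main_prop {K : ℕ} (hK : 3 ≤ K) [Finite G] (N0 : Subgroup G) [N0.Normal]
    [Group.IsSolvable N0] (hβ : N0.index ≤ K) (n : ℕ) :
    ∀ (V : Type) [Finite V] [MulAction G V], Nat.card V = n → HasE G K V (60 * Nat.card V) := by
  induction n using Nat.strong_induction_on with
  | _ n ih =>
  intro V _ _ hV
  subst hV
  have hnn : (0 : ℝ) ≤ Nat.card V := Nat.cast_nonneg _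
  rcases isEmpty_or_nonempty V with hE | ⟨⟨x0⟩⟩
  · refine (HasE.fixed (by omega) (V := V) (fun g x => (hE.false x).elim)).mono ?_
    linarith
  by_cases htr : ∀ y, y ∈ MulAction.orbit G x0
  · -- transitive case
    by_cases hD : MulAction.stabilizer G x0 = ⊤
    · refine (HasE.fixed (by omega) (V := V) ?_).mono ?_
      · intro g x
        obtain ⟨h, rfl⟩ := htr x
        have h1 : ∀ k : G, k • x0 = x0 := fun k => by
          have : k ∈ MulAction.stabilizer G x0 := by rw [hD]; exact Subgroup.mem_top _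
          exact this
        show g • h • x0 = h • x0
        rw [h1, h1]
      · linarith
    · have hb : Function.Surjective (MulAction.ofQuotientStabilizer G x0) := by
        intro y
        obtain ⟨g, rfl⟩ := htr y
        exact ⟨(g : G ⧸ MulAction.stabilizer G x0), rfl⟩
      have hc : Nat.card (G ⧸ MulAction.stabilizer G x0) = Nat.card V :=
        Nat.card_congr (Equiv.ofBijective _ ⟨MulAction.injective_ofQuotientStabilizer G x0, hb⟩)
      have h1 := trans_case hK N0 hβ (MulAction.stabilizer G x0) hD (fun V' _ _ hV' =>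
        ih (Nat.card V') (by rw [hc] at hV'; exact hV') V' rfl)
      rw [hc] at h1
      exact h1.of_bij (MulAction.ofQuotientStabilizer G x0)
        ⟨MulAction.injective_ofQuotientStabilizer G x0, MulAction.ofQuotientStabilizer_smul G x0⟩ hb
  · push Not at htr
    obtain ⟨y0, hy0⟩ := htr
    let _ := complAct (G := G) V x0
    have hsum : Nat.card (MulAction.orbit G x0) + Nat.card {x : V // x ∉ MulAction.orbit G x0} =
        Nat.card V := by
      classical
      rw [← Nat.card_sum]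
      exact Nat.card_congr (Equiv.sumCompl (fun x => x ∈ MulAction.orbit G x0))
    have hp1 : 0 < Nat.card (MulAction.orbit G x0) := by
      have : Nonempty (MulAction.orbit G x0) := ⟨⟨x0, MulAction.mem_orbit_self x0⟩⟩
      exact Nat.card_pos
    have hp2 : 0 < Nat.card {x : V // x ∉ MulAction.orbit G x0} := by
      have : Nonempty {x : V // x ∉ MulAction.orbit G x0} := ⟨⟨y0, hy0⟩⟩
      exact Nat.card_pos
    have h1 := ih _ (by omega) (MulAction.orbit G x0) rfl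
    have h2 := ih _ (by omega) {x : V // x ∉ MulAction.orbit G x0} rfl
    have h3 := (h1.sum h2).of_bij (V := V) (Sum.elim Subtype.val Subtype.val) ⟨?_, ?_⟩ ?_
    · refine h3.mono ?_
      rw [← hsum]
      push_cast
      linarith
    · rintro (x | x) (y | y) h
      · exact congrArg Sum.inl (Subtype.ext h)
      · exact absurd x.2 (by
          have h' : (x : V) = y := h
          rw [h']; exact y.2)
      · exact absurd y.2 (by
          have h' : (x : V) = y := h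
          rw [← h']; exact x.2)
      · exact congrArg Sum.inr (Subtype.ext h)
    · rintro g (x | x)
      · rfl
      · rfl
    · intro x
      by_cases hx : x ∈ MulAction.orbit G x0
      · exact ⟨Sum.inl ⟨x, hx⟩, rfl⟩
      · exact ⟨Sum.inr ⟨x, hx⟩, rfl⟩

end Pool.Agent.Helper903_VG
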