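import Mathlib
/-!
JOB VG-T1 (owner helper903, MP_961fdb_co). Carlitz' theorem for prime fields.
TARGET: `affine_of_paley` below.
-/

set_option autoImplicit false

namespace Pool.Agent.Helper903_VG

open Polynomial Finset

section aux

variable (p : ℕ) [Fact p.Prime]

/-- power sums -/
theorem aux_T1_S (hp : p ≠ 2) (i : ℕ) (hi : i < p) :
    ∑ u : ZMod p, u ^ (p / 2 + i) = if i = p / 2 then -1 else 0 := by
  have hprime : p.Prime := Fact.out
  have hodd : p % 2 = 1 := by
    rcases hprime.eq_two_or_odd with h | h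
    · exact absurd h hp
    · exact h
  have hp3 : 3 ≤ p := by have := hprime.two_le; omega
  have hcard : Fintype.card (ZMod p) = p := ZMod.card p
  split_ifs with h
  · subst h
    have e1 : p / 2 + p / 2 = p - 1 := by omega
    rw [e1]
    have e2 : ∀ u : ZMod p, u ^ (p - 1) = 1 - (if u = 0 then 1 else 0) := by
      intro u
      split_ifs with hu
      · rw [hu, zero_pow (by omega)]; ring
      · rw [ZMod.pow_card_sub_one_eq_one hu]; ring
    simp_rw [e2]
    rw [Finset.sum_sub_distrib]
    simp
  · rcases lt_or_gt_of_ne h with h1 | h1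
    · exact FiniteField.sum_pow_lt_card_sub_one (ZMod p) _ (by rw [hcard]; omega)
    · have e3 : ∀ u : ZMod p, u ^ (p / 2 + i) = u ^ (p / 2 + i - (p - 1)) := by
        intro u
        by_cases hu : u = 0
        · rw [hu, zero_pow (by omega), zero_pow (by omega)]
        · have e4 : p / 2 + i = (p - 1) + (p / 2 + i - (p - 1)) := by omega
          conv_lhs => rw [e4]
          rw [pow_add, ZMod.pow_card_sub_one_eq_one hu, one_mul]
      simp_rw [e3]
      exact FiniteField.sum_pow_lt_card_sub_one (ZMod p) _ (by rw [hcard]; omega)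

theorem aux_T1_A (hp : p ≠ 2) (P : (ZMod p)[X]) (hP : P.natDegree < p) (x : ZMod p) :
    ∑ u : ZMod p, u ^ (p / 2) * P.eval (u + x) = - (taylor x P).coeff (p / 2) := by
  have hprime : p.Prime := Fact.out
  have hp2 := hprime.two_le
  have e1 : ∀ u : ZMod p, u ^ (p / 2) * P.eval (u + x) =
      ∑ i ∈ Finset.range p, (taylor x P).coeff i * u ^ (p / 2 + i) := by
    intro u
    rw [← taylor_eval, eval_eq_sum_range' (n := p) (by rwa [natDegree_taylor]), Finset.mul_sum]
    apply Finset.sum_congr rfl
    intro i _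
    rw [pow_add]
    ring
  simp_rw [e1]
  rw [Finset.sum_comm]
  have e2 : ∀ i ∈ Finset.range p, ∑ u : ZMod p, (taylor x P).coeff i * u ^ (p / 2 + i) =
      if i = p / 2 then - (taylor x P).coeff (p / 2) else 0 := by
    intro i hi
    rw [← Finset.mul_sum, aux_T1_S p hp i (Finset.mem_range.1 hi)]
    split_ifs with h
    · rw [h]; ring
    · ring
  rw [Finset.sum_congr rfl e2, Finset.sum_ite_eq']
  rw [if_pos (Finset.mem_range.2 (by omega))]

theorem aux_T1_shift (m : ℕ) (g : ZMod p → ZMod p) (x : ZMod p) :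
    ∑ y : ZMod p, (y - x) ^ m * g y = ∑ u : ZMod p, u ^ m * g (u + x) := by
  have := Equiv.sum_comp (Equiv.addRight x) (fun y : ZMod p => (y - x) ^ m * g y)
  rw [← this]
  apply Finset.sum_congr rfl
  intro u _
  simp

/-- a polynomial function killed by the character transform has small degree -/
theorem aux_T1_B (hp : p ≠ 2) (P : (ZMod p)[X]) (hP : P.natDegree < p)
    (h0 : ∀ x, ∑ y : ZMod p, (y - x) ^ (p / 2) * P.eval y = 0) (k : ℕ) (hk : p / 2 ≤ k) :
    P.coeff k = 0 := by
  have hprime : p.Prime := Fact.out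
  have h1 : ∀ x, (hasseDeriv (p / 2) P).eval x = 0 := by
    intro x
    have h2 := h0 x
    rw [aux_T1_shift p (p / 2) (fun y => P.eval y) x, aux_T1_A p hp P hP x, neg_eq_zero, taylor_coeff] at h2
    exact h2
  have h3 : hasseDeriv (p / 2) P = 0 := by
    by_contra hne
    have hdeg : (hasseDeriv (p / 2) P).natDegree < p := lt_of_le_of_lt (natDegree_hasseDeriv_le P _) (by omega)
    have h4 : (Finset.univ : Finset (ZMod p)) ⊆ (hasseDeriv (p / 2) P).roots.toFinset := by
      intro x _
      rw [Multiset.mem_toFinset, mem_roots hne]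
      exact h1 x
    have h5 := Finset.card_le_card h4
    have h6 := Multiset.toFinset_card_le (hasseDeriv (p / 2) P).roots
    have h7 := card_roots' (hasseDeriv (p / 2) P)
    rw [Finset.card_univ, ZMod.card] at h5
    omega
  by_cases hkp : k < p
  · have h4 := congrArg (fun Q => Q.coeff (k - p / 2)) h3
    simp only [hasseDeriv_coeff, coeff_zero] at h4
    have h5 : k - p / 2 + p / 2 = k := by omega
    rw [h5] at h4
    rcases mul_eq_zero.1 h4 with h6 | h6
    · exfalso
      have h7 : p ∣ k.choose (p / 2) := (ZMod.natCast_eq_zero_iff _ _).1 h6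
      have h8 : p ∣ k.factorial := by
        rw [← Nat.choose_mul_factorial_mul_factorial hk]
        exact Dvd.dvd.mul_right (Dvd.dvd.mul_right h7 _) _
      exact absurd ((hprime.dvd_factorial).1 h8) (by omega)
    · exact h6
  · exact coeff_eq_zero_of_natDegree_lt (by omega)

end aux

theorem aux_T1_three (σ : Equiv.Perm (ZMod 3)) : ∃ s c : ZMod 3, ∀ x, σ x = s * x + c := by
  revert σ
  decide

theorem affine_of_paley (p : ℕ) [Fact p.Prime] (hp : p ≠ 2) (σ : Equiv.Perm (ZMod p))
    (t : ZMod p) (ht : t ≠ 0)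
    (h : ∀ x y : ZMod p, x ≠ y → (IsSquare (y - x) ↔ IsSquare (t * (σ y - σ x)))) :
    ∃ s c : ZMod p, ∀ x, σ x = s * x + c := by
  have hprime : p.Prime := Fact.out
  have hodd : p % 2 = 1 := by
    rcases hprime.eq_two_or_odd with h | h
    · exact absurd h hp
    · exact h
  have hp3 : 3 ≤ p := by have := hprime.two_le; omega
  by_cases hp5 : p = 3
  · subst hp5
    exact aux_T1_three σ
  have hm2 : 2 ≤ p / 2 := by omega
  -- the character identity
  have hchar : ∀ x y : ZMod p, (y - x) ^ (p / 2) = t ^ (p / 2) * (σ y - σ x) ^ (p / 2) := by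
    intro x y
    by_cases hxy : x = y
    · subst hxy
      rw [sub_self, sub_self, zero_pow (by omega), mul_zero]
    · have h1 : y - x ≠ 0 := sub_ne_zero.2 (Ne.symm hxy)
      have h2 : σ y - σ x ≠ 0 := sub_ne_zero.2 (fun hc => hxy (σ.injective hc).symm)
      have h3 : t * (σ y - σ x) ≠ 0 := mul_ne_zero ht h2
      have h4 := h x y hxy
      rw [ZMod.euler_criterion p h1, ZMod.euler_criterion p h3] at h4
      rw [← mul_pow]
      rcases ZMod.pow_div_two_eq_neg_one_or_one p h1 with h5 | h5 <;>
        rcases ZMod.pow_div_two_eq_neg_one_or_one p h3 with h6 | h6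
      · rw [h5, h6]
      · have := h4.1 h5
        rw [h5, this]
      · have := h4.2 h6
        rw [h6, this]
      · rw [h5, h6]
  -- step 1
  have hstep1 : ∀ j < p / 2, ∀ x, ∑ y : ZMod p, (y - x) ^ (p / 2) * (σ y) ^ j = 0 := by
    intro j hj x
    have e1 : ∀ y : ZMod p, (y - x) ^ (p / 2) * (σ y) ^ j =
        t ^ (p / 2) * ((σ y - σ x) ^ (p / 2) * (σ y) ^ j) := by
      intro y
      rw [hchar x y]
      ring
    simp_rw [e1]
    rw [← Finset.mul_sum, Equiv.sum_comp σ (fun z : ZMod p => (z - σ x) ^ (p / 2) * z ^ j),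
      aux_T1_shift p (p / 2) (fun z => z ^ j) (σ x)]
    have e2 := aux_T1_A p hp (X ^ j) (by rw [natDegree_X_pow]; omega) (σ x)
    simp only [eval_pow, eval_X] at e2
    rw [e2]
    have e3 : (taylor (σ x) (X ^ j : (ZMod p)[X])).coeff (p / 2) = 0 :=
      coeff_eq_zero_of_natDegree_lt (by rw [natDegree_taylor, natDegree_X_pow]; exact hj)
    rw [e3]
    ring
  -- the interpolating polynomial
  set f : (ZMod p)[X] := Lagrange.interpolate Finset.univ id (fun x => σ x) with hf
  have hfe : ∀ x, f.eval x = σ x := by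
    intro x
    have := Lagrange.eval_interpolate_at_node (s := Finset.univ) (v := (id : ZMod p → ZMod p)) (fun x => σ x)
      (fun _ _ _ _ h => h) (Finset.mem_univ x)
    exact this
  have hfd : f.natDegree < p := by
    have h1 := Lagrange.degree_interpolate_lt (s := Finset.univ) (v := (id : ZMod p → ZMod p)) (fun x => σ x)
      (fun _ _ _ _ h => h)
    rw [Finset.card_univ, ZMod.card] at h1
    by_cases hf0 : f = 0
    · rw [hf0, natDegree_zero]; omega
    · exact (natDegree_lt_iff_degree_lt hf0).2 h1
  have hcoef : ∀ j < p / 2, j * f.natDegree < p → ∀ k, p / 2 ≤ k → (f ^ j).coeff k = 0 := by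
    intro j hj hjn k hk
    apply aux_T1_B p hp (f ^ j) (by rw [natDegree_pow]; exact hjn) _ k hk
    intro x
    have := hstep1 j hj x
    simpa only [eval_pow, hfe] using this
  have hn : f.natDegree < p / 2 := by
    by_contra hge
    push Not at hge
    have h1 := hcoef 1 (by omega) (by omega) f.natDegree hge
    rw [pow_one, coeff_natDegree, leadingCoeff_eq_zero] at h1
    rw [h1, natDegree_zero] at hge
    omega
  have hn1 : f.natDegree ≤ 1 := by
    by_contra hge
    push Not at hge
    set n := f.natDegree with hn'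
    set m := p / 2 with hm
    set j := (m + n - 1) / n with hj
    have hnpos : 0 < n := by omega
    have a1 : j * n ≤ m + n - 1 := Nat.div_mul_le_self _ _
    have a2 : m + n - 1 < (j + 1) * n := by
      have := Nat.lt_div_mul_add (a := m + n - 1) hnpos
      rw [← hj] at this
      linarith
    have a3 : m ≤ j * n := by
      have : (j + 1) * n = j * n + n := by ring
      omega
    have a4 : j < m := by
      by_contra hc
      push Not at hc
      have b1 : m * n ≤ j * n := Nat.mul_le_mul_right n hc
      have b2 : m * n ≤ m + n - 1 := b1.trans a1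
      obtain ⟨m', hm'⟩ : ∃ m', m = m' + 2 := ⟨m - 2, by omega⟩
      obtain ⟨n', hn''⟩ : ∃ n', n = n' + 2 := ⟨n - 2, by omega⟩
      rw [hm', hn''] at b2
      have b3 : (m' + 2) * (n' + 2) = m' * n' + 2 * m' + 2 * n' + 4 := by ring
      rw [b3] at b2
      have : 0 ≤ m' * n' := Nat.zero_le _
      omega
    have h1 := hcoef j a4 (by omega) (j * n) a3
    have hf0 : f ≠ 0 := by
      intro h0
      rw [h0, natDegree_zero] at hn'
      omega
    have h2 : (f ^ j).coeff (j * n) = (f ^ j).leadingCoeff := by
      rw [leadingCoeff, natDegree_pow]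
    rw [h2, leadingCoeff_eq_zero] at h1
    exact pow_ne_zero j hf0 h1
  obtain ⟨a, b, hab⟩ := exists_eq_X_add_C_of_natDegree_le_one hn1
  refine ⟨a, b, fun x => ?_⟩
  rw [← hfe x, hab]
  simp

end Pool.Agent.Helper903_VG
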