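-- job VG-T2 by helper586, complete file
import Mathlib

set_option autoImplicit false

namespace Pool.Agent.Helper903_VG

theorem agl_colour (p : ℕ) [Fact p.Prime] (L : Subgroup (Equiv.Perm (ZMod p)))
    (hL : ∀ l ∈ L, ∃ s c : ZMod p, ∀ x, l x = s * x + c) :
    ∃ f : ZMod p → Fin 3, (∀ l ∈ L, ∀ x, f (l x) = f x) ∧
      ∀ σ : ZMod p → ZMod p, (∃ s c : ZMod p, ∀ x, σ x = s * x + c) →
        (∀ x, f (σ x) = f x) → ∀ x, ∃ l ∈ L, σ x = l x := by
  classical
  by_cases h1 : ∃ l ∈ L, ∃ c : ZMod p, c ≠ 0 ∧ ∀ x, l x = x + c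
  · obtain ⟨l, hl, c, hc, hlc⟩ := h1
    refine ⟨fun _ => 0, fun _ _ _ => rfl, fun σ _ _ x => ?_⟩
    have hpow : ∀ n : ℕ, ∀ x, (l ^ n) x = x + n * c := by
      intro n
      induction n with
      | zero => intro x; simp
      | succ n ih =>
        intro x
        rw [pow_succ, Equiv.Perm.mul_apply, ih, hlc]
        push_cast; ring
    refine ⟨l ^ ((σ x - x) / c).val, L.pow_mem hl _, ?_⟩
    rw [hpow, ZMod.natCast_zmod_val, div_mul_cancel₀ _ hc]
    ring
  · -- no nontrivial translation
    have hcomm : ∀ l ∈ L, ∀ l' ∈ L, ∀ x, l (l' x) = l' (l x) := by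
      intro l hl l' hl' x
      obtain ⟨s, c, hs⟩ := hL l hl
      obtain ⟨s', c', hs'⟩ := hL l' hl'
      -- the commutator is a translation
      have hm : l * l' * l⁻¹ * l'⁻¹ ∈ L :=
        L.mul_mem (L.mul_mem (L.mul_mem hl hl') (L.inv_mem hl)) (L.inv_mem hl')
      have htr : ∀ y, (l * l' * l⁻¹ * l'⁻¹) y = y + (s * c' + c - (s' * c + c')) := by
        intro y
        obtain ⟨z, rfl⟩ : ∃ z, y = l' (l z) := ⟨l⁻¹ (l'⁻¹ y), by simp⟩
        have e : (l * l' * l⁻¹ * l'⁻¹) (l' (l z)) = l (l' z) := by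
          simp [Equiv.Perm.mul_apply]
        rw [e]
        simp only [hs, hs']
        ring
      have hzero : s * c' + c - (s' * c + c') = 0 := by
        by_contra hne
        exact h1 ⟨_, hm, _, hne, htr⟩
      simp only [hs, hs']
      linear_combination hzero
    obtain ⟨x₀, hx₀⟩ : ∃ x₀ : ZMod p, ∀ l ∈ L, l x₀ = x₀ := by
      by_cases h2 : ∃ l ∈ L, ∃ s c : ZMod p, s ≠ 1 ∧ ∀ x, l x = s * x + c
      · obtain ⟨l, hl, s, c, hs1, hs⟩ := h2
        have h1s : (1 : ZMod p) - s ≠ 0 := sub_ne_zero.mpr (Ne.symm hs1)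
        refine ⟨c / (1 - s), fun l' hl' => ?_⟩
        have hfix : l (c / (1 - s)) = c / (1 - s) := by
          rw [hs]; field_simp; ring
        have h3 := hcomm l hl l' hl' (c / (1 - s))
        rw [hfix, hs] at h3
        rw [eq_div_iff h1s]
        linear_combination (-1 : ZMod p) * h3
      · refine ⟨0, fun l hl => ?_⟩
        obtain ⟨s, c, hs⟩ := hL l hl
        have hs1 : s = 1 := by
          by_contra hne
          exact h2 ⟨l, hl, s, c, hne, hs⟩
        subst hs1
        have hc : c = 0 := by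
          by_contra hne
          exact h1 ⟨l, hl, c, hne, fun x => by rw [hs, one_mul]⟩
        rw [hs, hc]; simp
    have h10 : x₀ + 1 ≠ x₀ := by simp
    let f : ZMod p → Fin 3 := fun x => if x = x₀ then 1 else if ∃ l ∈ L, x = l (x₀ + 1) then 2 else 0
    have hf1 : ∀ x, f x = 1 → x = x₀ := by
      intro x hx
      simp only [f] at hx
      by_contra hne
      rw [if_neg hne] at hx
      split_ifs at hx
      · exact absurd hx (by decide)
      · exact absurd hx (by decide)
    have hf2 : ∀ x, f x = 2 → ∃ l ∈ L, x = l (x₀ + 1) := by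
      intro x hx
      simp only [f] at hx
      split_ifs at hx with h3 h4
      · exact absurd hx (by decide)
      · exact h4
      · exact absurd hx (by decide)
    refine ⟨f, ?_, ?_⟩
    · intro l hl x
      have e1 : l x = x₀ ↔ x = x₀ := by
        constructor
        · intro h
          apply l.injective
          rw [h, hx₀ l hl]
        · rintro rfl; exact hx₀ l hl
      have e2 : (∃ l' ∈ L, l x = l' (x₀ + 1)) ↔ ∃ l' ∈ L, x = l' (x₀ + 1) := by
        constructor
        · rintro ⟨l', hl', h⟩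
          exact ⟨l⁻¹ * l', L.mul_mem (L.inv_mem hl) hl', by
            rw [Equiv.Perm.mul_apply, ← h]; simp⟩
        · rintro ⟨l', hl', h⟩
          exact ⟨l * l', L.mul_mem hl hl', by rw [Equiv.Perm.mul_apply, ← h]⟩
      simp only [f]
      simp only [e1, e2]
    · rintro σ ⟨s, c, hs⟩ hσ
      have a0 : σ x₀ = x₀ := by
        apply hf1
        rw [hσ]
        simp [f]
      obtain ⟨l, hl, a1⟩ : ∃ l ∈ L, σ (x₀ + 1) = l (x₀ + 1) := by
        apply hf2
        rw [hσ]
        simp only [f]
        rw [if_neg h10, if_pos ⟨1, L.one_mem, rfl⟩]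
      obtain ⟨s', c', hs'⟩ := hL l hl
      have a2 := hx₀ l hl
      rw [hs] at a0
      rw [hs, hs'] at a1
      rw [hs'] at a2
      have e1 : s = s' := by linear_combination a1 - a0 + a2
      have e2 : c = c' := by subst e1; linear_combination a0 - a2
      intro x
      exact ⟨l, hl, by rw [hs, hs', e1, e2]⟩

end Pool.Agent.Helper903_VG
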