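import Pool.Agent.Helper903_VG.Aff
import Pool.Agent.Helper903_VG.T1
import Pool.Agent.Helper903_VG.T2

/-!
The Paley gadget: over an affine fibration with fibres of odd prime size `r`, the pairs of a point `x`
and one of the two halves of the rest of its fibre.
-/

set_option autoImplicit false

namespace Pool.Agent.Helper903_VG

variable {G : Type} [Group G]

/-- Permutations of a fibre that normalise the translations. -/
def Allow {V B : Type} [MulAction G V] [MulAction G B] {r : ℕ} (F : AffFib G V B r) (b : B)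
    (σ : V → V) : Prop :=
  (∀ u, F.p u = b → F.p (σ u) = b) ∧
    ∃ t : ℕ, ∀ a ∈ F.N b, ∀ u, F.p u = b → σ (a • u) = a ^ t • σ u

/-- The Paley gadget. -/
@[ext] structure V2 {V B : Type} [MulAction G V] [MulAction G B] {r : ℕ} (F : AffFib G V B r) where
  x : V
  O : Set V
  hO : ∃ a ∈ F.N (F.p x), a • x ≠ x ∧ O = {y | ∃ s : ℕ, ¬ r ∣ s ∧ y = a ^ (s ^ 2) • x}

namespace V2

variable {V B : Type} [MulAction G V] [MulAction G B] {r : ℕ} {F : AffFib G V B r}

theorem conj_pow_smul (g a : G) (n : ℕ) (x : V) : (g * a * g⁻¹) ^ n • g • x = g • a ^ n • x := by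
  rw [conj_pow, mul_smul, mul_smul, inv_smul_smul]

instance : MulAction G (V2 F) where
  smul g o := ⟨g • o.x, {y | g⁻¹ • y ∈ o.O}, by
    obtain ⟨a, ha, hax, hO⟩ := o.hO
    refine ⟨g * a * g⁻¹, ?_, ?_, ?_⟩
    · rw [F.map]; exact F.conj g _ a ha
    · intro h
      apply hax
      have := conj_pow_smul g a 1 o.x
      rw [pow_one, pow_one, h] at this
      exact (smul_left_cancel g this).symm
    · ext y
      rw [Set.mem_setOf_eq, hO]
      constructor
      · rintro ⟨s, hs, h⟩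
        refine ⟨s, hs, ?_⟩
        rw [conj_pow_smul, ← h, smul_inv_smul]
      · rintro ⟨s, hs, h⟩
        refine ⟨s, hs, ?_⟩
        rw [h, conj_pow_smul, inv_smul_smul]⟩
  one_smul o := by
    ext y
    · exact one_smul G o.x
    · show (1 : G)⁻¹ • y ∈ o.O ↔ y ∈ o.O
      rw [inv_one, one_smul]
  mul_smul g h o := by
    ext y
    · exact mul_smul g h o.x
    · show (g * h)⁻¹ • y ∈ o.O ↔ h⁻¹ • g⁻¹ • y ∈ o.O
      rw [mul_inv_rev, mul_smul]

theorem smul_x (g : G) (o : V2 F) : (g • o).x = g • o.x := rfl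

theorem mem_smul (g : G) (o : V2 F) (y : V) : y ∈ (g • o).O ↔ g⁻¹ • y ∈ o.O := Iff.rfl

instance [Finite V] : Finite (V2 F) :=
  Finite.of_injective (fun o => (o.x, o.O)) (fun o o' h => by
    have h1 := congrArg Prod.fst h
    have h2 := congrArg Prod.snd h
    exact V2.ext h1 h2)

theorem p_of_mem {o : V2 F} {u : V} (hu : u ∈ o.O) : F.p u = F.p o.x := by
  obtain ⟨a, ha, -, hO⟩ := o.hO
  rw [hO] at hu
  obtain ⟨s, -, rfl⟩ := hu
  exact F.p_smul ((F.N _).pow_mem ha _) rfl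

variable {b : B}

theorem mem_iff [Fact r.Prime] (c : Coord F b) (o : V2 F) (y0 : ZMod r) (ho : o.x = c.θ y0) :
    ∃ k : ZMod r, k ≠ 0 ∧ ∀ z, c.θ z ∈ o.O ↔ z ≠ y0 ∧ IsSquare (k * (z - y0)) := by
  obtain ⟨a, ha, hax, hO⟩ := o.hO
  have hb : F.p o.x = b := by rw [ho]; exact c.p_θ y0
  rw [hb] at ha
  rw [ho] at hax hO
  obtain ⟨k, hk⟩ := c.exists_pow' ha
  have hk0 : (k : ZMod r) ≠ 0 := by
    intro h
    apply hax
    have := hk 1 y0
    rwa [pow_one, h, zero_mul, add_zero] at this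
  refine ⟨k, hk0, fun z => ?_⟩
  rw [hO, Set.mem_setOf_eq]
  constructor
  · rintro ⟨s, hs, h⟩
    rw [hk] at h
    have h1 := c.inj h
    have hs0 : (s : ZMod r) ≠ 0 := fun h => hs ((ZMod.natCast_eq_zero_iff _ _).1 h)
    push_cast at h1
    refine ⟨?_, ?_⟩
    · intro h2
      rw [h2] at h1
      have : (k : ZMod r) * (s : ZMod r) ^ 2 = 0 := by linear_combination -h1
      rcases mul_eq_zero.1 this with h3 | h3
      · exact hk0 h3
      · exact hs0 (pow_eq_zero_iff (two_ne_zero) |>.1 h3)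
    · refine ⟨k * s, ?_⟩
      rw [h1]; ring
  · rintro ⟨hz, w, hw⟩
    have hw0 : w ≠ 0 := by
      rintro rfl
      rw [mul_zero] at hw
      rcases mul_eq_zero.1 hw with h3 | h3
      · exact hk0 h3
      · exact hz (sub_eq_zero.1 h3)
    refine ⟨(w / k).val, ?_, ?_⟩
    · intro h
      have : ((w / k).val : ZMod r) = 0 := (ZMod.natCast_eq_zero_iff _ _).2 h
      rw [ZMod.natCast_zmod_val] at this
      exact (div_ne_zero hw0 hk0) this
    · rw [hk]
      congr 1
      push_cast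
      rw [ZMod.natCast_zmod_val]
      field_simp
      linear_combination hw

theorem ext_coord (c : Coord F b) {o o' : V2 F} (hx : o.x = o'.x) (hb : F.p o.x = b)
    (h : ∀ z, c.θ z ∈ o.O ↔ c.θ z ∈ o'.O) : o = o' := by
  refine V2.ext hx ?_
  ext u
  constructor
  · intro hu
    obtain ⟨z, rfl⟩ := (c.range u).1 ((p_of_mem hu).trans hb)
    exact (h z).1 hu
  · intro hu
    obtain ⟨z, rfl⟩ := (c.range u).1 ((p_of_mem hu).trans (hx ▸ hb))
    exact (h z).2 hu

theorem isSquare_mul_iff {r : ℕ} [Fact r.Prime] (hr : r ≠ 2) {k z : ZMod r} (hk : k ≠ 0)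
    (hz : z ≠ 0) : IsSquare (k * z) ↔ (IsSquare k ↔ IsSquare z) := by
  have h2 : ringChar (ZMod r) ≠ 2 := by rwa [ZMod.ringChar_zmod_n]
  rw [← quadraticChar_one_iff_isSquare (mul_ne_zero hk hz), ← quadraticChar_one_iff_isSquare hk,
    ← quadraticChar_one_iff_isSquare hz, map_mul]
  rcases quadraticChar_dichotomy hk with h | h <;> rcases quadraticChar_dichotomy hz with h' | h' <;>
    rw [h, h'] <;> simp

theorem card_fibre_le [Finite V] (hr : r.Prime) (hr2 : r ≠ 2)
    (hF : ∀ b, Nat.card {u : V // F.p u = b} = r) (x : V) :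
    Nat.card {o : V2 F // o.x = x} ≤ 2 := by
  classical
  have : Fact r.Prime := ⟨hr⟩
  obtain ⟨c⟩ := exists_coord F hr (F.p x) (hF _)
  obtain ⟨y0, hy0⟩ := (c.range x).1 rfl
  have hinj : Function.Injective (fun o : {o : V2 F // o.x = x} => (c.θ (y0 + 1) ∈ o.1.O : Prop)) := by
    rintro ⟨o, ho⟩ ⟨o', ho'⟩ h
    have h : (c.θ (y0 + 1) ∈ o.O) ↔ (c.θ (y0 + 1) ∈ o'.O) := iff_of_eq h
    apply Subtype.ext
    show o = o'
    refine ext_coord c (ho.trans ho'.symm) (by rw [ho]) ?_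
    obtain ⟨k, hk, h1⟩ := mem_iff c o y0 (ho.trans hy0.symm)
    obtain ⟨k', hk', h1'⟩ := mem_iff c o' y0 (ho'.trans hy0.symm)
    rw [h1, h1'] at h
    have e1 : y0 + 1 ≠ y0 := by simp
    simp only [e1, ne_eq, not_false_eq_true, true_and, add_sub_cancel_left, mul_one] at h
    intro z
    rw [h1, h1']
    by_cases hz : z = y0
    · simp [hz]
    · have hz' : z - y0 ≠ 0 := sub_ne_zero.2 hz
      rw [isSquare_mul_iff hr2 hk hz', isSquare_mul_iff hr2 hk' hz', h]
  calc Nat.card {o : V2 F // o.x = x} ≤ Nat.card Prop := Nat.card_le_card_of_injective _ hinj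
    _ = 2 := by rw [Nat.card_eq_fintype_card]; simp

/-- Two halves at the same base point of a fibre are the same up to translation. -/
def Same (o o' : V2 F) : Prop := ∃ a ∈ F.N (F.p o.x), a • o = o'

theorem same_inv : Inv G (Same : V2 F → V2 F → Prop) := by
  intro g o o'
  apply propext
  constructor
  · rintro ⟨a, ha, h⟩
    refine ⟨g⁻¹ * a * g, ?_, ?_⟩
    · rw [smul_x, F.map] at ha
      have := F.conj g⁻¹ _ a ha
      rwa [inv_smul_smul, inv_inv] at this
    · rw [mul_smul, mul_smul, h, inv_smul_smul]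
  · rintro ⟨a, ha, h⟩
    refine ⟨g * a * g⁻¹, ?_, ?_⟩
    · rw [smul_x, F.map]
      exact F.conj g _ a ha
    · rw [mul_smul, mul_smul, inv_smul_smul, h]

/-- The standard half at a point. -/
def std [Fact r.Prime] (c : Coord F b) (y : ZMod r) : V2 F :=
  ⟨c.θ y, {u | ∃ s : ℕ, ¬ r ∣ s ∧ u = c.a ^ (s ^ 2) • c.θ y}, c.a, by
    rw [c.p_θ]; exact c.ha, by
    intro h
    have h1 := c.smul 1 y
    rw [pow_one, h] at h1
    have h2 := c.inj h1
    simp at h2, rfl⟩

theorem std_smul [Fact r.Prime] (c : Coord F b) (k : ℕ) (y : ZMod r) :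
    c.a ^ k • std c y = std c (y + k) := by
  refine V2.ext ?_ ?_
  · exact c.smul k y
  · ext u
    show (∃ s : ℕ, ¬ r ∣ s ∧ (c.a ^ k)⁻¹ • u = c.a ^ (s ^ 2) • c.θ y) ↔
      ∃ s : ℕ, ¬ r ∣ s ∧ u = c.a ^ (s ^ 2) • c.θ (y + k)
    refine exists_congr fun s => and_congr_right fun _ => ?_
    rw [inv_smul_eq_iff, ← c.smul k y, ← mul_smul, ← mul_smul, ← pow_add, ← pow_add, add_comm]

theorem std_mem [Fact r.Prime] (c : Coord F b) (y z : ZMod r) :
    c.θ z ∈ (std c y).O ↔ z ≠ y ∧ IsSquare (z - y) := by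
  show (∃ s : ℕ, ¬ r ∣ s ∧ c.θ z = c.a ^ (s ^ 2) • c.θ y) ↔ _
  constructor
  · rintro ⟨s, hs, h⟩
    rw [c.smul] at h
    have h1 := c.inj h
    have hs0 : (s : ZMod r) ≠ 0 := fun h => hs ((ZMod.natCast_eq_zero_iff _ _).1 h)
    push_cast at h1
    refine ⟨?_, ⟨s, by rw [h1]; ring⟩⟩
    rintro rfl
    have : (s : ZMod r) ^ 2 = 0 := by linear_combination -h1
    exact hs0 (pow_eq_zero_iff (two_ne_zero) |>.1 this)
  · rintro ⟨hz, w, hw⟩
    refine ⟨w.val, ?_, ?_⟩
    · intro h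
      have : (w.val : ZMod r) = 0 := (ZMod.natCast_eq_zero_iff _ _).2 h
      rw [ZMod.natCast_zmod_val] at this
      rw [this, mul_zero] at hw
      exact hz (sub_eq_zero.1 hw)
    · rw [c.smul]
      congr 1
      push_cast
      rw [ZMod.natCast_zmod_val]
      linear_combination hw

theorem same_std [Fact r.Prime] (c : Coord F b) (y : ZMod r) : Same (std c 0) (std c y) := by
  refine ⟨c.a ^ y.val, ?_, ?_⟩
  · show c.a ^ y.val ∈ F.N (F.p (c.θ 0))
    rw [c.p_θ]
    exact (F.N b).pow_mem c.ha _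
  · rw [std_smul, ZMod.natCast_zmod_val, zero_add]

/-- The key consequence of Carlitz' theorem. -/
theorem allow_of_pres [Finite V] (hr : r.Prime) (hr2 : r ≠ 2)
    (hF : ∀ b, Nat.card {u : V // F.p u = b} = r) (b : B) (σ : V → V) (τ : V2 F → V2 F)
    (hσ : Function.Injective σ) (h1 : ∀ x, F.p x = b → F.p (σ x) = b)
    (h2 : ∀ o, (τ o).x = σ o.x) (h3 : ∀ z o, σ z ∈ (τ o).O ↔ z ∈ o.O)
    (h4 : ∀ o o', Same o o' → Same (τ o) (τ o')) : Allow F b σ := by
  classical
  have : Fact r.Prime := ⟨hr⟩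
  obtain ⟨c⟩ := exists_coord F hr b (hF _)
  have hex : ∀ y, ∃ y', c.θ y' = σ (c.θ y) := fun y => (c.range _).1 (h1 _ (c.p_θ y))
  choose f hf using hex
  have hfinj : Function.Injective f := by
    intro y y' h
    apply c.inj
    apply hσ
    rw [← hf, ← hf, h]
  have hfbij : Function.Bijective f := Finite.injective_iff_bijective.1 hfinj
  obtain ⟨k, hk0, hk⟩ := mem_iff c (τ (std c 0)) (f 0) (by rw [h2, hf]; rfl)
  have key : ∀ x y : ZMod r, x ≠ y → (IsSquare (y - x) ↔
      IsSquare (k * (Equiv.ofBijective f hfbij y - Equiv.ofBijective f hfbij x))) := by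
    intro x y hxy
    show IsSquare (y - x) ↔ IsSquare (k * (f y - f x))
    obtain ⟨a, ha, hao⟩ := h4 _ _ (same_std c x)
    have hb : F.p (τ (std c 0)).x = b := by rw [h2]; exact h1 _ (c.p_θ 0)
    rw [hb] at ha
    obtain ⟨d, hd⟩ := c.exists_pow' ha
    have hd1 : ∀ y, a • c.θ y = c.θ (y + d) := fun y => by
      have := hd 1 y
      rwa [pow_one, Nat.cast_one, mul_one] at this
    have e1 : f x = f 0 + d := by
      apply c.inj
      rw [hf x, ← hd1, hf 0]
      have : (τ (std c x)).x = a • (τ (std c 0)).x := by rw [← hao]; rfl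
      rw [h2, h2] at this
      exact this
    have e2 : c.θ y ∈ (std c x).O ↔ IsSquare (y - x) := by
      rw [std_mem]
      exact ⟨fun h => h.2, fun h => ⟨hxy.symm, h⟩⟩
    rw [← e2, ← h3, ← hf, ← hao, mem_smul]
    have e3 : a⁻¹ • c.θ (f y) = c.θ (f y - d) := by
      rw [inv_smul_eq_iff, hd1, sub_add_cancel]
    rw [e3, hk]
    have e4 : f y - d - f 0 = f y - f x := by rw [e1]; ring
    rw [e4]
    refine ⟨fun h => h.2, fun h => ⟨?_, h⟩⟩
    intro h5
    apply hxy
    apply hfinj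
    have : f y = f 0 + d := by rw [← h5]; ring
    rw [e1, this]
  obtain ⟨s, c', hs⟩ := affine_of_paley r hr2 (Equiv.ofBijective f hfbij) k hk0 key
  have hs : ∀ x, f x = s * x + c' := hs
  refine ⟨h1, s.val, ?_⟩
  intro a ha u hu
  obtain ⟨d, hd⟩ := c.exists_pow' ha
  obtain ⟨y, rfl⟩ := (c.range u).1 hu
  have hd1 : a • c.θ y = c.θ (y + d) := by
    have := hd 1 y
    rwa [pow_one, Nat.cast_one, mul_one] at this
  rw [hd1, ← hf, ← hf, hd]
  congr 1
  rw [hs, hs, ZMod.natCast_zmod_val]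
  ring

end V2

end Pool.Agent.Helper903_VG
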