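import Pool.Agent.Helper903_VG.Paley

/-!
Rule R2: affine fibrations whose fibres have odd prime size.
-/

set_option autoImplicit false

namespace Pool.Agent.Helper903_VG

variable {G : Type} [Group G]

theorem Allow.coord {V B : Type} [MulAction G V] [MulAction G B] {r : ℕ} [NeZero r]
    {F : AffFib G V B r} {b : B} {σ : V → V} (h : Allow F b σ) (c : Coord F b) :
    ∃ f : ZMod r → ZMod r, (∀ y, σ (c.θ y) = c.θ (f y)) ∧ ∃ s d : ZMod r, ∀ y, f y = s * y + d := by
  obtain ⟨h1, t, ht⟩ := h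
  have hex : ∀ y, ∃ y', c.θ y' = σ (c.θ y) := fun y => (c.range _).1 (h1 _ (c.p_θ y))
  choose f hf using hex
  refine ⟨f, fun y => (hf y).symm, t, f 0, fun y => ?_⟩
  apply c.inj
  have e1 : c.θ y = c.a ^ y.val • c.θ 0 := by
    rw [c.smul, ZMod.natCast_zmod_val, zero_add]
  rw [hf, e1, ht _ ((F.N b).pow_mem c.ha _) _ (c.p_θ 0), ← hf 0, ← pow_mul, c.smul]
  congr 1
  push_cast
  rw [ZMod.natCast_zmod_val]
  ring

theorem allow_smul {V B : Type} [MulAction G V] [MulAction G B] {r : ℕ} [NeZero r]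
    {F : AffFib G V B r} {b : B} (c : Coord F b) {g : G} (hg : g • b = b) :
    Allow F b (fun x => g • x) := by
  refine ⟨fun u hu => by rw [F.map, hu, hg], ?_⟩
  obtain ⟨k, hk⟩ := c.exists_pow (F.conj_mem hg c.ha)
  refine ⟨k, ?_⟩
  intro a ha u hu
  -- `a` acts as a power of `c.a`
  obtain ⟨m, hm⟩ := c.exists_pow ha
  have hgu : F.p (g • u) = b := by rw [F.map, hu, hg]
  have e1 : g • a • u = (g * a * g⁻¹) • g • u := by
    rw [mul_smul, mul_smul, inv_smul_smul]
  have e2 : g • a • u = (g * c.a * g⁻¹) ^ m • g • u := by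
    rw [hm u hu, V2.conj_pow_smul]
  show g • a • u = a ^ k • g • u
  rw [e2, F.pow_agree (F.conj_mem hg c.ha) ((F.N b).pow_mem c.ha k) hk m hgu,
    F.pow_agree ha ((F.N b).pow_mem c.ha m) hm k hgu, ← pow_mul, ← pow_mul, mul_comm]

theorem exists_kappa_aff {K : ℕ} (hK : 3 ≤ K) {V B W : Type} [Finite V] [MulAction G V]
    [MulAction G B] [MulAction G W] {r : ℕ} (F : AffFib G V B r) (hr : r.Prime)
    (hF : ∀ b, Nat.card {u : V // F.p u = b} = r) :
    ∃ κ : V → W → Fin K, Inv G κ ∧ ∀ b w (σ : V → V), Allow F b σ →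
      (∀ x, F.p x = b → κ (σ x) w = κ x w) → ∀ x, F.p x = b →
        ∃ g : G, g • w = w ∧ g • x = σ x := by
  classical
  have : Fact r.Prime := ⟨hr⟩
  refine exists_kappa (G := G) F.p F.map (fun b w f => ∀ (σ : V → V), Allow F b σ →
      (∀ x, F.p x = b → f (σ x) = f x) → ∀ x, F.p x = b →
        ∃ g : G, g • w = w ∧ g • x = σ x) ?_ ?_
  · intro b w
    obtain ⟨c⟩ := exists_coord F hr b (hF b)
    -- the group induced by `G_{b,w}` on the fibre
    let L : Subgroup (Equiv.Perm (ZMod r)) :=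
      { carrier := {l | ∃ g : G, g • b = b ∧ g • w = w ∧ ∀ y, g • c.θ y = c.θ (l y)}
        mul_mem' := by
          rintro l l' ⟨g, h1, h2, h3⟩ ⟨g', h1', h2', h3'⟩
          refine ⟨g * g', by rw [mul_smul, h1', h1], by rw [mul_smul, h2', h2], fun y => ?_⟩
          rw [mul_smul, h3', h3]; rfl
        one_mem' := ⟨1, one_smul _ _, one_smul _ _, fun y => one_smul _ _⟩
        inv_mem' := by
          rintro l ⟨g, h1, h2, h3⟩
          refine ⟨g⁻¹, by rw [inv_smul_eq_iff, h1], by rw [inv_smul_eq_iff, h2], fun y => ?_⟩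
          rw [inv_smul_eq_iff, h3]
          exact congrArg c.θ (l.apply_symm_apply y).symm }
    have hL : ∀ l ∈ L, ∃ s d : ZMod r, ∀ x, l x = s * x + d := by
      rintro l ⟨g, h1, h2, h3⟩
      obtain ⟨f, hf, s, d, hsd⟩ := (allow_smul c h1).coord c
      refine ⟨s, d, fun x => ?_⟩
      rw [← hsd]
      apply c.inj
      rw [← h3, ← hf]
    obtain ⟨f, hf1, hf2⟩ := agl_colour r L hL
    refine ⟨fun x => if h : F.p x = b then
      Fin.castLE hK (f (((c.range x).1 h).choose)) else ⟨0, by omega⟩, ?_, ?_⟩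
    · intro g hgb hgw x hx
      have hgx : F.p (g • x) = b := by rw [F.map, hx, hgb]
      beta_reduce
      rw [dif_pos hx, dif_pos hgx]
      congr 1
      have e1 := ((c.range x).1 hx).choose_spec
      have e2 := ((c.range (g • x)).1 hgx).choose_spec
      set y := ((c.range x).1 hx).choose
      set y' := ((c.range (g • x)).1 hgx).choose
      have hex : ∀ y, ∃ y', c.θ y' = g • (c.θ y) := fun y =>
        (c.range _).1 (by rw [F.map, c.p_θ, hgb])
      choose l hl using hex
      have hlinj : Function.Injective l := by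
        intro y y' h
        apply c.inj
        have : g • c.θ y = g • c.θ y' := by rw [← hl, ← hl, h]
        exact smul_left_cancel g this
      have hlbij : Function.Bijective l := Finite.injective_iff_bijective.1 hlinj
      have hlL : Equiv.ofBijective l hlbij ∈ L := ⟨g, hgb, hgw, fun y => (hl y).symm⟩
      have e3 : y' = Equiv.ofBijective l hlbij y := by
        apply c.inj
        show c.θ y' = c.θ (l y)
        rw [hl, e1, e2]
      rw [e3, hf1 _ hlL]
    · intro σ hσ hfσ x hx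
      obtain ⟨l, hl, hs⟩ := hσ.coord c
      have hfl : ∀ y, f (l y) = f y := by
        intro y
        have h1 := hfσ (c.θ y) (c.p_θ y)
        have hp1 := c.p_θ y
        have hp2 : F.p (σ (c.θ y)) = b := hσ.1 _ (c.p_θ y)
        beta_reduce at h1
        rw [dif_pos hp1, dif_pos hp2] at h1
        have h2 := Fin.castLE_injective hK h1
        have e1 := ((c.range (c.θ y)).1 hp1).choose_spec
        have e2 := ((c.range (σ (c.θ y))).1 hp2).choose_spec
        have e3 := c.inj e1
        have e4 : ((c.range (σ (c.θ y))).1 hp2).choose = l y := by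
          apply c.inj
          rw [e2, hl]
        rw [e3, e4] at h2
        exact h2
      obtain ⟨y, rfl⟩ := (c.range x).1 hx
      obtain ⟨l', ⟨g, hg1, hg2, hg3⟩, hl'⟩ := hf2 l hs hfl y
      exact ⟨g, hg2, by rw [hg3, hl, hl']⟩
  · intro g b w f f' hP hff' σ hσ hfσ x hx
    have hσ0 : Allow F b (fun x => g⁻¹ • σ (g • x)) := by
      obtain ⟨h1, t, ht⟩ := hσ
      refine ⟨fun u hu => ?_, t, fun a ha u hu => ?_⟩
      · show F.p (g⁻¹ • σ (g • u)) = b
        rw [F.map, h1 _ (by rw [F.map, hu]), inv_smul_smul]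
      · show g⁻¹ • σ (g • a • u) = a ^ t • g⁻¹ • σ (g • u)
        have e1 : g • a • u = (g * a * g⁻¹) • g • u := by
          rw [mul_smul, mul_smul, inv_smul_smul]
        rw [e1, ht _ (F.conj g b a ha) _ (by rw [F.map, hu]), conj_pow, mul_smul, mul_smul,
          inv_smul_smul]
    have hpx : F.p (g⁻¹ • x) = b := by rw [F.map, hx, inv_smul_smul]
    obtain ⟨a, ha1, ha2⟩ := hP _ hσ0 (by
      intro y hy
      have h1 := hσ.1 (g • y) (by rw [F.map, hy])
      have h2 := hff' (g⁻¹ • σ (g • y)) (by rw [F.map, h1, inv_smul_smul])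
      rw [smul_inv_smul] at h2
      show f (g⁻¹ • σ (g • y)) = f y
      rw [← h2, hfσ _ (by rw [F.map, hy]), hff' y hy]) (g⁻¹ • x) hpx
    refine ⟨g * a * g⁻¹, ?_, ?_⟩
    · rw [mul_smul, mul_smul, inv_smul_smul, ha1]
    · rw [mul_smul, mul_smul, ha2]
      show g • g⁻¹ • σ (g • g⁻¹ • x) = σ x
      rw [smul_inv_smul, smul_inv_smul]

/-- The relation on the gadget. -/
def RPal {V B : Type} [MulAction G V] [MulAction G B] {r : ℕ} (F : AffFib G V B r) :
    V2 F ⊕ V → V2 F ⊕ V → Prop
  | Sum.inl o, Sum.inl o' => V2.Same o o'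
  | Sum.inl o, Sum.inr x => x = o.x
  | Sum.inr z, Sum.inl o => z ∈ o.O
  | Sum.inr _, Sum.inr _ => False

theorem RPal_inv {V B : Type} [MulAction G V] [MulAction G B] {r : ℕ} (F : AffFib G V B r) :
    Inv G (RPal F) := by
  rintro g (o | x) (o' | x')
  · exact V2.same_inv g o o'
  · show (g • x' = g • o.x) = (x' = o.x)
    rw [smul_left_cancel_iff]
  · show (g⁻¹ • g • x ∈ o'.O) = (x ∈ o'.O)
    rw [inv_smul_smul]
  · rfl

/-- The relation between the gadget and the base. -/
def APal {V B E : Type} [MulAction G V] [MulAction G B] {r : ℕ} (F : AffFib G V B r) (i : B → E) :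
    V2 F ⊕ V → E → Prop
  | Sum.inl _, _ => False
  | Sum.inr x, e => e = i (F.p x)

theorem Nice.paley {K : ℕ} (hK : 3 ≤ K) {V E B : Type} [Finite V] [MulAction G V] [MulAction G E]
    [MulAction G B] {R : E → E → Prop} (hR : Nice G K R) {r : ℕ} (F : AffFib G V B r)
    (hr : r.Prime) (hr2 : r ≠ 2) (hF : ∀ b, Nat.card {u : V // F.p u = b} = r)
    (i : B → E) (hi : Emb G i) : Nice G K (RSum (RPal F) (APal F i) R) := by
  refine hR.extend (RPal_inv F) ?_ ?_
  · rintro g (o | x) e
    · rfl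
    · show (g • e = i (F.p (g • x))) = (e = i (F.p x))
      rw [F.map, hi.map, smul_left_cancel_iff]
  · intro W _
    obtain ⟨κ1, hκ1, h1⟩ := exists_kappa_aff (G := G) (W := W) hK F hr hF
    obtain ⟨κ2, hκ2, h2⟩ := exists_kappa_small (G := G) (W := W) (K := K) (by omega)
      (V2.x : V2 F → V) V2.smul_x (fun b x => by
        refine le_trans ?_ ((V2.card_fibre_le hr hr2 hF b).trans (show 2 ≤ K by omega))
        exact Nat.card_le_card_of_injective
          (fun y : {y : V2 F // y.x = b ∧ ∃ g : G, g • x = y} =>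
            (⟨y.1, y.2.1⟩ : {o : V2 F // o.x = b}))
          (fun y y' h => Subtype.ext (Subtype.mk.inj h)))
    refine ⟨fun x w => Sum.elim (fun o => κ2 o w) (fun x => κ1 x w) x, ?_, ?_⟩
    · rintro g (o | x) w
      · exact hκ2 g o w
      · exact hκ1 g x w
    · intro Ω _ Γ j j0 k hj hj0 hk hPR hPA hPκ hg
      have hjV : Emb G (j ∘ Sum.inr : V → Ω) := hj.comp inr_emb
      have hj2 : Emb G (j ∘ Sum.inl : V2 F → Ω) := hj.comp inl_emb
      -- goodness of `(V, W)`
      have hV : Good Γ (j ∘ Sum.inr : V → Ω) k := by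
        intro h hh x w
        obtain ⟨g, hg1, hg2⟩ := hg h hh (i (F.p x)) w
        obtain ⟨h', hh', hh'e⟩ := Γ.smul_mem g⁻¹ hh
        have e1 : h' (j0 (i (F.p x))) = j0 (i (F.p x)) := by
          rw [hh'e, hg1, hj0.map, inv_smul_smul]
        have e2 : h' (k w) = k w := by
          rw [hh'e, hg2, hk.map, inv_smul_smul]
        obtain ⟨σ, hσ, hσj, -⟩ := Γ.exists_fun hjV hh'
        obtain ⟨τ, -, hτj, -⟩ := Γ.exists_fun hj2 hh'
        have s1 : ∀ y, F.p y = F.p x → F.p (σ y) = F.p x := by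
          intro y hy
          have := hPA h' hh' (Sum.inr y) (i (F.p x)) (Sum.inr (σ y)) (i (F.p x)) (hσj y) e1
          have h3 : i (F.p x) = i (F.p (σ y)) := this.mpr (by rw [← hy]; rfl)
          exact (hi.inj h3).symm
        have s2 : ∀ o, (τ o).x = σ o.x := by
          intro o
          have := hPR h' hh' (Sum.inl o) (Sum.inr o.x) (Sum.inl (τ o)) (Sum.inr (σ o.x)) (hτj o)
            (hσj _)
          exact (this.mpr rfl).symm
        have s3 : ∀ z o, σ z ∈ (τ o).O ↔ z ∈ o.O := by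
          intro z o
          have := hPR h' hh' (Sum.inr z) (Sum.inl o) (Sum.inr (σ z)) (Sum.inl (τ o)) (hσj z)
            (hτj o)
          exact iff_of_eq this
        have s4 : ∀ o o', V2.Same o o' → V2.Same (τ o) (τ o') := by
          intro o o' hoo
          have := hPR h' hh' (Sum.inl o) (Sum.inl o') (Sum.inl (τ o)) (Sum.inl (τ o')) (hτj o)
            (hτj o')
          exact this.mpr hoo
        have hall := V2.allow_of_pres hr hr2 hF (F.p x) σ τ hσ s1 s2 s3 s4
        obtain ⟨g2, hg2a, hg2b⟩ := h1 (F.p x) w σ hall (fun y _ =>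
          hPκ h' hh' (Sum.inr y) w (Sum.inr (σ y)) w (hσj y) e2) x rfl
        refine ⟨g * g2, ?_, ?_⟩
        · have e3 : h ((j ∘ Sum.inr) x) = g • h' ((j ∘ Sum.inr) x) := by
            rw [hh'e, smul_inv_smul]
          rw [e3, hσj, ← hg2b, mul_smul, hjV.map g]
        · rw [mul_smul, hg2a, hg2]
      rintro h hh (o | x) w
      · obtain ⟨g, hg1, hg2⟩ := hV h hh o.x w
        obtain ⟨g1, hg1'⟩ := Γ.exists_eq hj2 hh o
        have e1 : g • o.x = (g1 • o).x :=
          (hPR h hh (Sum.inl o) (Sum.inr o.x) (Sum.inl (g1 • o)) (Sum.inr (g • o.x)) hg1' hg1).mpr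
            rfl
        have e3 : κ2 (g1 • o) (g • w) = κ2 (g • o) (g • w) := by
          rw [show κ2 (g1 • o) (g • w) = κ2 o w from
            hPκ h hh (Sum.inl o) w (Sum.inl (g1 • o)) (g • w) hg1' hg2, hκ2]
        obtain ⟨g2, hg2a, hg2b⟩ := h2 (g • w) (g • o) (g1 • o) e1
          ⟨g1 * g⁻¹, by rw [mul_smul, inv_smul_smul]⟩ e3.symm
        refine ⟨g2 * g, ?_, ?_⟩
        · rw [mul_smul]
          have : g2 • g • (Sum.inl o : V2 F ⊕ V) = Sum.inl (g2 • g • o) := rfl
          rw [this, hg2a]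
          exact hg1'
        · rw [mul_smul, hg2b, hg2]
      · exact hV h hh x w

end Pool.Agent.Helper903_VG
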