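import Pool.Agent.Helper903_VG.Rules

/-!
The rule for fibrations whose fibres carry a relation with few symmetries.
-/

set_option autoImplicit false

namespace Pool.Agent.Helper903_VG

theorem perm_apply_inv {Y : Type} (a : Equiv.Perm Y) (z : Y) : a (a⁻¹ z) = z :=
  Equiv.apply_symm_apply a z

/-- A group of fewer than `2 ^ K` permutations is cut down to the classes of a partition by `K` colours. -/
theorem chain_colour {Y : Type} [Finite Y] (s : Setoid Y) (K : ℕ) :
    ∀ (Q : Subgroup (Equiv.Perm Y)), Nat.card Q < 2 ^ K →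
      ∃ f : Y → Fin K, (∀ x y, s.r x y → f x = f y) ∧
        ∀ π ∈ Q, (∀ y, f (π y) = f y) → ∀ y, s.r (π y) y := by
  classical
  induction K with
  | zero =>
    intro Q h
    have : 0 < Nat.card Q := Nat.card_pos
    rw [pow_zero] at h
    omega
  | succ K ih =>
    intro Q h
    by_cases hall : ∀ π ∈ Q, ∀ y, s.r (π y) y
    · exact ⟨fun _ => 0, fun _ _ _ => rfl, fun π hπ _ => hall π hπ⟩
    · push Not at hall
      obtain ⟨π0, hπ0, y0, hy0⟩ := hall
      let Q1 : Subgroup (Equiv.Perm Y) :=
        { carrier := {π | π ∈ Q ∧ ∀ z, s.r (π z) y0 ↔ s.r z y0}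
          one_mem' := ⟨Q.one_mem, fun z => Iff.rfl⟩
          mul_mem' := by
            rintro a b ⟨ha, ha'⟩ ⟨hb, hb'⟩
            exact ⟨Q.mul_mem ha hb, fun z => (ha' (b z)).trans (hb' z)⟩
          inv_mem' := by
            rintro a ⟨ha, ha'⟩
            refine ⟨Q.inv_mem ha, fun z => ?_⟩
            have := ha' (a⁻¹ z)
            rw [perm_apply_inv] at this
            exact this.symm }
      have hle : Q1 ≤ Q := fun π hπ => hπ.1
      have hne : Q1 ≠ Q := by
        intro h1
        rw [← h1] at hπ0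
        exact hy0 ((hπ0.2 y0).2 (s.refl y0))
      have hcard : Nat.card Q1 < 2 ^ K := by
        obtain ⟨c, hc⟩ := Subgroup.card_dvd_of_le hle
        have hc2 : 2 ≤ c := by
          rcases c with _ | _ | c
          · have : 0 < Nat.card Q := Nat.card_pos
            omega
          · exfalso
            apply hne
            refine Subgroup.eq_of_le_of_card_ge hle ?_
            omega
          · omega
        have h2 : Nat.card Q1 * 2 ≤ Nat.card Q := by
          rw [hc]; exact Nat.mul_le_mul_left _ hc2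
        rw [pow_succ] at h
        omega
      obtain ⟨f1, hf1, hf2⟩ := ih Q1 hcard
      refine ⟨fun y => if s.r y y0 then Fin.last K else (f1 y).castSucc, ?_, ?_⟩
      · intro x y hxy
        by_cases hx : s.r x y0
        · have hy : s.r y y0 := s.trans (s.symm hxy) hx
          simp only [hx, hy, if_true]
        · have hy : ¬ s.r y y0 := fun hy => hx (s.trans hxy hy)
          simp only [hx, hy, if_false]
          rw [hf1 x y hxy]
      · intro π hπ hπf
        have hiff : ∀ z, s.r (π z) y0 ↔ s.r z y0 := by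
          intro z
          have h1 := hπf z
          by_cases hz : s.r z y0
          · simp only [hz, if_true] at h1
            by_cases hz' : s.r (π z) y0
            · exact ⟨fun _ => hz, fun _ => hz'⟩
            · simp only [hz', if_false] at h1
              exact absurd h1 (Fin.castSucc_lt_last _).ne
          · simp only [hz, if_false] at h1
            by_cases hz' : s.r (π z) y0
            · simp only [hz', if_true] at h1
              exact absurd h1.symm (Fin.castSucc_lt_last _).ne
            · exact ⟨fun h => absurd h hz', fun h => absurd h hz⟩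
        refine hf2 π ⟨hπ, hiff⟩ ?_
        intro y
        by_cases hy : s.r y y0
        · exact hf1 _ _ (s.trans ((hiff y).2 hy) (s.symm hy))
        · have hy' : ¬ s.r (π y) y0 := fun h => hy ((hiff y).1 h)
          have h1 := hπf y
          simp only [hy, hy', if_false] at h1
          exact Fin.castSucc_injective K h1

variable {G : Type} [Group G]

section

variable {X B : Type} [MulAction G X] [MulAction G B]

/-- The symmetries of a fibre. -/
def FibSym (G : Type) [Group G] {X B : Type} [MulAction G X] (RX : X → X → Prop) (p : X → B)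
    (b : B) (π : Equiv.Perm {x : X // p x = b}) : Prop :=
  (∀ x y, RX (π x) (π y) ↔ RX x y) ∧ ∀ x : {x : X // p x = b}, ∃ g : G, g • (x : X) = π x

/-- The group of symmetries of a fibre. -/
def fibSym (G : Type) [Group G] {X B : Type} [MulAction G X] (RX : X → X → Prop) (p : X → B)
    (b : B) : Subgroup (Equiv.Perm {x : X // p x = b}) where
  carrier := {π | FibSym G RX p b π}
  one_mem' := ⟨fun _ _ => Iff.rfl, fun x => ⟨1, one_smul _ _⟩⟩
  mul_mem' := by
    rintro a c ⟨ha, ha'⟩ ⟨hc, hc'⟩
    refine ⟨fun x y => (ha (c x) (c y)).trans (hc x y), fun x => ?_⟩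
    obtain ⟨g, hg⟩ := ha' (c x)
    obtain ⟨g', hg'⟩ := hc' x
    exact ⟨g * g', by rw [mul_smul, hg', hg]; rfl⟩
  inv_mem' := by
    rintro a ⟨ha, ha'⟩
    refine ⟨fun x y => ?_, fun x => ?_⟩
    · have := ha (a⁻¹ x) (a⁻¹ y)
      rw [perm_apply_inv, perm_apply_inv] at this
      exact this.symm
    · obtain ⟨g, hg⟩ := ha' (a⁻¹ x)
      rw [perm_apply_inv] at hg
      exact ⟨g⁻¹, by rw [← hg, inv_smul_smul]⟩

/-- The colouring used for fibres with few symmetries. -/
theorem exists_kappa_perm {K : ℕ} {W : Type} [Finite X] [MulAction G W] (RX : X → X → Prop)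
    (hRX : Inv G RX) (p : X → B) (hp : ∀ (g : G) x, p (g • x) = g • p x)
    (hcard : ∀ b : B, Nat.card {π // FibSym G RX p b π} < 2 ^ K) :
    ∃ κ : X → W → Fin K, Inv G κ ∧ ∀ (b : B) (w : W) (π : Equiv.Perm {x : X // p x = b}),
      FibSym G RX p b π → (∀ x : {x : X // p x = b}, κ (π x) w = κ x w) →
        ∀ x : {x : X // p x = b}, ∃ g : G, g • w = w ∧ g • (x : X) = π x := by
  classical
  refine exists_kappa (G := G) (W := W) (C := Fin K) p hp
    (fun b w f => ∀ π : Equiv.Perm {x : X // p x = b}, FibSym G RX p b π →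
      (∀ x : {x : X // p x = b}, f (π x) = f x) →
        ∀ x : {x : X // p x = b}, ∃ g : G, g • w = w ∧ g • (x : X) = π x) ?_ ?_
  · intro b w
    let s : Setoid {x : X // p x = b} :=
      { r := fun x y => ∃ g : G, g • w = w ∧ g • (y : X) = x
        iseqv := by
          refine ⟨fun x => ⟨1, one_smul _ _, one_smul _ _⟩, ?_, ?_⟩
          · rintro x y ⟨g, hg, hg'⟩
            exact ⟨g⁻¹, inv_smul_eq_iff.2 hg.symm, inv_smul_eq_iff.2 hg'.symm⟩
          · rintro x y z ⟨g, hg, hg'⟩ ⟨h, hh, hh'⟩
            exact ⟨g * h, by rw [mul_smul, hh, hg], by rw [mul_smul, hh', hg']⟩ }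
    have hc : Nat.card (fibSym G RX p b) < 2 ^ K := hcard b
    obtain ⟨f0, h1, h2⟩ := chain_colour s K (fibSym G RX p b) hc
    have hK : 0 < K := by
      rcases Nat.eq_zero_or_pos K with h | h
      · subst h
        have : 0 < Nat.card (fibSym G RX p b) := Nat.card_pos
        rw [pow_zero] at hc
        omega
      · exact h
    refine ⟨fun x => if h : p x = b then f0 ⟨x, h⟩ else ⟨0, hK⟩, ?_, ?_⟩
    · intro g hgb hgw x hx
      have hx' : p (g • x) = b := by rw [hp, hx, hgb]
      simp only [hx, hx', dif_pos]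
      exact h1 _ _ ⟨g, hgw, rfl⟩
    · intro π hπ hf x
      have := h2 π hπ (fun y => by
        have := hf y
        simp only [y.2, (π y).2, dif_pos] at this
        exact this) x
      exact this
  · intro g b w f f' hP hf π' hπ' hf' x'
    let e : {x : X // p x = b} ≃ {x : X // p x = g • b} :=
      { toFun := fun x => ⟨g • (x : X), by rw [hp, x.2]⟩
        invFun := fun y => ⟨g⁻¹ • (y : X), by rw [hp, y.2, inv_smul_smul]⟩
        left_inv := fun x => Subtype.ext (inv_smul_smul g (x : X))
        right_inv := fun y => Subtype.ext (smul_inv_smul g (y : X)) }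
    have he : ∀ x, ((e x : {x : X // p x = g • b}) : X) = g • (x : X) := fun x => rfl
    have he' : ∀ y, ((e.symm y : {x : X // p x = b}) : X) = g⁻¹ • (y : X) := fun x => rfl
    let π : Equiv.Perm {x : X // p x = b} := e.trans (π'.trans e.symm)
    have hπe : ∀ x, ((π x : {x : X // p x = b}) : X) = g⁻¹ • (π' (e x) : X) := fun x => rfl
    have hπ : FibSym G RX p b π := by
      refine ⟨fun x y => ?_, fun x => ?_⟩
      · rw [hπe, hπe]
        have h1 := hπ'.1 (e x) (e y)
        have h2 : RX (g⁻¹ • (π' (e x) : X)) (g⁻¹ • (π' (e y) : X)) ↔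
          RX (π' (e x)) (π' (e y)) := iff_of_eq (hRX g⁻¹ _ _)
        have h3 : RX (g • (x : X)) (g • (y : X)) ↔ RX x y := iff_of_eq (hRX g _ _)
        rw [h2, h1, he, he, h3]
      · obtain ⟨k, hk⟩ := hπ'.2 (e x)
        refine ⟨g⁻¹ * k * g, ?_⟩
        rw [hπe, ← hk, he, mul_smul, mul_smul]
    have hfπ : ∀ x : {x : X // p x = b}, f (π x) = f x := by
      intro x
      have h1 := hf (π x) (π x).2
      have h2 := hf x x.2
      rw [← h1, ← h2]
      have h3 : g • ((π x : {x : X // p x = b}) : X) = π' (e x) := by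
        rw [hπe, smul_inv_smul]
      rw [h3, ← he]
      exact hf' (e x)
    obtain ⟨k, hkw, hk⟩ := hP π hπ hfπ (e.symm x')
    refine ⟨g * k * g⁻¹, ?_, ?_⟩
    · rw [mul_smul, mul_smul, inv_smul_smul, hkw]
    · rw [mul_smul, mul_smul, ← he', hk, hπe, smul_inv_smul, Equiv.apply_symm_apply]

/-- Rule S: an invariant fibration whose fibres carry a relation with fewer than `2 ^ K` symmetries. -/
theorem Nice.perm {K : ℕ} {E : Type} [Finite X] [MulAction G E] {R : E → E → Prop}
    (hR : Nice G K R) (RX : X → X → Prop) (hRX : Inv G RX) (p : X → B)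
    (hp : ∀ (g : G) x, p (g • x) = g • p x) (i : B → E) (hi : Emb G i)
    (hcard : ∀ b : B, Nat.card {π // FibSym G RX p b π} < 2 ^ K) :
    Nice G K (RSum RX (fun x e => e = i (p x)) R) := by
  classical
  refine hR.extend hRX ?_ ?_
  · intro g x e
    simp only [hp, hi.map, smul_left_cancel_iff]
  · intro W _
    obtain ⟨κ, hκ, hP⟩ := exists_kappa_perm (G := G) (W := W) RX hRX p hp hcard
    refine ⟨κ, hκ, ?_⟩
    intro Ω _ Γ j j0 k hj hj0 hk hPR hA hPκ hg h hh x w
    obtain ⟨g, hg1, hg2⟩ := hg h hh (i (p x)) w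
    obtain ⟨h', hh', he⟩ := Γ.smul_mem g⁻¹ hh
    have hb : h' (j0 (i (p x))) = j0 (i (p x)) := by
      rw [he, hg1, hj0.map, inv_smul_smul]
    have hw : h' (k w) = k w := by
      rw [he, hg2, hk.map, inv_smul_smul]
    obtain ⟨τ, hτ, hjτ, hτo⟩ := Γ.exists_fun hj hh'
    have hfib : ∀ y, p y = p x → p (τ y) = p x := by
      intro y hy
      have h1 : (i (p x) = i (p (τ y))) = (i (p x) = i (p y)) :=
        hA h' hh' y (i (p x)) (τ y) (i (p x)) (hjτ y) hb
      have h2 : i (p x) = i (p (τ y)) := h1.mpr (by rw [hy])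
      exact (hi.inj h2).symm
    let π0 : {y : X // p y = p x} → {y : X // p y = p x} := fun y => ⟨τ y, hfib y y.2⟩
    have hπ0 : Function.Bijective π0 := Finite.injective_iff_bijective.1 (fun y z hyz =>
      Subtype.ext (hτ (congrArg Subtype.val hyz)))
    let π : Equiv.Perm {y : X // p y = p x} := Equiv.ofBijective π0 hπ0
    have hπv : ∀ y, ((π y : {y : X // p y = p x}) : X) = τ y := fun y => rfl
    have hπ : FibSym G RX p (p x) π := by
      refine ⟨fun y z => ?_, fun y => ?_⟩
      · rw [hπv, hπv]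
        exact iff_of_eq (hPR h' hh' y z (τ y) (τ z) (hjτ y) (hjτ z))
      · rw [hπv]; exact hτo y
    have hκπ : ∀ y : {y : X // p y = p x}, κ (π y) w = κ y w := by
      intro y
      rw [hπv]
      exact hPκ h' hh' y w (τ y) w (hjτ y) hw
    obtain ⟨g', hg'w, hg'x⟩ := hP (p x) w π hπ hκπ ⟨x, rfl⟩
    have hg'x : g' • x = τ x := hg'x
    refine ⟨g * g', ?_, ?_⟩
    · have h1 : h (j x) = g • h' (j x) := by rw [he, smul_inv_smul]
      rw [h1, hjτ, ← hg'x, ← hj.map, mul_smul]
    · have h1 : h (k w) = g • h' (k w) := by rw [he, smul_inv_smul]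
      rw [h1, hw, ← hk.map, mul_smul, hg'w]

end

end Pool.Agent.Helper903_VG
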