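import Pool.Agent.Helper903_VG.PermRule
import Pool.Agent.Helper903_VG.HypFib
import Pool.Agent.Helper903_VG.FCount

/-!
The steps of the recursion which use the rule for fibres with few symmetries.
-/

set_option autoImplicit false

namespace Pool.Agent.Helper903_VG

variable {G : Type} [Group G]

/-- The incidence relation on a disjoint union. -/
def RInc {U O : Type} (I : U → O → Prop) : U ⊕ O → U ⊕ O → Prop
  | Sum.inl u, Sum.inr o => I u o
  | Sum.inl _, Sum.inl _ => False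
  | Sum.inr _, _ => False

section

variable {U B O : Type} [MulAction G U] [MulAction G B] [MulAction G O]

set_option linter.unusedSectionVars false

theorem RInc_inv {I : U → O → Prop} (hI : ∀ (g : G) u o, I (g • u) (g • o) ↔ I u o) :
    Inv G (RInc I) := by
  rintro g (x | x) (y | y)
  · rfl
  · exact propext (hI g x y)
  · rfl
  · rfl

theorem HasE.perm {K : ℕ} [Finite U] [Finite O] {m : ℝ} (h : HasE G K B m) (p : U → B)
    (hp : ∀ (g : G) u, p (g • u) = g • p u) (hps : Function.Surjective p) (q : O → B)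
    (hq : ∀ (g : G) o, q (g • o) = g • q o) (I : U → O → Prop)
    (hI : ∀ (g : G) u o, I (g • u) (g • o) ↔ I u o)
    (hext : ∀ o o', (∀ u, I u o ↔ I u o') → o = o')
    (hcard : ∀ b : B, Nat.card {π // FibSym G (RInc I) (Sum.elim p q) b π} < 2 ^ K) :
    HasE G K U (m + Nat.card U + Nat.card O) := by
  obtain ⟨E, fE, aE, R, v, hN, hv, hD, hm⟩ := h
  have hpq : ∀ (g : G) (x : U ⊕ O), Sum.elim p q (g • x) = g • Sum.elim p q x := by
    rintro g (x | x)
    · exact hp g x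
    · exact hq g x
  refine ⟨(U ⊕ O) ⊕ E, inferInstance, inferInstance, _, Sum.inl ∘ Sum.inl,
    hN.perm (RInc I) (RInc_inv hI) (Sum.elim p q) hpq v hv hcard, ?_, ?_, ?_⟩
  · exact inl_emb.comp inl_emb
  · refine hD.extend ?_
    intro σ1 σ2 hR hA ho1 _ hfix
    have h1 : ∀ u : U, σ1 (Sum.inl u) = Sum.inl u := fun u => Sum.inl_injective (hfix u)
    have h2 : ∀ o : O, σ1 (Sum.inr o) = Sum.inr o := by
      intro o
      obtain ⟨g, hg⟩ := ho1 (Sum.inr o)
      have hg' : σ1 (Sum.inr o) = Sum.inr (g • o) := hg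
      rw [hg']
      congr 1
      apply hext
      intro u
      have := hR (Sum.inl u) (Sum.inr o)
      rw [h1, hg'] at this
      exact this
    refine ⟨?_, ?_⟩
    · rintro (x | x)
      · exact h1 x
      · exact h2 x
    · intro b
      obtain ⟨u, rfl⟩ := hps b
      have := (hA (Sum.inl u) (v (p u))).2 rfl
      rw [h1] at this
      exact this
  · rw [Nat.card_sum, Nat.card_sum]
    push_cast
    linarith

/-- A symmetry maps points to points. -/
theorem FibSym.inl {p : U → B} {q : O → B} {I : U → O → Prop} {b : B}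
    {π : Equiv.Perm {x : U ⊕ O // Sum.elim p q x = b}}
    (hπ : FibSym G (RInc I) (Sum.elim p q) b π) (u : {u : U // p u = b}) :
    ∃ u' : {u : U // p u = b}, π ⟨Sum.inl u.1, u.2⟩ = ⟨Sum.inl u'.1, u'.2⟩ := by
  obtain ⟨g, hg⟩ := hπ.2 ⟨Sum.inl u.1, u.2⟩
  have h1 := (π ⟨Sum.inl u.1, u.2⟩).2
  rw [← hg] at h1
  exact ⟨⟨g • u.1, h1⟩, Subtype.ext hg.symm⟩

/-- A symmetry maps blocks to blocks. -/
theorem FibSym.inr {p : U → B} {q : O → B} {I : U → O → Prop} {b : B}
    {π : Equiv.Perm {x : U ⊕ O // Sum.elim p q x = b}}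
    (hπ : FibSym G (RInc I) (Sum.elim p q) b π) (o : {o : O // q o = b}) :
    ∃ o' : {o : O // q o = b}, π ⟨Sum.inr o.1, o.2⟩ = ⟨Sum.inr o'.1, o'.2⟩ := by
  obtain ⟨g, hg⟩ := hπ.2 ⟨Sum.inr o.1, o.2⟩
  have h1 := (π ⟨Sum.inr o.1, o.2⟩).2
  rw [← hg] at h1
  exact ⟨⟨g • o.1, h1⟩, Subtype.ext hg.symm⟩

theorem FibSym.inr_surj {p : U → B} {q : O → B} {I : U → O → Prop} {b : B}
    {π : Equiv.Perm {x : U ⊕ O // Sum.elim p q x = b}}
    (hπ : FibSym G (RInc I) (Sum.elim p q) b π) (o : {o : O // q o = b}) :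
    ∃ o' : {o : O // q o = b}, π ⟨Sum.inr o'.1, o'.2⟩ = ⟨Sum.inr o.1, o.2⟩ := by
  have hπ' : FibSym G (RInc I) (Sum.elim p q) b π⁻¹ :=
    (fibSym G (RInc I) (Sum.elim p q) b).inv_mem hπ
  obtain ⟨o', ho'⟩ := hπ'.inr o
  refine ⟨o', ?_⟩
  rw [← ho', perm_apply_inv]

/-- The number of symmetries when the points are determined by a small number of blocks. -/
theorem card_fibSym_small [Finite U] [Finite O] {p : U → B} {q : O → B} {I : U → O → Prop} {b : B} {s : ℕ}
    (hs : Nat.card {o : O // q o = b} ≤ s)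
    (hsep : ∀ u u', p u = b → p u' = b → (∀ o, q o = b → (I u o ↔ I u' o)) → u = u') :
    Nat.card {π // FibSym G (RInc I) (Sum.elim p q) b π} ≤ s ^ s := by
  classical
  choose f hf using fun π : {π // FibSym G (RInc I) (Sum.elim p q) b π} => π.2.inr
  have hinj : Function.Injective f := by
    intro π π' h
    apply Subtype.ext
    apply Equiv.ext
    rintro ⟨x | x, hx⟩
    · obtain ⟨u1, hu1⟩ := π.2.inl ⟨x, hx⟩
      obtain ⟨u2, hu2⟩ := π'.2.inl ⟨x, hx⟩
      have : u1.1 = u2.1 := by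
        apply hsep _ _ u1.2 u2.2
        intro o ho
        obtain ⟨o', ho'⟩ := π.2.inr_surj ⟨o, ho⟩
        have e1 := hf π o'
        have e2 := hf π' o'
        rw [ho'] at e1
        rw [← h, ← e1] at e2
        have h1 := π.2.1 ⟨Sum.inl x, hx⟩ ⟨Sum.inr o'.1, o'.2⟩
        have h2 := π'.2.1 ⟨Sum.inl x, hx⟩ ⟨Sum.inr o'.1, o'.2⟩
        rw [hu1, ho'] at h1
        rw [hu2, e2] at h2
        exact h1.trans h2.symm
      rw [hu1, hu2]
      exact Subtype.ext (congrArg Sum.inl this)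
    · have e1 := hf π ⟨x, hx⟩
      have e2 := hf π' ⟨x, hx⟩
      rw [e1, e2, h]
  calc Nat.card {π // FibSym G (RInc I) (Sum.elim p q) b π}
      ≤ Nat.card ({o : O // q o = b} → {o : O // q o = b}) :=
        Nat.card_le_card_of_injective f hinj
    _ = Nat.card {o : O // q o = b} ^ Nat.card {o : O // q o = b} := Nat.card_fun
    _ ≤ s ^ s := by
        rcases Nat.eq_zero_or_pos s with h0 | h0
        · subst h0
          have : Nat.card {o : O // q o = b} = 0 := by omega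
          rw [this]
        · exact (Nat.pow_le_pow_left hs _).trans (Nat.pow_le_pow_right h0 hs)

end

section

variable {U B : Type} [MulAction G U] [MulAction G B] {r : ℕ}

theorem isHyp_of_hyp (F : AffFib G U B 2) (o : Hyp F) :
    @IsHyp (F.N o.δ.b) {u : U // F.p u = o.δ.b} _ (fibAct F o.δ.b) {y | y.1 ∈ o.O} := by
  let _ := fibAct F o.δ.b
  obtain ⟨u, hu⟩ := o.nonempty
  refine ⟨o.δ.S.subgroupOf (F.N o.δ.b), ?_, o.δ.idx, ⟨u, Hyp.p_of_mem hu⟩, ?_⟩
  · rintro ⟨a, ha⟩ h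
    rw [Subgroup.mem_subgroupOf]
    exact o.δ.ker a ha (fun v hv => congrArg Subtype.val (h ⟨v, hv⟩))
  · ext y
    rw [Set.mem_ofPred_eq, Hyp.eq_orbit hu]
    constructor
    · rintro ⟨s, hs, h⟩
      exact ⟨⟨s, o.δ.le hs⟩, hs, Subtype.ext h⟩
    · rintro ⟨s, hs, h⟩
      exact ⟨s.1, hs, congrArg Subtype.val h⟩

theorem hyp_of_isHyp (F : AffFib G U B 2) (b : B) (O : Set {u : U // F.p u = b})
    (hO : @IsHyp (F.N b) {u : U // F.p u = b} _ (fibAct F b) O) :
    ∃ o : Hyp F, o.δ.b = b ∧ ∀ y, y ∈ O ↔ y.1 ∈ o.O := by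
  let _ := fibAct F b
  obtain ⟨S, hS, hidx, ⟨y0, hy0⟩, rfl⟩ := hO
  let δ : Dir F := ⟨b, S.map (F.N b).subtype, by
      rintro _ ⟨s, hs, rfl⟩
      exact s.2, by
      intro a ha h
      refine ⟨⟨a, ha⟩, hS ⟨a, ha⟩ ?_, rfl⟩
      rintro ⟨y, hy⟩
      exact Subtype.ext (h y hy), by
      rw [Subgroup.relIndex, Subgroup.subgroupOf, Subgroup.comap_map_eq_self_of_injective
        (Subgroup.subtype_injective _)]
      exact hidx⟩
  refine ⟨Hyp.through δ y0 hy0, rfl, ?_⟩
  intro y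
  constructor
  · rintro ⟨s, hs, h⟩
    exact ⟨s.1, ⟨s, hs, rfl⟩, congrArg Subtype.val h⟩
  · rintro ⟨_, ⟨s, hs, rfl⟩, h⟩
    exact ⟨s, hs, Subtype.ext h⟩

theorem card_fibSym_hyp [Finite G] [Finite U] [Finite B] (F : AffFib G U B 2) (b : B) :
    Nat.card {π // FibSym G (RInc (fun u (o : Hyp F) => u ∈ o.O)) (Sum.elim F.p (fun o => o.δ.b)) b π} ≤
      Nat.card {u : U // F.p u = b} ^ (Nat.log 2 (Nat.card {u : U // F.p u = b}) + 1) := by
  classical
  let _ := fibAct F b
  have : Nonempty {u : U // F.p u = b} := by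
    obtain ⟨u, hu⟩ := F.surj b
    exact ⟨⟨u, hu⟩⟩
  refine le_trans ?_ (f_count (elemAct F b))
  choose f hf using fun π : {π // FibSym G (RInc (fun u (o : Hyp F) => u ∈ o.O))
    (Sum.elim F.p (fun o => o.δ.b)) b π} => π.2.inl
  have hfb : ∀ π, Function.Bijective (f π) := by
    intro π
    refine Finite.injective_iff_bijective.1 ?_
    intro u u' h
    have h1 := hf π u
    rw [h, ← hf π u'] at h1
    have h2 := π.1.injective h1
    have h3 := Subtype.mk.inj h2
    exact Subtype.ext (Sum.inl_injective h3)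
  let τ : {π // FibSym G (RInc (fun u (o : Hyp F) => u ∈ o.O))
    (Sum.elim F.p (fun o => o.δ.b)) b π} → Equiv.Perm {u : U // F.p u = b} :=
    fun π => Equiv.ofBijective (f π) (hfb π)
  have hτ : ∀ π u, τ π u = f π u := fun _ _ => rfl
  refine Nat.card_le_card_of_injective (fun π => ⟨τ π, ?_⟩) ?_
  · intro O hO
    obtain ⟨o, ho, hoO⟩ := hyp_of_isHyp F b O hO
    obtain ⟨⟨o', ho'⟩, h'⟩ := π.2.inr ⟨o, ho⟩
    subst ho'
    have hkey : (τ π) '' O = {y | y.1 ∈ o'.O} := by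
      ext z
      obtain ⟨y, rfl⟩ := (τ π).surjective z
      rw [(τ π).injective.mem_set_image, hoO, Set.mem_ofPred_eq, hτ]
      have h1 := π.2.1 ⟨Sum.inl y.1, y.2⟩ ⟨Sum.inr o, ho⟩
      rw [hf π y, h'] at h1
      exact h1.symm
    rw [hkey]
    exact isHyp_of_hyp F o'
  · intro π π' h
    have hff : ∀ u, f π u = f π' u := by
      intro u
      have h1 := Subtype.mk.inj h
      rw [← hτ, ← hτ, h1]
    apply Subtype.ext
    apply Equiv.ext
    rintro ⟨x | x, hx⟩
    · have e1 := hf π ⟨x, hx⟩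
      have e2 := hf π' ⟨x, hx⟩
      rw [e1, e2, hff]
    · obtain ⟨o1, h1⟩ := π.2.inr ⟨x, hx⟩
      obtain ⟨o2, h2⟩ := π'.2.inr ⟨x, hx⟩
      rw [h1, h2]
      apply Subtype.ext
      show (Sum.inr o1.1 : U ⊕ Hyp F) = Sum.inr o2.1
      congr 1
      apply Hyp.eq_of_O
      ext z
      have key : ∀ y : {u : U // F.p u = b}, (f π y).1 ∈ o1.1.O ↔ (f π y).1 ∈ o2.1.O := by
        intro y
        have k1 := π.2.1 ⟨Sum.inl y.1, y.2⟩ ⟨Sum.inr x, hx⟩
        have k2 := π'.2.1 ⟨Sum.inl y.1, y.2⟩ ⟨Sum.inr x, hx⟩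
        rw [hf π y, h1] at k1
        rw [hf π' y, h2, ← hff] at k2
        exact k1.trans k2.symm
      constructor
      · intro hz
        have hzb : F.p z = b := (Hyp.p_of_mem hz).trans o1.2
        obtain ⟨y, hy⟩ := (hfb π).2 ⟨z, hzb⟩
        have := key y
        rw [hy] at this
        exact this.1 hz
      · intro hz
        have hzb : F.p z = b := (Hyp.p_of_mem hz).trans o2.2
        obtain ⟨y, hy⟩ := (hfb π).2 ⟨z, hzb⟩
        have := key y
        rw [hy] at this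
        exact this.2 hz

end

end Pool.Agent.Helper903_VG
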