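import Pool.Agent.Helper903_VG.Basic

/-!
The extension rules: small fibres (`Nice.small`) and injective transforms (`Nice.inj`), and the basic
facts on `HasE`.
-/

set_option autoImplicit false

namespace Pool.Agent.Helper903_VG

variable {G : Type} [Group G]

/-- Rule R1: an invariant fibration whose fibres meet every orbit in at most `K` points. -/
theorem Nice.small {K : ℕ} (hK : 0 < K) {X E B : Type} [Finite X] [MulAction G X] [MulAction G E]
    [MulAction G B] {R : E → E → Prop} (hR : Nice G K R) (p : X → B)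
    (hp : ∀ (g : G) x, p (g • x) = g • p x) (i : B → E) (hi : Emb G i)
    (hcard : ∀ (b : B) (x : X), Nat.card {y : X // p y = b ∧ ∃ g : G, g • x = y} ≤ K) :
    Nice G K (RSum (fun _ _ => False) (fun x e => e = i (p x)) R) := by
  refine hR.extend (fun _ _ _ => rfl) ?_ ?_
  · intro g x e
    simp only [hp, hi.map, smul_left_cancel_iff]
  · intro W _
    obtain ⟨κ, hκ, h⟩ := exists_kappa_small (G := G) (W := W) hK p hp hcard
    refine ⟨κ, hκ, ?_⟩
    intro Ω _ Γ j j0 k hj hj0 hk _ hA hP hg h' hh' x w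
    obtain ⟨g, hg1, hg2⟩ := hg h' hh' (i (p x)) w
    obtain ⟨g1, hg1'⟩ := Γ.exists_eq hj hh' x
    have e1 : g • i (p x) = i (p (g1 • x)) :=
      (hA h' hh' x (i (p x)) (g1 • x) (g • i (p x)) hg1' hg1).mpr rfl
    have e2 : p (g1 • x) = p (g • x) := by
      rw [hp g]; exact (hi.inj (by rw [← e1, hi.map])).symm
    have e3 : κ (g1 • x) (g • w) = κ (g • x) (g • w) := by
      rw [hP h' hh' x w (g1 • x) (g • w) hg1' hg2, hκ]
    obtain ⟨g2, hg2a, hg2b⟩ := h (g • w) (g • x) (g1 • x) e2.symm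
      ⟨g1 * g⁻¹, by rw [mul_smul, inv_smul_smul]⟩ e3.symm
    refine ⟨g2 * g, ?_, ?_⟩
    · rw [mul_smul, hg2a, hg1']
    · rw [mul_smul, hg2b, hg2]

/-- Rule R3: an invariant incidence relation with injective transform. -/
theorem Nice.inj {K : ℕ} (hK : 0 < K) {U E : Type} [Finite U] [MulAction G U] [MulAction G E]
    {R : E → E → Prop} (hR : Nice G K R) (A : U → E → Prop) (hA : Inv G A)
    (hinj : ∀ f : U → ℂ, (∀ e, ∑ᶠ u : {u : U // A u e}, f u = 0) → ∀ u, f u = 0) :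
    Nice G K (RSum (fun _ _ => False) A R) := by
  classical
  have hinj' : ∀ f1 f2 : U → ℂ, (∀ e, ∑ᶠ u : {u : U // A u e}, f1 u =
      ∑ᶠ u : {u : U // A u e}, f2 u) → ∀ u, f1 u = f2 u := by
    intro f1 f2 hf u
    have := hinj (fun u => f1 u - f2 u) (fun e => by
      rw [finsum_sub_distrib (Set.toFinite _) (Set.toFinite _), hf e, sub_self]) u
    exact sub_eq_zero.1 this
  refine hR.extend (fun _ _ _ => rfl) hA ?_
  intro W _
  refine ⟨fun _ _ => ⟨0, hK⟩, fun _ _ _ => rfl, ?_⟩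
  intro Ω _ Γ j j0 k hj hj0 hk _ hPA _ hg h hh u0 w0
  obtain ⟨τ, hτ, hjτ, -⟩ := Γ.exists_fun hj hh
  have hτb : Function.Bijective τ := Finite.injective_iff_bijective.1 hτ
  obtain ⟨g0, hg0⟩ := Γ.exists_eq hk hh w0
  let f0 : U → ℂ := fun u => if ∃ g : G, g • u0 = u ∧ g • w0 = w0 then 1 else 0
  let f1 : U → ℂ := fun u => if ∃ g : G, g • u0 = u ∧ g • w0 = g0 • w0 then 1 else 0
  have key : ∀ u, f0 u = f1 (τ u) := by
    apply hinj'
    intro e
    obtain ⟨g, hge, hgw⟩ := hg h hh e w0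
    have hw : g • w0 = g0 • w0 := hk.inj (by rw [← hgw, hg0])
    have h1 : ∀ u, A (τ u) (g • e) ↔ A u e := fun u =>
      iff_of_eq (hPA h hh u e (τ u) (g • e) (hjτ u) hge)
    have h2 : ∀ u, A (g • u) (g • e) ↔ A u e := fun u => iff_of_eq (hA g u e)
    have e1 : {u : U // A u e} ≃ {u : U // A u (g • e)} :=
      (Equiv.ofBijective τ hτb).subtypeEquiv (fun u => (h1 u).symm)
    have s1 : ∑ᶠ u : {u : U // A u e}, f1 (τ u) = ∑ᶠ u : {u : U // A u (g • e)}, f1 u :=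
      finsum_comp_equiv ((Equiv.ofBijective τ hτb).subtypeEquiv (fun u => (h1 u).symm))
        (f := fun u : {u : U // A u (g • e)} => f1 u)
    have s2 : ∑ᶠ u : {u : U // A u e}, f1 (g • (u : U)) = ∑ᶠ u : {u : U // A u (g • e)}, f1 u :=
      finsum_comp_equiv ((MulAction.toPerm g).subtypeEquiv (fun u => (h2 u).symm))
        (f := fun u : {u : U // A u (g • e)} => f1 u)
    rw [s1, ← s2]
    have s3 : ∀ u : U, f0 u = f1 (g • u) := by
      intro u
      have : (∃ g' : G, g' • u0 = u ∧ g' • w0 = w0) ↔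
          ∃ g' : G, g' • u0 = g • u ∧ g' • w0 = g0 • w0 := by
        constructor
        · rintro ⟨g', h1, h2⟩
          exact ⟨g * g', by rw [mul_smul, h1], by rw [mul_smul, h2, hw]⟩
        · rintro ⟨g', h1, h2⟩
          exact ⟨g⁻¹ * g', by rw [mul_smul, h1, inv_smul_smul],
            by rw [mul_smul, h2, ← hw, inv_smul_smul]⟩
      simp only [f0, f1, this]
    exact finsum_congr (fun u => s3 u)
  have h0 : f0 u0 = 1 := if_pos ⟨1, one_smul _ _, one_smul _ _⟩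
  have h1 : f1 (τ u0) = 1 := by rw [← key, h0]
  have h2 : ∃ g : G, g • u0 = τ u0 ∧ g • w0 = g0 • w0 := by
    by_contra hcon
    have : f1 (τ u0) = 0 := if_neg hcon
    rw [this] at h1
    exact zero_ne_one h1
  obtain ⟨g, hg1, hg2⟩ := h2
  exact ⟨g, by rw [hg1, hjτ], by rw [hg2, hg0]⟩

theorem split_fun {X E : Type} [MulAction G X] [MulAction G E] {σ : X ⊕ E → X ⊕ E}
    (hσ : ∀ x, ∃ g : G, σ x = g • x) :
    ∃ (σ1 : X → X) (σ2 : E → E), σ = Sum.map σ1 σ2 ∧ (∀ x, ∃ g : G, σ1 x = g • x) ∧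
      ∀ e, ∃ g : G, σ2 e = g • e := by
  choose g hg using hσ
  refine ⟨fun x => g (Sum.inl x) • x, fun e => g (Sum.inr e) • e, ?_, fun x => ⟨_, rfl⟩,
    fun x => ⟨_, rfl⟩⟩
  funext x
  rcases x with x | x
  · rw [hg]; rfl
  · rw [hg]; rfl

theorem Det.extend {V V0 X E : Type} [MulAction G X] [MulAction G E] {RX : X → X → Prop}
    {A : X → E → Prop} {R : E → E → Prop} {v : V → X ⊕ E} {v0 : V0 → E} (h0 : Det G R v0)
    (h : ∀ (σ1 : X → X) (σ2 : E → E), (∀ x y, RX (σ1 x) (σ1 y) ↔ RX x y) →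
      (∀ x e, A (σ1 x) (σ2 e) ↔ A x e) → (∀ x, ∃ g : G, σ1 x = g • x) →
      (∀ e, ∃ g : G, σ2 e = g • e) → (∀ u, Sum.map σ1 σ2 (v u) = v u) →
      (∀ x, σ1 x = x) ∧ ∀ u, σ2 (v0 u) = v0 u) :
    Det G (RSum RX A R) v := by
  intro σ hσR hσ hv
  obtain ⟨σ1, σ2, rfl, h1, h2⟩ := split_fun hσ
  obtain ⟨h3, h4⟩ := h σ1 σ2 (fun x y => hσR (Sum.inl x) (Sum.inl y))
    (fun x y => hσR (Sum.inl x) (Sum.inr y)) h1 h2 hv
  have h5 := h0 σ2 (fun x y => hσR (Sum.inr x) (Sum.inr y)) h2 h4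
  rintro (x | x)
  · exact congrArg Sum.inl (h3 x)
  · exact congrArg Sum.inr (h5 x)

theorem HasE.mono {K : ℕ} {V : Type} [MulAction G V] {m m' : ℝ} (h : HasE G K V m) (hm : m ≤ m') :
    HasE G K V m' := by
  obtain ⟨E, h1, h2, R, v, h3, h4, h5, h6⟩ := h
  exact ⟨E, h1, h2, R, v, h3, h4, h5, h6.trans hm⟩

theorem HasE.of_emb {K : ℕ} {V V' : Type} [MulAction G V] [MulAction G V'] {m : ℝ}
    (h : HasE G K V' m) (f : V → V') (hf : Emb G f) (hs : Function.Surjective f) :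
    HasE G K V m := by
  obtain ⟨E, h1, h2, R, v, h3, h4, h5, h6⟩ := h
  refine ⟨E, h1, h2, R, v ∘ f, h3, h4.comp hf, ?_, h6⟩
  intro σ hσ hσ2 hv
  refine h5 σ hσ hσ2 ?_
  intro u
  obtain ⟨u, rfl⟩ := hs u
  exact hv u

theorem HasE.sum {K : ℕ} {V1 V2 : Type} [MulAction G V1] [MulAction G V2] {m1 m2 : ℝ}
    (h1 : HasE G K V1 m1) (h2 : HasE G K V2 m2) : HasE G K (V1 ⊕ V2) (m1 + m2) := by
  obtain ⟨E1, f1, a1, R1, v1, n1, i1, d1, c1⟩ := h1
  obtain ⟨E2, f2, a2, R2, v2, n2, i2, d2, c2⟩ := h2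
  refine ⟨E1 ⊕ E2, inferInstance, inferInstance, _, Sum.map v1 v2, n1.sum n2, ?_, ?_, ?_⟩
  · refine ⟨Sum.map_injective.2 ⟨i1.inj, i2.inj⟩, ?_⟩
    rintro g (x | x)
    · exact congrArg Sum.inl (i1.map g x)
    · exact congrArg Sum.inr (i2.map g x)
  · refine d2.extend ?_
    intro σ1 σ2 hR _ ho1 ho2 hv
    refine ⟨d1 σ1 hR ho1 ?_, ?_⟩
    · intro u
      have := hv (Sum.inl u)
      exact Sum.inl_injective this
    · intro u
      have := hv (Sum.inr u)
      exact Sum.inr_injective this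
  · rw [Nat.card_sum]
    push_cast
    linarith

/-- A set of fixed points. -/
theorem HasE.fixed {K : ℕ} (hK : 0 < K) {V : Type} [Finite V] [MulAction G V]
    (hV : ∀ (g : G) (x : V), g • x = x) : HasE G K V (Nat.card V) := by
  refine ⟨V, inferInstance, inferInstance, fun _ _ => False, id, ⟨fun _ _ _ => rfl, ?_⟩,
    ⟨Function.injective_id, fun _ _ => rfl⟩, fun σ _ _ h => h, le_refl _⟩
  intro W _
  refine ⟨fun _ _ => ⟨0, hK⟩, fun _ _ _ => rfl, ?_⟩
  intro Ω _ Γ j k hj hk _ _ h hh x w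
  obtain ⟨g, hg⟩ := Γ.exists_eq hj hh x
  obtain ⟨g', hg'⟩ := Γ.exists_eq hk hh w
  exact ⟨g', by rw [hg, hV, hV], hg'⟩

end Pool.Agent.Helper903_VG
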