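import Pool.Agent.Helper903_VG.PaleyNice
import Pool.Agent.Helper903_VG.HypFib

/-!
The steps of the recursion, for `HasE`.
-/

set_option autoImplicit false

namespace Pool.Agent.Helper903_VG

variable {G : Type} [Group G]

theorem HasE.small {K : ℕ} (hK : 0 < K) {V' V0 D X : Type} [Finite X] [MulAction G V']
    [MulAction G V0] [MulAction G D] [MulAction G X] {m : ℝ} (h : HasE G K V0 m) (i : D → V0)
    (hi : Emb G i) (p : X → D) (hp : ∀ (g : G) x, p (g • x) = g • p x)
    (hcard : ∀ (b : D) (x : X), Nat.card {y : X // p y = b ∧ ∃ g : G, g • x = y} ≤ K)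
    (f : V' → X ⊕ V0) (hf : Emb G f) (hf1 : ∀ x, ∃ v', f v' = Sum.inl x)
    (hf2 : ∀ v, (∃ v', f v' = Sum.inr v) ∨ ∃ x, v = i (p x)) :
    HasE G K V' (m + Nat.card X) := by
  obtain ⟨E, fE, aE, R, v, hN, hv, hD, hm⟩ := h
  refine ⟨X ⊕ E, inferInstance, inferInstance, _, Sum.map id v ∘ f,
    hN.small hK p hp (v ∘ i) (hv.comp hi) hcard, ?_, ?_, ?_⟩
  · refine Emb.comp ?_ hf
    refine ⟨Sum.map_injective.2 ⟨Function.injective_id, hv.inj⟩, ?_⟩
    rintro g (x | x)
    · rfl
    · exact congrArg Sum.inr (hv.map g x)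
  · refine hD.extend ?_
    intro σ1 σ2 _ hA _ _ hfix
    have h1 : ∀ x, σ1 x = x := by
      intro x
      obtain ⟨v', hv'⟩ := hf1 x
      have := hfix v'
      simp only [Function.comp, hv'] at this
      exact Sum.inl_injective this
    refine ⟨h1, fun u => ?_⟩
    rcases hf2 u with ⟨v', hv'⟩ | ⟨x, rfl⟩
    · have := hfix v'
      simp only [Function.comp, hv'] at this
      exact Sum.inr_injective this
    · have := (hA x ((v ∘ i) (p x))).2 rfl
      rw [h1] at this
      exact this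
  · rw [Nat.card_sum]
    push_cast
    linarith

theorem card_le_of_fibre {X Y : Type} [Finite X] [Finite Y] (p : X → Y) (n : ℕ)
    (h : ∀ y, Nat.card {x // p x = y} ≤ n) : Nat.card X ≤ n * Nat.card Y := by
  classical
  have := Fintype.ofFinite Y
  rw [← Nat.card_congr (Equiv.sigmaFiberEquiv p), Nat.card_sigma]
  calc ∑ y, Nat.card {x // p x = y} ≤ ∑ _y : Y, n := Finset.sum_le_sum fun y _ => h y
    _ = n * Nat.card Y := by
      rw [Finset.sum_const, Finset.card_univ, Nat.card_eq_fintype_card, smul_eq_mul, mul_comm]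

theorem HasE.paley {K : ℕ} (hK : 3 ≤ K) {V' V0 D X : Type} [Finite X] [MulAction G V']
    [MulAction G V0] [MulAction G D] [MulAction G X] {m : ℝ} (h : HasE G K V0 m) (i : D → V0)
    (hi : Emb G i) {r : ℕ} (F : AffFib G X D r) (hr : r.Prime) (hr2 : r ≠ 2)
    (hF : ∀ b, Nat.card {u : X // F.p u = b} = r)
    (f : V' → X ⊕ V0) (hf : Emb G f) (hf1 : ∀ x, ∃ v', f v' = Sum.inl x)
    (hf2 : ∀ v, (∃ v', f v' = Sum.inr v) ∨ ∃ x, v = i (F.p x)) :
    HasE G K V' (m + 3 * Nat.card X) := by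
  obtain ⟨E, fE, aE, R, v, hN, hv, hD, hm⟩ := h
  refine ⟨(V2 F ⊕ X) ⊕ E, inferInstance, inferInstance, _,
    Sum.map (Sum.inr : X → V2 F ⊕ X) v ∘ f,
    hN.paley hK F hr hr2 hF (v ∘ i) (hv.comp hi), ?_, ?_, ?_⟩
  · refine Emb.comp ?_ hf
    refine ⟨Sum.map_injective.2 ⟨Sum.inr_injective, hv.inj⟩, ?_⟩
    rintro g (x | x)
    · rfl
    · exact congrArg Sum.inr (hv.map g x)
  · refine hD.extend ?_
    intro σ1 σ2 hR hA ho1 _ hfix
    have h1 : ∀ x : X, σ1 (Sum.inr x) = Sum.inr x := by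
      intro x
      obtain ⟨v', hv'⟩ := hf1 x
      have := hfix v'
      simp only [Function.comp, hv'] at this
      exact Sum.inl_injective this
    have h2 : ∀ o : V2 F, σ1 (Sum.inl o) = Sum.inl o := by
      intro o
      obtain ⟨g, hg⟩ := ho1 (Sum.inl o)
      have hg' : σ1 (Sum.inl o) = Sum.inl (g • o) := hg
      have e1 : o.x = (g • o).x := by
        have := (hR (Sum.inl o) (Sum.inr o.x)).2 rfl
        rw [hg', h1] at this
        exact this
      have e2 : ∀ z, z ∈ (g • o).O ↔ z ∈ o.O := by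
        intro z
        have := hR (Sum.inr z) (Sum.inl o)
        rw [hg', h1] at this
        exact this
      rw [hg']
      congr 1
      exact V2.ext e1.symm (Set.ext e2)
    refine ⟨?_, fun u => ?_⟩
    · rintro (x | x)
      · exact h2 x
      · exact h1 x
    rcases hf2 u with ⟨v', hv'⟩ | ⟨x, rfl⟩
    · have := hfix v'
      simp only [Function.comp, hv'] at this
      exact Sum.inr_injective this
    · have := (hA (Sum.inr x) ((v ∘ i) (F.p x))).2 rfl
      rw [h1] at this
      exact this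
  · have h2 : Nat.card (V2 F) ≤ 2 * Nat.card X :=
      card_le_of_fibre V2.x 2 (fun x => V2.card_fibre_le hr hr2 hF x)
    have h2' : (Nat.card (V2 F) : ℝ) ≤ 2 * Nat.card X := by exact_mod_cast h2
    rw [Nat.card_sum, Nat.card_sum]
    push_cast
    linarith

/-- The incidence relation used for the last step. -/
def AInc {U B E : Type} [MulAction G U] [MulAction G B] {r : ℕ} (F : AffFib G U B r)
    (v : B ⊕ Hyp F → E) (u : U) (e : E) : Prop :=
  e = v (Sum.inl (F.p u)) ∨ ∃ o : Hyp F, e = v (Sum.inr o) ∧ u ∈ o.O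

theorem HasE.hyp {K : ℕ} (hK : 0 < K) {U B : Type} [Finite U] [MulAction G U]
    [MulAction G B] {r : ℕ} (F : AffFib G U B r) (hr : r.Prime)
    (hnt : ∀ b, Nontrivial {u : U // F.p u = b}) {m : ℝ} (h : HasE G K (B ⊕ Hyp F) m) :
    HasE G K U (m + Nat.card U) := by
  obtain ⟨E, fE, aE, R, v, hN, hv, hD, hm⟩ := h
  have hAo : ∀ u o, AInc F v u (v (Sum.inr o)) ↔ u ∈ o.O := by
    intro u o
    constructor
    · rintro (h | ⟨o', h, hu⟩)
      · exact absurd (hv.inj h) (by simp)
      · have := Sum.inr_injective (hv.inj h)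
        rw [this]; exact hu
    · intro hu
      exact Or.inr ⟨o, rfl, hu⟩
  have hAb : ∀ u b, AInc F v u (v (Sum.inl b)) ↔ b = F.p u := by
    intro u b
    constructor
    · rintro (h | ⟨o', h, hu⟩)
      · exact Sum.inl_injective (hv.inj h)
      · exact absurd (hv.inj h) (by simp)
    · rintro rfl
      exact Or.inl rfl
  have hAinv : Inv G (AInc F v) := by
    intro g u e
    apply propext
    constructor
    · rintro (h | ⟨o, h, hu⟩)
      · left
        rw [F.map] at h
        have h1 := hv.map g (Sum.inl (F.p u))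
        have h2 : g • e = g • v (Sum.inl (F.p u)) := by rw [← h1]; exact h
        exact smul_left_cancel g h2
      · right
        refine ⟨g⁻¹ • o, ?_, ?_⟩
        · have h1 := hv.map g⁻¹ (Sum.inr o)
          have h2 : e = g⁻¹ • v (Sum.inr o) := by rw [← h, inv_smul_smul]
          rw [h2, ← h1]; rfl
        · rw [Hyp.mem_smul, inv_inv]; exact hu
    · rintro (h | ⟨o, h, hu⟩)
      · left
        rw [h, F.map, ← hv.map]; rfl
      · right
        refine ⟨g • o, ?_, ?_⟩
        · rw [h, ← hv.map]; rfl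
        · rw [Hyp.mem_smul, inv_smul_smul]; exact hu
  refine ⟨U ⊕ E, inferInstance, inferInstance, _, Sum.inl,
    hN.inj hK (AInc F v) hAinv ?_, inl_emb, ?_, ?_⟩
  · intro f hf
    refine hyp_inj F hr hnt f ?_
    intro o
    rw [← hf (v (Sum.inr o))]
    refine finsum_eq_of_bijective (fun u : {u : U // u ∈ o.O} => ⟨u.1, (hAo _ _).2 u.2⟩)
      ⟨?_, ?_⟩ (fun u => rfl)
    · intro u u' h
      exact Subtype.ext (Subtype.mk.inj h)
    · rintro ⟨u, hu⟩
      exact ⟨⟨u, (hAo _ _).1 hu⟩, rfl⟩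
  · refine hD.extend ?_
    intro σ1 σ2 _ hA _ ho2 hfix
    have h1 : ∀ u, σ1 u = u := fun u => Sum.inl_injective (hfix u)
    refine ⟨h1, ?_⟩
    rintro (b | o)
    · obtain ⟨u, hu⟩ := F.surj b
      obtain ⟨g, hg⟩ := ho2 (v (Sum.inl b))
      have h2 : g • v (Sum.inl b) = v (Sum.inl (g • b)) := (hv.map g (Sum.inl b)).symm
      have h3 := (hA u (v (Sum.inl b))).2 ((hAb _ _).2 hu.symm)
      rw [h1, hg, h2, hAb] at h3
      rw [hg, h2, h3, hu]
    · obtain ⟨g, hg⟩ := ho2 (v (Sum.inr o))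
      have h2 : g • v (Sum.inr o) = v (Sum.inr (g • o)) := (hv.map g (Sum.inr o)).symm
      have h3 : ∀ u, u ∈ (g • o).O ↔ u ∈ o.O := by
        intro u
        have := hA u (v (Sum.inr o))
        rw [h1, hg, h2, hAo, hAo] at this
        exact this
      rw [hg, h2, Hyp.eq_of_O (Set.ext h3)]
  · rw [Nat.card_sum]
    push_cast
    linarith

end Pool.Agent.Helper903_VG
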