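import Mathlib

set_option autoImplicit false

namespace Pool.Agent.Helper903_VG

namespace Hyper

variable {T : Type} [CommGroup T] [Finite T] {r : ℕ}

lemma ker_index (hr : r.Prime) (hT : ∀ t : T, t ^ r = 1) (χ : T →* ℂˣ) (hχ : χ ≠ 1) :
    χ.ker.index = r := by
  have : NeZero r := ⟨hr.ne_zero⟩
  rw [Subgroup.index_ker]
  have h1 : χ.range ≤ rootsOfUnity r ℂ := by
    rintro _ ⟨t, rfl⟩
    rw [mem_rootsOfUnity, ← map_pow, hT, map_one]
  have h2 : Nat.card χ.range ∣ r := by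
    have := Subgroup.card_dvd_of_le h1
    rwa [Complex.card_rootsOfUnity] at this
  rcases (Nat.dvd_prime hr).mp h2 with h | h
  · exfalso
    apply hχ
    have h3 := Subgroup.eq_bot_of_card_eq _ h
    rwa [MonoidHom.range_eq_bot_iff] at h3
  · exact h

lemma ker_eq (hr : r.Prime) (hT : ∀ t : T, t ^ r = 1) (χ : T →* ℂˣ) (hχ : χ ≠ 1)
    (S : Subgroup T) (hS : S.index = r) (h : S ≤ χ.ker) : χ.ker = S := by
  have h1 := ker_index hr hT χ hχ
  have h2 := χ.ker.card_mul_index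
  have h3 := S.card_mul_index
  rw [h1] at h2
  rw [hS, ← h2] at h3
  have h4 : Nat.card S = Nat.card χ.ker := Nat.eq_of_mul_eq_mul_right hr.pos h3
  exact (Subgroup.eq_of_le_of_card_ge h h4.ge).symm

lemma exists_char (hr : r.Prime) (hT : ∀ t : T, t ^ r = 1) (S : Subgroup T) (hS : S.index = r) :
    ∃ χ : T →* ℂˣ, χ ≠ 1 ∧ χ.ker = S := by
  have hne : S ≠ ⊤ := by
    rintro rfl
    rw [Subgroup.index_top] at hS
    exact hr.one_lt.ne hS
  obtain ⟨t, ht⟩ : ∃ t : T, t ∉ S := by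
    by_contra hcon
    push Not at hcon
    exact hne (eq_top_iff.mpr fun t _ => hcon t)
  have h1 : (QuotientGroup.mk t : T ⧸ S) ≠ 1 := by
    rwa [Ne, QuotientGroup.eq_one_iff]
  obtain ⟨φ, hφ⟩ := CommGroup.exists_apply_ne_one_of_hasEnoughRootsOfUnity (T ⧸ S) ℂ h1
  refine ⟨φ.comp (QuotientGroup.mk' S), ?_, ?_⟩
  · intro h
    exact hφ (DFunLike.congr_fun h t)
  · refine ker_eq hr hT _ ?_ S hS ?_
    · intro h
      exact hφ (DFunLike.congr_fun h t)
    · intro s hs
      rw [MonoidHom.mem_ker, MonoidHom.comp_apply, QuotientGroup.mk'_apply,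
        (QuotientGroup.eq_one_iff s).mpr hs, map_one]

lemma sum_zero (f : T → ℂ) [Fintype T] (S : Subgroup T)
    (hf : ∀ t : T, ∑ᶠ s : S, f (t * (s : T)) = 0) (χ : T →* ℂˣ) (h : S ≤ χ.ker) :
    ∑ t, f t * (χ t : ℂ) = 0 := by
  classical
  have : Fintype S := Fintype.ofFinite S
  have h1 : ∀ s : S, ∑ t, f (t * s) * (χ t : ℂ) = ∑ t, f t * (χ t : ℂ) := by
    intro s
    rw [← Equiv.sum_comp (Equiv.mulRight (s : T)) (fun t => f t * (χ t : ℂ))]
    refine Finset.sum_congr rfl fun t _ => ?_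
    rw [Equiv.coe_mulRight, map_mul, MonoidHom.mem_ker.mp (h s.2), mul_one]
  have h2 : ∑ s : S, ∑ t, f (t * s) * (χ t : ℂ) = (Fintype.card S : ℂ) * ∑ t, f t * (χ t : ℂ) := by
    rw [Finset.sum_congr rfl fun s _ => h1 s, Finset.sum_const, Finset.card_univ, nsmul_eq_mul]
  rw [Finset.sum_comm] at h2
  have h3 : ∑ t, ∑ s : S, f (t * s) * (χ t : ℂ) = 0 := by
    refine Finset.sum_eq_zero fun t _ => ?_
    have := hf t
    rw [finsum_eq_sum_of_fintype] at this
    rw [← Finset.sum_mul, this, zero_mul]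
  rw [h3] at h2
  have h4 : (Fintype.card S : ℂ) ≠ 0 := by
    exact_mod_cast Fintype.card_ne_zero
  rcases mul_eq_zero.mp h2.symm with h | h
  · exact absurd h h4
  · exact h

end Hyper

open Hyper

theorem hyper_inj {T : Type} [CommGroup T] [Finite T] [Nontrivial T] (r : ℕ) (hr : r.Prime)
    (hT : ∀ t : T, t ^ r = 1) (f : T → ℂ)
    (hf : ∀ S : Subgroup T, S.index = r → ∀ t : T, ∑ᶠ s : S, f (t * (s : T)) = 0) :
    ∀ t, f t = 0 := by
  classical
  have : Fintype T := Fintype.ofFinite T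
  have : Finite (T →* ℂˣ) := by
    obtain ⟨e⟩ := CommGroup.monoidHom_mulEquiv_of_hasEnoughRootsOfUnity T ℂ
    exact Finite.of_equiv T e.symm.toEquiv
  have : Fintype (T →* ℂˣ) := Fintype.ofFinite _
  have h0 : ∀ χ : T →* ℂˣ, ∑ t, f t * (χ t : ℂ) = 0 := by
    intro χ
    by_cases hχ : χ = 1
    · obtain ⟨t, ht⟩ := exists_ne (1 : T)
      obtain ⟨φ, hφ⟩ := CommGroup.exists_apply_ne_one_of_hasEnoughRootsOfUnity T ℂ ht
      have hφ1 : φ ≠ 1 := by
        rintro rfl
        exact hφ rfl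
      refine sum_zero f φ.ker (hf _ (ker_index hr hT φ hφ1)) χ ?_
      rw [hχ]
      intro s _
      rfl
    · exact sum_zero f χ.ker (hf _ (ker_index hr hT χ hχ)) χ le_rfl
  have h1 : ∀ t : T, t ≠ 1 → ∑ χ : T →* ℂˣ, (χ t : ℂ) = 0 := by
    intro t ht
    obtain ⟨φ, hφ⟩ := CommGroup.exists_apply_ne_one_of_hasEnoughRootsOfUnity T ℂ ht
    have h2 : ∑ χ : T →* ℂˣ, (χ t : ℂ) = (φ t : ℂ) * ∑ χ : T →* ℂˣ, (χ t : ℂ) := by
      conv_lhs => rw [← Equiv.sum_comp (Equiv.mulLeft φ)]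
      rw [Finset.mul_sum]
      refine Finset.sum_congr rfl fun χ _ => ?_
      simp
    have h3 : ((φ t : ℂ) - 1) * ∑ χ : T →* ℂˣ, (χ t : ℂ) = 0 := by
      rw [sub_mul, one_mul, ← h2, sub_self]
    rcases mul_eq_zero.mp h3 with h | h
    · exfalso
      apply hφ
      ext
      exact sub_eq_zero.mp h
    · exact h
  intro t₀
  have h2 : ∑ χ : T →* ℂˣ, (χ t₀⁻¹ : ℂ) * ∑ t, f t * (χ t : ℂ) = 0 := by
    refine Finset.sum_eq_zero fun χ _ => ?_
    rw [h0, mul_zero]
  have h3 : ∑ χ : T →* ℂˣ, (χ t₀⁻¹ : ℂ) * ∑ t, f t * (χ t : ℂ) =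
      ∑ t, f t * ∑ χ : T →* ℂˣ, (χ (t * t₀⁻¹) : ℂ) := by
    simp_rw [Finset.mul_sum]
    rw [Finset.sum_comm]
    refine Finset.sum_congr rfl fun t _ => Finset.sum_congr rfl fun χ _ => ?_
    rw [map_mul, Units.val_mul]
    ring
  rw [h3, Finset.sum_eq_single t₀] at h2
  · rw [mul_inv_cancel] at h2
    simp only [map_one, Units.val_one, Finset.sum_const, Finset.card_univ, nsmul_eq_mul,
      mul_one] at h2
    rcases mul_eq_zero.mp h2 with h | h
    · exact h
    · exfalso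
      have : (Fintype.card (T →* ℂˣ) : ℂ) ≠ 0 := by exact_mod_cast Fintype.card_ne_zero
      exact this h
  · intro t _ ht
    rw [h1 _ (by rwa [Ne, mul_inv_eq_one]), mul_zero]
  · intro h
    exact absurd (Finset.mem_univ _) h

theorem hyper_card {T : Type} [CommGroup T] [Finite T] (r : ℕ) (hr : r.Prime)
    (hT : ∀ t : T, t ^ r = 1) :
    (r - 1) * Nat.card {S : Subgroup T // S.index = r} + 1 ≤ Nat.card T := by
  classical
  obtain ⟨e⟩ := CommGroup.monoidHom_mulEquiv_of_hasEnoughRootsOfUnity T ℂ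
  have : Finite (T →* ℂˣ) := Finite.of_equiv T e.symm.toEquiv
  rw [← Nat.card_congr e.toEquiv]
  choose ch hch1 hch2 using fun S : {S : Subgroup T // S.index = r} =>
    exists_char hr hT S.1 S.2
  have hpow : ∀ χ : T →* ℂˣ, χ ^ r = 1 := by
    intro χ
    ext t
    rw [MonoidHom.pow_apply, ← map_pow, hT, map_one, MonoidHom.one_apply]
  have : Fact r.Prime := ⟨hr⟩
  have hord : ∀ χ : T →* ℂˣ, χ ≠ 1 → orderOf χ = r := fun χ h => orderOf_eq_prime (hpow χ) h
  have hne : ∀ (χ : T →* ℂˣ), χ ≠ 1 → ∀ k : Fin (r - 1), χ ^ ((k : ℕ) + 1) ≠ 1 := by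
    intro χ hχ k hk
    have h1 : orderOf χ ∣ (k : ℕ) + 1 := orderOf_dvd_of_pow_eq_one (x := χ) (n := (k : ℕ) + 1) hk
    rw [hord χ hχ] at h1
    have h2 := Nat.le_of_dvd (Nat.succ_pos _) h1
    have := k.2
    omega
  let F : Option (Fin (r - 1) × {S : Subgroup T // S.index = r}) → (T →* ℂˣ) := fun o =>
    match o with
    | none => 1
    | some x => (ch x.2) ^ ((x.1 : ℕ) + 1)
  have hker : ∀ (S : {S : Subgroup T // S.index = r}) (k : Fin (r - 1)),
      ((ch S) ^ ((k : ℕ) + 1)).ker = S.1 := by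
    intro S k
    refine ker_eq hr hT _ (hne _ (hch1 S) k) S.1 S.2 ?_
    intro s hs
    rw [← hch2 S, MonoidHom.mem_ker] at hs
    rw [MonoidHom.mem_ker, MonoidHom.pow_apply, hs, one_pow]
  have hF : Function.Injective F := by
    intro x y hxy
    cases x with
    | none =>
      cases y with
      | none => rfl
      | some y => exact absurd hxy.symm (hne _ (hch1 y.2) y.1)
    | some x =>
      cases y with
      | none => exact absurd hxy (hne _ (hch1 x.2) x.1)
      | some y =>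
        obtain ⟨k, S⟩ := x
        obtain ⟨l, S'⟩ := y
        have h1 : (ch S) ^ ((k : ℕ) + 1) = (ch S') ^ ((l : ℕ) + 1) := hxy
        have h2 : S = S' := by
          apply Subtype.ext
          rw [← hker S k, ← hker S' l, h1]
        subst h2
        have h3 : (k : ℕ) + 1 = (l : ℕ) + 1 := by
          refine pow_injOn_Iio_orderOf (x := ch S) ?_ ?_ h1
          · rw [hord _ (hch1 S)]
            have := k.2
            simp only [Set.mem_Iio]
            omega
          · rw [hord _ (hch1 S)]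
            have := l.2
            simp only [Set.mem_Iio]
            omega
        have h4 : k = l := Fin.ext (by omega)
        rw [h4]
  have h5 := Nat.card_le_card_of_injective F hF
  have : Finite {S : Subgroup T // S.index = r} := inferInstance
  rw [Finite.card_option, Nat.card_prod, Nat.card_eq_fintype_card (α := Fin (r - 1)),
    Fintype.card_fin] at h5
  exact h5

end Pool.Agent.Helper903_VG
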